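import Pool.Agent.Lib_MP_0bab5c_x.XDef

/-! # Boolean block regularity lemma

Blocks `b p` (not necessarily disjoint), a symmetric relation `r` of degree at most `D` between the
blocks (`r p p` allowed), one colouring `chi p` of every block, such that the holed pairs of colour
classes have small total mass. A pair `(X, Y)` is holed if there is an edge between `X` and `Y`,
but none between some `X' ⊆ X` with `|X'| >= s |X|` and `Y' ⊆ Y` with `|Y'| >= t |Y|`.

Proof: the potential `Phi = sum over related (p,q), colours a, c with an edge between the classes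
X, Y, of |X| |Y|` is at most the total mass and does not grow under refinement. Split every
class by the witnesses `X'`, `Y'` of all holed pairs it belongs to (at most `2 D M` sets; enumerate
the related blocks by numbers below `D`, so `M` becomes at most `M 2^(2 D M)`): `Phi` drops by at
least `s t` times the holed mass. If the holed mass is more than `e` times the total mass, repeat;
at most `1 / (s t e)` rounds.
-/

namespace LCX

open Finset
open scoped Classical

/-- colour class -/
noncomputable def bcell {V B : Type} (b : B → Finset V) (chi : B → V → ℕ) (p : B) (a : ℕ) :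
    Finset V := (b p).filter (fun v => chi p v = a)

/-- holed pair -/
def Holed {V : Type} (G : SimpleGraph V) (s t : ℝ) (X Y : Finset V) : Prop :=
  (∃ x ∈ X, ∃ y ∈ Y, G.Adj x y) ∧ ∃ X' ⊆ X, ∃ Y' ⊆ Y, s * X.card ≤ X'.card ∧
    t * Y.card ≤ Y'.card ∧ ∀ x ∈ X', ∀ y ∈ Y', ¬ G.Adj x y

private theorem encode {V τ : Type} (S : Finset τ) (f : V → τ) (hf : ∀ v, f v ∈ S) :
    ∃ g : V → ℕ, (∀ v, g v < S.card) ∧ ∀ v w, g v = g w → f v = f w := by
  refine ⟨fun v => (S.equivFin ⟨f v, hf v⟩ : ℕ), fun v => (S.equivFin ⟨f v, hf v⟩).isLt, ?_⟩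
  intro v w h
  have h1 : S.equivFin ⟨f v, hf v⟩ = S.equivFin ⟨f w, hf w⟩ := Fin.ext h
  have h2 := S.equivFin.injective h1
  exact congrArg Subtype.val h2

private theorem claimA {V B : Type} (b : B → Finset V) (chi : B → V → ℕ) (M : ℕ)
    (hM : ∀ p v, chi p v < M) (p q : B) (R : ℕ → ℕ → Prop) (wL wR : ℕ → ℕ → Finset V)
    (hL : ∀ a c, wL a c ⊆ bcell b chi p a) (hR : ∀ a c, wR a c ⊆ bcell b chi q c) :
    ((((b p ×ˢ b q).filter (fun z => R (chi p z.1) (chi q z.2) ∧
      z.1 ∈ wL (chi p z.1) (chi q z.2) ∧ z.2 ∈ wR (chi p z.1) (chi q z.2))).card : ℕ) : ℝ) =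
    ∑ a ∈ range M, ∑ c ∈ (range M).filter (fun c => R a c),
      ((wL a c).card : ℝ) * ((wR a c).card : ℝ) := by
  rw [Finset.card_eq_sum_card_fiberwise (f := fun z : V × V => (chi p z.1, chi q z.2))
    (t := range M ×ˢ range M) (by
      intro z _
      simp only [Finset.coe_product, Set.mem_prod, Finset.mem_coe, Finset.mem_range]
      exact ⟨hM p z.1, hM q z.2⟩)]
  rw [Finset.sum_product]
  push_cast
  refine Finset.sum_congr rfl (fun a _ => ?_)
  rw [Finset.sum_filter]
  refine Finset.sum_congr rfl (fun c _ => ?_)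
  split_ifs with hac
  · rw [← Nat.cast_mul, ← Finset.card_product]
    congr 2
    ext z
    simp only [Finset.mem_filter, Finset.mem_product, Prod.mk.injEq]
    constructor
    · rintro ⟨⟨_, _, h1, h2⟩, rfl, rfl⟩
      exact ⟨h1, h2⟩
    · rintro ⟨h1, h2⟩
      have h3 := hL a c h1
      have h4 := hR a c h2
      unfold bcell at h3 h4
      rw [Finset.mem_filter] at h3 h4
      obtain ⟨h5, h6⟩ := h3
      obtain ⟨h7, h8⟩ := h4
      refine ⟨⟨⟨h5, h7⟩, ?_, ?_, ?_⟩, h6, h8⟩
      · rw [h6, h8]; exact hac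
      · rw [h6, h8]; exact h1
      · rw [h6, h8]; exact h2
  · rw [Nat.cast_eq_zero, Finset.card_eq_zero, Finset.filter_eq_empty_iff]
    intro z hz hzz
    rw [Finset.mem_filter] at hz
    rw [Prod.mk.injEq] at hzz
    apply hac
    rw [← hzz.1, ← hzz.2]
    exact hz.2.1

/-- pairs of points whose cells have an edge between them -/
private noncomputable def pset {V B : Type} (G : SimpleGraph V) (b : B → Finset V)
    (chi : B → V → ℕ) (p q : B) : Finset (V × V) :=
  (b p ×ˢ b q).filter (fun z => ∃ x ∈ bcell b chi p (chi p z.1),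
    ∃ y ∈ bcell b chi q (chi q z.2), G.Adj x y)

/-- pairs of points whose cells are holed -/
private noncomputable def qset {V B : Type} (G : SimpleGraph V) (s t : ℝ) (b : B → Finset V)
    (chi : B → V → ℕ) (p q : B) : Finset (V × V) :=
  (b p ×ˢ b q).filter (fun z => Holed G s t (bcell b chi p (chi p z.1)) (bcell b chi q (chi q z.2)))

private theorem mem_bcell {V B : Type} {b : B → Finset V} {chi : B → V → ℕ} {p : B} {a : ℕ}
    {v : V} : v ∈ bcell b chi p a ↔ v ∈ b p ∧ chi p v = a := by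
  unfold bcell
  rw [Finset.mem_filter]

private theorem qset_card {V B : Type} (G : SimpleGraph V) (s t : ℝ) (b : B → Finset V)
    (chi : B → V → ℕ) (M : ℕ) (hM : ∀ p v, chi p v < M) (p q : B) :
    (((qset G s t b chi p q).card : ℕ) : ℝ) =
    ∑ a ∈ range M,
      ∑ c ∈ (range M).filter (fun c => Holed G s t (bcell b chi p a) (bcell b chi q c)),
        ((bcell b chi p a).card : ℝ) * ((bcell b chi q c).card : ℝ) := by
  have h := claimA b chi M hM p q
    (fun a c => Holed G s t (bcell b chi p a) (bcell b chi q c))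
    (fun a _ => bcell b chi p a) (fun _ c => bcell b chi q c)
    (fun a c => Finset.Subset.refl _) (fun a c => Finset.Subset.refl _)
  rw [← h]
  congr 2
  unfold qset
  ext z
  simp only [Finset.mem_filter, Finset.mem_product, mem_bcell]
  tauto

private theorem step {V B : Type} [Fintype V] [Fintype B] (s t : ℝ) (hs : 0 < s) (ht : 0 < t)
    (D m : ℕ) (G : SimpleGraph V) (b : B → Finset V) (r : B → B → Prop)
    (hr : ∀ p q, r p q → r q p) (hD : ∀ p, (univ.filter (r p)).card ≤ D)
    (chi : B → V → ℕ) (hm : ∀ p v, chi p v < m) :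
    ∃ chi' : B → V → ℕ, (∀ p v, chi' p v < m * 2 ^ (2 * (D * m))) ∧
      ∀ p q, r p q → ((pset G b chi' p q).card : ℝ) + s * t * ((qset G s t b chi p q).card : ℝ) ≤
        ((pset G b chi p q).card : ℝ) := by
  -- witnesses
  have hw : ∀ p q a c, ∃ L R : Finset V, L ⊆ bcell b chi p a ∧ R ⊆ bcell b chi q c ∧
      (Holed G s t (bcell b chi p a) (bcell b chi q c) →
        s * ((bcell b chi p a).card : ℝ) ≤ L.card ∧ t * ((bcell b chi q c).card : ℝ) ≤ R.card ∧
        ∀ x ∈ L, ∀ y ∈ R, ¬ G.Adj x y) := by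
    intro p q a c
    by_cases hH : Holed G s t (bcell b chi p a) (bcell b chi q c)
    · obtain ⟨_, X', hX', Y', hY', h1, h2, h3⟩ := hH
      exact ⟨X', Y', hX', hY', fun _ => ⟨h1, h2, h3⟩⟩
    · exact ⟨∅, ∅, by simp, by simp, fun h => absurd h hH⟩
  choose wL wR hwL hwR hwH using hw
  -- the code
  let S : B → Finset (ℕ × Finset (Bool × B × ℕ)) := fun p =>
    (range m) ×ˢ ((univ : Finset Bool) ×ˢ (univ.filter (r p)) ×ˢ (range m)).powerset
  let f : B → V → ℕ × Finset (Bool × B × ℕ) := fun p v =>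
    (chi p v, ((univ : Finset Bool) ×ˢ (univ.filter (r p)) ×ˢ (range m)).filter (fun u =>
      (u.1 = false ∧ v ∈ wL p u.2.1 (chi p v) u.2.2) ∨
      (u.1 = true ∧ v ∈ wR u.2.1 p u.2.2 (chi p v))))
  have hf : ∀ p v, f p v ∈ S p := by
    intro p v
    refine Finset.mem_product.2 ⟨Finset.mem_range.2 (hm p v), ?_⟩
    exact Finset.mem_powerset.2 (Finset.filter_subset _ _)
  have hS : ∀ p, (S p).card ≤ m * 2 ^ (2 * (D * m)) := by
    intro p
    show ((range m) ×ˢ ((univ : Finset Bool) ×ˢ (univ.filter (r p)) ×ˢ (range m)).powerset).card ≤ _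
    rw [Finset.card_product, Finset.card_powerset, Finset.card_product, Finset.card_product,
      Finset.card_range, Finset.card_univ, Fintype.card_bool]
    refine Nat.mul_le_mul_left _ (Nat.pow_le_pow_right (by norm_num) ?_)
    exact Nat.mul_le_mul_left _ (Nat.mul_le_mul_right _ (hD p))
  choose g hg1 hg2 using fun p => encode (S p) (f p) (hf p)
  refine ⟨g, fun p v => lt_of_lt_of_le (hg1 p v) (hS p), ?_⟩
  have hchi : ∀ p v w, g p v = g p w → chi p v = chi p w := fun p v w h =>
    congrArg Prod.fst (hg2 p v w h)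
  have hleft : ∀ p q, r p q → ∀ v w, g p v = g p w → ∀ c, c < m →
      v ∈ wL p q (chi p v) c → w ∈ wL p q (chi p w) c := by
    intro p q hpq v w h c hc hv
    have h2 := congrArg Prod.snd (hg2 p v w h)
    have h3 : ((false, q, c) : Bool × B × ℕ) ∈ (f p v).2 := by
      refine Finset.mem_filter.2 ⟨?_, Or.inl ⟨rfl, hv⟩⟩
      simp only [Finset.mem_product, Finset.mem_univ, Finset.mem_filter, Finset.mem_range, true_and]
      exact ⟨hpq, hc⟩
    rw [h2] at h3
    have h4 := (Finset.mem_filter.1 h3).2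
    rcases h4 with h4 | h4
    · exact h4.2
    · exact absurd h4.1 (by simp)
  have hright : ∀ p q, r p q → ∀ v w, g p v = g p w → ∀ c, c < m →
      v ∈ wR q p c (chi p v) → w ∈ wR q p c (chi p w) := by
    intro p q hpq v w h c hc hv
    have h2 := congrArg Prod.snd (hg2 p v w h)
    have h3 : ((true, q, c) : Bool × B × ℕ) ∈ (f p v).2 := by
      refine Finset.mem_filter.2 ⟨?_, Or.inr ⟨rfl, hv⟩⟩
      simp only [Finset.mem_product, Finset.mem_univ, Finset.mem_filter, Finset.mem_range, true_and]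
      exact ⟨hpq, hc⟩
    rw [h2] at h3
    have h4 := (Finset.mem_filter.1 h3).2
    rcases h4 with h4 | h4
    · exact absurd h4.1 (by simp)
    · exact h4.2
  intro p q hpq
  set Z : Finset (V × V) := (b p ×ˢ b q).filter (fun z =>
    Holed G s t (bcell b chi p (chi p z.1)) (bcell b chi q (chi q z.2)) ∧
      z.1 ∈ wL p q (chi p z.1) (chi q z.2) ∧ z.2 ∈ wR p q (chi p z.1) (chi q z.2)) with hZ
  have hsub : pset G b g p q ⊆ pset G b chi p q := by
    intro z hz
    unfold pset at hz ⊢
    rw [Finset.mem_filter] at hz ⊢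
    obtain ⟨h1, x, hx, y, hy, hxy⟩ := hz
    rw [mem_bcell] at hx hy
    exact ⟨h1, x, mem_bcell.2 ⟨hx.1, hchi p _ _ hx.2⟩, y, mem_bcell.2 ⟨hy.1, hchi q _ _ hy.2⟩, hxy⟩
  have hZsub : Z ⊆ pset G b chi p q := by
    intro z hz
    rw [hZ, Finset.mem_filter] at hz
    unfold pset
    rw [Finset.mem_filter]
    exact ⟨hz.1, hz.2.1.1⟩
  have hdisj : Disjoint (pset G b g p q) Z := by
    rw [Finset.disjoint_left]
    intro z hz hzZ
    unfold pset at hz
    rw [Finset.mem_filter] at hz
    rw [hZ, Finset.mem_filter] at hzZ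
    obtain ⟨_, x, hx, y, hy, hxy⟩ := hz
    obtain ⟨_, hH, h1, h2⟩ := hzZ
    rw [mem_bcell] at hx hy
    have h3 : x ∈ wL p q (chi p x) (chi q z.2) :=
      hleft p q hpq z.1 x hx.2.symm (chi q z.2) (hm q z.2) h1
    have h4 : y ∈ wR p q (chi p z.1) (chi q y) :=
      hright q p (hr p q hpq) z.2 y hy.2.symm (chi p z.1) (hm p z.1) h2
    rw [hchi p x z.1 hx.2] at h3
    rw [hchi q y z.2 hy.2] at h4
    exact (hwH p q _ _ hH).2.2 x h3 y h4 hxy
  have hcard : (pset G b g p q).card + Z.card ≤ (pset G b chi p q).card := by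
    rw [← Finset.card_union_of_disjoint hdisj]
    exact Finset.card_le_card (Finset.union_subset hsub hZsub)
  have hcard' : ((pset G b g p q).card : ℝ) + (Z.card : ℝ) ≤ ((pset G b chi p q).card : ℝ) := by
    exact_mod_cast hcard
  have hZc : s * t * ((qset G s t b chi p q).card : ℝ) ≤ (Z.card : ℝ) := by
    rw [qset_card G s t b chi m hm p q]
    have hA := claimA b chi m hm p q
      (fun a c => Holed G s t (bcell b chi p a) (bcell b chi q c))
      (wL p q) (wR p q) (fun a c => hwL p q a c) (fun a c => hwR p q a c)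
    rw [hZ, hA, Finset.mul_sum]
    refine Finset.sum_le_sum (fun a _ => ?_)
    rw [Finset.mul_sum]
    refine Finset.sum_le_sum (fun c hc => ?_)
    have hH := (Finset.mem_filter.1 hc).2
    obtain ⟨h1, h2, _⟩ := hwH p q a c hH
    have h3 : s * ((bcell b chi p a).card : ℝ) * (t * ((bcell b chi q c).card : ℝ)) ≤
        ((wL p q a c).card : ℝ) * ((wR p q a c).card : ℝ) :=
      mul_le_mul h1 h2 (mul_nonneg ht.le (Nat.cast_nonneg _)) (Nat.cast_nonneg _)
    calc s * t * (((bcell b chi p a).card : ℝ) * ((bcell b chi q c).card : ℝ))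
        = s * ((bcell b chi p a).card : ℝ) * (t * ((bcell b chi q c).card : ℝ)) := by ring
      _ ≤ _ := h3
  linarith

private theorem iter (s t e : ℝ) (hs : 0 < s) (ht : 0 < t) (D : ℕ) :
    ∀ K : ℕ, ∃ M : ℕ, 0 < M ∧
    ∀ (V B : Type) [Fintype V] [Fintype B] (G : SimpleGraph V) (b : B → Finset V)
      (r : B → B → Prop), (∀ p q, r p q → r q p) → (∀ p, (univ.filter (r p)).card ≤ D) →
      ∃ chi : B → V → ℕ, (∀ p v, chi p v < M) ∧
        ((∑ p, ∑ q ∈ univ.filter (r p), ((qset G s t b chi p q).card : ℝ) ≤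
          e * ∑ p, ∑ q ∈ univ.filter (r p), ((b p).card : ℝ) * ((b q).card : ℝ)) ∨
        (∑ p, ∑ q ∈ univ.filter (r p), ((pset G b chi p q).card : ℝ) +
          K * (s * t * (e * ∑ p, ∑ q ∈ univ.filter (r p), ((b p).card : ℝ) * ((b q).card : ℝ))) ≤
          ∑ p, ∑ q ∈ univ.filter (r p), ((b p).card : ℝ) * ((b q).card : ℝ)))
  | 0 => by
    refine ⟨1, one_pos, ?_⟩
    intro V B _ _ G b r hr hD
    refine ⟨fun _ _ => 0, fun _ _ => one_pos, Or.inr ?_⟩
    rw [Nat.cast_zero, zero_mul, add_zero]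
    refine Finset.sum_le_sum (fun p _ => Finset.sum_le_sum (fun q _ => ?_))
    rw [← Nat.cast_mul, ← Finset.card_product]
    exact_mod_cast Finset.card_le_card (Finset.filter_subset _ _)
  | K + 1 => by
    obtain ⟨m, hm0, hm⟩ := iter s t e hs ht D K
    refine ⟨m * 2 ^ (2 * (D * m)), by positivity, ?_⟩
    intro V B _ _ G b r hr hD
    obtain ⟨chi, hchi, hor⟩ := hm V B G b r hr hD
    by_cases hH : ∑ p, ∑ q ∈ univ.filter (r p), ((qset G s t b chi p q).card : ℝ) ≤
          e * ∑ p, ∑ q ∈ univ.filter (r p), ((b p).card : ℝ) * ((b q).card : ℝ)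
    · refine ⟨chi, fun p v => lt_of_lt_of_le (hchi p v) ?_, Or.inl hH⟩
      exact Nat.le_mul_of_pos_right _ (by positivity)
    · have hP := hor.resolve_left hH
      obtain ⟨chi', h1, h2⟩ := step s t hs ht D m G b r hr hD chi hchi
      refine ⟨chi', h1, Or.inr ?_⟩
      have h3 : ∑ p, ∑ q ∈ univ.filter (r p), ((pset G b chi' p q).card : ℝ) +
          s * t * ∑ p, ∑ q ∈ univ.filter (r p), ((qset G s t b chi p q).card : ℝ) ≤
          ∑ p, ∑ q ∈ univ.filter (r p), ((pset G b chi p q).card : ℝ) := by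
        rw [Finset.mul_sum, ← Finset.sum_add_distrib]
        refine Finset.sum_le_sum (fun p _ => ?_)
        rw [Finset.mul_sum, ← Finset.sum_add_distrib]
        exact Finset.sum_le_sum (fun q hq => h2 p q (Finset.mem_filter.1 hq).2)
      rw [not_le] at hH
      have h4 := mul_le_mul_of_nonneg_left hH.le (mul_pos hs ht).le
      push_cast
      linarith

theorem block_bool (s t e : ℝ) (hs : 0 < s) (ht : 0 < t) (he : 0 < e) (D : ℕ) :
    ∃ M : ℕ, 0 < M ∧
    ∀ (V B : Type) [Fintype V] [Fintype B] (G : SimpleGraph V) (b : B → Finset V)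
      (r : B → B → Prop), (∀ p q, r p q → r q p) → (∀ p, (univ.filter (r p)).card ≤ D) →
      ∃ chi : B → V → ℕ, (∀ p v, chi p v < M) ∧
        ∑ p, ∑ q ∈ univ.filter (r p), ∑ a ∈ range M,
          ∑ c ∈ (range M).filter (fun c => Holed G s t (bcell b chi p a) (bcell b chi q c)),
            ((bcell b chi p a).card : ℝ) * ((bcell b chi q c).card : ℝ) ≤
          e * ∑ p, ∑ q ∈ univ.filter (r p), ((b p).card : ℝ) * ((b q).card : ℝ) := by
  obtain ⟨K, hK⟩ := exists_nat_gt (1 / (s * t * e))
  have hste : 0 < s * t * e := by positivity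
  rw [div_lt_iff₀ hste] at hK
  obtain ⟨M, hM0, hM⟩ := iter s t e hs ht D K
  refine ⟨M, hM0, ?_⟩
  intro V B _ _ G b r hr hD
  obtain ⟨chi, hchi, hor⟩ := hM V B G b r hr hD
  refine ⟨chi, hchi, ?_⟩
  have hconv : ∑ p, ∑ q ∈ univ.filter (r p), ∑ a ∈ range M,
          ∑ c ∈ (range M).filter (fun c => Holed G s t (bcell b chi p a) (bcell b chi q c)),
            ((bcell b chi p a).card : ℝ) * ((bcell b chi q c).card : ℝ) =
      ∑ p, ∑ q ∈ univ.filter (r p), ((qset G s t b chi p q).card : ℝ) :=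
    Finset.sum_congr rfl (fun p _ => Finset.sum_congr rfl (fun q _ =>
      (qset_card G s t b chi M hchi p q).symm))
  rw [hconv]
  rcases hor with h1 | h1
  · exact h1
  · have hT : 0 ≤ ∑ p, ∑ q ∈ univ.filter (r p), ((b p).card : ℝ) * ((b q).card : ℝ) :=
      Finset.sum_nonneg (fun p _ => Finset.sum_nonneg (fun q _ => by positivity))
    have hP : 0 ≤ ∑ p, ∑ q ∈ univ.filter (r p), ((pset G b chi p q).card : ℝ) :=
      Finset.sum_nonneg (fun p _ => Finset.sum_nonneg (fun q _ => by positivity))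
    have hQ : ∑ p, ∑ q ∈ univ.filter (r p), ((qset G s t b chi p q).card : ℝ) ≤
        ∑ p, ∑ q ∈ univ.filter (r p), ((b p).card : ℝ) * ((b q).card : ℝ) := by
      refine Finset.sum_le_sum (fun p _ => Finset.sum_le_sum (fun q _ => ?_))
      rw [← Nat.cast_mul, ← Finset.card_product]
      exact_mod_cast Finset.card_le_card (Finset.filter_subset _ _)
    set T := ∑ p, ∑ q ∈ univ.filter (r p), ((b p).card : ℝ) * ((b q).card : ℝ) with hTdef
    have h2 : (K * (s * t * e) - 1) * T ≤ 0 := by
      have : (K : ℝ) * (s * t * (e * T)) = K * (s * t * e) * T := by ring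
      rw [this] at h1
      linarith
    have h3 : T ≤ 0 := by
      by_contra hcon
      rw [not_le] at hcon
      have : 0 < (K * (s * t * e) - 1) * T := mul_pos (by linarith) hcon
      linarith
    have h4 : T = 0 := le_antisymm h3 hT
    rw [h4] at hQ ⊢
    linarith

end LCX
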