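import Pool.Agent.Lib_MP_0bab5c_x.XRed

/-! # Separated classes

`cn i`: closed neighbourhood of the home `i`. If homes of different classes have almost disjoint
closed neighbourhoods, the boundaries of the classes of a set of cells are almost disjoint.
A cell `l` in `bdJ (Z a)` that lies in `Q` belongs to another class `Z c`; a cell or hub counted
for two classes `a`, `c` is, up to the proportion `2 er`, contained in `cn i ∩ cn i'` for homes
`i`, `i'` of `a`, `c` (`full` with `X = cell j`, `s <= 1`; `hnear`).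
-/

namespace LCX

open Finset
open scoped Classical

variable {V J U : Type} [Fintype V] [Fintype J] [Fintype U]

/-- disjoint sets: the sum of the sizes of the traces -/
private theorem sum_card_inter_le {ι : Type} (S : Finset ι) (F : ι → Finset V) (Y : Finset V)
    (hd : ∀ i ∈ S, ∀ j ∈ S, i ≠ j → Disjoint (F i) (F j)) :
    ∑ i ∈ S, ((F i ∩ Y).card : ℝ) ≤ (Y.card : ℝ) := by
  have h1 : (S.biUnion (fun i => F i ∩ Y)).card = ∑ i ∈ S, (F i ∩ Y).card := by
    refine Finset.card_biUnion ?_
    intro i hi j hj hij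
    exact (hd i hi j hj hij).mono Finset.inter_subset_left Finset.inter_subset_left
  have h2 : S.biUnion (fun i => F i ∩ Y) ⊆ Y := by
    intro v hv
    obtain ⟨i, -, hv⟩ := Finset.mem_biUnion.1 hv
    exact (Finset.mem_inter.1 hv).2
  have h3 := Finset.card_le_card h2
  rw [h1] at h3
  exact_mod_cast h3

/-- almost all of a cell adjacent to a cell is in the closed neighbourhood of the home of the
latter -/
private theorem adj_cn {G P : SimpleGraph V} (hGP : G ≤ P) {k er s : ℝ} {m : ℕ}
    {E : Fin m → Finset V} {cell : J → Finset V} {hm : J → Fin m} {phi : U → V}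
    {adj : J → J → Prop} {hadj : U → J → Prop} (h : Red G k er s E cell hm phi adj hadj)
    (hs1 : s ≤ 1) {j l : J} (hjl : adj j l) :
    (((cell l) \ (cn P E (hm j))).card : ℝ) ≤ er * wt cell l := by
  have hfull := h.full j l hjl (cell j) (Finset.Subset.refl _) (by
    unfold wt
    have : (0 : ℝ) ≤ ((cell j).card : ℝ) := Nat.cast_nonneg _
    nlinarith)
  refine le_trans ?_ hfull
  have : (cell l) \ (cn P E (hm j)) ⊆
      (cell l).filter (fun y => ∀ x ∈ cell j, ¬ G.Adj x y) := by
    intro y hy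
    rw [Finset.mem_sdiff] at hy
    refine Finset.mem_filter.2 ⟨hy.1, ?_⟩
    intro x hx hxy
    refine hy.2 ?_
    unfold cn bd
    rw [Finset.mem_union]
    by_cases hyE : y ∈ E (hm j)
    · exact Or.inl hyE
    · right
      exact Finset.mem_filter.2 ⟨Finset.mem_univ _, hyE, x, h.sub j hx, hGP hxy⟩
  exact_mod_cast Finset.card_le_card this

private theorem card_inter_two (A X Y : Finset V) {a b : ℝ} (hX : ((A \ X).card : ℝ) ≤ a)
    (hY : ((A \ Y).card : ℝ) ≤ b) : (A.card : ℝ) - a - b ≤ ((A ∩ (X ∩ Y)).card : ℝ) := by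
  have h1 : A ⊆ (A ∩ (X ∩ Y)) ∪ ((A \ X) ∪ (A \ Y)) := by
    intro v hv
    simp only [Finset.mem_union, Finset.mem_inter, Finset.mem_sdiff]
    tauto
  have h2 := (Finset.card_le_card h1).trans (Finset.card_union_le _ _)
  have h3 := Finset.card_union_le (A \ X) (A \ Y)
  have h4 : (A.card : ℝ) ≤ ((A ∩ (X ∩ Y)).card : ℝ) + (((A \ X).card : ℝ) + ((A \ Y).card : ℝ)) := by
    exact_mod_cast h2.trans (Nat.add_le_add_left h3 _)
  linarith

/-- summing over the pairs `(i0, f a)` -/
private theorem sum_pairs_ge {m : ℕ} (PP : Finset (Fin m × Fin m)) (g : Fin m × Fin m → ℝ)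
    (hg : ∀ x, 0 ≤ g x) (N : Finset (Fin m)) (f : Fin m → Fin m) (i0 : Fin m) (c : ℝ)
    (hinj : ∀ a ∈ N, ∀ b ∈ N, f a = f b → a = b) (hmem : ∀ a ∈ N, (i0, f a) ∈ PP)
    (hc : ∀ a ∈ N, c ≤ g (i0, f a)) : (N.card : ℝ) * c ≤ ∑ x ∈ PP, g x := by
  have h1 : (N.card : ℝ) * c ≤ ∑ a ∈ N, g (i0, f a) := by
    have := Finset.card_nsmul_le_sum N (fun a => g (i0, f a)) c hc
    rwa [nsmul_eq_mul] at this
  have h2 : ∑ a ∈ N, g (i0, f a) = ∑ x ∈ N.image (fun a => (i0, f a)), g x := by
    rw [Finset.sum_image]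
    intro a ha b hb hab
    exact hinj a ha b hb (Prod.ext_iff.1 hab).2
  rw [h2] at h1
  refine h1.trans (Finset.sum_le_sum_of_subset_of_nonneg ?_ (fun x _ _ => hg x))
  intro x hx
  obtain ⟨a, ha, rfl⟩ := Finset.mem_image.1 hx
  exact hmem a ha

theorem separation {G P : SimpleGraph V} (hGP : G ≤ P) {k er s : ℝ} {m : ℕ} {E : Fin m → Finset V}
    {cell : J → Finset V} {hm : J → Fin m} {phi : U → V} {adj : J → J → Prop}
    {hadj : U → J → Prop} (h : Red G k er s E cell hm phi adj hadj)
    (hnear : ∀ u j, hadj u j → phi u ∈ cn P E (hm j)) (hs : 0 < s) (hs1 : s ≤ 1)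
    (her : 0 ≤ er) (her1 : er ≤ 1 / 4) (Q : Finset J) (cl : Fin m → Fin m) (dd : ℝ)
    (hdd : 0 ≤ dd) (hcl : ∀ i ∈ Q.image hm, ∀ i' ∈ Q.image hm, cl i ≠ cl i' →
      (((cn P E i) ∩ (cn P E i')).card : ℝ) ≤ dd) :
    ∑ a ∈ (Q.image hm).image cl,
      beta (wt cell) adj hadj (Q.filter (fun j => cl (hm j) = a)) ≤
    beta (wt cell) adj hadj Q + 3 * dd * ((Q.image hm).card : ℝ) ^ 2 := by
  set H : Finset (Fin m) := Q.image hm with hH
  set CL : Finset (Fin m) := H.image cl with hCL
  set PP : Finset (Fin m × Fin m) := (H ×ˢ H).filter (fun x => cl x.1 ≠ cl x.2) with hPP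
  let Y : Fin m × Fin m → Finset V := fun x => cn P E x.1 ∩ cn P E x.2
  have hwt : ∀ j, 0 ≤ wt cell j := fun j => Nat.cast_nonneg _
  -- the number of classes
  let NJ : J → Finset (Fin m) := fun l =>
    CL.filter (fun a => l ∈ bdJ adj (Q.filter (fun j => cl (hm j) = a)))
  let NU : U → Finset (Fin m) := fun u =>
    CL.filter (fun a => u ∈ bdU hadj (Q.filter (fun j => cl (hm j) = a)))
  -- cells
  have hJ : ∀ l : J, wt cell l * ((NJ l).card : ℝ) ≤
      (if l ∈ bdJ adj Q then wt cell l else 0) + 2 * ∑ x ∈ PP, ((cell l ∩ Y x).card : ℝ) := by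
    intro l
    have hsum0 : 0 ≤ ∑ x ∈ PP, ((cell l ∩ Y x).card : ℝ) :=
      Finset.sum_nonneg (fun x _ => Nat.cast_nonneg _)
    have hex : ∀ a ∈ NJ l, ∃ j ∈ Q, cl (hm j) = a ∧ adj j l := by
      intro a ha
      have h1 := (Finset.mem_filter.1 ha).2
      obtain ⟨-, -, j, hj, hjl⟩ := Finset.mem_filter.1 h1
      rw [Finset.mem_filter] at hj
      exact ⟨j, hj.1, hj.2, hjl⟩
    rcases (NJ l).eq_empty_or_nonempty with hemp | ⟨a0, ha0⟩
    · rw [hemp, Finset.card_empty, Nat.cast_zero, mul_zero]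
      have : 0 ≤ (if l ∈ bdJ adj Q then wt cell l else 0) := by
        split_ifs
        · exact hwt l
        · exact le_refl _
      linarith
    · obtain ⟨j0, -, -, -⟩ := hex a0 ha0
      -- choose the cells
      let fj : Fin m → J := fun a => if ha : a ∈ NJ l then (hex a ha).choose else j0
      have hfj : ∀ a ∈ NJ l, fj a ∈ Q ∧ cl (hm (fj a)) = a ∧ adj (fj a) l := by
        intro a ha
        have h1 : fj a = (hex a ha).choose := dif_pos ha
        have h2 := (hex a ha).choose_spec
        rw [← h1] at h2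
        exact h2
      have hinj : ∀ a ∈ NJ l, ∀ b ∈ NJ l, hm (fj a) = hm (fj b) → a = b := by
        intro a ha b hb hab
        rw [← (hfj a ha).2.1, ← (hfj b hb).2.1, hab]
      by_cases hlQ : l ∈ Q
      · -- `l` in `Q`
        have hnb : l ∉ bdJ adj Q := by
          intro hl
          exact (Finset.mem_filter.1 hl).2.1 hlQ
        rw [if_neg hnb]
        have hne : ∀ a ∈ NJ l, cl (hm l) ≠ a := by
          intro a ha hcl'
          have h1 := (Finset.mem_filter.1 ha).2
          exact (Finset.mem_filter.1 h1).2.1 (Finset.mem_filter.2 ⟨hlQ, hcl'⟩)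
        have h1 := sum_pairs_ge PP (fun x => ((cell l ∩ Y x).card : ℝ))
          (fun x => Nat.cast_nonneg _) (NJ l) (fun a => hm (fj a)) (hm l) (wt cell l / 2) hinj
          (by
            intro a ha
            refine Finset.mem_filter.2 ⟨Finset.mem_product.2
              ⟨Finset.mem_image_of_mem _ hlQ, Finset.mem_image_of_mem _ (hfj a ha).1⟩, ?_⟩
            show cl (hm l) ≠ cl (hm (fj a))
            rw [(hfj a ha).2.1]
            exact hne a ha)
          (by
            intro a ha
            have hX : (((cell l) \ (cn P E (hm l))).card : ℝ) ≤ 0 := by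
              have : (cell l) \ (cn P E (hm l)) = ∅ := by
                rw [Finset.sdiff_eq_empty_iff_subset]
                intro v hv
                exact Finset.mem_union_left _ (h.sub l hv)
              rw [this]
              simp
            have h2 := card_inter_two (cell l) (cn P E (hm l)) (cn P E (hm (fj a))) hX
              (adj_cn hGP h hs1 (hfj a ha).2.2)
            have h3 : ((cell l).card : ℝ) = wt cell l := rfl
            rw [h3] at h2
            show wt cell l / 2 ≤ ((cell l ∩ (cn P E (hm l) ∩ cn P E (hm (fj a)))).card : ℝ)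
            have h4 := hwt l
            nlinarith)
        have h4 : wt cell l * ((NJ l).card : ℝ) = 2 * (((NJ l).card : ℝ) * (wt cell l / 2)) := by
          ring
        rw [h4, zero_add]
        exact mul_le_mul_of_nonneg_left h1 (by norm_num)
      · have hb : l ∈ bdJ adj Q := by
          obtain ⟨j, hjQ, -, hjl⟩ := hex a0 ha0
          exact Finset.mem_filter.2 ⟨Finset.mem_univ _, hlQ, j, hjQ, hjl⟩
        rw [if_pos hb]
        have h1 := sum_pairs_ge PP (fun x => ((cell l ∩ Y x).card : ℝ))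
          (fun x => Nat.cast_nonneg _) ((NJ l).erase a0) (fun a => hm (fj a)) (hm (fj a0))
          (wt cell l / 2)
          (fun a ha b hb hab => hinj a (Finset.mem_of_mem_erase ha) b
            (Finset.mem_of_mem_erase hb) hab)
          (by
            intro a ha
            have ha' := Finset.mem_of_mem_erase ha
            refine Finset.mem_filter.2 ⟨Finset.mem_product.2
              ⟨Finset.mem_image_of_mem _ (hfj a0 ha0).1,
                Finset.mem_image_of_mem _ (hfj a ha').1⟩, ?_⟩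
            show cl (hm (fj a0)) ≠ cl (hm (fj a))
            rw [(hfj a0 ha0).2.1, (hfj a ha').2.1]
            exact (Finset.ne_of_mem_erase ha).symm)
          (by
            intro a ha
            have ha' := Finset.mem_of_mem_erase ha
            have h2 := card_inter_two (cell l) (cn P E (hm (fj a0))) (cn P E (hm (fj a)))
              (adj_cn hGP h hs1 (hfj a0 ha0).2.2) (adj_cn hGP h hs1 (hfj a ha').2.2)
            have h3 : ((cell l).card : ℝ) = wt cell l := rfl
            rw [h3] at h2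
            show wt cell l / 2 ≤ ((cell l ∩ (cn P E (hm (fj a0)) ∩ cn P E (hm (fj a)))).card : ℝ)
            have h4 := hwt l
            nlinarith)
        have hcard : (((NJ l).erase a0).card : ℝ) = ((NJ l).card : ℝ) - 1 := by
          rw [Finset.card_erase_of_mem ha0, Nat.cast_sub (Finset.card_pos.2 ⟨a0, ha0⟩)]
          simp
        rw [hcard] at h1
        have h4 := hwt l
        nlinarith
  -- hubs
  have hU : ∀ u : U, ((NU u).card : ℝ) ≤
      (if u ∈ bdU hadj Q then 1 else 0) + ∑ x ∈ PP, (if phi u ∈ Y x then (1 : ℝ) else 0) := by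
    intro u
    have hnn : ∀ x : Fin m × Fin m, 0 ≤ (if phi u ∈ Y x then (1 : ℝ) else 0) := by
      intro x
      split_ifs
      · exact zero_le_one
      · exact le_refl _
    have hex : ∀ a ∈ NU u, ∃ j ∈ Q, cl (hm j) = a ∧ hadj u j := by
      intro a ha
      have h1 := (Finset.mem_filter.1 ha).2
      obtain ⟨-, j, hj, hjl⟩ := Finset.mem_filter.1 h1
      rw [Finset.mem_filter] at hj
      exact ⟨j, hj.1, hj.2, hjl⟩
    rcases (NU u).eq_empty_or_nonempty with hemp | ⟨a0, ha0⟩
    · rw [hemp, Finset.card_empty, Nat.cast_zero]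
      refine add_nonneg ?_ (Finset.sum_nonneg (fun x _ => hnn x))
      split_ifs
      · exact zero_le_one
      · exact le_refl _
    · obtain ⟨j0, -, -, -⟩ := hex a0 ha0
      let fj : Fin m → J := fun a => if ha : a ∈ NU u then (hex a ha).choose else j0
      have hfj : ∀ a ∈ NU u, fj a ∈ Q ∧ cl (hm (fj a)) = a ∧ hadj u (fj a) := by
        intro a ha
        have h1 : fj a = (hex a ha).choose := dif_pos ha
        have h2 := (hex a ha).choose_spec
        rw [← h1] at h2
        exact h2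
      have hinj : ∀ a ∈ NU u, ∀ b ∈ NU u, hm (fj a) = hm (fj b) → a = b := by
        intro a ha b hb hab
        rw [← (hfj a ha).2.1, ← (hfj b hb).2.1, hab]
      have hb : u ∈ bdU hadj Q := by
        obtain ⟨j, hjQ, -, hjl⟩ := hex a0 ha0
        exact Finset.mem_filter.2 ⟨Finset.mem_univ _, j, hjQ, hjl⟩
      rw [if_pos hb]
      have h1 := sum_pairs_ge PP (fun x => if phi u ∈ Y x then (1 : ℝ) else 0)
        hnn ((NU u).erase a0) (fun a => hm (fj a)) (hm (fj a0)) 1
        (fun a ha b hb hab => hinj a (Finset.mem_of_mem_erase ha) b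
          (Finset.mem_of_mem_erase hb) hab)
        (by
          intro a ha
          have ha' := Finset.mem_of_mem_erase ha
          refine Finset.mem_filter.2 ⟨Finset.mem_product.2
            ⟨Finset.mem_image_of_mem _ (hfj a0 ha0).1,
              Finset.mem_image_of_mem _ (hfj a ha').1⟩, ?_⟩
          show cl (hm (fj a0)) ≠ cl (hm (fj a))
          rw [(hfj a0 ha0).2.1, (hfj a ha').2.1]
          exact (Finset.ne_of_mem_erase ha).symm)
        (by
          intro a ha
          have ha' := Finset.mem_of_mem_erase ha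
          have hmem : phi u ∈ Y (hm (fj a0), hm (fj a)) :=
            Finset.mem_inter.2 ⟨hnear u _ (hfj a0 ha0).2.2, hnear u _ (hfj a ha').2.2⟩
          show (1 : ℝ) ≤ (if phi u ∈ Y (hm (fj a0), hm (fj a)) then (1 : ℝ) else 0)
          rw [if_pos hmem])
      have hcard : (((NU u).erase a0).card : ℝ) = ((NU u).card : ℝ) - 1 := by
        rw [Finset.card_erase_of_mem ha0, Nat.cast_sub (Finset.card_pos.2 ⟨a0, ha0⟩)]
        simp
      rw [hcard, mul_one] at h1
      linarith
  -- rewriting the left side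
  have hL1 : ∑ a ∈ CL, ∑ l ∈ bdJ adj (Q.filter (fun j => cl (hm j) = a)), wt cell l =
      ∑ l : J, wt cell l * ((NJ l).card : ℝ) := by
    have h1 : ∀ a ∈ CL, ∑ l ∈ bdJ adj (Q.filter (fun j => cl (hm j) = a)), wt cell l =
        ∑ l : J, (if l ∈ bdJ adj (Q.filter (fun j => cl (hm j) = a)) then wt cell l else 0) := by
      intro a _
      rw [← Finset.sum_filter]
      refine Finset.sum_congr ?_ (fun _ _ => rfl)
      ext l
      simp
    rw [Finset.sum_congr rfl h1, Finset.sum_comm]
    refine Finset.sum_congr rfl (fun l _ => ?_)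
    rw [← Finset.sum_filter, Finset.sum_const, nsmul_eq_mul, mul_comm]
  have hL2 : ∑ a ∈ CL, ((bdU hadj (Q.filter (fun j => cl (hm j) = a))).card : ℝ) =
      ∑ u : U, ((NU u).card : ℝ) := by
    have h1 : ∀ a ∈ CL, ((bdU hadj (Q.filter (fun j => cl (hm j) = a))).card : ℝ) =
        ∑ u : U, (if u ∈ bdU hadj (Q.filter (fun j => cl (hm j) = a)) then (1 : ℝ) else 0) := by
      intro a _
      rw [← Finset.sum_filter, Finset.sum_const, nsmul_eq_mul, mul_one]
      congr 2
      ext u
      simp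
    rw [Finset.sum_congr rfl h1, Finset.sum_comm]
    refine Finset.sum_congr rfl (fun u _ => ?_)
    rw [← Finset.sum_filter, Finset.sum_const, nsmul_eq_mul, mul_one]
  have hR1 : ∑ l : J, (if l ∈ bdJ adj Q then wt cell l else 0) = ∑ l ∈ bdJ adj Q, wt cell l := by
    rw [← Finset.sum_filter]
    refine Finset.sum_congr ?_ (fun _ _ => rfl)
    ext l
    simp
  have hR2 : ∑ u : U, (if u ∈ bdU hadj Q then (1 : ℝ) else 0) = ((bdU hadj Q).card : ℝ) := by
    rw [← Finset.sum_filter, Finset.sum_const, nsmul_eq_mul, mul_one]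
    congr 2
    ext u
    simp
  -- error terms
  have hY : ∀ x ∈ PP, ((Y x).card : ℝ) ≤ dd := by
    intro x hx
    obtain ⟨h1, h2⟩ := Finset.mem_filter.1 hx
    rw [Finset.mem_product] at h1
    exact hcl x.1 h1.1 x.2 h1.2 h2
  have hPPcard : (PP.card : ℝ) ≤ (H.card : ℝ) ^ 2 := by
    have h1 : PP.card ≤ H.card * H.card := by
      rw [← Finset.card_product]
      exact Finset.card_le_card (Finset.filter_subset _ _)
    rw [sq]
    exact_mod_cast h1
  have hE1 : ∑ l : J, ∑ x ∈ PP, ((cell l ∩ Y x).card : ℝ) ≤ dd * (H.card : ℝ) ^ 2 := by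
    rw [Finset.sum_comm]
    calc ∑ x ∈ PP, ∑ l : J, ((cell l ∩ Y x).card : ℝ) ≤ ∑ x ∈ PP, dd := by
          refine Finset.sum_le_sum (fun x hx => ?_)
          exact (sum_card_inter_le Finset.univ cell (Y x)
            (fun i _ j _ hij => h.cdisj i j hij)).trans (hY x hx)
      _ = (PP.card : ℝ) * dd := by rw [Finset.sum_const, nsmul_eq_mul]
      _ ≤ _ := by
          rw [mul_comm]
          exact mul_le_mul_of_nonneg_left hPPcard hdd
  have hE2 : ∑ u : U, ∑ x ∈ PP, (if phi u ∈ Y x then (1 : ℝ) else 0) ≤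
      dd * (H.card : ℝ) ^ 2 := by
    rw [Finset.sum_comm]
    calc ∑ x ∈ PP, ∑ u : U, (if phi u ∈ Y x then (1 : ℝ) else 0) ≤ ∑ x ∈ PP, dd := by
          refine Finset.sum_le_sum (fun x hx => ?_)
          rw [← Finset.sum_filter, Finset.sum_const, nsmul_eq_mul, mul_one]
          refine le_trans ?_ (hY x hx)
          have : (Finset.univ.filter (fun u : U => phi u ∈ Y x)).card ≤ (Y x).card :=
            Finset.card_le_card_of_injOn phi
              (fun u hu => (Finset.mem_filter.1 (Finset.mem_coe.1 hu)).2)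
              (fun u _ u' _ huu => h.inj huu)
          exact_mod_cast this
      _ = (PP.card : ℝ) * dd := by rw [Finset.sum_const, nsmul_eq_mul]
      _ ≤ _ := by
          rw [mul_comm]
          exact mul_le_mul_of_nonneg_left hPPcard hdd
  -- conclusion
  have hfin1 : ∑ l : J, wt cell l * ((NJ l).card : ℝ) ≤
      ∑ l ∈ bdJ adj Q, wt cell l + 2 * (dd * (H.card : ℝ) ^ 2) := by
    calc ∑ l : J, wt cell l * ((NJ l).card : ℝ)
        ≤ ∑ l : J, ((if l ∈ bdJ adj Q then wt cell l else 0) +
          2 * ∑ x ∈ PP, ((cell l ∩ Y x).card : ℝ)) := Finset.sum_le_sum (fun l _ => hJ l)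
      _ = ∑ l ∈ bdJ adj Q, wt cell l + 2 * ∑ l : J, ∑ x ∈ PP, ((cell l ∩ Y x).card : ℝ) := by
          rw [Finset.sum_add_distrib, hR1, Finset.mul_sum]
      _ ≤ _ := by linarith
  have hfin2 : ∑ u : U, ((NU u).card : ℝ) ≤
      ((bdU hadj Q).card : ℝ) + dd * (H.card : ℝ) ^ 2 := by
    calc ∑ u : U, ((NU u).card : ℝ)
        ≤ ∑ u : U, ((if u ∈ bdU hadj Q then 1 else 0) +
          ∑ x ∈ PP, (if phi u ∈ Y x then (1 : ℝ) else 0)) := Finset.sum_le_sum (fun u _ => hU u)
      _ = ((bdU hadj Q).card : ℝ) + ∑ u : U, ∑ x ∈ PP, (if phi u ∈ Y x then (1 : ℝ) else 0) := by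
          rw [Finset.sum_add_distrib, hR2]
      _ ≤ _ := by linarith
  unfold beta
  rw [Finset.sum_add_distrib, hL1, hL2]
  linarith

/-- the penalty is additive over classes -/
theorem pen_classes {m : ℕ} (w : J → ℝ) (hm : J → Fin m) (rho : ℝ) (Q : Finset J)
    (cl : Fin m → Fin m) :
    ∑ a ∈ (Q.image hm).image cl, pen w hm rho (Q.filter (fun j => cl (hm j) = a)) =
    pen w hm rho Q := by
  simp only [pen_eq]
  rw [Finset.sum_add_distrib, ← Finset.mul_sum]
  congr 1
  · exact Finset.sum_fiberwise_of_maps_to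
      (fun j hj => Finset.mem_image_of_mem _ (Finset.mem_image_of_mem _ hj)) _
  · congr 1
    have h1 : ∀ a, (Q.filter (fun j => cl (hm j) = a)).image hm =
        (Q.image hm).filter (fun i => cl i = a) := by
      intro a
      rw [Finset.filter_image]
    have h2 := Finset.card_eq_sum_card_fiberwise (f := cl) (s := Q.image hm)
      (t := (Q.image hm).image cl) (fun i hi => Finset.mem_coe.2 (Finset.mem_image_of_mem _ hi))
    have h3 : ∑ a ∈ (Q.image hm).image cl, (((Q.image hm).filter (fun i => cl i = a)).card : ℝ) =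
        ((Q.image hm).card : ℝ) := by
      rw [h2, Nat.cast_sum]
    refine Eq.trans (Finset.sum_congr rfl (fun a _ => ?_)) (h3.trans ?_)
    · have h4 := congrArg Finset.card (h1 a)
      have h5 : (((Q.filter (fun j => cl (hm j) = a)).image hm).card : ℝ) =
        (((Q.image hm).filter (fun i => cl i = a)).card : ℝ) := by exact_mod_cast h4
      exact h5
    · rfl

private theorem count_disj {G : SimpleGraph V} {k C d0 e1 : ℝ} {m : ℕ} {E : Fin m → Finset V}
    (h : Clean G k C d0 e1 E) (hk : 0 < k) (he1 : 0 < e1) (Y : Finset V)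
    (hY : (Y.card : ℝ) ≤ (C + 1) * k) (S : Finset (Fin m))
    (hS : ∀ i ∈ S, e1 * k ≤ ((E i ∩ Y).card : ℝ)) : (S.card : ℝ) ≤ (C + 1) / e1 := by
  have h1 := sum_card_inter_le S E Y (fun i _ j _ hij => h.disj i j hij)
  have h2 : (S.card : ℝ) * (e1 * k) ≤ ∑ i ∈ S, ((E i ∩ Y).card : ℝ) := by
    have := Finset.card_nsmul_le_sum S (fun i => ((E i ∩ Y).card : ℝ)) (e1 * k) hS
    rwa [nsmul_eq_mul] at this
  have h3 : (S.card : ℝ) * (e1 * k) ≤ (C + 1) * k := h2.trans (h1.trans hY)
  rw [le_div_iff₀ he1]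
  have h4 : ((S.card : ℝ) * e1) * k ≤ (C + 1) * k := by
    calc ((S.card : ℝ) * e1) * k = (S.card : ℝ) * (e1 * k) := by ring
      _ ≤ _ := h3
  exact le_of_mul_le_mul_right h4 hk

private theorem home_degree_aux {G : SimpleGraph V} {k C d0 e1 : ℝ} {m : ℕ}
    {E : Fin m → Finset V}
    (h : Clean G k C d0 e1 E) (hk : 0 < k) (he1 : 0 < e1) (v : V) :
    ((univ.filter (fun i => (nb G v ∩ E i).Nonempty)).card : ℝ) ≤ (C + 1) / e1 := by
  refine count_disj h hk he1 (nb G v) (h.deg v) _ ?_
  intro i hi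
  have h1 := (Finset.mem_filter.1 hi).2
  rw [Finset.inter_comm]
  rcases h.thick v i with h2 | h2
  · rw [h2] at h1
    exact absurd h1 Finset.not_nonempty_empty
  · exact h2

/-- closed neighbourhoods overlap in at least `del k` vertices for few pairs of homes -/
theorem overlap_degree {G : SimpleGraph V} {k C d0 e1 : ℝ} {m : ℕ} {E : Fin m → Finset V}
    (h : Clean G k C d0 e1 E) (hk : 0 < k) (hC : 0 ≤ C) (he1 : 0 < e1) (del : ℝ) (hdel : 0 < del)
    (i : Fin m) :
    ((univ.filter (fun i' => del * k ≤ (((cn G E i) ∩ (cn G E i')).card : ℝ))).card : ℝ) ≤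
      (C + 1) * ((C + 1) / e1 + 1) / del := by
  set S : Finset (Fin m) :=
    univ.filter (fun i' => del * k ≤ (((cn G E i) ∩ (cn G E i')).card : ℝ)) with hSdef
  have h1 : (S.card : ℝ) * (del * k) ≤ ∑ i' ∈ S, (((cn G E i) ∩ (cn G E i')).card : ℝ) := by
    have := Finset.card_nsmul_le_sum S (fun i' => (((cn G E i) ∩ (cn G E i')).card : ℝ))
      (del * k) (fun i' hi' => (Finset.mem_filter.1 hi').2)
    rwa [nsmul_eq_mul] at this
  have hdeg : ∀ v : V, ((S.filter (fun i' => v ∈ cn G E i')).card : ℝ) ≤ (C + 1) / e1 + 1 := by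
    intro v
    have h2 : S.filter (fun i' => v ∈ cn G E i') ⊆
        (univ.filter (fun i' => (nb G v ∩ E i').Nonempty)) ∪
          (univ.filter (fun i' => v ∈ E i')) := by
      intro i' hi'
      have h3 := (Finset.mem_filter.1 hi').2
      unfold cn bd at h3
      rcases Finset.mem_union.1 h3 with h4 | h4
      · exact Finset.mem_union_right _ (Finset.mem_filter.2 ⟨Finset.mem_univ _, h4⟩)
      · obtain ⟨-, -, a, ha, hav⟩ := Finset.mem_filter.1 h4
        refine Finset.mem_union_left _ (Finset.mem_filter.2 ⟨Finset.mem_univ _, a, ?_⟩)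
        exact Finset.mem_inter.2 ⟨Finset.mem_filter.2 ⟨Finset.mem_univ _, hav.symm⟩, ha⟩
    have h3 := (Finset.card_le_card h2).trans (Finset.card_union_le _ _)
    have h4 : (univ.filter (fun i' => v ∈ E i')).card ≤ 1 := by
      rw [Finset.card_le_one]
      intro a ha b hb
      by_contra hab
      exact (Finset.disjoint_left.1 (h.disj a b hab)) (Finset.mem_filter.1 ha).2
        (Finset.mem_filter.1 hb).2
    have h5 := home_degree_aux h hk he1 v
    have h6 : ((S.filter (fun i' => v ∈ cn G E i')).card : ℝ) ≤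
        ((univ.filter (fun i' => (nb G v ∩ E i').Nonempty)).card : ℝ) +
          ((univ.filter (fun i' => v ∈ E i')).card : ℝ) := by exact_mod_cast h3
    have h7 : ((univ.filter (fun i' => v ∈ E i')).card : ℝ) ≤ 1 := by exact_mod_cast h4
    linarith
  have h2 : ∑ i' ∈ S, (((cn G E i) ∩ (cn G E i')).card : ℝ) =
      ∑ v ∈ cn G E i, ((S.filter (fun i' => v ∈ cn G E i')).card : ℝ) := by
    have h3 : ∀ i' ∈ S, (((cn G E i) ∩ (cn G E i')).card : ℝ) =
        ∑ v ∈ cn G E i, (if v ∈ cn G E i' then (1 : ℝ) else 0) := by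
      intro i' _
      rw [← Finset.sum_filter, Finset.sum_const, nsmul_eq_mul, mul_one, Finset.filter_mem_eq_inter]
    rw [Finset.sum_congr rfl h3, Finset.sum_comm]
    refine Finset.sum_congr rfl (fun v _ => ?_)
    rw [← Finset.sum_filter, Finset.sum_const, nsmul_eq_mul, mul_one]
  have h3 : ∑ v ∈ cn G E i, ((S.filter (fun i' => v ∈ cn G E i')).card : ℝ) ≤
      ((cn G E i).card : ℝ) * ((C + 1) / e1 + 1) := by
    have := Finset.sum_le_card_nsmul (cn G E i)
      (fun v => ((S.filter (fun i' => v ∈ cn G E i')).card : ℝ)) ((C + 1) / e1 + 1)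
      (fun v _ => hdeg v)
    rwa [nsmul_eq_mul] at this
  have h4 : ((cn G E i).card : ℝ) ≤ (C + 1) * k := h.bdhigh i
  have h5 : (0 : ℝ) ≤ (C + 1) / e1 + 1 := by positivity
  have h6 : (S.card : ℝ) * (del * k) ≤ (C + 1) * k * ((C + 1) / e1 + 1) := by
    calc (S.card : ℝ) * (del * k) ≤ _ := h1
      _ = _ := h2
      _ ≤ _ := h3
      _ ≤ _ := mul_le_mul_of_nonneg_right h4 h5
  rw [le_div_iff₀ hdel]
  have h7 : ((S.card : ℝ) * del) * k ≤ ((C + 1) * ((C + 1) / e1 + 1)) * k := by
    calc ((S.card : ℝ) * del) * k = (S.card : ℝ) * (del * k) := by ring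
      _ ≤ (C + 1) * k * ((C + 1) / e1 + 1) := h6
      _ = _ := by ring
  exact le_of_mul_le_mul_right h7 hk

/-- a vertex is adjacent to few homes -/
theorem home_degree {G : SimpleGraph V} {k C d0 e1 : ℝ} {m : ℕ} {E : Fin m → Finset V}
    (h : Clean G k C d0 e1 E) (hk : 0 < k) (he1 : 0 < e1) (v : V) :
    ((univ.filter (fun i => (nb G v ∩ E i).Nonempty)).card : ℝ) ≤ (C + 1) / e1 :=
  home_degree_aux h hk he1 v

/-- a home is adjacent to few homes (itself included) -/
theorem home_home_degree {G : SimpleGraph V} {k C d0 e1 : ℝ} {m : ℕ} {E : Fin m → Finset V}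
    (h : Clean G k C d0 e1 E) (hk : 0 < k) (he1 : 0 < e1) (i : Fin m) :
    ((univ.filter (fun i' => ∃ x ∈ E i, ∃ y ∈ E i', G.Adj x y)).card : ℝ) ≤ (C + 1) / e1 := by
  refine count_disj h hk he1 (E i ∪ bd G (E i)) (h.bdhigh i) _ ?_
  intro i' hi'
  obtain ⟨x, hx, y, hy, hxy⟩ := (Finset.mem_filter.1 hi').2
  have h1 : nb G x ∩ E i' ⊆ E i' ∩ (E i ∪ bd G (E i)) := by
    intro v hv
    rw [Finset.mem_inter] at hv ⊢
    refine ⟨hv.2, ?_⟩
    have hxv : G.Adj x v := (Finset.mem_filter.1 hv.1).2
    rw [Finset.mem_union]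
    by_cases hvE : v ∈ E i
    · exact Or.inl hvE
    · exact Or.inr (Finset.mem_filter.2 ⟨Finset.mem_univ _, hvE, x, hx, hxv⟩)
  have h2 : ((nb G x ∩ E i').card : ℝ) ≤ ((E i' ∩ (E i ∪ bd G (E i))).card : ℝ) := by
    exact_mod_cast Finset.card_le_card h1
  refine le_trans ?_ h2
  rcases h.thick x i' with h3 | h3
  · exfalso
    have : y ∈ nb G x ∩ E i' :=
      Finset.mem_inter.2 ⟨Finset.mem_filter.2 ⟨Finset.mem_univ _, hxy⟩, hy⟩
    rw [h3] at this
    exact Finset.notMem_empty _ this
  · exact h3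

/-- there are few homes -/
theorem home_count {G : SimpleGraph V} {k C d0 e1 : ℝ} {m : ℕ} {E : Fin m → Finset V}
    (h : Clean G k C d0 e1 E) : d0 * k * (m : ℝ) ≤ (Fintype.card V : ℝ) := by
  have h1 := sum_card_inter_le (Finset.univ : Finset (Fin m)) E (Finset.univ : Finset V)
    (fun i _ j _ hij => h.disj i j hij)
  have h2 := Finset.card_nsmul_le_sum (Finset.univ : Finset (Fin m))
    (fun i => ((E i ∩ Finset.univ).card : ℝ)) (d0 * k) (fun i _ => by
      show d0 * k ≤ ((E i ∩ Finset.univ).card : ℝ)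
      rw [Finset.inter_univ]
      exact h.low i)
  rw [nsmul_eq_mul, Finset.card_univ, Fintype.card_fin] at h2
  rw [Finset.card_univ] at h1
  linarith

end LCX
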