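import Pool.Agent.Lib_MP_0bab5c_x.XRed
import Pool.Agent.Lib_MP_0bab5c_x.XBool
import Pool.Agent.Lib_MP_0bab5c_x.XSep

/-! # From a clean graph to the reduced structure

Blocks: the homes `E i` and `O i = hubO P E {i}` (hubs adjacent to the home `i`), so
`B = Fin m ⊕ Fin m`; related: `E i, E i'` if there is an edge between them, `E i, O i`
(both orders). Degrees are at most `(C + 1) / e1 + 1` (`home_home_degree`), the total mass is at most
`m ((C + 1) / e1 (C k)^2 + 2 C k (C + 1) k)` and `m <= |V| / (d0 k)` (`home_count`).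
`block_bool` with `s`, `t / (C + 1)` and a small `e`. `G`: delete from `P` all edges in holed pairs
of colour classes (hub-home edges: the pair formed by the class of the hub in the block `O i` and
the class in `E i`). `J` = nonempty classes of homes, `U` = vertices outside all homes,
`adj j l`: there is an edge of `G` between the cells; `hadj u j`: there is an edge of `G` between
the class of `phi u` in the block `O (hm j)` and the cell `j` (and `phi u` is in `O (hm j)`).
-/

namespace LCX

open Finset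
open scoped Classical

namespace XCellsAux

section

variable {V : Type} [Fintype V] {m : ℕ}

/-- blocks -/
noncomputable def blk (P : SimpleGraph V) (E : Fin m → Finset V) : Fin m ⊕ Fin m → Finset V
  | Sum.inl i => E i
  | Sum.inr i => hubO P E {i}

/-- related blocks -/
def rel (P : SimpleGraph V) (E : Fin m → Finset V) : Fin m ⊕ Fin m → Fin m ⊕ Fin m → Prop
  | Sum.inl i, Sum.inl i' => ∃ x ∈ E i, ∃ y ∈ E i', P.Adj x y
  | Sum.inl i, Sum.inr i' => i = i'
  | Sum.inr i, Sum.inl i' => i = i'
  | Sum.inr _, Sum.inr _ => False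

theorem rel_symm (P : SimpleGraph V) (E : Fin m → Finset V) (p q : Fin m ⊕ Fin m)
    (h : rel P E p q) : rel P E q p := by
  rcases p with i | i <;> rcases q with i' | i' <;> simp only [rel] at h ⊢
  · obtain ⟨x, hx, y, hy, h⟩ := h
    exact ⟨y, hy, x, hx, h.symm⟩
  · exact h.symm
  · exact h.symm

theorem hub_not_home {P : SimpleGraph V} {E : Fin m → Finset V} {i : Fin m} {v : V}
    (h : v ∈ blk P E (Sum.inr i)) (i' : Fin m) : v ∉ E i' := by
  simp only [blk, hubO, mem_filter, mem_univ, true_and] at h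
  exact h.1 i'

theorem mem_hub {P : SimpleGraph V} {E : Fin m → Finset V} {i : Fin m} {v y : V}
    (hv : ∀ i, v ∉ E i) (hy : y ∈ E i) (h : P.Adj v y) : v ∈ blk P E (Sum.inr i) := by
  simp only [blk, hubO, mem_filter, mem_univ, true_and, mem_singleton, forall_eq]
  exact ⟨hv, y, by simp [nb, h, hy]⟩

theorem hub_sub_bd {P : SimpleGraph V} {E : Fin m → Finset V} {i : Fin m} :
    blk P E (Sum.inr i) ⊆ bd P (E i) := by
  intro v hv
  have h1 := hub_not_home hv i
  simp only [blk, hubO, mem_filter, mem_univ, true_and, mem_singleton, forall_eq] at hv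
  obtain ⟨a, ha⟩ := hv.2
  simp only [nb, mem_inter, mem_filter, mem_univ, true_and] at ha
  simp only [bd, mem_filter, mem_univ, true_and]
  exact ⟨h1, a, ha.2, ha.1.symm⟩

theorem hub_sub_cn {P : SimpleGraph V} {E : Fin m → Finset V} {i : Fin m} :
    blk P E (Sum.inr i) ⊆ cn P E i :=
  fun _ hv => mem_union_right _ (hub_sub_bd hv)

theorem hub_card {P : SimpleGraph V} {k C d0 e1 : ℝ} {E : Fin m → Finset V}
    (h : Clean P k C d0 e1 E) (i : Fin m) :
    ((blk P E (Sum.inr i)).card : ℝ) ≤ (C + 1) * k := by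
  refine le_trans ?_ (h.bdhigh i)
  exact_mod_cast card_le_card (hub_sub_cn (P := P) (E := E) (i := i))

theorem rel_deg {P : SimpleGraph V} {k C d0 e1 : ℝ} {E : Fin m → Finset V}
    (h : Clean P k C d0 e1 E) (hk : 0 < k) (he1 : 0 < e1) (p : Fin m ⊕ Fin m) :
    (univ.filter (rel P E p)).card ≤ ⌈(C + 1) / e1⌉₊ + 1 := by
  rcases p with i | i
  · have h1 := home_home_degree h hk he1 i
    have h2 : (univ.filter (fun i' => ∃ x ∈ E i, ∃ y ∈ E i', P.Adj x y)).card ≤
        ⌈(C + 1) / e1⌉₊ := by
      have := le_trans h1 (Nat.le_ceil ((C + 1) / e1))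
      exact_mod_cast this
    have h3 : univ.filter (rel P E (Sum.inl i)) ⊆
        ((univ.filter (fun i' => ∃ x ∈ E i, ∃ y ∈ E i', P.Adj x y)).image Sum.inl) ∪
          {Sum.inr i} := by
      intro q hq
      simp only [mem_filter, mem_univ, true_and] at hq
      rcases q with i' | i'
      · simp only [rel] at hq
        simp only [mem_union, mem_image, mem_filter, mem_univ, true_and]
        exact Or.inl ⟨i', hq, rfl⟩
      · simp only [rel] at hq
        simp [hq]
    calc (univ.filter (rel P E (Sum.inl i))).card ≤ _ := card_le_card h3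
      _ ≤ _ := card_union_le _ _
      _ ≤ _ := by
        rw [card_singleton]
        exact Nat.add_le_add_right (le_trans card_image_le h2) 1
  · have h3 : univ.filter (rel P E (Sum.inr i)) ⊆ {Sum.inl i} := by
      intro q hq
      simp only [mem_filter, mem_univ, true_and] at hq
      rcases q with i' | i'
      · simp only [rel] at hq
        simp [hq]
      · simp only [rel] at hq
    calc (univ.filter (rel P E (Sum.inr i))).card ≤ _ := card_le_card h3
      _ = 1 := card_singleton _
      _ ≤ _ := Nat.le_add_left _ _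

theorem mass_le {P : SimpleGraph V} {k C d0 e1 : ℝ} {E : Fin m → Finset V}
    (h : Clean P k C d0 e1 E) (hk : 1 ≤ k) (hC : 1 ≤ C) (hd0 : 0 < d0) (he1 : 0 < e1) :
    ∑ p, ∑ q ∈ univ.filter (rel P E p), ((blk P E p).card : ℝ) * ((blk P E q).card : ℝ) ≤
      ((C + 1) / e1 * C ^ 2 + 2 * C * (C + 1)) / d0 * k * (Fintype.card V : ℝ) := by
  have hk0 : 0 < k := by linarith
  have hinl : ∀ i : Fin m, ∑ q ∈ univ.filter (rel P E (Sum.inl i)),
      ((blk P E (Sum.inl i)).card : ℝ) * ((blk P E q).card : ℝ) ≤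
        (C + 1) / e1 * (C * k) ^ 2 + (C * k) * ((C + 1) * k) := by
    intro i
    rw [sum_filter, Fintype.sum_sum_type]
    refine add_le_add ?_ ?_
    · have e1' : (∑ a : Fin m, if rel P E (Sum.inl i) (Sum.inl a) then
          ((blk P E (Sum.inl i)).card : ℝ) * ((blk P E (Sum.inl a)).card : ℝ) else 0) =
          ∑ a ∈ univ.filter (fun i' => ∃ x ∈ E i, ∃ y ∈ E i', P.Adj x y),
            ((E i).card : ℝ) * ((E a).card : ℝ) := by
        rw [sum_filter]
        exact sum_congr rfl (fun a _ => if_congr Iff.rfl rfl rfl)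
      rw [e1']
      calc ∑ a ∈ univ.filter (fun i' => ∃ x ∈ E i, ∃ y ∈ E i', P.Adj x y),
            ((E i).card : ℝ) * ((E a).card : ℝ)
          ≤ ∑ a ∈ univ.filter (fun i' => ∃ x ∈ E i, ∃ y ∈ E i', P.Adj x y), (C * k) ^ 2 := by
            refine sum_le_sum (fun a _ => ?_)
            rw [pow_two]
            exact mul_le_mul (h.high i) (h.high a) (by positivity) (by positivity)
        _ = ((univ.filter (fun i' => ∃ x ∈ E i, ∃ y ∈ E i', P.Adj x y)).card : ℝ) *
              (C * k) ^ 2 := by rw [sum_const, nsmul_eq_mul]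
        _ ≤ _ := mul_le_mul_of_nonneg_right (home_home_degree h hk0 he1 i) (by positivity)
    · have e2' : (∑ a : Fin m, if rel P E (Sum.inl i) (Sum.inr a) then
          ((blk P E (Sum.inl i)).card : ℝ) * ((blk P E (Sum.inr a)).card : ℝ) else 0) =
          ((E i).card : ℝ) * ((blk P E (Sum.inr i)).card : ℝ) := by
        rw [sum_eq_single i]
        · simp [rel, blk]
        · intro b _ hb
          have : ¬ rel P E (Sum.inl i) (Sum.inr b) := by
            simp only [rel]
            exact fun h => hb h.symm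
          simp [this]
        · intro hi
          exact absurd (mem_univ i) hi
      rw [e2']
      exact mul_le_mul (h.high i) (hub_card h i) (by positivity) (by positivity)
  have hinr : ∀ i : Fin m, ∑ q ∈ univ.filter (rel P E (Sum.inr i)),
      ((blk P E (Sum.inr i)).card : ℝ) * ((blk P E q).card : ℝ) ≤
        (C * k) * ((C + 1) * k) := by
    intro i
    have e3 : ∑ q ∈ univ.filter (rel P E (Sum.inr i)),
      ((blk P E (Sum.inr i)).card : ℝ) * ((blk P E q).card : ℝ) =
        ((blk P E (Sum.inr i)).card : ℝ) * ((E i).card : ℝ) := by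
      rw [sum_eq_single (Sum.inl i)]
      · simp [blk]
      · intro b hb hb2
        simp only [mem_filter, mem_univ, true_and] at hb
        rcases b with b | b
        · simp only [rel] at hb
          exact absurd (by rw [hb]) hb2
        · simp only [rel] at hb
      · intro hi
        exact absurd (by simp [rel]) hi
    rw [e3, mul_comm]
    exact mul_le_mul (h.high i) (hub_card h i) (by positivity) (by positivity)
  have hm : (m : ℝ) ≤ (Fintype.card V : ℝ) / (d0 * k) := by
    rw [le_div_iff₀ (by positivity)]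
    have := home_count h
    linarith
  rw [Fintype.sum_sum_type]
  calc _ ≤ ∑ _i : Fin m, ((C + 1) / e1 * (C * k) ^ 2 + (C * k) * ((C + 1) * k)) +
        ∑ _i : Fin m, (C * k) * ((C + 1) * k) :=
        add_le_add (sum_le_sum fun i _ => hinl i) (sum_le_sum fun i _ => hinr i)
    _ = (m : ℝ) * (((C + 1) / e1 * C ^ 2 + 2 * C * (C + 1)) * k ^ 2) := by
        simp only [sum_const, card_univ, Fintype.card_fin, nsmul_eq_mul]
        ring
    _ ≤ (Fintype.card V : ℝ) / (d0 * k) *
          (((C + 1) / e1 * C ^ 2 + 2 * C * (C + 1)) * k ^ 2) :=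
        mul_le_mul_of_nonneg_right hm (by positivity)
    _ = _ := by
        field_simp

/-- the graph without the edges in holed pairs -/
def delG (P : SimpleGraph V) (E : Fin m → Finset V) (s t : ℝ) (chi : Fin m ⊕ Fin m → V → ℕ) :
    SimpleGraph V where
  Adj x y := P.Adj x y ∧ ∀ p q, rel P E p q → x ∈ blk P E p → y ∈ blk P E q →
    ¬ Holed P s t (bcell (blk P E) chi p (chi p x)) (bcell (blk P E) chi q (chi q y)) ∧
    ¬ Holed P s t (bcell (blk P E) chi q (chi q y)) (bcell (blk P E) chi p (chi p x))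
  symm := ⟨fun x y h => ⟨h.1.symm, fun p q hr hp hq =>
    ⟨(h.2 q p (rel_symm P E p q hr) hq hp).2, (h.2 q p (rel_symm P E p q hr) hq hp).1⟩⟩⟩
  loopless := ⟨fun x h => P.loopless.irrefl x h.1⟩

theorem home_unique {P : SimpleGraph V} {k C d0 e1 : ℝ} {E : Fin m → Finset V}
    (h : Clean P k C d0 e1 E) {i : Fin m} {x : V} (hx : x ∈ E i) {p : Fin m ⊕ Fin m}
    (hp : x ∈ blk P E p) : p = Sum.inl i := by
  rcases p with i' | i'
  · by_contra hne
    have hne' : i ≠ i' := fun h => hne (by rw [h])
    exact (disjoint_left.mp (h.disj i i' hne')) hx hp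
  · exact absurd hx (hub_not_home hp i)

theorem adj_home {P : SimpleGraph V} {k C d0 e1 : ℝ} {E : Fin m → Finset V}
    (h : Clean P k C d0 e1 E) {s t : ℝ} {chi : Fin m ⊕ Fin m → V → ℕ} {i i' : Fin m} {x y : V}
    (hx : x ∈ E i) (hy : y ∈ E i') (hP : P.Adj x y)
    (h1 : ¬ Holed P s t (bcell (blk P E) chi (Sum.inl i) (chi (Sum.inl i) x))
      (bcell (blk P E) chi (Sum.inl i') (chi (Sum.inl i') y)))
    (h2 : ¬ Holed P s t (bcell (blk P E) chi (Sum.inl i') (chi (Sum.inl i') y))
      (bcell (blk P E) chi (Sum.inl i) (chi (Sum.inl i) x))) :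
    (delG P E s t chi).Adj x y := by
  refine ⟨hP, fun p q _ hp hq => ?_⟩
  rw [home_unique h hx hp, home_unique h hy hq]
  exact ⟨h1, h2⟩

theorem adj_hub {P : SimpleGraph V} {k C d0 e1 : ℝ} {E : Fin m → Finset V}
    (h : Clean P k C d0 e1 E) {s t : ℝ} {chi : Fin m ⊕ Fin m → V → ℕ} {i : Fin m} {v y : V}
    (hv : v ∈ blk P E (Sum.inr i)) (hy : y ∈ E i) (hP : P.Adj v y)
    (h1 : ¬ Holed P s t (bcell (blk P E) chi (Sum.inr i) (chi (Sum.inr i) v))
      (bcell (blk P E) chi (Sum.inl i) (chi (Sum.inl i) y)))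
    (h2 : ¬ Holed P s t (bcell (blk P E) chi (Sum.inl i) (chi (Sum.inl i) y))
      (bcell (blk P E) chi (Sum.inr i) (chi (Sum.inr i) v))) :
    (delG P E s t chi).Adj v y := by
  refine ⟨hP, fun p q hr hp hq => ?_⟩
  have hq' := home_unique h hy hq
  subst hq'
  rcases p with i' | i'
  · exact absurd hp (hub_not_home hv i')
  · simp only [rel] at hr
    subst hr
    exact ⟨h1, h2⟩

theorem mem_bcell {P : SimpleGraph V} {E : Fin m → Finset V} {chi : Fin m ⊕ Fin m → V → ℕ}
    {p : Fin m ⊕ Fin m} {a : ℕ} {v : V} :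
    v ∈ bcell (blk P E) chi p a ↔ v ∈ blk P E p ∧ chi p v = a := by
  simp [bcell]

/-- the deleted edges are few -/
theorem deleted_le {P : SimpleGraph V} {E : Fin m → Finset V} {s t : ℝ}
    {chi : Fin m ⊕ Fin m → V → ℕ} {M : ℕ} (hchi : ∀ p v, chi p v < M) :
    ∑ v, ((nb P v).card : ℝ) ≤ ∑ v, ((nb (delG P E s t chi) v).card : ℝ) +
      2 * ∑ p, ∑ q ∈ univ.filter (rel P E p), ∑ a ∈ range M,
          ∑ c ∈ (range M).filter (fun c => Holed P s t (bcell (blk P E) chi p a)
              (bcell (blk P E) chi q c)),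
            ((bcell (blk P E) chi p a).card : ℝ) * ((bcell (blk P E) chi q c).card : ℝ) := by
  set G := delG P E s t chi with hG
  let W : Finset ((Fin m ⊕ Fin m) × (Fin m ⊕ Fin m) × ℕ × ℕ) :=
    (univ ×ˢ univ ×ˢ range M ×ˢ range M).filter (fun w => rel P E w.1 w.2.1 ∧
      Holed P s t (bcell (blk P E) chi w.1 w.2.2.1) (bcell (blk P E) chi w.2.1 w.2.2.2))
  let X : ((Fin m ⊕ Fin m) × (Fin m ⊕ Fin m) × ℕ × ℕ) → Finset V :=
    fun w => bcell (blk P E) chi w.1 w.2.2.1
  let Y : ((Fin m ⊕ Fin m) × (Fin m ⊕ Fin m) × ℕ × ℕ) → Finset V :=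
    fun w => bcell (blk P E) chi w.2.1 w.2.2.2
  have hW : ∑ p, ∑ q ∈ univ.filter (rel P E p), ∑ a ∈ range M,
          ∑ c ∈ (range M).filter (fun c => Holed P s t (bcell (blk P E) chi p a)
              (bcell (blk P E) chi q c)),
            ((bcell (blk P E) chi p a).card : ℝ) * ((bcell (blk P E) chi q c).card : ℝ) =
      ∑ w ∈ W, ((X w).card : ℝ) * ((Y w).card : ℝ) := by
    simp only [W, X, Y]
    rw [sum_filter, sum_product]
    refine sum_congr rfl (fun p _ => ?_)
    rw [sum_filter, sum_product]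
    refine sum_congr rfl (fun q _ => ?_)
    rw [sum_product]
    by_cases hr : rel P E p q
    · simp only [hr, true_and, if_true]
      refine sum_congr rfl (fun a _ => ?_)
      rw [sum_filter]
    · simp only [hr, false_and, if_false, sum_const_zero]
  rw [hW]
  have hv : ∀ v, ((nb P v).card : ℝ) ≤ ((nb G v).card : ℝ) +
      (∑ w ∈ W, (if v ∈ X w then ((Y w).card : ℝ) else 0) +
        ∑ w ∈ W, (if v ∈ Y w then ((X w).card : ℝ) else 0)) := by
    intro v
    have hsub : nb P v ⊆ nb G v ∪ ((W.filter (fun w => v ∈ X w)).biUnion Y ∪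
        (W.filter (fun w => v ∈ Y w)).biUnion X) := by
      intro y hy
      simp only [nb, mem_filter, mem_univ, true_and] at hy
      by_cases hg : G.Adj v y
      · exact mem_union_left _ (by simp [nb, hg])
      · refine mem_union_right _ ?_
        have : ∃ p q, rel P E p q ∧ v ∈ blk P E p ∧ y ∈ blk P E q ∧
            (Holed P s t (bcell (blk P E) chi p (chi p v)) (bcell (blk P E) chi q (chi q y)) ∨
             Holed P s t (bcell (blk P E) chi q (chi q y)) (bcell (blk P E) chi p (chi p v))) := by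
          by_contra hcon
          push Not at hcon
          exact hg ⟨hy, fun p q hr hp hq => hcon p q hr hp hq⟩
        obtain ⟨p, q, hr, hp, hq, hh⟩ := this
        rcases hh with hh | hh
        · refine mem_union_left _ ?_
          rw [mem_biUnion]
          refine ⟨(p, q, chi p v, chi q y), ?_, ?_⟩
          · simp only [W, X, mem_filter, mem_product, mem_univ, mem_range, true_and]
            exact ⟨⟨⟨hchi _ _, hchi _ _⟩, hr, hh⟩, mem_bcell.mpr ⟨hp, rfl⟩⟩
          · exact mem_bcell.mpr ⟨hq, rfl⟩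
        · refine mem_union_right _ ?_
          rw [mem_biUnion]
          refine ⟨(q, p, chi q y, chi p v), ?_, ?_⟩
          · simp only [W, Y, mem_filter, mem_product, mem_univ, mem_range, true_and]
            exact ⟨⟨⟨hchi _ _, hchi _ _⟩, rel_symm _ _ _ _ hr, hh⟩, mem_bcell.mpr ⟨hp, rfl⟩⟩
          · exact mem_bcell.mpr ⟨hq, rfl⟩
    have h1 : (nb P v).card ≤ (nb G v).card + (∑ w ∈ W.filter (fun w => v ∈ X w), (Y w).card +
        ∑ w ∈ W.filter (fun w => v ∈ Y w), (X w).card) :=
      calc (nb P v).card ≤ _ := card_le_card hsub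
        _ ≤ (nb G v).card + ((W.filter (fun w => v ∈ X w)).biUnion Y ∪
            (W.filter (fun w => v ∈ Y w)).biUnion X).card := card_union_le _ _
        _ ≤ _ := Nat.add_le_add_left (le_trans (card_union_le _ _)
            (Nat.add_le_add card_biUnion_le card_biUnion_le)) _
    have f1 : ∑ w ∈ W.filter (fun w => v ∈ X w), (Y w).card =
        ∑ w ∈ W, (if v ∈ X w then (Y w).card else 0) := sum_filter _ _
    have f2 : ∑ w ∈ W.filter (fun w => v ∈ Y w), (X w).card =
        ∑ w ∈ W, (if v ∈ Y w then (X w).card else 0) := sum_filter _ _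
    rw [f1, f2] at h1
    have h2 : ((nb P v).card : ℝ) ≤ (((nb G v).card + (∑ w ∈ W, (if v ∈ X w then (Y w).card else 0) +
        ∑ w ∈ W, (if v ∈ Y w then (X w).card else 0)) : ℕ) : ℝ) := by exact_mod_cast h1
    refine le_trans h2 (le_of_eq ?_)
    push_cast
    rfl
  have hsum1 : ∑ v, ∑ w ∈ W, (if v ∈ X w then ((Y w).card : ℝ) else 0) =
      ∑ w ∈ W, ((X w).card : ℝ) * ((Y w).card : ℝ) := by
    rw [sum_comm]
    refine sum_congr rfl (fun w _ => ?_)
    rw [← sum_filter, sum_const, nsmul_eq_mul]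
    congr 3
    ext v
    simp
  have hsum2 : ∑ v, ∑ w ∈ W, (if v ∈ Y w then ((X w).card : ℝ) else 0) =
      ∑ w ∈ W, ((X w).card : ℝ) * ((Y w).card : ℝ) := by
    rw [sum_comm]
    refine sum_congr rfl (fun w _ => ?_)
    rw [← sum_filter, sum_const, nsmul_eq_mul, mul_comm]
    congr 3
    ext v
    simp
  calc ∑ v, ((nb P v).card : ℝ) ≤ ∑ v, (((nb G v).card : ℝ) +
      (∑ w ∈ W, (if v ∈ X w then ((Y w).card : ℝ) else 0) +
        ∑ w ∈ W, (if v ∈ Y w then ((X w).card : ℝ) else 0))) := sum_le_sum fun v _ => hv v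
    _ = _ := by
      rw [sum_add_distrib, sum_add_distrib, hsum1, hsum2]
      ring

end

end XCellsAux

open XCellsAux

theorem exists_red (C d0 e1 s t e : ℝ) (hC : 1 ≤ C) (hd0 : 0 < d0) (he1 : 0 < e1) (hs : 0 < s)
    (hs1 : s ≤ 1) (ht : 0 < t) (ht1 : t ≤ 1 / 4) (he : 0 < e) :
    ∃ M : ℕ, 0 < M ∧ ∀ (V : Type) [Fintype V] (P : SimpleGraph V) (k : ℝ) (m : ℕ)
      (E : Fin m → Finset V), 1 ≤ k → Clean P k C d0 e1 E →
      ∃ (G : SimpleGraph V) (J U : Type) (_ : Fintype J) (_ : Fintype U) (cell : J → Finset V)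
        (hm : J → Fin m) (phi : U → V) (adj : J → J → Prop) (hadj : U → J → Prop), G ≤ P ∧
        Red G k t s E cell hm phi adj hadj ∧ (∀ u j, hadj u j → phi u ∈ cn P E (hm j)) ∧
        (∀ i, (univ.filter (fun j => hm j = i)).card ≤ M) ∧
        ∑ v, ((nb P v).card : ℝ) ≤ ∑ v, ((nb G v).card : ℝ) + e * k * (Fintype.card V : ℝ) := by
  have hK : 0 < ((C + 1) / e1 * C ^ 2 + 2 * C * (C + 1)) / d0 := by positivity
  set K : ℝ := ((C + 1) / e1 * C ^ 2 + 2 * C * (C + 1)) / d0 with hKdef
  have ht' : 0 < t / (C + 1) := by positivity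
  obtain ⟨M, hM, hb⟩ := block_bool s (t / (C + 1)) (e / (2 * K)) hs ht' (by positivity)
    (⌈(C + 1) / e1⌉₊ + 1)
  refine ⟨M, hM, ?_⟩
  intro V _ P k m E hk hcl
  have hk0 : 0 < k := by linarith
  obtain ⟨chi, hchi, hmass⟩ := hb V (Fin m ⊕ Fin m) P (blk P E) (rel P E) (rel_symm P E)
    (rel_deg hcl hk0 he1)
  set t' : ℝ := t / (C + 1) with ht'def
  have htt : t' ≤ t := by
    rw [ht'def]
    exact div_le_self ht.le (by linarith)
  let J : Type := {z : Fin m × Fin M // (bcell (blk P E) chi (Sum.inl z.1) z.2).Nonempty}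
  let U : Type := {v : V // ∀ i, v ∉ E i}
  let cell : J → Finset V := fun j => bcell (blk P E) chi (Sum.inl j.1.1) j.1.2
  let hm : J → Fin m := fun j => j.1.1
  let phi : U → V := fun u => u.1
  set G := delG P E s t' chi with hG
  let adj : J → J → Prop := fun j l => ∃ x ∈ cell j, ∃ y ∈ cell l, G.Adj x y
  let hadj : U → J → Prop := fun u j => phi u ∈ blk P E (Sum.inr (hm j)) ∧
    ∃ v ∈ bcell (blk P E) chi (Sum.inr (hm j)) (chi (Sum.inr (hm j)) (phi u)),
      ∃ y ∈ cell j, G.Adj v y
  have hcellmem : ∀ (j : J) (x : V), x ∈ cell j ↔ x ∈ E (hm j) ∧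
      chi (Sum.inl (hm j)) x = (j.1.2 : ℕ) := by
    intro j x
    simp only [cell, hm]
    rw [mem_bcell]
    rfl
  -- adjacent cells are not holed
  have hnon : ∀ j l : J, adj j l → ¬ Holed P s t' (cell j) (cell l) ∧
      ¬ Holed P s t' (cell l) (cell j) := by
    rintro j l ⟨x, hx, y, hy, hxy⟩
    have hx' := (hcellmem j x).mp hx
    have hy' := (hcellmem l y).mp hy
    have := hxy.2 (Sum.inl (hm j)) (Sum.inl (hm l)) ⟨x, hx'.1, y, hy'.1, hxy.1⟩ hx'.1 hy'.1
    rw [hx'.2, hy'.2] at this
    exact this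
  have hnonh : ∀ (i : Fin m) (a : ℕ) (j : J), hm j = i →
      (∃ v ∈ bcell (blk P E) chi (Sum.inr i) a, ∃ y ∈ cell j, G.Adj v y) →
      ¬ Holed P s t' (bcell (blk P E) chi (Sum.inr i) a) (cell j) ∧
      ¬ Holed P s t' (cell j) (bcell (blk P E) chi (Sum.inr i) a) := by
    rintro i a j hji ⟨v, hv, y, hy, hvy⟩
    subst hji
    have hy' := (hcellmem j y).mp hy
    rw [mem_bcell] at hv
    have := hvy.2 (Sum.inr (hm j)) (Sum.inl (hm j)) rfl hv.1 hy'.1
    rw [hv.2, hy'.2] at this
    exact this
  refine ⟨G, J, U, inferInstance, inferInstance, cell, hm, phi, adj, hadj, ?_, ?_, ?_, ?_, ?_⟩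
  · intro x y h
    exact h.1
  · refine ⟨?_, ?_, ?_, ?_, ?_, ?_, ?_, ?_, ?_, ?_, ?_, ?_⟩
    · -- sub
      intro j x hx
      exact ((hcellmem j x).mp hx).1
    · -- cover
      intro v i hv
      have hne : (bcell (blk P E) chi (Sum.inl i) (chi (Sum.inl i) v)).Nonempty :=
        ⟨v, mem_bcell.mpr ⟨hv, rfl⟩⟩
      refine ⟨⟨(i, ⟨chi (Sum.inl i) v, hchi _ _⟩), hne⟩, ?_⟩
      rw [hcellmem]
      exact ⟨hv, rfl⟩
    · -- cdisj
      intro j l hjl
      rw [disjoint_left]
      intro x hxj hxl
      have h1 := (hcellmem j x).mp hxj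
      have h2 := (hcellmem l x).mp hxl
      have h3 : hm j = hm l := by
        by_contra hne
        exact (disjoint_left.mp (hcl.disj _ _ hne)) h1.1 h2.1
      apply hjl
      apply Subtype.ext
      apply Prod.ext
      · exact h3
      · apply Fin.ext
        rw [← h1.2, ← h2.2, h3]
    · -- edisj
      exact hcl.disj
    · -- inj
      exact Subtype.val_injective
    · -- hub
      intro v
      constructor
      · rintro ⟨u, hu⟩ i
        rw [← hu]
        exact u.2 i
      · intro hv
        exact ⟨⟨v, hv⟩, rfl⟩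
    · -- symm
      rintro i j ⟨x, hx, y, hy, h⟩
      exact ⟨y, hy, x, hx, h.symm⟩
    · -- cpos
      intro j
      exact card_pos.mpr j.2
    · -- ex
      intro j l x hx y hy h
      exact ⟨x, hx, y, hy, h⟩
    · -- hex
      intro u j y hy h
      have hu : phi u ∈ blk P E (Sum.inr (hm j)) :=
        mem_hub u.2 ((hcellmem j y).mp hy).1 h.1
      exact ⟨hu, phi u, mem_bcell.mpr ⟨hu, rfl⟩, y, hy, h⟩
    · -- full
      intro j l hjl X hX hXs
      obtain ⟨hn1, hn2⟩ := hnon j l hjl
      by_contra hcon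
      push Not at hcon
      apply hn1
      obtain ⟨x, hx, y, hy, hxy⟩ := hjl
      refine ⟨⟨x, hx, y, hy, hxy.1⟩, X, hX,
        (cell l).filter (fun y => ∀ x ∈ X, ¬ G.Adj x y), filter_subset _ _, hXs, ?_, ?_⟩
      · refine le_trans ?_ hcon.le
        exact mul_le_mul_of_nonneg_right htt (by positivity)
      · intro x' hx' y' hy' hP
        rw [mem_filter] at hy'
        apply hy'.2 x' hx'
        have hxm := (hcellmem j x').mp (hX hx')
        have hym := (hcellmem l y').mp hy'.1
        refine adj_home hcl hxm.1 hym.1 hP ?_ ?_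
        · rw [hxm.2, hym.2]
          exact hn1
        · rw [hxm.2, hym.2]
          exact hn2
    · -- hfull
      intro i X hX
      set Bad : Finset U := univ.filter (fun u : U =>
        (∃ j, hm j = i ∧ hadj u j ∧ s * wt cell j ≤ ((X ∩ cell j).card : ℝ)) ∧
          ∀ x ∈ X, ¬ G.Adj x (phi u)) with hBad
      have hcard : Bad.card = (Bad.image phi).card :=
        (card_image_of_injective _ Subtype.val_injective).symm
      have hsubO : Bad.image phi ⊆ blk P E (Sum.inr i) := by
        intro v hv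
        rw [mem_image] at hv
        obtain ⟨u, hu, rfl⟩ := hv
        rw [hBad, mem_filter] at hu
        obtain ⟨-, ⟨j, hj, hh, -⟩, -⟩ := hu
        subst hj
        exact hh.1
      have hfib : ∀ a ∈ range M, (((Bad.image phi).filter
          (fun v => chi (Sum.inr i) v = a)).card : ℝ) ≤
            t' * ((bcell (blk P E) chi (Sum.inr i) a).card : ℝ) := by
        intro a _
        by_cases hemp : ((Bad.image phi).filter (fun v => chi (Sum.inr i) v = a)) = ∅
        · rw [hemp]
          simp only [card_empty, Nat.cast_zero]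
          positivity
        · obtain ⟨v0, hv0⟩ := nonempty_iff_ne_empty.mpr hemp
          rw [mem_filter, mem_image] at hv0
          obtain ⟨⟨u0, hu0, rfl⟩, hua⟩ := hv0
          rw [hBad, mem_filter] at hu0
          obtain ⟨-, ⟨j, hj, hh, hsj⟩, -⟩ := hu0
          obtain ⟨hh1, hh2⟩ := hh
          rw [hj, hua] at hh2
          obtain ⟨hn1, hn2⟩ := hnonh i a j hj hh2
          by_contra hcon
          push Not at hcon
          apply hn2
          obtain ⟨v, hv, y, hy, hvy⟩ := hh2
          refine ⟨⟨y, hy, v, hv, hvy.1.symm⟩, X ∩ cell j, inter_subset_right,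
            (Bad.image phi).filter (fun v => chi (Sum.inr i) v = a), ?_, hsj, hcon.le, ?_⟩
          · intro v hv
            rw [mem_filter] at hv
            exact mem_bcell.mpr ⟨hsubO hv.1, hv.2⟩
          · intro x hx w hw hP
            rw [mem_filter] at hw
            have hwO := hsubO hw.1
            have hwa := hw.2
            rw [mem_image] at hw
            obtain ⟨⟨u, hu, rfl⟩, -⟩ := hw
            rw [hBad, mem_filter] at hu
            apply hu.2.2 x (mem_inter.mp hx).1
            have hxm := (hcellmem j x).mp (mem_inter.mp hx).2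
            rw [hj] at hxm
            have hcj : cell j = bcell (blk P E) chi (Sum.inl i) j.1.2 := by
              rw [← hj]
            refine (adj_hub hcl hwO hxm.1 hP.symm ?_ ?_).symm
            · rw [hwa, hxm.2, ← hcj]
              exact hn1
            · rw [hwa, hxm.2, ← hcj]
              exact hn2
      have hsum : (Bad.card : ℝ) = ∑ a ∈ range M, (((Bad.image phi).filter
          (fun v => chi (Sum.inr i) v = a)).card : ℝ) := by
        rw [hcard, card_eq_sum_card_fiberwise (f := fun v => chi (Sum.inr i) v)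
          (t := range M) (fun v _ => by simpa using hchi (Sum.inr i) v)]
        push_cast
        rfl
      have hsum2 : ((blk P E (Sum.inr i)).card : ℝ) = ∑ a ∈ range M,
          ((bcell (blk P E) chi (Sum.inr i) a).card : ℝ) := by
        rw [card_eq_sum_card_fiberwise (f := fun v => chi (Sum.inr i) v)
          (s := blk P E (Sum.inr i)) (t := range M)
          (fun v _ => by simpa using hchi (Sum.inr i) v)]
        push_cast
        rfl
      have key : (Bad.card : ℝ) ≤ t * k := by
        rw [hsum]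
        calc _ ≤ ∑ a ∈ range M, t' * ((bcell (blk P E) chi (Sum.inr i) a).card : ℝ) :=
              sum_le_sum hfib
          _ = t' * ((blk P E (Sum.inr i)).card : ℝ) := by rw [← mul_sum, hsum2]
          _ ≤ t' * ((C + 1) * k) := mul_le_mul_of_nonneg_left (hub_card hcl i) ht'.le
          _ = t * k := by
            rw [ht'def]
            field_simp
      convert key
  · intro u j h
    exact hub_sub_cn h.1
  · intro i
    have : (univ.filter (fun j : J => hm j = i)).card ≤ (univ : Finset (Fin M)).card := by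
      refine card_le_card_of_injOn (fun j => j.1.2) (fun j _ => mem_univ _) ?_
      intro j hj l hl hjl
      simp only [coe_filter, Set.mem_setOf_eq, mem_univ, true_and] at hj hl
      apply Subtype.ext
      apply Prod.ext
      · exact hj.trans hl.symm
      · exact hjl
    simpa using this
  · have h1 := deleted_le (P := P) (E := E) (s := s) (t := t') (chi := chi) (M := M) hchi
    have h2 := mass_le hcl hk hC hd0 he1
    rw [← hKdef] at h2
    refine le_trans h1 (add_le_add le_rfl ?_)
    calc _ ≤ 2 * (e / (2 * K) * ∑ p, ∑ q ∈ univ.filter (rel P E p),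
          ((blk P E p).card : ℝ) * ((blk P E q).card : ℝ)) :=
          mul_le_mul_of_nonneg_left hmass (by norm_num)
      _ ≤ 2 * (e / (2 * K) * (K * k * (Fintype.card V : ℝ))) := by
          refine mul_le_mul_of_nonneg_left (mul_le_mul_of_nonneg_left h2 ?_) (by norm_num)
          positivity
      _ = e * k * (Fintype.card V : ℝ) := by
          field_simp

end LCX
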