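import Pool.Agent.Lib_MP_0bab5c_x.XDef

/-! # Cleaning lemma

State: a subgraph `G'` of `G`, disjoint homes `E i` of size at least `d0 k` and at most `C k`,
sets `X i` containing `E i` and `bd G' (E i)` with at most `(C+1) k` elements, a set of dead pairs
`(u, i)` with `u` in `X i` and no edge of `G'` between `u` and `E i`, and
degree loss at most `2 |V| + 2 e1 k #(dead pairs)`.
Start: delete all edges at the vertex of degree more than `(C+1) k` (there is at most one, because
`x -> z` gives `nb x` inside `A` and its boundary), no homes.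
If `0 < |nb' u ∩ E i| < e1 k`, delete these edges: one more dead pair. If `full` fails for `A`, add
the home `A` minus the old homes (its closed neighbourhood lies in `A` and `bd A`).
A state with the maximum number of homes and, among these, of dead pairs is clean; there are at
most `|V| / (d0 k)` homes and `(C+1) k` dead pairs per home.
-/

namespace LCX

open Finset
open scoped Classical

variable {V : Type} [Fintype V]

private theorem mem_nb {G : SimpleGraph V} {v a : V} : a ∈ nb G v ↔ G.Adj v a := by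
  unfold nb
  rw [mem_filter]
  exact ⟨fun h => h.2, fun h => ⟨mem_univ _, h⟩⟩

private theorem mem_bd {G : SimpleGraph V} {A : Finset V} {v : V} :
    v ∈ bd G A ↔ v ∉ A ∧ ∃ a ∈ A, G.Adj a v := by
  unfold bd
  rw [mem_filter]
  exact ⟨fun h => h.2, fun h => ⟨mem_univ _, h⟩⟩

private theorem nb_mono {G G' : SimpleGraph V} (h : G' ≤ G) (v : V) : nb G' v ⊆ nb G v :=
  fun _ ha => mem_nb.mpr (h (mem_nb.mp ha))

private theorem bd_mono {G G' : SimpleGraph V} (h : G' ≤ G) (A : Finset V) :
    bd G' A ⊆ bd G A := by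
  intro v hv
  obtain ⟨h1, a, ha, h2⟩ := mem_bd.mp hv
  exact mem_bd.mpr ⟨h1, a, ha, h h2⟩

private theorem cut_mono {G G' : SimpleGraph V} (h : G' ≤ G) {K L : ℝ} {x z : V} {A : Finset V}
    (hA : IsCut G K L x z A) : IsCut G' K L x z A := by
  obtain ⟨h1, h2, h3, h4, h5⟩ := hA
  refine ⟨h1, h2, fun a ha hz => h3 a ha (h hz), le_trans ?_ h4, h5⟩
  exact_mod_cast card_le_card (bd_mono h A)

private theorem cuts_mono {G G' : SimpleGraph V} (h : G' ≤ G) {k C : ℝ} (hc : SmallCuts G k C) :
    SmallCuts G' k C := by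
  intro x z hxz
  rcases hc x z hxz with ⟨A, hA⟩ | ⟨A, hA⟩
  · exact Or.inl ⟨A, cut_mono h hA⟩
  · exact Or.inr ⟨A, cut_mono h hA⟩

/-- Deletion of the edges between `u` and `F`. -/
private theorem exists_del (G : SimpleGraph V) (u : V) (F : Finset V) :
    ∃ G' : SimpleGraph V, G' ≤ G ∧ nb G' u ∩ F = ∅ ∧
      ∑ v, ((nb G v).card : ℝ) ≤ ∑ v, ((nb G' v).card : ℝ) + 2 * ((nb G u ∩ F).card : ℝ) := by
  refine ⟨G.deleteEdges {e | ∃ b ∈ F, e = s(u, b)}, SimpleGraph.deleteEdges_le _, ?_, ?_⟩
  · rw [Finset.eq_empty_iff_forall_notMem]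
    intro b hb
    rw [mem_inter, mem_nb, SimpleGraph.deleteEdges_adj] at hb
    exact hb.1.2 ⟨b, hb.2, rfl⟩
  · have hp : ∀ v, ((nb G v).card : ℝ) ≤
        ((nb (G.deleteEdges {e | ∃ b ∈ F, e = s(u, b)}) v).card : ℝ) +
          ((if v = u then ((nb G u ∩ F).card : ℝ) else 0) +
            (if v ∈ nb G u ∩ F then (1 : ℝ) else 0)) := by
      intro v
      have hsub : nb G v ⊆ nb (G.deleteEdges {e | ∃ b ∈ F, e = s(u, b)}) v ∪
          ((if v = u then nb G u ∩ F else ∅) ∪ (if v ∈ nb G u ∩ F then {u} else ∅)) := by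
        intro a ha
        rw [mem_nb] at ha
        by_cases h : s(v, a) ∈ {e | ∃ b ∈ F, e = s(u, b)}
        · obtain ⟨b, hb, he⟩ := h
          rw [Sym2.eq_iff] at he
          rcases he with ⟨h1, h2⟩ | ⟨h1, h2⟩
          · refine mem_union_right _ (mem_union_left _ ?_)
            rw [if_pos h1, mem_inter, mem_nb]
            rw [h1] at ha
            exact ⟨ha, h2 ▸ hb⟩
          · refine mem_union_right _ (mem_union_right _ ?_)
            rw [if_pos, h2]
            · exact mem_singleton_self u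
            · rw [mem_inter, mem_nb]
              rw [h2] at ha
              exact ⟨ha.symm, h1 ▸ hb⟩
        · refine mem_union_left _ ?_
          rw [mem_nb, SimpleGraph.deleteEdges_adj]
          exact ⟨ha, h⟩
      have h1 := (card_le_card hsub).trans ((card_union_le _ _).trans
        (Nat.add_le_add_left (card_union_le _ _) _))
      have e1 : (((if v = u then nb G u ∩ F else ∅ : Finset V)).card : ℝ) =
          if v = u then ((nb G u ∩ F).card : ℝ) else 0 := by
        split_ifs
        · rfl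
        · rw [card_empty, Nat.cast_zero]
      have e2 : (((if v ∈ nb G u ∩ F then {u} else ∅ : Finset V)).card : ℝ) =
          if v ∈ nb G u ∩ F then (1 : ℝ) else 0 := by
        split_ifs
        · rw [card_singleton, Nat.cast_one]
        · rw [card_empty, Nat.cast_zero]
      rw [← e1, ← e2]
      exact_mod_cast h1
    refine (Finset.sum_le_sum fun v _ => hp v).trans ?_
    rw [Finset.sum_add_distrib, Finset.sum_add_distrib, Finset.sum_ite_eq' univ u,
      if_pos (mem_univ u), ← Finset.sum_filter, Finset.sum_const, nsmul_one]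
    have e3 : (univ.filter fun v => v ∈ nb G u ∩ F) = nb G u ∩ F := by
      ext v
      rw [mem_filter]
      exact ⟨fun h => h.2, fun h => ⟨mem_univ _, h⟩⟩
    rw [e3]
    linarith

/-- The states. -/
private structure St (G1 G' : SimpleGraph V) (k C d0 e1 : ℝ) (m : ℕ)
    (E X Dd : Fin m → Finset V) : Prop where
  le : G' ≤ G1
  disj : ∀ i i', i ≠ i' → Disjoint (E i) (E i')
  low : ∀ i, d0 * k ≤ ((E i).card : ℝ)
  high : ∀ i, ((E i).card : ℝ) ≤ C * k
  sub : ∀ i, E i ∪ bd G' (E i) ⊆ X i
  xc : ∀ i, ((X i).card : ℝ) ≤ (C + 1) * k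
  dd : ∀ i, ∀ u ∈ Dd i, u ∈ X i ∧ nb G' u ∩ E i = ∅
  loss : ∑ v, ((nb G1 v).card : ℝ) ≤ ∑ v, ((nb G' v).card : ℝ) +
    2 * e1 * k * ((∑ i, (Dd i).card : ℕ) : ℝ)

private theorem St.m_le {G1 G' : SimpleGraph V} {k C d0 e1 : ℝ} {m : ℕ}
    {E X Dd : Fin m → Finset V} (h : St G1 G' k C d0 e1 m E X Dd) :
    (m : ℝ) * (d0 * k) ≤ (Fintype.card V : ℝ) := by
  have h1 : (univ.biUnion E).card = ∑ i, (E i).card :=
    card_biUnion fun i _ i' _ hne => h.disj i i' hne
  have h2 : (univ.biUnion E).card ≤ Fintype.card V := card_le_univ _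
  have h3 : ∑ i : Fin m, d0 * k ≤ ∑ i, ((E i).card : ℝ) := Finset.sum_le_sum fun i _ => h.low i
  rw [Finset.sum_const, card_univ, Fintype.card_fin, nsmul_eq_mul] at h3
  refine h3.trans ?_
  rw [← Nat.cast_sum, ← h1]
  exact_mod_cast h2

private theorem St.m_le' {G1 G' : SimpleGraph V} {k C d0 e1 : ℝ} {m : ℕ}
    {E X Dd : Fin m → Finset V} (h : St G1 G' k C d0 e1 m E X Dd) (hp : 0 < d0 * k) :
    m ≤ Fintype.card V := by
  have h1 : (univ.biUnion E).card = ∑ i, (E i).card :=
    card_biUnion fun i _ i' _ hne => h.disj i i' hne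
  have h2 : (univ.biUnion E).card ≤ Fintype.card V := card_le_univ _
  have h3 : ∑ i : Fin m, 1 ≤ ∑ i, (E i).card := by
    refine Finset.sum_le_sum fun i _ => ?_
    have h4 := h.low i
    have h5 : (0 : ℝ) < ((E i).card : ℝ) := lt_of_lt_of_le hp h4
    exact_mod_cast h5
  rw [Finset.sum_const, card_univ, Fintype.card_fin, smul_eq_mul, mul_one] at h3
  omega

private theorem St.dd_le {G1 G' : SimpleGraph V} {k C d0 e1 : ℝ} {m : ℕ}
    {E X Dd : Fin m → Finset V} (h : St G1 G' k C d0 e1 m E X Dd) :
    ((∑ i, (Dd i).card : ℕ) : ℝ) ≤ (m : ℝ) * ((C + 1) * k) := by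
  rw [Nat.cast_sum]
  have h3 : ∑ i : Fin m, ((Dd i).card : ℝ) ≤ ∑ i : Fin m, (C + 1) * k := by
    refine Finset.sum_le_sum fun i _ => le_trans ?_ (h.xc i)
    exact_mod_cast card_le_card fun u hu => (h.dd i u hu).1
  rwa [Finset.sum_const, card_univ, Fintype.card_fin, nsmul_eq_mul] at h3

private theorem dd_le' {m : ℕ} (Dd : Fin m → Finset V) (hm : m ≤ Fintype.card V) :
    ∑ i, (Dd i).card ≤ Fintype.card V * Fintype.card V := by
  calc ∑ i, (Dd i).card ≤ ∑ _i : Fin m, Fintype.card V :=
        Finset.sum_le_sum fun i _ => card_le_univ _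
    _ = m * Fintype.card V := by
        rw [Finset.sum_const, card_univ, Fintype.card_fin, smul_eq_mul]
    _ ≤ Fintype.card V * Fintype.card V := Nat.mul_le_mul_right _ hm

/-- One step. -/
private theorem step {G1 G' : SimpleGraph V} {k C d0 e1 : ℝ} {m : ℕ}
    {E X Dd : Fin m → Finset V} (h : St G1 G' k C d0 e1 m E X Dd)
    (hdeg : ∀ v, ((nb G1 v).card : ℝ) ≤ (C + 1) * k) :
    Clean G' k C d0 e1 E ∨
      (∃ (G'' : SimpleGraph V) (Dd' : Fin m → Finset V), St G1 G'' k C d0 e1 m E X Dd' ∧
        ∑ i, (Dd i).card < ∑ i, (Dd' i).card) ∨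
      ∃ (E' X' Dd' : Fin (m + 1) → Finset V), St G1 G' k C d0 e1 (m + 1) E' X' Dd' := by
  by_cases hth : ∀ v i, nb G' v ∩ E i = ∅ ∨ e1 * k ≤ ((nb G' v ∩ E i).card : ℝ)
  · by_cases hfu : ∀ A : Finset V, (A.card : ℝ) ≤ C * k → ((bd G' A).card : ℝ) ≤ k →
      ((A.filter (fun v => ∀ i, v ∉ E i)).card : ℝ) ≤ d0 * k
    · refine Or.inl ⟨h.disj, h.low, h.high, fun i => ?_, fun v => ?_, hth, hfu⟩
      · refine le_trans ?_ (h.xc i)
        exact_mod_cast card_le_card (h.sub i)
      · refine le_trans ?_ (hdeg v)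
        exact_mod_cast card_le_card (nb_mono h.le v)
    · refine Or.inr (Or.inr ?_)
      push Not at hfu
      obtain ⟨A, hA1, hA2, hA3⟩ := hfu
      refine ⟨Fin.cons (A.filter (fun v => ∀ i, v ∉ E i)) E, Fin.cons (A ∪ bd G' A) X,
        Fin.cons ∅ Dd, ?_⟩
      refine ⟨h.le, ?_, ?_, ?_, ?_, ?_, ?_, ?_⟩
      · intro i i' hne
        refine Fin.cases ?_ (fun j => ?_) i (motive := fun i => i ≠ i' →
          Disjoint ((Fin.cons (A.filter (fun v => ∀ i, v ∉ E i)) E : Fin (m + 1) → Finset V) i)
            ((Fin.cons (A.filter (fun v => ∀ i, v ∉ E i)) E : Fin (m + 1) → Finset V) i')) hne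
        · refine Fin.cases ?_ (fun j' => ?_) i' (motive := fun i' => (0 : Fin (m + 1)) ≠ i' →
            Disjoint ((Fin.cons (A.filter (fun v => ∀ i, v ∉ E i)) E :
              Fin (m + 1) → Finset V) 0)
              ((Fin.cons (A.filter (fun v => ∀ i, v ∉ E i)) E : Fin (m + 1) → Finset V) i'))
          · intro h0
            exact absurd rfl h0
          · intro _
            rw [Fin.cons_zero, Fin.cons_succ, Finset.disjoint_left]
            intro v hv hv'
            exact (mem_filter.mp hv).2 j' hv'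
        · refine Fin.cases ?_ (fun j' => ?_) i' (motive := fun i' => j.succ ≠ i' →
            Disjoint ((Fin.cons (A.filter (fun v => ∀ i, v ∉ E i)) E :
              Fin (m + 1) → Finset V) j.succ)
              ((Fin.cons (A.filter (fun v => ∀ i, v ∉ E i)) E : Fin (m + 1) → Finset V) i'))
          · intro _
            rw [Fin.cons_zero, Fin.cons_succ, Finset.disjoint_left]
            intro v hv' hv
            exact (mem_filter.mp hv).2 j hv'
          · intro hne'
            rw [Fin.cons_succ, Fin.cons_succ]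
            exact h.disj j j' fun e => hne' (by rw [e])
      · intro i
        refine Fin.cases ?_ (fun j => ?_) i
        · rw [Fin.cons_zero]
          exact hA3.le
        · rw [Fin.cons_succ]
          exact h.low j
      · intro i
        refine Fin.cases ?_ (fun j => ?_) i
        · rw [Fin.cons_zero]
          refine le_trans ?_ hA1
          exact_mod_cast card_le_card (filter_subset _ _)
        · rw [Fin.cons_succ]
          exact h.high j
      · intro i
        refine Fin.cases ?_ (fun j => ?_) i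
        · rw [Fin.cons_zero, Fin.cons_zero]
          intro v hv
          rcases mem_union.mp hv with h1 | h1
          · exact mem_union_left _ (mem_filter.mp h1).1
          · obtain ⟨_, a, ha, h2⟩ := mem_bd.mp h1
            by_cases hvA : v ∈ A
            · exact mem_union_left _ hvA
            · exact mem_union_right _ (mem_bd.mpr ⟨hvA, a, (mem_filter.mp ha).1, h2⟩)
        · rw [Fin.cons_succ, Fin.cons_succ]
          exact h.sub j
      · intro i
        refine Fin.cases ?_ (fun j => ?_) i
        · rw [Fin.cons_zero]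
          have h1 : (((A ∪ bd G' A).card : ℕ) : ℝ) ≤ (A.card : ℝ) + ((bd G' A).card : ℝ) := by
            exact_mod_cast card_union_le _ _
          linarith
        · rw [Fin.cons_succ]
          exact h.xc j
      · intro i
        refine Fin.cases ?_ (fun j => ?_) i
        · rw [Fin.cons_zero]
          intro u hu
          exact absurd hu (notMem_empty u)
        · rw [Fin.cons_succ, Fin.cons_succ, Fin.cons_succ]
          exact h.dd j
      · have e : ∑ i, ((Fin.cons ∅ Dd : Fin (m + 1) → Finset V) i).card = ∑ i, (Dd i).card := by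
          rw [Fin.sum_univ_succ, Fin.cons_zero, card_empty, zero_add]
          refine Finset.sum_congr rfl fun i _ => ?_
          rw [Fin.cons_succ]
        rw [e]
        exact h.loss
  · refine Or.inr (Or.inl ?_)
    push Not at hth
    obtain ⟨u, i, h1, h2⟩ := hth
    obtain ⟨G'', hle, hnb, hloss⟩ := exists_del G' u (E i)
    have huD : u ∉ Dd i := fun hu => h1.ne_empty (h.dd i u hu).2
    have huX : u ∈ X i := by
      obtain ⟨a, ha⟩ := h1
      rw [mem_inter, mem_nb] at ha
      refine h.sub i ?_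
      by_cases hu : u ∈ E i
      · exact mem_union_left _ hu
      · exact mem_union_right _ (mem_bd.mpr ⟨hu, a, ha.2, ha.1.symm⟩)
    have hsum : ∑ j, ((Function.update Dd i (insert u (Dd i))) j).card =
        ∑ j, (Dd j).card + 1 := by
      have e1 : ∀ j, ((Function.update Dd i (insert u (Dd i))) j).card =
          (Dd j).card + if j = i then 1 else 0 := by
        intro j
        by_cases hj : j = i
        · rw [if_pos hj, hj, Function.update_self, card_insert_of_notMem huD]
        · rw [if_neg hj, Function.update_of_ne hj, add_zero]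
      rw [Finset.sum_congr rfl fun j _ => e1 j, Finset.sum_add_distrib,
        Finset.sum_ite_eq' univ i, if_pos (mem_univ i)]
    refine ⟨G'', Function.update Dd i (insert u (Dd i)), ⟨hle.trans h.le, h.disj, h.low, h.high,
      ?_, h.xc, ?_, ?_⟩, ?_⟩
    · intro j
      exact (union_subset_union_right (bd_mono hle (E j))).trans (h.sub j)
    · intro j w hw
      by_cases hj : j = i
      · subst hj
        rw [Function.update_self, mem_insert] at hw
        rcases hw with rfl | hw
        · exact ⟨huX, hnb⟩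
        · refine ⟨(h.dd j w hw).1, ?_⟩
          have h3 := Finset.inter_subset_inter (nb_mono hle w) (Finset.Subset.refl (E j))
          rw [(h.dd j w hw).2] at h3
          exact subset_empty.mp h3
      · rw [Function.update_of_ne hj] at hw
        refine ⟨(h.dd j w hw).1, ?_⟩
        have h3 := Finset.inter_subset_inter (nb_mono hle w) (Finset.Subset.refl (E j))
        rw [(h.dd j w hw).2] at h3
        exact subset_empty.mp h3
    · rw [hsum]
      have h3 := h.loss
      push_cast
      push_cast at h3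
      nlinarith [h3, hloss, h2]
    · rw [hsum]
      exact Nat.lt_succ_self _

private theorem run {G1 : SimpleGraph V} {k C d0 e1 : ℝ} (hk : 1 ≤ k) (hd0 : 0 < d0)
    (hdeg : ∀ v, ((nb G1 v).card : ℝ) ≤ (C + 1) * k) (n : ℕ) :
    ∀ (G' : SimpleGraph V) (m : ℕ) (E X Dd : Fin m → Finset V), St G1 G' k C d0 e1 m E X Dd →
      (Fintype.card V + 1) * (Fintype.card V * Fintype.card V + 1) ≤
        m * (Fintype.card V * Fintype.card V + 1) + ∑ i, (Dd i).card + n →
      ∃ (G'' : SimpleGraph V) (m' : ℕ) (E' X' Dd' : Fin m' → Finset V),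
        St G1 G'' k C d0 e1 m' E' X' Dd' ∧ Clean G'' k C d0 e1 E' := by
  have hp : 0 < d0 * k := mul_pos hd0 (by linarith)
  induction n with
  | zero =>
    intro G' m E X Dd h hn
    exfalso
    have h1 := h.m_le' hp
    have h2 := dd_le' Dd h1
    have h3 : m * (Fintype.card V * Fintype.card V + 1) ≤
        Fintype.card V * (Fintype.card V * Fintype.card V + 1) := Nat.mul_le_mul_right _ h1
    have h4 : (Fintype.card V + 1) * (Fintype.card V * Fintype.card V + 1) =
        Fintype.card V * (Fintype.card V * Fintype.card V + 1) +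
          (Fintype.card V * Fintype.card V + 1) := by ring
    omega
  | succ n ih =>
    intro G' m E X Dd h hn
    rcases step h hdeg with hc | ⟨G'', Dd', h', hlt⟩ | ⟨E', X', Dd', h'⟩
    · exact ⟨G', m, E, X, Dd, h, hc⟩
    · exact ih G'' m E X Dd' h' (by omega)
    · refine ih G' (m + 1) E' X' Dd' h' ?_
      have h2 := dd_le' Dd (h.m_le' hp)
      have h4 : (m + 1) * (Fintype.card V * Fintype.card V + 1) =
        m * (Fintype.card V * Fintype.card V + 1) +
          (Fintype.card V * Fintype.card V + 1) := by ring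
      omega

/-- The start. -/
private theorem start (G : SimpleGraph V) (k C : ℝ) (hk : 1 ≤ k) (hC : 1 ≤ C)
    (hcut : SmallCuts G k C) :
    ∃ G1 : SimpleGraph V, G1 ≤ G ∧ (∀ v, ((nb G1 v).card : ℝ) ≤ (C + 1) * k) ∧
      ∑ v, ((nb G v).card : ℝ) ≤ ∑ v, ((nb G1 v).card : ℝ) + 2 * (Fintype.card V : ℝ) := by
  have key : ∀ x z : V, (∃ A, IsCut G k (C * k) x z A) → ((nb G x).card : ℝ) ≤ (C + 1) * k := by
    rintro x z ⟨A, h1, _, _, h4, h5⟩
    have hs : nb G x ⊆ A ∪ bd G A := by
      intro a ha
      rw [mem_nb] at ha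
      by_cases haA : a ∈ A
      · exact mem_union_left _ haA
      · exact mem_union_right _ (mem_bd.mpr ⟨haA, x, h1, ha⟩)
    have h6 : ((nb G x).card : ℝ) ≤ (A.card : ℝ) + ((bd G A).card : ℝ) := by
      exact_mod_cast (card_le_card hs).trans (card_union_le _ _)
    linarith
  by_cases hall : ∀ v, ((nb G v).card : ℝ) ≤ (C + 1) * k
  · refine ⟨G, le_refl _, hall, ?_⟩
    have : (0 : ℝ) ≤ (Fintype.card V : ℝ) := Nat.cast_nonneg _
    linarith
  · push Not at hall
    obtain ⟨v0, hv0⟩ := hall
    obtain ⟨G1, hle, hnb, hloss⟩ := exists_del G v0 univ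
    refine ⟨G1, hle, fun v => ?_, hloss.trans ?_⟩
    · by_cases hv : v = v0
      · rw [inter_univ] at hnb
        rw [hv, hnb, card_empty, Nat.cast_zero]
        have h1 : (0 : ℝ) < C + 1 := by linarith
        have h2 : (0 : ℝ) < k := by linarith
        exact (mul_pos h1 h2).le
      · refine le_trans (b := ((nb G v).card : ℝ)) ?_ ?_
        · exact_mod_cast card_le_card (nb_mono hle v)
        · rcases hcut v v0 hv with h1 | h1
          · exact key v v0 h1
          · exact absurd (key v0 v h1) (not_le.mpr hv0)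
    · have : ((nb G v0 ∩ univ).card : ℝ) ≤ (Fintype.card V : ℝ) := by
        exact_mod_cast card_le_univ _
      linarith

theorem cleaning (G : SimpleGraph V) (k C d0 e1 : ℝ) (hk : 1 ≤ k) (hC : 1 ≤ C) (hd0 : 0 < d0)
    (he1 : 0 < e1) (hcut : SmallCuts G k C) :
    ∃ (G' : SimpleGraph V) (m : ℕ) (E : Fin m → Finset V), G' ≤ G ∧ Clean G' k C d0 e1 E ∧
      SmallCuts G' k C ∧
      ∑ v, ((nb G v).card : ℝ) ≤ ∑ v, ((nb G' v).card : ℝ) + 2 * (Fintype.card V : ℝ) +
        2 * e1 * (C + 1) / d0 * k * (Fintype.card V : ℝ) := by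
  obtain ⟨G1, hle1, hdeg, hl1⟩ := start G k C hk hC hcut
  have h0 : St G1 G1 k C d0 e1 0 (fun i => i.elim0) (fun i => i.elim0) (fun i => i.elim0) := by
    refine ⟨le_refl _, fun i => i.elim0, fun i => i.elim0, fun i => i.elim0, fun i => i.elim0,
      fun i => i.elim0, fun i => i.elim0, ?_⟩
    rw [Fin.sum_univ_zero, Nat.cast_zero, mul_zero, add_zero]
  obtain ⟨G', m, E, X, Dd, hst, hcl⟩ := run hk hd0 hdeg
    ((Fintype.card V + 1) * (Fintype.card V * Fintype.card V + 1)) G1 0 _ _ _ h0
    (Nat.le_add_left _ _)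
  have hle : G' ≤ G := hst.le.trans hle1
  refine ⟨G', m, E, hle, hcl, cuts_mono hle hcut, hl1.trans ?_⟩
  have h1 := hst.loss
  have h2 := hst.dd_le
  have h3 := hst.m_le
  have hk0 : (0 : ℝ) < k := by linarith
  have hC1 : (0 : ℝ) < C + 1 := by linarith
  have h4 : 2 * e1 * k * ((∑ i, (Dd i).card : ℕ) : ℝ) ≤
      2 * e1 * (C + 1) / d0 * k * (Fintype.card V : ℝ) := by
    calc 2 * e1 * k * ((∑ i, (Dd i).card : ℕ) : ℝ)
        ≤ 2 * e1 * k * ((m : ℝ) * ((C + 1) * k)) :=
          mul_le_mul_of_nonneg_left h2 (by positivity)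
      _ = 2 * e1 * (C + 1) / d0 * k * ((m : ℝ) * (d0 * k)) := by
          field_simp
      _ ≤ 2 * e1 * (C + 1) / d0 * k * (Fintype.card V : ℝ) :=
          mul_le_mul_of_nonneg_left h3 (by positivity)
  linarith

end LCX
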