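import Pool.Agent.Lib_MP_0bab5c_x.XDef

/-! # The numerical inequality (N)

Linearisation: with the multiplier `(g + kap)/(1 - g)` everything reduces to one class.
For `p >= kap`, `x >= p` (so `T`-value `(1-p)/p`): `p x^2 - x (1-p)(kap+p) + kap (1-p+p^2) >= 0`, its
discriminant is `-(p-b)^2 (-p^2+6 b p-b^2)`, `b = 2 - sqrt 3`, `kap = b^2 = 4b-1`.
For `p >= kap`, `x < p`: `p^3 (x+kap) - p^2 x (1-x) + kap x (1-x)^2 >= 0` for all `p >= 0`, since
`kap (x+kap)^2 >= (4/27) x^2 (1-x)` on `[0,1]`.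
For `p < kap`: trivial (`x <= 1-p`, payment at least `min (x ..) (1-p)`).
`Fpay p` is concave on `[x, 1-p]` and increasing afterwards, so `T = x` and `T = 1-p` suffice.
-/

namespace LCX

open Finset

private theorem kap_pos : 0 < kap := by
  unfold kap
  have h : Real.sqrt 3 < 7 / 4 := by
    rw [show (7 / 4 : ℝ) = Real.sqrt ((7 / 4) ^ 2) by rw [Real.sqrt_sq (by norm_num)]]
    exact Real.sqrt_lt_sqrt (by norm_num) (by norm_num)
  linarith

private theorem kap_lower : (717 / 10000 : ℝ) ≤ kap := by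
  unfold kap
  have h : Real.sqrt 3 ≤ 1732075 / 1000000 := by
    rw [show (1732075 / 1000000 : ℝ) = Real.sqrt ((1732075 / 1000000) ^ 2) by
      rw [Real.sqrt_sq (by norm_num)]]
    exact Real.sqrt_le_sqrt (by norm_num)
  linarith

/-- for `p < kap` : one class -/
private theorem class_small (p x T : ℝ) (hp : 0 ≤ p) (hpx : p ≤ 1 - x) (hx0 : 0 ≤ x)
    (hT : x ≤ T) (hpk : p ≤ kap) :
    x * (1 - x) - p * (x + kap) ≤ kap * (1 - x) * Fpay p T := by
  have hk := kap_pos
  have hm : max p kap = kap := max_eq_right hpk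
  unfold Fpay
  rw [hm]
  have h1x : 0 ≤ 1 - x := hp.trans hpx
  have e : kap * (1 - x) * (T / kap * (1 + max 0 (1 - p - T) / kap)) =
      (1 - x) * (T * (1 + max 0 (1 - p - T) / kap)) := by
    field_simp
  rw [e]
  have h2 : x * (1 - x) - p * (x + kap) ≤ (1 - x) * x := by
    have : 0 ≤ p * (x + kap) := mul_nonneg hp (by linarith)
    nlinarith
  have h3 : x ≤ T * (1 + max 0 (1 - p - T) / kap) := by
    have h4 : 0 ≤ max 0 (1 - p - T) / kap := div_nonneg (le_max_left _ _) hk.le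
    nlinarith [mul_nonneg (hx0.trans hT) h4]
  exact h2.trans (mul_le_mul_of_nonneg_left h3 h1x)

private theorem caseA (p x : ℝ) (hpk : kap ≤ p) (hpx : p ≤ 1 - x) (hx0 : 0 ≤ x) :
    p * (x * (1 - x) - p * (x + kap)) ≤ kap * (1 - x) * (1 - p) := by
  have hk := kap_pos
  have hp : 0 < p := hk.trans_le hpk
  set b : ℝ := 2 - Real.sqrt 3 with hb
  have hs : Real.sqrt 3 ^ 2 = 3 := Real.sq_sqrt (by norm_num)
  have hkb : kap = b ^ 2 := by
    unfold kap
    rw [hb]
    nlinarith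
  have hb4 : b ^ 2 = 4 * b - 1 := by
    rw [hb]
    nlinarith
  have hs1 : Real.sqrt 3 < 7 / 4 := by
    have : kap = 7 - 4 * Real.sqrt 3 := rfl
    linarith
  have hs2 : (17 / 10 : ℝ) < Real.sqrt 3 := by
    rw [show (17 / 10 : ℝ) = Real.sqrt ((17 / 10) ^ 2) by rw [Real.sqrt_sq (by norm_num)]]
    exact Real.sqrt_lt_sqrt (by norm_num) (by norm_num)
  have hb1 : 1 / 4 < b := by rw [hb]; linarith
  have hb2 : b < 3 / 10 := by rw [hb]; linarith
  have hp1 : p ≤ 1 := by linarith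
  -- discriminant
  have hdisc : (1 - p) ^ 2 * (p + b ^ 2) ^ 2 - 4 * p * b ^ 2 * (1 - p + p ^ 2) =
      - ((p - b) ^ 2 * (-p ^ 2 + 6 * b * p - b ^ 2)) := by
    have e1 : b ^ 3 = 15 * b - 4 := by
      have : b ^ 3 = b * b ^ 2 := by ring
      rw [this, hb4]
      nlinarith
    have e2 : b ^ 4 = 56 * b - 15 := by
      have : b ^ 4 = b * b ^ 3 := by ring
      rw [this, e1]
      nlinarith
    ring_nf
    rw [e2, e1, hb4]
    ring
  have hfac : 0 ≤ -p ^ 2 + 6 * b * p - b ^ 2 := by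
    have h1 : b ^ 2 ≤ p := hkb ▸ hpk
    have h2 : 0 ≤ p * (1 - p) := mul_nonneg hp.le (by linarith)
    nlinarith
  have hD : (1 - p) ^ 2 * (p + b ^ 2) ^ 2 - 4 * p * b ^ 2 * (1 - p + p ^ 2) ≤ 0 := by
    rw [hdisc]
    have := mul_nonneg (sq_nonneg (p - b)) hfac
    linarith
  have hq : 0 ≤ p * x ^ 2 - x * (1 - p) * (p + b ^ 2) + b ^ 2 * (1 - p + p ^ 2) := by
    have h4 : 0 ≤ 4 * p * (p * x ^ 2 - x * (1 - p) * (p + b ^ 2) + b ^ 2 * (1 - p + p ^ 2)) := by
      have : 4 * p * (p * x ^ 2 - x * (1 - p) * (p + b ^ 2) + b ^ 2 * (1 - p + p ^ 2)) =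
          (2 * p * x - (1 - p) * (p + b ^ 2)) ^ 2 -
            ((1 - p) ^ 2 * (p + b ^ 2) ^ 2 - 4 * p * b ^ 2 * (1 - p + p ^ 2)) := by ring
      rw [this]
      have := sq_nonneg (2 * p * x - (1 - p) * (p + b ^ 2))
      linarith
    have hpos : (0 : ℝ) < 4 * p := by linarith
    exact nonneg_of_mul_nonneg_right h4 hpos
  rw [hkb]
  nlinarith

private theorem caseB (p x : ℝ) (hp : 0 ≤ p) (hx1 : x ≤ 1) (hx0 : 0 ≤ x) :
    p ^ 2 * (x * (1 - x) - p * (x + kap)) ≤ kap * (1 - x) * (x * (1 - x)) := by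
  have hk := kap_pos
  have hkl := kap_lower
  have h1x : 0 ≤ 1 - x := by linarith
  -- the key inequality in `x`
  have hkey : 4 * x ^ 2 * (1 - x) ≤ 27 * (kap * (x + kap) ^ 2) := by
    have h1 : (717 / 10000 : ℝ) * (x + 717 / 10000) ^ 2 ≤ kap * (x + kap) ^ 2 := by
      have h2 : (x + 717 / 10000 : ℝ) ^ 2 ≤ (x + kap) ^ 2 := by
        apply pow_le_pow_left₀ (by linarith)
        linarith
      exact mul_le_mul hkl h2 (sq_nonneg _) hk.le
    have h3 : 4 * x ^ 2 * (1 - x) ≤ 27 * ((717 / 10000 : ℝ) * (x + 717 / 10000) ^ 2) := by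
      nlinarith [mul_nonneg hx0 (sq_nonneg (x - 2581 / 10000))]
    linarith
  have hkey2 : 4 * (x * (1 - x)) ^ 3 ≤ 27 * (x + kap) ^ 2 * (kap * x * (1 - x) ^ 2) := by
    have h4 : 0 ≤ x * (1 - x) ^ 2 := mul_nonneg hx0 (sq_nonneg _)
    nlinarith [mul_le_mul_of_nonneg_left hkey h4]
  have ha : 0 < x + kap := by linarith
  have hb : 0 ≤ x * (1 - x) := mul_nonneg hx0 h1x
  have hid : 27 * (x + kap) ^ 2 * ((x + kap) * p ^ 3 - x * (1 - x) * p ^ 2 +
      kap * x * (1 - x) ^ 2) =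
      (3 * (x + kap) * p - 2 * (x * (1 - x))) ^ 2 * (3 * (x + kap) * p + x * (1 - x)) +
        (27 * (x + kap) ^ 2 * (kap * x * (1 - x) ^ 2) - 4 * (x * (1 - x)) ^ 3) := by ring
  have hnn : 0 ≤ 27 * (x + kap) ^ 2 * ((x + kap) * p ^ 3 - x * (1 - x) * p ^ 2 +
      kap * x * (1 - x) ^ 2) := by
    rw [hid]
    have h5 : 0 ≤ 3 * (x + kap) * p + x * (1 - x) := by
      have : 0 ≤ (x + kap) * p := mul_nonneg ha.le hp
      linarith
    have := mul_nonneg (sq_nonneg (3 * (x + kap) * p - 2 * (x * (1 - x)))) h5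
    linarith
  have hpos : (0 : ℝ) < 27 * (x + kap) ^ 2 := by positivity
  have hfin := nonneg_of_mul_nonneg_right hnn hpos
  nlinarith

/-- for `p ≥ kap` : one class -/
private theorem class_big (p x T : ℝ) (hpx : p ≤ 1 - x) (hx0 : 0 ≤ x)
    (hT : x ≤ T) (hpk : kap ≤ p) :
    x * (1 - x) - p * (x + kap) ≤ kap * (1 - x) * Fpay p T := by
  have hk := kap_pos
  have hp : 0 < p := hk.trans_le hpk
  have hm : max p kap = p := max_eq_left hpk
  have h1x : 0 ≤ 1 - x := hp.le.trans hpx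
  have hA := caseA p x hpk hpx hx0
  have hB := caseB p x hp.le (by linarith) hx0
  set R := x * (1 - x) - p * (x + kap) with hR
  set K := kap * (1 - x) with hK
  have hK0 : 0 ≤ K := mul_nonneg hk.le h1x
  unfold Fpay
  rw [hm]
  have hT0 : 0 ≤ T := hx0.trans hT
  have hp2 : 0 < p ^ 2 := by positivity
  -- it suffices to compare after multiplication by `p ^ 2`
  suffices h : p ^ 2 * R ≤ K * (T * (p + max 0 (1 - p - T))) by
    have e : K * (T / p * (1 + max 0 (1 - p - T) / p)) =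
        (K * (T * (p + max 0 (1 - p - T)))) / p ^ 2 := by
      field_simp
    rw [e, le_div_iff₀ hp2]
    linarith
  have hA' : p ^ 2 * R ≤ K * ((1 - p) * p) := by
    nlinarith [mul_le_mul_of_nonneg_left hA hp.le]
  have hB' : p ^ 2 * R ≤ K * (x * (p + (1 - p - x))) := by
    have : p + (1 - p - x) = 1 - x := by ring
    rw [this]
    exact hB
  rcases le_total (1 - p) T with h1 | h1
  · rw [max_eq_left (by linarith)]
    have : K * ((1 - p) * p) ≤ K * (T * (p + 0)) := by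
      apply mul_le_mul_of_nonneg_left _ hK0
      nlinarith
    linarith
  · rw [max_eq_right (by linarith)]
    by_contra hcon
    push Not at hcon
    -- concavity
    have hc : K * ((1 - p - x) * (T * (p + (1 - p - T)))) =
        (1 - p - T) * (K * (x * (p + (1 - p - x)))) + (T - x) * (K * ((1 - p) * p)) +
          K * ((T - x) * (1 - p - T) * (1 - p - x)) := by ring
    have h2 : 0 ≤ K * ((T - x) * (1 - p - T) * (1 - p - x)) :=
      mul_nonneg hK0 (mul_nonneg (mul_nonneg (by linarith) (by linarith)) (by linarith))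
    have h3 : (1 - p - T) * (p ^ 2 * R) ≤ (1 - p - T) * (K * (x * (p + (1 - p - x)))) :=
      mul_le_mul_of_nonneg_left hB' (by linarith)
    have h4 : (T - x) * (p ^ 2 * R) ≤ (T - x) * (K * ((1 - p) * p)) :=
      mul_le_mul_of_nonneg_left hA' (by linarith)
    have h5 : (1 - p - x) * (p ^ 2 * R) ≤ (1 - p - x) * (K * (T * (p + (1 - p - T)))) := by
      have : (1 - p - x) * (K * (T * (p + (1 - p - T)))) =
          K * ((1 - p - x) * (T * (p + (1 - p - T)))) := by ring
      rw [this, hc]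
      nlinarith
    rcases (show x ≤ 1 - p by linarith).eq_or_lt with h6 | h6
    · have h7 : T = x := le_antisymm (by linarith) hT
      rw [h7] at hcon
      exact absurd hB' (not_le.2 hcon)
    · have h8 : 0 < 1 - p - x := by linarith
      have := le_of_mul_le_mul_left h5 h8
      linarith

/-- one class -/
theorem class_ineq (g p x T : ℝ) (hg0 : 0 ≤ g) (hg1 : g < 1) (hp : 0 ≤ p) (hpg : p ≤ 1 - g)
    (hx0 : 0 ≤ x) (hx : x ≤ g) (hT : x ≤ T) :
    x - p * ((g + kap) / (1 - g)) ≤ kap * Fpay p T := by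
  have hk := kap_pos
  have hx1 : x < 1 := hx.trans_lt hg1
  have hpx : p ≤ 1 - x := by linarith
  have h1x : 0 < 1 - x := by linarith
  have h1g : 0 < 1 - g := by linarith
  have hmain : x * (1 - x) - p * (x + kap) ≤ kap * (1 - x) * Fpay p T := by
    rcases le_total p kap with h | h
    · exact class_small p x T hp hpx hx0 hT h
    · exact class_big p x T hpx hx0 hT h
  have h1 : (x + kap) / (1 - x) ≤ (g + kap) / (1 - g) := by
    rw [div_le_div_iff₀ h1x h1g]
    nlinarith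
  have h2 : p * ((x + kap) / (1 - x)) ≤ p * ((g + kap) / (1 - g)) :=
    mul_le_mul_of_nonneg_left h1 hp
  have h3 : x - p * ((x + kap) / (1 - x)) ≤ kap * Fpay p T := by
    have h4 : (1 - x) * (x - p * ((x + kap) / (1 - x))) = x * (1 - x) - p * (x + kap) := by
      field_simp
    have h5 : (1 - x) * (x - p * ((x + kap) / (1 - x))) ≤ (1 - x) * (kap * Fpay p T) := by
      rw [h4]
      linarith
    exact le_of_mul_le_mul_left h5 h1x
  linarith

/-- the inequality (N) -/
theorem numeric {A : Type} (s : Finset A) (g : ℝ) (p x T : A → ℝ) (hg0 : 0 ≤ g)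
    (hp : ∀ a ∈ s, 0 ≤ p a) (hsum : ∑ a ∈ s, p a ≤ 1 - g)
    (hx0 : ∀ a ∈ s, 0 ≤ x a) (hx : ∀ a ∈ s, x a ≤ g) (hT : ∀ a ∈ s, x a ≤ T a) :
    ∑ a ∈ s, x a - g ≤ kap + ∑ a ∈ s, kap * Fpay (p a) (T a) := by
  have hk := kap_pos
  have hp' : ∀ a ∈ s, p a ≤ 1 - g := fun a ha =>
    (Finset.single_le_sum (f := p) hp ha).trans hsum
  rcases lt_or_ge g 1 with hg1 | hg1
  · have h1 : ∀ a ∈ s, x a - p a * ((g + kap) / (1 - g)) ≤ kap * Fpay (p a) (T a) := fun a ha =>
      class_ineq g (p a) (x a) (T a) hg0 hg1 (hp a ha) (hp' a ha) (hx0 a ha) (hx a ha) (hT a ha)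
    have h2 := Finset.sum_le_sum h1
    rw [Finset.sum_sub_distrib, ← Finset.sum_mul] at h2
    have h1g : 0 < 1 - g := by linarith
    have h3 : (∑ a ∈ s, p a) * ((g + kap) / (1 - g)) ≤ g + kap := by
      have h4 : 0 ≤ (g + kap) / (1 - g) := div_nonneg (by linarith) h1g.le
      calc (∑ a ∈ s, p a) * ((g + kap) / (1 - g)) ≤ (1 - g) * ((g + kap) / (1 - g)) :=
            mul_le_mul_of_nonneg_right hsum h4
        _ = g + kap := by field_simp
    linarith
  · have hp0 : ∀ a ∈ s, p a = 0 := fun a ha => le_antisymm (by linarith [hp' a ha]) (hp a ha)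
    have h1 : ∀ a ∈ s, x a ≤ kap * Fpay (p a) (T a) := by
      intro a ha
      rw [hp0 a ha]
      unfold Fpay
      rw [max_eq_right hk.le]
      have e : kap * (T a / kap * (1 + max 0 (1 - 0 - T a) / kap)) =
          T a * (1 + max 0 (1 - 0 - T a) / kap) := by
        field_simp
      rw [e]
      have h4 : 0 ≤ max 0 (1 - 0 - T a) / kap := div_nonneg (le_max_left _ _) hk.le
      nlinarith [mul_nonneg ((hx0 a ha).trans (hT a ha)) h4, hT a ha]
    have h2 := Finset.sum_le_sum h1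
    linarith

end LCX
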