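import Pool.Agent.Lib_MP_0bab5c_x.XPay
import Pool.Agent.Lib_MP_0bab5c_x.XN

/-! # The abstract core, first part: from the balance of the cells and of the hubs to the total -/

namespace LCX

open Finset
open scoped Classical

variable {J U : Type} [Fintype J] [Fintype U]

/-- total weight adjacent to the cell `j` -/
noncomputable def sigma (w : J → ℝ) (adj : J → J → Prop) (hadj : U → J → Prop) (j : J) : ℝ :=
  ∑ l ∈ univ.filter (adj j), w l + ((univ.filter (fun u => hadj u j)).card : ℝ)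

/-- what is adjacent to a cell of `Z` lies among the payers, the other cells of `Z` and the
boundary of `Z` -/
theorem sigma_le (w : J → ℝ) (hw : ∀ j, 0 < w j) (adj : J → J → Prop)
    (hsymm : ∀ i j, adj i j → adj j i) (hadj : U → J → Prop) (Z P : Finset J)
    (j : J) (hj : j ∈ Z) :
    sigma w adj hadj j ≤ ∑ l ∈ P, w l + ∑ l ∈ (Z \ P).filter (fun l => adj l j), w l +
      beta w adj hadj Z := by
  have h1 : ∑ l ∈ univ.filter (adj j), w l ≤ ∑ l ∈ P, w l +
      ∑ l ∈ (Z \ P).filter (fun l => adj l j), w l + ∑ l ∈ bdJ adj Z, w l := by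
    have hsub : univ.filter (adj j) ⊆ P ∪ (Z \ P).filter (fun l => adj l j) ∪ bdJ adj Z := by
      intro l hl
      rw [mem_filter] at hl
      by_cases hlZ : l ∈ Z
      · by_cases hlP : l ∈ P
        · exact mem_union_left _ (mem_union_left _ hlP)
        · refine mem_union_left _ (mem_union_right _ ?_)
          rw [mem_filter, mem_sdiff]
          exact ⟨⟨hlZ, hlP⟩, hsymm _ _ hl.2⟩
      · refine mem_union_right _ ?_
        simp only [bdJ, mem_filter, mem_univ, true_and]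
        exact ⟨hlZ, j, hj, hl.2⟩
    refine (sum_le_sum_of_subset_of_nonneg hsub (fun l _ _ => (hw l).le)).trans ?_
    have h2 : ∀ A B : Finset J, ∑ l ∈ A ∪ B, w l ≤ ∑ l ∈ A, w l + ∑ l ∈ B, w l := by
      intro A B
      have := sum_union_inter (s₁ := A) (s₂ := B) (f := w)
      have h0 : 0 ≤ ∑ l ∈ A ∩ B, w l := sum_nonneg (fun l _ => (hw l).le)
      linarith
    refine (h2 _ _).trans ?_
    have := h2 P ((Z \ P).filter (fun l => adj l j))
    linarith
  have h3 : (univ.filter (fun u => hadj u j)).card ≤ (bdU hadj Z).card := by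
    refine card_le_card (fun u hu => ?_)
    rw [mem_filter] at hu
    simp only [bdU, mem_filter, mem_univ, true_and]
    exact ⟨j, hj, hu.2⟩
  have h3' : ((univ.filter (fun u => hadj u j)).card : ℝ) ≤ ((bdU hadj Z).card : ℝ) := by
    exact_mod_cast h3
  unfold sigma beta
  linarith

/-- the balance of one hub -/
theorem hub_balance (k : ℝ) (hk : 0 < k) (w : J → ℝ) (hw : ∀ j, 0 < w j)
    (adj : J → J → Prop) (hsymm : ∀ i j, adj i j → adj j i) (hadj : U → J → Prop)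
    (Q : J → Finset J) (hQ : ∀ j, j ∈ Q j) (hQQ : ∀ j l, l ∈ Q j → Q l ⊆ Q j) (u : U)
    (s : Finset ℕ) (Z : ℕ → Finset J) (p x : ℕ → ℝ) (g : ℝ) (hg : 0 ≤ g)
    (hdis : ∀ a ∈ s, ∀ c ∈ s, a ≠ c → Disjoint (Z a) (Z c))
    (hZ : ∀ a ∈ s, 0 ≤ p a ∧ beta w adj hadj (Z a) ≤ p a * k ∧
        (∀ j ∈ Z a, beta w adj hadj (Q j) ≤ p a * k) ∧ 0 ≤ x a ∧ x a ≤ g ∧
        k * x a ≤ ∑ j ∈ (Z a).filter (fun j => hadj u j), w j)
    (hsum : ∑ a ∈ s, p a ≤ 1 - g) :
    k * (∑ a ∈ s, x a - g) ≤ kap * k +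
      income k w adj hadj Q (fun j => kap * k + max 0 (k - sigma w adj hadj j)) u := by
  set b : J → ℝ := fun j => kap * k + max 0 (k - sigma w adj hadj j) with hb
  have hK : 0 ≤ kap * k := mul_nonneg kap_pos.le hk.le
  have hb0 : ∀ j, 0 ≤ b j := fun j => add_nonneg hK (le_max_left _ _)
  set T : ℕ → ℝ := fun a => (∑ l ∈ payers hadj Q u (Z a), w l) / k with hT
  have hTx : ∀ a ∈ s, x a ≤ T a := by
    intro a ha
    obtain ⟨_, _, _, _, _, h⟩ := hZ a ha
    rw [hT]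
    simp only
    rw [le_div_iff₀ hk]
    refine le_trans (le_of_eq (mul_comm _ _)) (h.trans ?_)
    refine sum_le_sum_of_subset_of_nonneg ?_ (fun l _ _ => (hw l).le)
    intro j hj
    rw [mem_filter] at hj
    rw [payers, mem_filter]
    exact ⟨hj.1, j, hQ j, hj.1, hj.2⟩
  have hN := numeric s g p x T hg (fun a ha => (hZ a ha).1) hsum
    (fun a ha => (hZ a ha).2.2.2.1) (fun a ha => (hZ a ha).2.2.2.2.1) hTx
  have hpay : ∀ a ∈ s, k * (kap * Fpay (p a) (T a)) ≤
      ∑ j ∈ payers hadj Q u (Z a), payTo k w adj hadj Q b j := by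
    intro a ha
    obtain ⟨_, h2, h3, _, _, _⟩ := hZ a ha
    refine pay_class k hk w hw adj hsymm hadj Q hQ hQQ u (Z a) (p a) h3 b (fun j hj => ?_)
    have hjZ : j ∈ Z a := (mem_filter.1 hj).1
    have hσ := sigma_le w hw adj hsymm hadj (Z a) (payers hadj Q u (Z a)) j hjZ
    rw [hb]
    simp only
    have : max 0 (k - ∑ l ∈ payers hadj Q u (Z a), w l - p a * k -
        ∑ l ∈ (Z a \ payers hadj Q u (Z a)).filter (fun l => adj l j), w l) ≤
        max 0 (k - sigma w adj hadj j) := max_le_max le_rfl (by linarith)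
    linarith
  have hinc : ∑ a ∈ s, ∑ j ∈ payers hadj Q u (Z a), payTo k w adj hadj Q b j ≤
      income k w adj hadj Q b u := by
    have hd : (s : Set ℕ).PairwiseDisjoint (fun a => payers hadj Q u (Z a)) :=
      fun a ha c hc hac => Disjoint.mono (filter_subset _ _) (filter_subset _ _)
        (hdis a ha c hc hac)
    rw [← sum_biUnion hd]
    unfold income
    refine sum_le_sum_of_subset_of_nonneg ?_ (fun j _ _ =>
      payTo_nonneg k hk.le w hw adj hadj Q b j (hb0 j))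
    intro j hj
    rw [mem_biUnion] at hj
    obtain ⟨a, _, hj⟩ := hj
    rw [payers, mem_filter] at hj
    obtain ⟨_, l, hl, _, hul⟩ := hj
    simp only [bdU, mem_filter, mem_univ, true_and]
    exact ⟨l, hl, hul⟩
  have h1 : k * (∑ a ∈ s, x a - g) ≤ k * (kap + ∑ a ∈ s, kap * Fpay (p a) (T a)) :=
    mul_le_mul_of_nonneg_left hN hk.le
  have h2 : k * (kap + ∑ a ∈ s, kap * Fpay (p a) (T a)) =
      kap * k + ∑ a ∈ s, k * (kap * Fpay (p a) (T a)) := by
    rw [mul_add, mul_sum]; ring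
  have h3 := sum_le_sum hpay
  linarith

/-- The total, from the balance of the cells (`HJ`) and of the hubs (`H2`). -/
theorem core_aux (k : ℝ) (hk : 0 < k) (w : J → ℝ) (hw : ∀ j, 0 < w j)
    (adj : J → J → Prop) (hsymm : ∀ i j, adj i j → adj j i) (hadj : U → J → Prop)
    (Q : J → Finset J) (hQ : ∀ j, j ∈ Q j) (hQQ : ∀ j l, l ∈ Q j → Q l ⊆ Q j)
    (DJ : J → ℝ) (DU : U → ℝ) (eJ : J → ℝ) (eU : U → ℝ)
    (qJ : J → J → ℝ) (qU : U → J → ℝ)
    (HJ : ∀ j, w j * DJ j + (∑ i, w i * qJ i j + ∑ u, qU u j) ≤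
      w j * (k - max 0 (k - sigma w adj hadj j) + eJ j + ∑ l, qJ j l))
    (H2 : ∀ u, ∃ (s : Finset ℕ) (Z : ℕ → Finset J) (p x : ℕ → ℝ) (g : ℝ),
      0 ≤ g ∧ (∀ a ∈ s, ∀ c ∈ s, a ≠ c → Disjoint (Z a) (Z c)) ∧
      (∀ a ∈ s, 0 ≤ p a ∧ beta w adj hadj (Z a) ≤ p a * k ∧
        (∀ j ∈ Z a, beta w adj hadj (Q j) ≤ p a * k) ∧ 0 ≤ x a ∧ x a ≤ g ∧
        k * x a ≤ ∑ j ∈ (Z a).filter (fun j => hadj u j), w j) ∧
      ∑ a ∈ s, p a ≤ 1 - g ∧
      DU u ≤ k + k * (∑ a ∈ s, x a - g) + ∑ j, qU u j + eU u) :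
    ∑ j, w j * DJ j + ∑ u, DU u ≤
      (1 + kap) * k * (∑ j, w j + (Fintype.card U : ℝ)) + ∑ j, w j * eJ j + ∑ u, eU u := by
  set b : J → ℝ := fun j => kap * k + max 0 (k - sigma w adj hadj j) with hb
  -- hubs
  have hU : ∀ u, DU u ≤ (1 + kap) * k + income k w adj hadj Q b u + ∑ j, qU u j + eU u := by
    intro u
    obtain ⟨s, Z, p, x, g, hg, hdis, hZ, hsum, hD⟩ := H2 u
    have := hub_balance k hk w hw adj hsymm hadj Q hQ hQQ u s Z p x g hg hdis hZ hsum
    linarith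
  have hU' := sum_le_sum (fun u (_ : u ∈ (univ : Finset U)) => hU u)
  rw [sum_add_distrib, sum_add_distrib, sum_add_distrib, sum_const, nsmul_eq_mul, card_univ] at hU'
  have hinc := income_total k hk.le w hw adj hadj Q b
    (fun j => by rw [hb]; simp only; linarith [le_max_left 0 (k - sigma w adj hadj j)])
  have hJ' := sum_le_sum (fun j (_ : j ∈ (univ : Finset J)) => HJ j)
  rw [sum_add_distrib, sum_add_distrib] at hJ'
  have hq1 : ∑ j, ∑ i, w i * qJ i j = ∑ j, w j * ∑ l, qJ j l := by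
    rw [sum_comm]
    exact sum_congr rfl (fun i _ => by rw [mul_sum])
  have hq2 : ∑ j, ∑ u, qU u j = ∑ u, ∑ j, qU u j := sum_comm
  have hs : ∑ j, w j * (k - max 0 (k - sigma w adj hadj j) + eJ j + ∑ l, qJ j l) =
      (1 + kap) * k * ∑ j, w j - ∑ j, w j * b j + ∑ j, w j * eJ j + ∑ j, w j * ∑ l, qJ j l := by
    rw [mul_sum, ← sum_sub_distrib, ← sum_add_distrib, ← sum_add_distrib]
    refine sum_congr rfl (fun j _ => ?_)
    rw [hb]
    ring
  rw [hs, hq1, hq2] at hJ'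
  linarith

end LCX
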