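import Pool.Agent.Lib_MP_0bab5c_x.XDef

/-! # Reduced structure: cells, homes, hubs

`cell j` (weight `(cell j).card`) lies in the home `E (hm j)`, the cells partition the homes;
`phi` enumerates the hubs, the vertices outside all homes. Cells that are not adjacent have no
edges between them, hubs have no neighbour in cells to which they are not adjacent. `full`,
`hfull`: a set that contains a proportion `s` of a cell is seen by almost all vertices of an
adjacent cell, and by almost all adjacent hubs. 
-/

namespace LCX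

open Finset
open scoped Classical

section

variable {V J U : Type} [Fintype V] [Fintype J] [Fintype U]

/-- closed neighbourhood of a home -/
noncomputable def cn (G : SimpleGraph V) {m : ℕ} (E : Fin m → Finset V) (i : Fin m) : Finset V :=
  E i ∪ bd G (E i)

/-- weight of a cell -/
noncomputable def wt (cell : J → Finset V) (j : J) : ℝ := ((cell j).card : ℝ)

structure Red (G : SimpleGraph V) (k er s : ℝ) {m : ℕ} (E : Fin m → Finset V)
    (cell : J → Finset V) (hm : J → Fin m) (phi : U → V) (adj : J → J → Prop)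
    (hadj : U → J → Prop) : Prop where
  sub : ∀ j, cell j ⊆ E (hm j)
  cover : ∀ v i, v ∈ E i → ∃ j, v ∈ cell j
  cdisj : ∀ i j, i ≠ j → Disjoint (cell i) (cell j)
  edisj : ∀ i i', i ≠ i' → Disjoint (E i) (E i')
  inj : Function.Injective phi
  hub : ∀ v, (∃ u, phi u = v) ↔ ∀ i, v ∉ E i
  symm : ∀ i j, adj i j → adj j i
  cpos : ∀ j, 0 < (cell j).card
  ex : ∀ j l, ∀ x ∈ cell j, ∀ y ∈ cell l, G.Adj x y → adj j l
  hex : ∀ u j, ∀ y ∈ cell j, G.Adj (phi u) y → hadj u j
  full : ∀ j l, adj j l → ∀ X ⊆ cell j, s * wt cell j ≤ (X.card : ℝ) →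
    (((cell l).filter (fun y => ∀ x ∈ X, ¬ G.Adj x y)).card : ℝ) ≤ er * wt cell l
  hfull : ∀ i, ∀ X ⊆ E i, ((univ.filter (fun u : U =>
    (∃ j, hm j = i ∧ hadj u j ∧ s * wt cell j ≤ ((X ∩ cell j).card : ℝ)) ∧
      ∀ x ∈ X, ¬ G.Adj x (phi u))).card : ℝ) ≤ er * k

/-- `pen` with an arbitrary instance of decidable equality -/
theorem pen_eq {J H : Type} [i : DecidableEq H] (w : J → ℝ) (hm : J → H) (rho : ℝ)
    (A : Finset J) :
    pen w hm rho A = ∑ j ∈ A, w j + rho * ((@Finset.image J H i hm A).card : ℝ) := by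
  unfold pen
  rw [Subsingleton.elim i (fun a b => Classical.propDecidable (a = b))]

/-- cells of which `B` contains at least the proportion `s` -/
noncomputable def big (s : ℝ) (cell : J → Finset V) (B : Finset V) : Finset J :=
  univ.filter (fun j => s * wt cell j ≤ ((B ∩ cell j).card : ℝ))

/-- boundary of the set of cells `A` together with the vertex `x`, whose neighbourhood is `N0`
(`N0 = ∅`, `x` in a home: this is `beta`). -/
noncomputable def bb (cell : J → Finset V) (phi : U → V) (adj : J → J → Prop)
    (hadj : U → J → Prop) (x : V) (N0 : Finset V) (A : Finset J) : ℝ :=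
  ∑ l ∈ bdJ adj A, wt cell l +
  ∑ l ∈ univ.filter (fun l => l ∉ A ∧ l ∉ bdJ adj A), ((N0 ∩ cell l).card : ℝ) +
  ((univ.filter (fun u : U => phi u ≠ x ∧ (u ∈ bdU hadj A ∨ phi u ∈ N0))).card : ℝ)

/-- total weight of the cells met by `N` -/
noncomputable def metw (cell : J → Finset V) (N : Finset V) : ℝ :=
  ∑ l ∈ univ.filter (fun l => (N ∩ cell l).Nonempty), wt cell l

/-- total weight of cells and hubs adjacent to `j` -/
noncomputable def sig (cell : J → Finset V) (adj : J → J → Prop) (hadj : U → J → Prop)
    (j : J) : ℝ :=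
  ∑ l ∈ univ.filter (adj j), wt cell l + ((univ.filter (fun u : U => hadj u j)).card : ℝ)

end

end LCX
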