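import Pool.Agent.Lib_MP_0bab5c_co.Upper
import Pool.Agent.Lib_MP_0bab5c_co.Kappa

/-!
# The maximum size of graphs with bounded maximum local connectivity: an upper bound

There is `k0` such that `f n k ≤ (3/4) k n` for all `k ≥ k0` and all `n`, where `f n k` is the
largest number of edges of a graph of order `n` whose maximum local connectivity equals `k`.

The definitions (`Sep`, `sepNum`, `kappa`, `kappaBar`, `f`) are in
`Pool/Agent/Lib_MP_0bab5c_co/KDefs.lean`.
-/

namespace Pool.Agent.Results.MP_0bab5c_co.UpperBound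

open Pool.Agent.LC0bab

/-- For all large `k` and all `n` we have `f n k ≤ (3/4) k n`. -/
theorem result : ∃ k0 : ℕ, ∀ k : ℕ, k0 ≤ k → ∀ n : ℕ, (f n k : ℝ) ≤ 3 / 4 * k * n := by
  obtain ⟨k0, hk0⟩ := upper_core.{0}
  refine ⟨k0, fun k hk n => f_le (by positivity) (fun V _ G hn hRC => ?_)⟩
  have h := hk0 k hk V G Finset.univ hRC
  rw [Finset.card_univ, hn] at h
  linarith

end Pool.Agent.Results.MP_0bab5c_co.UpperBound
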