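import Mathlib

/-! # Classes of a small set of homes, and balls

`cl`: representative of the connected component in the graph induced by the relation `H` on the
set `S`; `ball i`: all members reachable from `i` by at most `N` steps of `H` (at most
`(D + 1) ^ N`, since there are at most `D` choices, or staying, at every step).
-/

namespace LCX

open Finset
open scoped Classical

/-- The points reachable from `i` in at most `n` steps. -/
private noncomputable def bl {H : Type} [Fintype H] (R : H → H → Prop) : ℕ → H → Finset H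
  | 0, i => {i}
  | n + 1, i => (insert i (univ.filter (R i))).biUnion (bl R n)

private theorem bl_self {H : Type} [Fintype H] (R : H → H → Prop) (n : ℕ) (i : H) :
    i ∈ bl R n i := by
  induction n with
  | zero => simp [bl]
  | succ n ih =>
    simp only [bl, mem_biUnion]
    exact ⟨i, mem_insert_self _ _, ih⟩

private theorem bl_card {H : Type} [Fintype H] (R : H → H → Prop) (D : ℕ)
    (hD : ∀ i, (univ.filter (R i)).card ≤ D) (n : ℕ) (i : H) :
    (bl R n i).card ≤ (D + 1) ^ n := by
  induction n generalizing i with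
  | zero => simp [bl]
  | succ n ih =>
    simp only [bl]
    refine le_trans card_biUnion_le ?_
    refine le_trans (sum_le_card_nsmul _ _ ((D + 1) ^ n) (fun j _ => ih j)) ?_
    have h1 : (insert i (univ.filter (R i))).card ≤ D + 1 :=
      le_trans (card_insert_le _ _) (Nat.succ_le_succ (hD i))
    rw [smul_eq_mul, pow_succ, mul_comm]
    exact Nat.mul_le_mul_left _ h1

private def gr {H : Type} (R : H → H → Prop) (hR : ∀ i j, R i j → R j i) (S : Finset H) :
    SimpleGraph H where
  Adj a b := a ≠ b ∧ a ∈ S ∧ b ∈ S ∧ R a b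
  symm := by
    refine ⟨?_⟩
    intro a b h
    exact ⟨h.1.symm, h.2.2.1, h.2.1, hR _ _ h.2.2.2⟩
  loopless := by
    refine ⟨?_⟩
    intro a h
    exact h.1 rfl

private theorem walk_bl {H : Type} [Fintype H] (R : H → H → Prop) (hR : ∀ i j, R i j → R j i)
    (S : Finset H) {i j : H} (w : (gr R hR S).Walk i j) (n : ℕ) (hn : w.length ≤ n) :
    j ∈ bl R n i := by
  induction w generalizing n with
  | nil => exact bl_self R n _
  | @cons u v k h p ih =>
    rw [SimpleGraph.Walk.length_cons] at hn
    obtain ⟨m, rfl⟩ : ∃ m, n = m + 1 := ⟨n - 1, by omega⟩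
    simp only [bl, mem_biUnion]
    refine ⟨v, ?_, ih m (by omega)⟩
    exact mem_insert_of_mem (mem_filter.mpr ⟨mem_univ _, h.2.2.2⟩)

private theorem walk_mem {H : Type} (R : H → H → Prop) (hR : ∀ i j, R i j → R j i)
    (S : Finset H) {i j : H} (w : (gr R hR S).Walk i j) (hi : i ∈ S) :
    ∀ k ∈ w.support, k ∈ S := by
  induction w with
  | nil =>
    intro k hk
    rw [SimpleGraph.Walk.support_nil, List.mem_singleton] at hk
    rw [hk]; exact hi
  | @cons u v k h p ih =>
    intro x hx
    rw [SimpleGraph.Walk.support_cons, List.mem_cons] at hx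
    rcases hx with rfl | hx
    · exact hi
    · exact ih h.2.2.1 x hx

theorem exists_classes {H : Type} [Fintype H] (R : H → H → Prop) (hR : ∀ i j, R i j → R j i)
    (D N : ℕ) (hD : ∀ i, (univ.filter (R i)).card ≤ D) :
    ∃ ball : H → Finset H, (∀ i, (ball i).card ≤ (D + 1) ^ N) ∧
      ∀ S : Finset H, S.card ≤ N → ∃ cl : H → H, (∀ i ∈ S, cl i ∈ S) ∧
        (∀ i ∈ S, ∀ j ∈ S, R i j → cl i = cl j) ∧
        (∀ i ∈ S, ∀ j ∈ S, cl i = cl j → j ∈ ball i) := by
  refine ⟨bl R N, bl_card R D hD N, ?_⟩
  intro S hS
  refine ⟨fun i => Quot.out ((gr R hR S).connectedComponentMk i), ?_, ?_, ?_⟩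
  · intro i hi
    have h : (gr R hR S).Reachable i (Quot.out ((gr R hR S).connectedComponentMk i)) := by
      have := Quot.out_eq ((gr R hR S).connectedComponentMk i)
      exact (SimpleGraph.ConnectedComponent.exact this).symm
    obtain ⟨w⟩ := h
    exact walk_mem R hR S w hi _ w.end_mem_support
  · intro i hi j hj hij
    by_cases h : i = j
    · rw [h]
    · have hadj : (gr R hR S).Adj i j := ⟨h, hi, hj, hij⟩
      have : (gr R hR S).connectedComponentMk i = (gr R hR S).connectedComponentMk j :=
        SimpleGraph.ConnectedComponent.sound hadj.reachable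
      simp only [this]
  · intro i hi j hj hij
    have h1 := Quot.out_eq ((gr R hR S).connectedComponentMk i)
    have h2 := Quot.out_eq ((gr R hR S).connectedComponentMk j)
    have h3 : (gr R hR S).connectedComponentMk i = (gr R hR S).connectedComponentMk j := by
      rw [← h1, ← h2]
      exact congrArg (Quot.mk _) hij
    have h4 : (gr R hR S).Reachable i j := SimpleGraph.ConnectedComponent.exact h3
    obtain ⟨w⟩ := h4
    have hp : w.bypass.IsPath := w.bypass_isPath
    refine walk_bl R hR S w.bypass N ?_
    have h5 : w.bypass.support.toFinset ⊆ S := by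
      intro k hk
      exact walk_mem R hR S w.bypass hi k (List.mem_toFinset.mp hk)
    have h6 := card_le_card h5
    rw [List.toFinset_card_of_nodup hp.support_nodup, SimpleGraph.Walk.length_support] at h6
    omega

/-- Few points lie in small sets `O T`, where `T` is a nonempty part of a ball. -/
theorem few_bad {H X : Type} [Fintype H] [Fintype X] (ball : H → Finset H) (b : ℕ)
    (hb : ∀ i, (ball i).card ≤ b) (O : Finset H → Finset X) (c : ℝ) (hc : 0 ≤ c) :
    ((univ.filter (fun x : X => ∃ i, ∃ T ⊆ ball i, x ∈ O T ∧ ((O T).card : ℝ) < c)).card : ℝ) ≤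
      (Fintype.card H : ℝ) * 2 ^ b * c := by
  have hsub : (univ.filter (fun x : X => ∃ i, ∃ T ⊆ ball i, x ∈ O T ∧ ((O T).card : ℝ) < c)) ⊆
      (univ : Finset H).biUnion (fun i =>
        ((ball i).powerset.filter (fun T => ((O T).card : ℝ) < c)).biUnion O) := by
    intro x hx
    obtain ⟨i, T, hT, hxT, hc'⟩ := (mem_filter.mp hx).2
    refine mem_biUnion.mpr ⟨i, mem_univ _, mem_biUnion.mpr ⟨T, ?_, hxT⟩⟩
    exact mem_filter.mpr ⟨mem_powerset.mpr hT, hc'⟩
  have h1 : ∀ i : H, (((((ball i).powerset.filter
      (fun T => ((O T).card : ℝ) < c)).biUnion O).card : ℕ) : ℝ) ≤ 2 ^ b * c := by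
    intro i
    have h2 : (((((ball i).powerset.filter
        (fun T => ((O T).card : ℝ) < c)).biUnion O).card : ℕ) : ℝ) ≤
        ∑ T ∈ (ball i).powerset.filter (fun T => ((O T).card : ℝ) < c), ((O T).card : ℝ) := by
      have := card_biUnion_le (s := (ball i).powerset.filter (fun T => ((O T).card : ℝ) < c))
        (t := O)
      exact_mod_cast this
    refine le_trans h2 ?_
    refine le_trans (sum_le_card_nsmul _ _ c (fun T hT => (mem_filter.mp hT).2.le)) ?_
    rw [nsmul_eq_mul]
    refine mul_le_mul_of_nonneg_right ?_ hc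
    have h3 : ((ball i).powerset.filter (fun T => ((O T).card : ℝ) < c)).card ≤ 2 ^ b := by
      refine le_trans (card_filter_le _ _) ?_
      rw [card_powerset]
      exact Nat.pow_le_pow_right (by norm_num) (hb i)
    exact_mod_cast h3
  have h4 := card_le_card hsub
  have h5 : ((univ.filter (fun x : X => ∃ i, ∃ T ⊆ ball i, x ∈ O T ∧
      ((O T).card : ℝ) < c)).card : ℝ) ≤ (((univ : Finset H).biUnion (fun i =>
        ((ball i).powerset.filter (fun T => ((O T).card : ℝ) < c)).biUnion O)).card : ℝ) := by
    exact_mod_cast h4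
  refine le_trans h5 ?_
  have h6 : (((univ : Finset H).biUnion (fun i =>
        ((ball i).powerset.filter (fun T => ((O T).card : ℝ) < c)).biUnion O)).card : ℝ) ≤
      ∑ i : H, (((((ball i).powerset.filter
      (fun T => ((O T).card : ℝ) < c)).biUnion O).card : ℕ) : ℝ) := by
    have := card_biUnion_le (s := (univ : Finset H)) (t := fun i =>
        ((ball i).powerset.filter (fun T => ((O T).card : ℝ) < c)).biUnion O)
    exact_mod_cast this
  refine le_trans h6 ?_
  refine le_trans (sum_le_card_nsmul _ _ (2 ^ b * c) (fun i _ => h1 i)) ?_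
  rw [nsmul_eq_mul, card_univ, mul_assoc]

end LCX
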