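import Pool.Agent.Lib_MP_0bab5c_x.XDef

/-! # Closures (least minimisers of a submodular function) and the choice of the scale -/

namespace LCX

open Finset
open scoped Classical

theorem exists_closure {J : Type} [Fintype J] (F : Finset J → ℝ)
    (hF : ∀ A B, F (A ∪ B) + F (A ∩ B) ≤ F A + F B) :
    ∃ Q : J → Finset J, (∀ j, j ∈ Q j) ∧ (∀ j A, j ∈ A → F (Q j) ≤ F A) ∧
      ∀ j l, l ∈ Q j → Q l ⊆ Q j := by
  -- least minimisers by cardinality
  have key : ∀ j : J, ∃ Q : Finset J, j ∈ Q ∧ (∀ A, j ∈ A → F Q ≤ F A) ∧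
      ∀ A, j ∈ A → F A ≤ F Q → Q.card ≤ A.card := by
    intro j
    have hne : ((univ : Finset (Finset J)).filter (fun A => j ∈ A)).Nonempty :=
      ⟨{j}, by simp⟩
    obtain ⟨A₀, hA₀, hmin⟩ := Finset.exists_min_image _ F hne
    rw [mem_filter] at hA₀
    have hne2 : ((univ : Finset (Finset J)).filter (fun A => j ∈ A ∧ F A ≤ F A₀)).Nonempty :=
      ⟨A₀, by simp [hA₀.2]⟩
    obtain ⟨Q, hQ, hminQ⟩ := Finset.exists_min_image _ (fun A : Finset J => A.card) hne2
    rw [mem_filter] at hQ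
    refine ⟨Q, hQ.2.1, fun A hA => hQ.2.2.trans (hmin A (by simp [hA])), fun A hA hle => ?_⟩
    exact hminQ A (by
      rw [mem_filter]
      exact ⟨mem_univ _, hA, hle.trans hQ.2.2⟩)
  choose Q hQ1 hQ2 hQ3 using key
  refine ⟨Q, hQ1, hQ2, fun j l hl => ?_⟩
  have h1 := hF (Q l) (Q j)
  have h2 := hQ2 j (Q l ∪ Q j) (mem_union_right _ (hQ1 j))
  have h3 : F (Q l ∩ Q j) ≤ F (Q l) := by linarith
  have h4 := hQ3 l (Q l ∩ Q j) (mem_inter.2 ⟨hQ1 l, hl⟩) h3
  have h5 : Q l ∩ Q j = Q l := Finset.eq_of_subset_of_card_le inter_subset_left h4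
  exact inter_eq_left.1 h5

variable {J U H : Type} [Fintype J] [Fintype U]

theorem beta_submod (w : J → ℝ) (hw : ∀ j, 0 ≤ w j) (adj : J → J → Prop) (hadj : U → J → Prop)
    (A B : Finset J) :
    beta w adj hadj (A ∪ B) + beta w adj hadj (A ∩ B) ≤ beta w adj hadj A + beta w adj hadj B := by
  unfold beta
  have hJ : ∑ l ∈ bdJ adj (A ∪ B), w l + ∑ l ∈ bdJ adj (A ∩ B), w l ≤
      ∑ l ∈ bdJ adj A, w l + ∑ l ∈ bdJ adj B, w l := by
    unfold bdJ
    rw [sum_filter, sum_filter, sum_filter, sum_filter, ← sum_add_distrib, ← sum_add_distrib]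
    refine sum_le_sum fun l _ => ?_
    have hwl := hw l
    by_cases hA : l ∈ A
    · have e1 : ¬ (l ∉ A ∪ B ∧ ∃ j ∈ A ∪ B, adj j l) := fun h => h.1 (mem_union_left _ hA)
      have e2 : ¬ (l ∉ A ∧ ∃ j ∈ A, adj j l) := fun h => h.1 hA
      rw [if_neg e1, if_neg e2]
      by_cases h3 : l ∉ A ∩ B ∧ ∃ j ∈ A ∩ B, adj j l
      · have h4 : l ∉ B ∧ ∃ j ∈ B, adj j l := by
          obtain ⟨h5, j, hj, hjl⟩ := h3
          exact ⟨fun hb => h5 (mem_inter.2 ⟨hA, hb⟩), j, (mem_inter.1 hj).2, hjl⟩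
        rw [if_pos h3, if_pos h4]
      · rw [if_neg h3]
        split_ifs <;> linarith
    · by_cases hB : l ∈ B
      · have e1 : ¬ (l ∉ A ∪ B ∧ ∃ j ∈ A ∪ B, adj j l) := fun h => h.1 (mem_union_right _ hB)
        have e2 : ¬ (l ∉ B ∧ ∃ j ∈ B, adj j l) := fun h => h.1 hB
        rw [if_neg e1, if_neg e2]
        by_cases h3 : l ∉ A ∩ B ∧ ∃ j ∈ A ∩ B, adj j l
        · have h4 : l ∉ A ∧ ∃ j ∈ A, adj j l := by
            obtain ⟨_, j, hj, hjl⟩ := h3
            exact ⟨hA, j, (mem_inter.1 hj).1, hjl⟩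
          rw [if_pos h3, if_pos h4]
          linarith
        · rw [if_neg h3]
          split_ifs <;> linarith
      · have e0 : l ∉ A ∪ B := by
          rw [mem_union]
          tauto
        by_cases h3 : ∃ j ∈ A ∩ B, adj j l
        · obtain ⟨j, hj, hjl⟩ := h3
          have h4 : l ∉ A ∧ ∃ j ∈ A, adj j l := ⟨hA, j, (mem_inter.1 hj).1, hjl⟩
          have h5 : l ∉ B ∧ ∃ j ∈ B, adj j l := ⟨hB, j, (mem_inter.1 hj).2, hjl⟩
          rw [if_pos h4, if_pos h5]
          split_ifs <;> linarith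
        · have h4 : ¬ (l ∉ A ∩ B ∧ ∃ j ∈ A ∩ B, adj j l) := fun h => h3 h.2
          rw [if_neg h4]
          by_cases h5 : ∃ j ∈ A ∪ B, adj j l
          · obtain ⟨j, hj, hjl⟩ := h5
            rw [if_pos ⟨e0, j, hj, hjl⟩]
            rcases mem_union.1 hj with hj | hj
            · rw [if_pos (show l ∉ A ∧ ∃ j ∈ A, adj j l from ⟨hA, j, hj, hjl⟩)]
              split_ifs <;> linarith
            · rw [if_pos (show l ∉ B ∧ ∃ j ∈ B, adj j l from ⟨hB, j, hj, hjl⟩)]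
              split_ifs <;> linarith
          · rw [if_neg (fun h => h5 h.2)]
            split_ifs <;> linarith
  have hU : (((bdU hadj (A ∪ B)).card : ℝ)) + ((bdU hadj (A ∩ B)).card : ℝ) ≤
      ((bdU hadj A).card : ℝ) + ((bdU hadj B).card : ℝ) := by
    have e1 : bdU hadj (A ∪ B) = bdU hadj A ∪ bdU hadj B := by
      ext u
      unfold bdU
      simp only [mem_filter, mem_univ, true_and, mem_union]
      constructor
      · rintro ⟨j, hj | hj, h⟩
        · exact Or.inl ⟨j, hj, h⟩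
        · exact Or.inr ⟨j, hj, h⟩
      · rintro (⟨j, hj, h⟩ | ⟨j, hj, h⟩)
        · exact ⟨j, Or.inl hj, h⟩
        · exact ⟨j, Or.inr hj, h⟩
    have e2 : bdU hadj (A ∩ B) ⊆ bdU hadj A ∩ bdU hadj B := by
      intro u
      unfold bdU
      simp only [mem_filter, mem_univ, true_and, mem_inter]
      rintro ⟨j, ⟨h1, h2⟩, h⟩
      exact ⟨⟨j, h1, h⟩, j, h2, h⟩
    have h3 := card_union_add_card_inter (bdU hadj A) (bdU hadj B)
    have h4 := card_le_card e2
    rw [e1]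
    exact_mod_cast (by omega : (bdU hadj A ∪ bdU hadj B).card + (bdU hadj (A ∩ B)).card ≤
      (bdU hadj A).card + (bdU hadj B).card)
  linarith

theorem pen_submod (w : J → ℝ) (hw : ∀ j, 0 ≤ w j) (hm : J → H) (rho : ℝ) (hrho : 0 ≤ rho)
    (A B : Finset J) : pen w hm rho (A ∪ B) + pen w hm rho (A ∩ B) ≤
      pen w hm rho A + pen w hm rho B := by
  unfold pen
  have h1 : ∑ j ∈ A ∪ B, w j + ∑ j ∈ A ∩ B, w j = ∑ j ∈ A, w j + ∑ j ∈ B, w j :=
    sum_union_inter
  have h2 : (((A ∪ B).image hm).card : ℝ) + (((A ∩ B).image hm).card : ℝ) ≤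
      ((A.image hm).card : ℝ) + ((B.image hm).card : ℝ) := by
    have h3 := card_union_add_card_inter (A.image hm) (B.image hm)
    have h4 := card_le_card (image_inter_subset hm A B)
    rw [image_union]
    exact_mod_cast (by omega : (A.image hm ∪ B.image hm).card + ((A ∩ B).image hm).card ≤
      (A.image hm).card + (B.image hm).card)
  have h5 := mul_le_mul_of_nonneg_left h2 hrho
  linarith

theorem pen_mono (w : J → ℝ) (hw : ∀ j, 0 ≤ w j) (hm : J → H) (rho : ℝ) (hrho : 0 ≤ rho)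
    (A B : Finset J) (h : A ⊆ B) : pen w hm rho A ≤ pen w hm rho B := by
  unfold pen
  have h1 : ∑ j ∈ A, w j ≤ ∑ j ∈ B, w j :=
    sum_le_sum_of_subset_of_nonneg h (fun j _ _ => hw j)
  have h2 : ((A.image hm).card : ℝ) ≤ ((B.image hm).card : ℝ) := by
    exact_mod_cast card_le_card (image_subset_image h)
  have h3 := mul_le_mul_of_nonneg_left h2 hrho
  linarith

/-- Choice of the scale: `th s = th0 / 2^s`; base points `b` with weights `v b`; `M s b` minimises
`f b + th s * P` over the family `Fm b`. -/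
theorem exists_scale {J B : Type} [Fintype B] (v : B → ℝ) (hv : ∀ b, 0 ≤ v b)
    (f : B → Finset J → ℝ) (P : Finset J → ℝ) (hf : ∀ b A, 0 ≤ f b A) (hP : ∀ A, 0 ≤ P A)
    (Fm : B → Set (Finset J)) (th0 K : ℝ) (hth : 0 < th0) (S : ℕ) (hS : 0 < S)
    (M : ℕ → B → Finset J) (hM : ∀ s b, M s b ∈ Fm b)
    (hmin : ∀ s b, ∀ A ∈ Fm b, f b (M s b) + th0 / 2 ^ s * P (M s b) ≤ f b A + th0 / 2 ^ s * P A)
    (hK : ∀ b, f b (M 0 b) + th0 * P (M 0 b) ≤ K) :
    ∃ s < S, ∑ b, v b * (th0 / 2 ^ s * P (M s b)) ≤ 2 * K / S * ∑ b, v b := by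
  -- value of the minimum at scale `s`
  have hstep : ∀ s b, th0 / 2 ^ s * P (M s b) ≤
      2 * ((f b (M s b) + th0 / 2 ^ s * P (M s b)) -
        (f b (M (s + 1) b) + th0 / 2 ^ (s + 1) * P (M (s + 1) b))) := by
    intro s b
    have h1 := hmin (s + 1) b (M s b) (hM s b)
    have h2 : th0 / 2 ^ (s + 1) * P (M s b) = th0 / 2 ^ s * P (M s b) / 2 := by
      rw [pow_succ]
      field_simp
    rw [h2] at h1
    linarith
  have htel : ∀ b, ∑ s ∈ range S, th0 / 2 ^ s * P (M s b) ≤ 2 * K := by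
    intro b
    have h1 : ∑ s ∈ range S, th0 / 2 ^ s * P (M s b) ≤
        ∑ s ∈ range S, 2 * ((f b (M s b) + th0 / 2 ^ s * P (M s b)) -
          (f b (M (s + 1) b) + th0 / 2 ^ (s + 1) * P (M (s + 1) b))) :=
      sum_le_sum fun s _ => hstep s b
    rw [← mul_sum, sum_range_sub' (fun s => f b (M s b) + th0 / 2 ^ s * P (M s b))] at h1
    have h2 : 0 ≤ f b (M S b) + th0 / 2 ^ S * P (M S b) := by
      have := hP (M S b)
      have := hf b (M S b)
      positivity
    have h3 := hK b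
    have h4 : f b (M 0 b) + th0 / 2 ^ 0 * P (M 0 b) ≤ K := by
      rw [pow_zero, div_one]
      exact h3
    linarith
  by_contra hcon
  push Not at hcon
  have h1 : ∑ s ∈ range S, (2 * K / S * ∑ b, v b) <
      ∑ s ∈ range S, ∑ b, v b * (th0 / 2 ^ s * P (M s b)) :=
    sum_lt_sum_of_nonempty (by simpa using hS.ne') (fun s hs => hcon s (mem_range.1 hs))
  rw [sum_const, card_range, nsmul_eq_mul, sum_comm] at h1
  have h2 : ∑ b, ∑ s ∈ range S, v b * (th0 / 2 ^ s * P (M s b)) ≤ ∑ b, v b * (2 * K) := by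
    refine sum_le_sum fun b _ => ?_
    rw [← mul_sum]
    exact mul_le_mul_of_nonneg_left (htel b) (hv b)
  rw [← sum_mul] at h2
  have hS' : (0 : ℝ) < S := by exact_mod_cast hS
  have h3 : (S : ℝ) * (2 * K / S * ∑ b, v b) = (∑ b, v b) * (2 * K) := by
    field_simp
  linarith

end LCX
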