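import Pool.Agent.Lib_MP_0bab5c_x.XCoreA

/-! # The abstract core

Cells `J` (weights `w`), hubs `U`, closures `Q`, average degrees `DJ`, degrees `DU`, requests
`qJ i j` (per vertex of the cell `i`), `qU u j`; `sigma j`: total weight of the cells and hubs
adjacent to `j`.
Budgets: `b j = kap * k + max 0 (k - sigma j)`. Poor `j`:
`DJ j + (requests to j) / w j <= (1 + eta) sigma j + eJ j`, because degree and request between a
vertex and `j` add up to at most `(1 + eta) w j`; other `j`: no requests to `j` and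
`DJ j <= sigma j + eJ j`.
-/

namespace LCX

open Finset
open scoped Classical

variable {J U : Type} [Fintype J] [Fintype U]

theorem core (k eta : ℝ) (hk : 0 < k) (heta : 0 ≤ eta) (heta1 : eta ≤ 1) (w : J → ℝ)
    (hw : ∀ j, 0 < w j)
    (adj : J → J → Prop) (hsymm : ∀ i j, adj i j → adj j i) (hadj : U → J → Prop)
    (Q : J → Finset J) (hQ : ∀ j, j ∈ Q j) (hQQ : ∀ j l, l ∈ Q j → Q l ⊆ Q j)
    (dJ : J → J → ℝ) (hdJ0 : ∀ i j, 0 ≤ dJ i j) (hdJ1 : ∀ i j, dJ i j ≤ 1)
    (hdsymm : ∀ i j, dJ i j = dJ j i)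
    (dU : U → J → ℝ) (hdU0 : ∀ u j, 0 ≤ dU u j) (hdU1 : ∀ u j, dU u j ≤ 1)
    (DJ : J → ℝ) (DU : U → ℝ) (eJ fJ : J → ℝ) (eU : U → ℝ)
    (heJ : ∀ j, 0 ≤ eJ j) (hfJ : ∀ j, 0 ≤ fJ j) (heU : ∀ u, 0 ≤ eU u)
    (hDJ : ∀ j, DJ j ≤ ∑ l ∈ univ.filter (adj j), dJ j l * w l +
      ∑ u ∈ univ.filter (fun u => hadj u j), dU u j + eJ j)
    (poor : J → Prop)
    (hpoor : ∀ j, poor j → ∑ l ∈ univ.filter (adj j), w l +
      ((univ.filter (fun u => hadj u j)).card : ℝ) ≤ (1 + eta) * k)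
    (qJ : J → J → ℝ) (qU : U → J → ℝ) (hqJ0 : ∀ i j, 0 ≤ qJ i j) (hqU0 : ∀ u j, 0 ≤ qU u j)
    (hqJ : ∀ i j, qJ i j ≠ 0 → k < DJ i ∧ ¬ poor i ∧ poor j ∧ adj i j)
    (hqJ1 : ∀ i j, adj i j → dJ i j * w j + qJ i j ≤ (1 + eta) * w j)
    (hqU : ∀ u j, qU u j ≠ 0 → poor j ∧ hadj u j)
    (hqU1 : ∀ u j, hadj u j → dU u j * w j + qU u j ≤ (1 + eta) * w j)
    (H1 : ∀ i, ¬ poor i → k < DJ i → DJ i ≤ k + ∑ j, qJ i j + fJ i)
    (H2 : ∀ u, ∃ (s : Finset ℕ) (Z : ℕ → Finset J) (p x : ℕ → ℝ) (g : ℝ),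
      0 ≤ g ∧ (∀ a ∈ s, ∀ c ∈ s, a ≠ c → Disjoint (Z a) (Z c)) ∧
      (∀ a ∈ s, 0 ≤ p a ∧ beta w adj hadj (Z a) ≤ p a * k ∧
        (∀ j ∈ Z a, beta w adj hadj (Q j) ≤ p a * k) ∧ 0 ≤ x a ∧ x a ≤ g ∧
        k * x a ≤ ∑ j ∈ (Z a).filter (fun j => hadj u j), w j) ∧
      ∑ a ∈ s, p a ≤ 1 - g ∧
      DU u ≤ k + k * (∑ a ∈ s, x a - g) + ∑ j, qU u j + eU u) :
    ∑ j, w j * DJ j + ∑ u, DU u ≤
      (1 + kap) * k * (∑ j, w j + (Fintype.card U : ℝ)) +
        ∑ j, w j * (eJ j + fJ j + 3 * eta * k) + ∑ u, eU u := by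
  refine core_aux k hk w hw adj hsymm hadj Q hQ hQQ DJ DU (fun j => eJ j + fJ j + 3 * eta * k) eU
    qJ qU (fun j => ?_) H2
  have hetak : 0 ≤ eta * k := mul_nonneg heta hk.le
  have hqs : 0 ≤ ∑ l, qJ j l := sum_nonneg (fun l _ => hqJ0 j l)
  set σ := sigma w adj hadj j with hσ
  have hσ' : σ = ∑ l ∈ univ.filter (adj j), w l +
      ((univ.filter (fun u => hadj u j)).card : ℝ) := rfl
  by_cases hpj : poor j
  · have h1 : ∑ i, w i * qJ i j ≤ ∑ l ∈ univ.filter (adj j),
        w l * ((1 + eta) * w j - dJ j l * w j) := by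
      rw [sum_filter]
      refine sum_le_sum (fun i _ => ?_)
      by_cases hij : adj j i
      · rw [if_pos hij]
        have := hqJ1 i j (hsymm _ _ hij)
        rw [hdsymm i j] at this
        exact mul_le_mul_of_nonneg_left (by linarith) (hw i).le
      · rw [if_neg hij]
        have : qJ i j = 0 := by
          by_contra hne
          exact hij (hsymm _ _ (hqJ i j hne).2.2.2)
        rw [this, mul_zero]
    have h2 : ∑ u, qU u j ≤ ∑ u ∈ univ.filter (fun u => hadj u j),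
        ((1 + eta) * w j - dU u j * w j) := by
      rw [sum_filter]
      refine sum_le_sum (fun u _ => ?_)
      by_cases huj : hadj u j
      · rw [if_pos huj]
        linarith [hqU1 u j huj]
      · rw [if_neg huj]
        have : qU u j = 0 := by
          by_contra hne
          exact huj (hqU u j hne).2
        rw [this]
    have h3 : ∑ l ∈ univ.filter (adj j), w l * ((1 + eta) * w j - dJ j l * w j) +
        ∑ u ∈ univ.filter (fun u => hadj u j), ((1 + eta) * w j - dU u j * w j) =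
        w j * ((1 + eta) * σ - (∑ l ∈ univ.filter (adj j), dJ j l * w l +
          ∑ u ∈ univ.filter (fun u => hadj u j), dU u j)) := by
      have e1 : ∑ l ∈ univ.filter (adj j), w l * ((1 + eta) * w j - dJ j l * w j) =
          w j * (1 + eta) * ∑ l ∈ univ.filter (adj j), w l -
            w j * ∑ l ∈ univ.filter (adj j), dJ j l * w l := by
        rw [mul_sum, mul_sum, ← sum_sub_distrib]
        exact sum_congr rfl (fun l _ => by ring)
      have e2 : ∑ u ∈ univ.filter (fun u => hadj u j), ((1 + eta) * w j - dU u j * w j) =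
          w j * (1 + eta) * ((univ.filter (fun u => hadj u j)).card : ℝ) -
            w j * ∑ u ∈ univ.filter (fun u => hadj u j), dU u j := by
        rw [sum_sub_distrib, sum_const, nsmul_eq_mul, mul_sum]
        congr 1
        · ring
        · exact sum_congr rfl (fun l _ => by ring)
      rw [e1, e2, hσ']
      ring
    have h4 : w j * DJ j ≤ w j * (∑ l ∈ univ.filter (adj j), dJ j l * w l +
        ∑ u ∈ univ.filter (fun u => hadj u j), dU u j + eJ j) :=
      mul_le_mul_of_nonneg_left (hDJ j) (hw j).le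
    have h5 : (1 + eta) * σ + eJ j ≤ k - max 0 (k - σ) + (eJ j + fJ j + 3 * eta * k) +
        ∑ l, qJ j l := by
      have h6 : σ ≤ (1 + eta) * k := hpoor j hpj
      have h7 : eta * σ ≤ eta * ((1 + eta) * k) := mul_le_mul_of_nonneg_left h6 heta
      have h8 : eta * (eta * k) ≤ 1 * (eta * k) := mul_le_mul_of_nonneg_right heta1 hetak
      have h9 := hfJ j
      rcases max_cases 0 (k - σ) with ⟨h, _⟩ | ⟨h, _⟩ <;> rw [h] <;> nlinarith
    have h6 := mul_le_mul_of_nonneg_left h5 (hw j).le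
    have h7 : w j * ((1 + eta) * σ - (∑ l ∈ univ.filter (adj j), dJ j l * w l +
          ∑ u ∈ univ.filter (fun u => hadj u j), dU u j)) +
        w j * (∑ l ∈ univ.filter (adj j), dJ j l * w l +
        ∑ u ∈ univ.filter (fun u => hadj u j), dU u j + eJ j) = w j * ((1 + eta) * σ + eJ j) := by
      ring
    linarith
  · have h1 : ∑ i, w i * qJ i j = 0 := by
      refine sum_eq_zero (fun i _ => ?_)
      have : qJ i j = 0 := by
        by_contra hne
        exact hpj (hqJ i j hne).2.2.1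
      rw [this, mul_zero]
    have h2 : ∑ u, qU u j = 0 := by
      refine sum_eq_zero (fun u _ => ?_)
      by_contra hne
      exact hpj (hqU u j hne).1
    have h3 : DJ j ≤ σ + eJ j := by
      have e1 : ∑ l ∈ univ.filter (adj j), dJ j l * w l ≤ ∑ l ∈ univ.filter (adj j), w l :=
        sum_le_sum (fun l _ => mul_le_of_le_one_left (hw l).le (hdJ1 j l))
      have e2 : ∑ u ∈ univ.filter (fun u => hadj u j), dU u j ≤
          ((univ.filter (fun u => hadj u j)).card : ℝ) := by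
        refine (sum_le_sum (fun u _ => hdU1 u j)).trans (le_of_eq ?_)
        rw [sum_const, nsmul_eq_mul, mul_one]
      linarith [hDJ j]
    rw [h1, h2, add_zero, add_zero]
    refine mul_le_mul_of_nonneg_left ?_ (hw j).le
    have h9 := hfJ j
    have h10 := heJ j
    rcases le_or_gt (DJ j) k with hle | hgt
    · rcases max_cases 0 (k - σ) with ⟨h, _⟩ | ⟨h, _⟩ <;> rw [h] <;> nlinarith
    · have := H1 j hpj hgt
      rcases max_cases 0 (k - σ) with ⟨h, _⟩ | ⟨h, _⟩ <;> rw [h] <;> nlinarith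

end LCX
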