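import Pool.Agent.Lib_MP_0bab5c_x.XCoreA

/-! # The abstract core, with small classes

Classes with `p a <= kap` (the finset `s2`) pay the hub everything: no bound `x a <= g` is needed
for them.
-/

namespace LCX

open Finset
open scoped Classical

variable {J U : Type} [Fintype J] [Fintype U]

/-- a small class pays at least its whole weight -/
theorem Fpay_small {p T : ℝ} (hp : p ≤ kap) (hT : 0 ≤ T) : T ≤ kap * Fpay p T := by
  have hk := kap_pos
  unfold Fpay
  rw [max_eq_right hp]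
  have h1 : 0 ≤ max 0 (1 - p - T) / kap := div_nonneg (le_max_left _ _) hk.le
  have h2 : kap * (T / kap * (1 + max 0 (1 - p - T) / kap)) = T * (1 + max 0 (1 - p - T) / kap) := by
    field_simp
  rw [h2]
  nlinarith

/-- what `core'` needs from a hub `u` of degree `D` (after subtracting requests and errors) -/
def HubOK (iota : Type) (k : ℝ) (w : J → ℝ) (adj : J → J → Prop) (hadj : U → J → Prop)
    (Q : J → Finset J) (u : U) (D : ℝ) : Prop :=
  ∃ (s s2 : Finset iota) (Z : iota → Finset J) (p x : iota → ℝ) (g : ℝ),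
    0 ≤ g ∧ Disjoint s s2 ∧
    (∀ a ∈ s ∪ s2, ∀ c ∈ s ∪ s2, a ≠ c → Disjoint (Z a) (Z c)) ∧
    (∀ a ∈ s ∪ s2, 0 ≤ p a ∧ beta w adj hadj (Z a) ≤ p a * k ∧
      (∀ j ∈ Z a, beta w adj hadj (Q j) ≤ p a * k) ∧ 0 ≤ x a ∧
      k * x a ≤ ∑ j ∈ (Z a).filter (fun j => hadj u j), w j) ∧
    (∀ a ∈ s, x a ≤ g) ∧ (∀ a ∈ s2, p a ≤ kap) ∧ ∑ a ∈ s, p a ≤ 1 - g ∧
    D ≤ k + k * (∑ a ∈ s, x a + ∑ a ∈ s2, x a - g)

/-- the balance of one hub -/
theorem hub_balance' {iota : Type} (k : ℝ) (hk : 0 < k) (w : J → ℝ) (hw : ∀ j, 0 < w j)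
    (adj : J → J → Prop) (hsymm : ∀ i j, adj i j → adj j i) (hadj : U → J → Prop)
    (Q : J → Finset J) (hQ : ∀ j, j ∈ Q j) (hQQ : ∀ j l, l ∈ Q j → Q l ⊆ Q j) (u : U)
    (s s2 : Finset iota) (Z : iota → Finset J) (p x : iota → ℝ) (g : ℝ) (hg : 0 ≤ g)
    (hss : Disjoint s s2)
    (hdis : ∀ a ∈ s ∪ s2, ∀ c ∈ s ∪ s2, a ≠ c → Disjoint (Z a) (Z c))
    (hZ : ∀ a ∈ s ∪ s2, 0 ≤ p a ∧ beta w adj hadj (Z a) ≤ p a * k ∧
        (∀ j ∈ Z a, beta w adj hadj (Q j) ≤ p a * k) ∧ 0 ≤ x a ∧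
        k * x a ≤ ∑ j ∈ (Z a).filter (fun j => hadj u j), w j)
    (hxg : ∀ a ∈ s, x a ≤ g) (hp2 : ∀ a ∈ s2, p a ≤ kap)
    (hsum : ∑ a ∈ s, p a ≤ 1 - g) :
    k * (∑ a ∈ s, x a + ∑ a ∈ s2, x a - g) ≤ kap * k +
      income k w adj hadj Q (fun j => kap * k + max 0 (k - sigma w adj hadj j)) u := by
  set b : J → ℝ := fun j => kap * k + max 0 (k - sigma w adj hadj j) with hb
  have hK : 0 ≤ kap * k := mul_nonneg kap_pos.le hk.le
  have hb0 : ∀ j, 0 ≤ b j := fun j => add_nonneg hK (le_max_left _ _)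
  set T : iota → ℝ := fun a => (∑ l ∈ payers hadj Q u (Z a), w l) / k with hT
  have hTx : ∀ a ∈ s ∪ s2, x a ≤ T a := by
    intro a ha
    obtain ⟨_, _, _, _, h⟩ := hZ a ha
    rw [hT]
    simp only
    rw [le_div_iff₀ hk]
    refine le_trans (le_of_eq (mul_comm _ _)) (h.trans ?_)
    refine sum_le_sum_of_subset_of_nonneg ?_ (fun l _ _ => (hw l).le)
    intro j hj
    rw [mem_filter] at hj
    rw [payers, mem_filter]
    exact ⟨hj.1, j, hQ j, hj.1, hj.2⟩
  have hN := numeric s g p x T hg (fun a ha => (hZ a (mem_union_left _ ha)).1) hsum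
    (fun a ha => (hZ a (mem_union_left _ ha)).2.2.2.1) hxg
    (fun a ha => hTx a (mem_union_left _ ha))
  have hN2 : ∑ a ∈ s2, x a ≤ ∑ a ∈ s2, kap * Fpay (p a) (T a) := by
    refine sum_le_sum (fun a ha => ?_)
    have ha' := mem_union_right s ha
    have h1 := hTx a ha'
    exact h1.trans (Fpay_small (hp2 a ha) ((hZ a ha').2.2.2.1.trans h1))
  have hpay : ∀ a ∈ s ∪ s2, k * (kap * Fpay (p a) (T a)) ≤
      ∑ j ∈ payers hadj Q u (Z a), payTo k w adj hadj Q b j := by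
    intro a ha
    obtain ⟨_, h2, h3, _, _⟩ := hZ a ha
    refine pay_class k hk w hw adj hsymm hadj Q hQ hQQ u (Z a) (p a) h3 b (fun j hj => ?_)
    have hjZ : j ∈ Z a := (mem_filter.1 hj).1
    have hσ := sigma_le w hw adj hsymm hadj (Z a) (payers hadj Q u (Z a)) j hjZ
    rw [hb]
    simp only
    have : max 0 (k - ∑ l ∈ payers hadj Q u (Z a), w l - p a * k -
        ∑ l ∈ (Z a \ payers hadj Q u (Z a)).filter (fun l => adj l j), w l) ≤
        max 0 (k - sigma w adj hadj j) := max_le_max le_rfl (by linarith)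
    linarith
  have hinc : ∑ a ∈ s ∪ s2, ∑ j ∈ payers hadj Q u (Z a), payTo k w adj hadj Q b j ≤
      income k w adj hadj Q b u := by
    have hd : ((s ∪ s2 : Finset iota) : Set iota).PairwiseDisjoint
        (fun a => payers hadj Q u (Z a)) :=
      fun a ha c hc hac => Disjoint.mono (filter_subset _ _) (filter_subset _ _)
        (hdis a ha c hc hac)
    rw [← sum_biUnion hd]
    unfold income
    refine sum_le_sum_of_subset_of_nonneg ?_ (fun j _ _ =>
      payTo_nonneg k hk.le w hw adj hadj Q b j (hb0 j))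
    intro j hj
    rw [mem_biUnion] at hj
    obtain ⟨a, _, hj⟩ := hj
    rw [payers, mem_filter] at hj
    obtain ⟨_, l, hl, _, hul⟩ := hj
    simp only [bdU, mem_filter, mem_univ, true_and]
    exact ⟨l, hl, hul⟩
  have h1 : k * (∑ a ∈ s, x a + ∑ a ∈ s2, x a - g) ≤
      k * (kap + ∑ a ∈ s ∪ s2, kap * Fpay (p a) (T a)) := by
    refine mul_le_mul_of_nonneg_left ?_ hk.le
    rw [sum_union hss]
    linarith
  have h2 : k * (kap + ∑ a ∈ s ∪ s2, kap * Fpay (p a) (T a)) =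
      kap * k + ∑ a ∈ s ∪ s2, k * (kap * Fpay (p a) (T a)) := by
    rw [mul_add, mul_sum]; ring
  have h3 := sum_le_sum hpay
  linarith

/-- The total, from the balance of the cells (`HJ`) and of the hubs (`H2`). -/
theorem core_aux' {iota : Type} (k : ℝ) (hk : 0 < k) (w : J → ℝ) (hw : ∀ j, 0 < w j)
    (adj : J → J → Prop) (hsymm : ∀ i j, adj i j → adj j i) (hadj : U → J → Prop)
    (Q : J → Finset J) (hQ : ∀ j, j ∈ Q j) (hQQ : ∀ j l, l ∈ Q j → Q l ⊆ Q j)
    (DJ : J → ℝ) (DU : U → ℝ) (eJ : J → ℝ) (eU : U → ℝ)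
    (qJ : J → J → ℝ) (qU : U → J → ℝ)
    (HJ : ∀ j, w j * DJ j + (∑ i, w i * qJ i j + ∑ u, qU u j) ≤
      w j * (k - max 0 (k - sigma w adj hadj j) + eJ j + ∑ l, qJ j l))
    (H2 : ∀ u, HubOK iota k w adj hadj Q u (DU u - ∑ j, qU u j - eU u)) :
    ∑ j, w j * DJ j + ∑ u, DU u ≤
      (1 + kap) * k * (∑ j, w j + (Fintype.card U : ℝ)) + ∑ j, w j * eJ j + ∑ u, eU u := by
  set b : J → ℝ := fun j => kap * k + max 0 (k - sigma w adj hadj j) with hb
  -- hubs
  have hU : ∀ u, DU u ≤ (1 + kap) * k + income k w adj hadj Q b u + ∑ j, qU u j + eU u := by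
    intro u
    obtain ⟨s, s2, Z, p, x, g, hg, hss, hdis, hZ, hxg, hp2, hsum, hD⟩ := H2 u
    have := hub_balance' k hk w hw adj hsymm hadj Q hQ hQQ u s s2 Z p x g hg hss hdis hZ hxg hp2
      hsum
    linarith
  have hU' := sum_le_sum (fun u (_ : u ∈ (univ : Finset U)) => hU u)
  rw [sum_add_distrib, sum_add_distrib, sum_add_distrib, sum_const, nsmul_eq_mul, card_univ] at hU'
  have hinc := income_total k hk.le w hw adj hadj Q b
    (fun j => by rw [hb]; simp only; linarith [le_max_left 0 (k - sigma w adj hadj j)])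
  have hJ' := sum_le_sum (fun j (_ : j ∈ (univ : Finset J)) => HJ j)
  rw [sum_add_distrib, sum_add_distrib] at hJ'
  have hq1 : ∑ j, ∑ i, w i * qJ i j = ∑ j, w j * ∑ l, qJ j l := by
    rw [sum_comm]
    exact sum_congr rfl (fun i _ => by rw [mul_sum])
  have hq2 : ∑ j, ∑ u, qU u j = ∑ u, ∑ j, qU u j := sum_comm
  have hs : ∑ j, w j * (k - max 0 (k - sigma w adj hadj j) + eJ j + ∑ l, qJ j l) =
      (1 + kap) * k * ∑ j, w j - ∑ j, w j * b j + ∑ j, w j * eJ j + ∑ j, w j * ∑ l, qJ j l := by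
    rw [mul_sum, ← sum_sub_distrib, ← sum_add_distrib, ← sum_add_distrib]
    refine sum_congr rfl (fun j _ => ?_)
    rw [hb]
    ring
  rw [hs, hq1, hq2] at hJ'
  linarith

theorem core' {iota : Type} (k eta : ℝ) (hk : 0 < k) (heta : 0 ≤ eta) (heta1 : eta ≤ 1) (w : J → ℝ)
    (hw : ∀ j, 0 < w j)
    (adj : J → J → Prop) (hsymm : ∀ i j, adj i j → adj j i) (hadj : U → J → Prop)
    (Q : J → Finset J) (hQ : ∀ j, j ∈ Q j) (hQQ : ∀ j l, l ∈ Q j → Q l ⊆ Q j)
    (dJ : J → J → ℝ) (hdJ0 : ∀ i j, 0 ≤ dJ i j) (hdJ1 : ∀ i j, dJ i j ≤ 1)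
    (hdsymm : ∀ i j, dJ i j = dJ j i)
    (dU : U → J → ℝ) (hdU0 : ∀ u j, 0 ≤ dU u j) (hdU1 : ∀ u j, dU u j ≤ 1)
    (DJ : J → ℝ) (DU : U → ℝ) (eJ fJ : J → ℝ) (eU : U → ℝ)
    (heJ : ∀ j, 0 ≤ eJ j) (hfJ : ∀ j, 0 ≤ fJ j) (heU : ∀ u, 0 ≤ eU u)
    (hDJ : ∀ j, DJ j ≤ ∑ l ∈ univ.filter (adj j), dJ j l * w l +
      ∑ u ∈ univ.filter (fun u => hadj u j), dU u j + eJ j)
    (poor : J → Prop)
    (hpoor : ∀ j, poor j → ∑ l ∈ univ.filter (adj j), w l +
      ((univ.filter (fun u => hadj u j)).card : ℝ) ≤ (1 + eta) * k)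
    (qJ : J → J → ℝ) (qU : U → J → ℝ) (hqJ0 : ∀ i j, 0 ≤ qJ i j) (hqU0 : ∀ u j, 0 ≤ qU u j)
    (hqJ : ∀ i j, qJ i j ≠ 0 → k < DJ i ∧ ¬ poor i ∧ poor j ∧ adj i j)
    (hqJ1 : ∀ i j, adj i j → dJ i j * w j + qJ i j ≤ (1 + eta) * w j)
    (hqU : ∀ u j, qU u j ≠ 0 → poor j ∧ hadj u j)
    (hqU1 : ∀ u j, hadj u j → dU u j * w j + qU u j ≤ (1 + eta) * w j)
    (H1 : ∀ i, ¬ poor i → k < DJ i → DJ i ≤ k + ∑ j, qJ i j + fJ i)
    (H2 : ∀ u, HubOK iota k w adj hadj Q u (DU u - ∑ j, qU u j - eU u)) :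
    ∑ j, w j * DJ j + ∑ u, DU u ≤
      (1 + kap) * k * (∑ j, w j + (Fintype.card U : ℝ)) +
        ∑ j, w j * (eJ j + fJ j + 3 * eta * k) + ∑ u, eU u := by
  refine core_aux' k hk w hw adj hsymm hadj Q hQ hQQ DJ DU (fun j => eJ j + fJ j + 3 * eta * k) eU
    qJ qU (fun j => ?_) H2
  have hetak : 0 ≤ eta * k := mul_nonneg heta hk.le
  have hqs : 0 ≤ ∑ l, qJ j l := sum_nonneg (fun l _ => hqJ0 j l)
  set σ := sigma w adj hadj j with hσ
  have hσ' : σ = ∑ l ∈ univ.filter (adj j), w l +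
      ((univ.filter (fun u => hadj u j)).card : ℝ) := rfl
  by_cases hpj : poor j
  · have h1 : ∑ i, w i * qJ i j ≤ ∑ l ∈ univ.filter (adj j),
        w l * ((1 + eta) * w j - dJ j l * w j) := by
      rw [sum_filter]
      refine sum_le_sum (fun i _ => ?_)
      by_cases hij : adj j i
      · rw [if_pos hij]
        have := hqJ1 i j (hsymm _ _ hij)
        rw [hdsymm i j] at this
        exact mul_le_mul_of_nonneg_left (by linarith) (hw i).le
      · rw [if_neg hij]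
        have : qJ i j = 0 := by
          by_contra hne
          exact hij (hsymm _ _ (hqJ i j hne).2.2.2)
        rw [this, mul_zero]
    have h2 : ∑ u, qU u j ≤ ∑ u ∈ univ.filter (fun u => hadj u j),
        ((1 + eta) * w j - dU u j * w j) := by
      rw [sum_filter]
      refine sum_le_sum (fun u _ => ?_)
      by_cases huj : hadj u j
      · rw [if_pos huj]
        linarith [hqU1 u j huj]
      · rw [if_neg huj]
        have : qU u j = 0 := by
          by_contra hne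
          exact huj (hqU u j hne).2
        rw [this]
    have h3 : ∑ l ∈ univ.filter (adj j), w l * ((1 + eta) * w j - dJ j l * w j) +
        ∑ u ∈ univ.filter (fun u => hadj u j), ((1 + eta) * w j - dU u j * w j) =
        w j * ((1 + eta) * σ - (∑ l ∈ univ.filter (adj j), dJ j l * w l +
          ∑ u ∈ univ.filter (fun u => hadj u j), dU u j)) := by
      have e1 : ∑ l ∈ univ.filter (adj j), w l * ((1 + eta) * w j - dJ j l * w j) =
          w j * (1 + eta) * ∑ l ∈ univ.filter (adj j), w l -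
            w j * ∑ l ∈ univ.filter (adj j), dJ j l * w l := by
        rw [mul_sum, mul_sum, ← sum_sub_distrib]
        exact sum_congr rfl (fun l _ => by ring)
      have e2 : ∑ u ∈ univ.filter (fun u => hadj u j), ((1 + eta) * w j - dU u j * w j) =
          w j * (1 + eta) * ((univ.filter (fun u => hadj u j)).card : ℝ) -
            w j * ∑ u ∈ univ.filter (fun u => hadj u j), dU u j := by
        rw [sum_sub_distrib, sum_const, nsmul_eq_mul, mul_sum]
        congr 1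
        · ring
        · exact sum_congr rfl (fun l _ => by ring)
      rw [e1, e2, hσ']
      ring
    have h4 : w j * DJ j ≤ w j * (∑ l ∈ univ.filter (adj j), dJ j l * w l +
        ∑ u ∈ univ.filter (fun u => hadj u j), dU u j + eJ j) :=
      mul_le_mul_of_nonneg_left (hDJ j) (hw j).le
    have h5 : (1 + eta) * σ + eJ j ≤ k - max 0 (k - σ) + (eJ j + fJ j + 3 * eta * k) +
        ∑ l, qJ j l := by
      have h6 : σ ≤ (1 + eta) * k := hpoor j hpj
      have h7 : eta * σ ≤ eta * ((1 + eta) * k) := mul_le_mul_of_nonneg_left h6 heta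
      have h8 : eta * (eta * k) ≤ 1 * (eta * k) := mul_le_mul_of_nonneg_right heta1 hetak
      have h9 := hfJ j
      rcases max_cases 0 (k - σ) with ⟨h, _⟩ | ⟨h, _⟩ <;> rw [h] <;> nlinarith
    have h6 := mul_le_mul_of_nonneg_left h5 (hw j).le
    have h7 : w j * ((1 + eta) * σ - (∑ l ∈ univ.filter (adj j), dJ j l * w l +
          ∑ u ∈ univ.filter (fun u => hadj u j), dU u j)) +
        w j * (∑ l ∈ univ.filter (adj j), dJ j l * w l +
        ∑ u ∈ univ.filter (fun u => hadj u j), dU u j + eJ j) = w j * ((1 + eta) * σ + eJ j) := by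
      ring
    linarith
  · have h1 : ∑ i, w i * qJ i j = 0 := by
      refine sum_eq_zero (fun i _ => ?_)
      have : qJ i j = 0 := by
        by_contra hne
        exact hpj (hqJ i j hne).2.2.1
      rw [this, mul_zero]
    have h2 : ∑ u, qU u j = 0 := by
      refine sum_eq_zero (fun u _ => ?_)
      by_contra hne
      exact hpj (hqU u j hne).1
    have h3 : DJ j ≤ σ + eJ j := by
      have e1 : ∑ l ∈ univ.filter (adj j), dJ j l * w l ≤ ∑ l ∈ univ.filter (adj j), w l :=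
        sum_le_sum (fun l _ => mul_le_of_le_one_left (hw l).le (hdJ1 j l))
      have e2 : ∑ u ∈ univ.filter (fun u => hadj u j), dU u j ≤
          ((univ.filter (fun u => hadj u j)).card : ℝ) := by
        refine (sum_le_sum (fun u _ => hdU1 u j)).trans (le_of_eq ?_)
        rw [sum_const, nsmul_eq_mul, mul_one]
      linarith [hDJ j]
    rw [h1, h2, add_zero, add_zero]
    refine mul_le_mul_of_nonneg_left ?_ (hw j).le
    have h9 := hfJ j
    have h10 := heJ j
    rcases le_or_gt (DJ j) k with hle | hgt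
    · rcases max_cases 0 (k - σ) with ⟨h, _⟩ | ⟨h, _⟩ <;> rw [h] <;> nlinarith
    · have := H1 j hpj hgt
      rcases max_cases 0 (k - σ) with ⟨h, _⟩ | ⟨h, _⟩ <;> rw [h] <;> nlinarith

end LCX
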