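import Mathlib

/-! # Exact upper bound for the maximum size with bounded maximum local connectivity: definitions

Everything is counted in numbers of vertices (cardinalities cast to the reals); `k` is the bound
for the local connectivity (a real number here).
-/

namespace LCX

open Finset
open scoped Classical

section graph

variable {V : Type} [Fintype V]

/-- neighbours -/
noncomputable def nb (G : SimpleGraph V) (v : V) : Finset V := univ.filter (fun a => G.Adj v a)

/-- vertex boundary -/
noncomputable def bd (G : SimpleGraph V) (A : Finset V) : Finset V :=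
  univ.filter (fun v => v ∉ A ∧ ∃ a ∈ A, G.Adj a v)

/-- number of ordered adjacent pairs -/
noncomputable def ee (G : SimpleGraph V) (X Z : Finset V) : ℕ := ∑ x ∈ X, (nb G x ∩ Z).card

/-- `A` separates `x` from `z`, up to the edge `xz`, with at most `K` boundary vertices and at
most `L` vertices. -/
def IsCut (G : SimpleGraph V) (K L : ℝ) (x z : V) (A : Finset V) : Prop :=
  x ∈ A ∧ z ∉ A ∧ (∀ a ∈ A, G.Adj a z → a = x) ∧ ((bd G A).card : ℝ) ≤ K ∧ (A.card : ℝ) ≤ L

/-- Any two vertices are separated by a small set containing one of them. -/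
def SmallCuts (G : SimpleGraph V) (k C : ℝ) : Prop :=
  ∀ x z : V, x ≠ z → (∃ A, IsCut G k (C * k) x z A) ∨ ∃ A, IsCut G k (C * k) z x A

/-- `(X, Y)` is a regular pair: densities of large subpairs are within `e` of the density. -/
def Reg (G : SimpleGraph V) (e : ℝ) (X Y : Finset V) : Prop :=
  ∀ X' ⊆ X, ∀ Y' ⊆ Y, e * X.card ≤ X'.card → e * Y.card ≤ Y'.card →
    |(ee G X' Y' : ℝ) * (X.card * Y.card) - (ee G X Y : ℝ) * (X'.card * Y'.card)| ≤
      e * (X'.card * Y'.card) * (X.card * Y.card)

/-- density of a pair -/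
noncomputable def dens (G : SimpleGraph V) (X Y : Finset V) : ℝ :=
  (ee G X Y : ℝ) / ((X.card : ℝ) * (Y.card : ℝ))

/-- `x, z` (members of `X`) are typical for the pair `(X, Y)` -/
def Typ (G : SimpleGraph V) (e : ℝ) (X Y : Finset V) (x z : V) : Prop :=
  |((nb G x ∩ Y).card : ℝ) - dens G X Y * Y.card| ≤ e * Y.card ∧
  |((nb G z ∩ Y).card : ℝ) - dens G X Y * Y.card| ≤ e * Y.card ∧
  (dens G X Y ^ 2 - 2 * e) * Y.card ≤ ((nb G x ∩ nb G z ∩ Y).card : ℝ)

/-- A trimmed cut `B` of `x` from `z`: besides `x` it lies in the homes `E i`, and it meets a home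
(outside `x`) only if it meets it in at least `T` vertices. -/
def TrimCut (G : SimpleGraph V) {m : ℕ} (E : Fin m → Finset V) (K L T : ℝ) (x z : V)
    (B : Finset V) : Prop :=
  IsCut G K L x z B ∧ (∀ b ∈ B, b ≠ x → ∃ i, b ∈ E i) ∧
    ∀ i, (∃ b ∈ B, b ≠ x ∧ b ∈ E i) → T ≤ ((B ∩ E i).card : ℝ)

/-- A clean graph with homes `E i`. -/
structure Clean (G : SimpleGraph V) (k C d0 e1 : ℝ) {m : ℕ} (E : Fin m → Finset V) : Prop where
  disj : ∀ i i', i ≠ i' → Disjoint (E i) (E i')
  low : ∀ i, d0 * k ≤ ((E i).card : ℝ)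
  high : ∀ i, ((E i).card : ℝ) ≤ C * k
  bdhigh : ∀ i, ((E i ∪ bd G (E i)).card : ℝ) ≤ (C + 1) * k
  deg : ∀ v, ((nb G v).card : ℝ) ≤ (C + 1) * k
  thick : ∀ v i, nb G v ∩ E i = ∅ ∨ e1 * k ≤ ((nb G v ∩ E i).card : ℝ)
  full : ∀ A : Finset V, (A.card : ℝ) ≤ C * k → ((bd G A).card : ℝ) ≤ k →
    ((A.filter (fun v => ∀ i, v ∉ E i)).card : ℝ) ≤ d0 * k

/-- the cell number `a` of the home `i` -/
noncomputable def ccell {m : ℕ} (E : Fin m → Finset V) (col : Fin m → V → ℕ) (i : Fin m)
    (a : ℕ) : Finset V := (E i).filter (fun v => col i v = a)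

/-- the hubs (vertices outside the homes) adjacent to all homes of `S` -/
noncomputable def hubO (G : SimpleGraph V) {m : ℕ} (E : Fin m → Finset V) (S : Finset (Fin m)) :
    Finset V :=
  univ.filter (fun v => (∀ i, v ∉ E i) ∧ ∀ i ∈ S, (nb G v ∩ E i).Nonempty)

/-- the cell number `a` of the block of hubs `hubO G E S` -/
noncomputable def hcell (G : SimpleGraph V) {m : ℕ} (E : Fin m → Finset V)
    (hcol : Finset (Fin m) → V → ℕ) (S : Finset (Fin m)) (a : ℕ) : Finset V :=
  (hubO G E S).filter (fun v => hcol S v = a)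

end graph

section abstractpart

variable {J U H : Type} [Fintype J] [Fintype U]

/-- cells outside `A` adjacent to a cell of `A` -/
noncomputable def bdJ (adj : J → J → Prop) (A : Finset J) : Finset J :=
  univ.filter (fun l => l ∉ A ∧ ∃ j ∈ A, adj j l)

/-- hubs adjacent to a cell of `A` -/
noncomputable def bdU (hadj : U → J → Prop) (A : Finset J) : Finset U :=
  univ.filter (fun u => ∃ j ∈ A, hadj u j)

/-- size of the boundary of a set of cells (hubs are never inside) -/
noncomputable def beta (w : J → ℝ) (adj : J → J → Prop) (hadj : U → J → Prop) (A : Finset J) : ℝ :=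
  ∑ l ∈ bdJ adj A, w l + ((bdU hadj A).card : ℝ)

/-- penalty: weight and number of homes -/
noncomputable def pen (w : J → ℝ) (hm : J → H) (rho : ℝ) (A : Finset J) : ℝ :=
  ∑ j ∈ A, w j + rho * ((A.image hm).card : ℝ)

end abstractpart

/-- `7 - 4 sqrt 3 = (2 - sqrt 3)^2` -/
noncomputable def kap : ℝ := 7 - 4 * Real.sqrt 3

/-- normalised payment of a class with boundary `p` in which `T` is the measure of the cells
that pay -/
noncomputable def Fpay (p T : ℝ) : ℝ :=
  T / max p kap * (1 + max 0 (1 - p - T) / max p kap)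

end LCX
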