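import Pool.Agent.Lib_MP_0bab5c_x.XDef
import Pool.Agent.Lib_MP_0bab5c_co.Dense
import Pool.Agent.Lib_MP_0bab5c_co.Regions
import Pool.Agent.Lib_MP_0bab5c_co.Cuts

/-! # A minimal counterexample has small cuts -/

namespace LCX

open Finset
open scoped Classical
open Pool.Agent.LC0bab (RC e2 SCut SCut_of_RC RC_mono dense_rel e2_sep)

theorem kap_bounds : (717 : ℝ) / 10000 < kap ∧ kap < 718 / 10000 := by
  have h0 : 0 ≤ Real.sqrt 3 := Real.sqrt_nonneg 3
  have h1 : Real.sqrt 3 ^ 2 = 3 := Real.sq_sqrt (by norm_num)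
  unfold kap
  constructor
  · nlinarith
  · nlinarith

/-- the small side of a cut of a minimal set -/
theorem small_side {V : Type} {G : SimpleGraph V} {k : ℕ} {W : Finset V} {c : ℝ} {s0 : ℕ}
    (hk : 0 < k) (hc : 0 ≤ c) (hs0 : 2 ≤ s0)
    (hbig : 2 * s0 * k ≤ W.card) (hex : c * (k : ℝ) * (W.card - k) < e2 G W)
    (hmin : ∀ W' ⊂ W, s0 * k ≤ W'.card → (e2 G W' : ℝ) ≤ c * (k : ℝ) * (W'.card - k))
    {Q : Finset V} (hQ : Q ⊆ W) (hne : Q.Nonempty)
    (hbd : (Pool.Agent.LC0bab.bd G W Q).card ≤ k) (hhalf : 2 * Q.card ≤ W.card) :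
    (Q ∪ Pool.Agent.LC0bab.bd G W Q).card < s0 * k := by
  by_contra hcon
  have hcon : s0 * k ≤ (Q ∪ Pool.Agent.LC0bab.bd G W Q).card := not_lt.1 hcon
  have hcard : (Q ∪ Pool.Agent.LC0bab.bd G W Q).card =
      Q.card + (Pool.Agent.LC0bab.bd G W Q).card :=
    card_union_of_disjoint Pool.Agent.LC0bab.bd_disj.symm
  have hsub : Q ∪ Pool.Agent.LC0bab.bd G W Q ⊆ W :=
    union_subset hQ Pool.Agent.LC0bab.bd_subset
  have h2k : 2 * k ≤ s0 * k := Nat.mul_le_mul_right k hs0
  have hbig' : 2 * (s0 * k) ≤ W.card := by rw [← mul_assoc]; exact hbig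
  have hss : Q ∪ Pool.Agent.LC0bab.bd G W Q ⊂ W := by
    refine hsub.ssubset_of_ne ?_
    intro he
    rw [he] at hcard
    omega
  have hd : (W \ Q).card = W.card - Q.card := card_sdiff_of_subset hQ
  have hss2 : W \ Q ⊂ W := by
    refine sdiff_subset.ssubset_of_ne ?_
    intro he
    rw [he] at hd
    have := hne.card_pos
    omega
  have hqw : Q.card ≤ W.card := card_le_card hQ
  have h1 := hmin _ hss hcon
  have h2 := hmin _ hss2 (by omega)
  have h3 : (e2 G W : ℝ) ≤ e2 G (Q ∪ Pool.Agent.LC0bab.bd G W Q) + e2 G (W \ Q) := by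
    exact_mod_cast e2_sep hQ
  have hcR : ((Q ∪ Pool.Agent.LC0bab.bd G W Q).card : ℝ) =
      Q.card + (Pool.Agent.LC0bab.bd G W Q).card := by
    exact_mod_cast hcard
  have hdR : ((W \ Q).card : ℝ) = W.card - Q.card := by
    rw [hd, Nat.cast_sub hqw]
  have hbR : ((Pool.Agent.LC0bab.bd G W Q).card : ℝ) ≤ k := by exact_mod_cast hbd
  have hkR : (0 : ℝ) < k := by exact_mod_cast hk
  rw [hcR] at h1
  rw [hdR] at h2
  have h5 : 0 ≤ c * (k : ℝ) * (k - (Pool.Agent.LC0bab.bd G W Q).card) :=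
    mul_nonneg (mul_nonneg hc hkR.le) (sub_nonneg.2 hbR)
  nlinarith

theorem exists_critical (eps : ℝ) (heps : 0 < eps) : ∃ k0 : ℕ, 0 < k0 ∧ ∀ k : ℕ, k0 ≤ k →
    ∀ (V : Type) (G : SimpleGraph V) (W : Finset V), RC G k W ∅ →
      (1 + kap + eps) * k * W.card < e2 G W →
      ∃ (V' : Type) (_ : Fintype V') (G' : SimpleGraph V'), SmallCuts G' k 16 ∧
        0 < Fintype.card V' ∧
        (1 + kap + eps / 2) * k * (Fintype.card V' : ℝ) ≤ ∑ v, ((nb G' v).card : ℝ) := by
  obtain ⟨hk1, hk2⟩ := kap_bounds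
  set c : ℝ := 1 + kap + eps with hc
  have hcpos : 0 < c := by rw [hc]; linarith
  set r : ℝ := 32 + 2 * c / eps with hr
  have hr32 : 32 ≤ r := by
    have : 0 ≤ 2 * c / eps := by positivity
    linarith
  obtain ⟨k0, h0⟩ := dense_rel.{0} r (1 / 20) (by norm_num)
  refine ⟨k0 + 1, by omega, fun k hk V G W hrc hex => ?_⟩
  have hkpos : 0 < k := by omega
  have hkr : (0 : ℝ) < k := by exact_mod_cast hkpos
  have hdense : ∀ W' : Finset V, W' ⊆ W → (W'.card : ℝ) ≤ r * k →
      (e2 G W' : ℝ) ≤ k * W'.card + 1 / 20 * (k : ℝ) ^ 2 := by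
    intro W' hW' hcc
    have h := h0 k (by omega) V G W' ∅ (empty_subset _) hcc (RC_mono hrc hW')
    rw [sdiff_empty] at h
    have he : (e2 G W' : ℝ) = ∑ v ∈ W', ((Pool.Agent.LC0bab.nb G W' v).card : ℝ) := by
      unfold e2 Pool.Agent.LC0bab.ee
      push_cast
      rfl
    rw [he]
    exact h
  have hsq : (e2 G W : ℝ) ≤ W.card * W.card := by
    have := Pool.Agent.LC0bab.ee_le_mul (G := G) W W
    unfold e2
    exact_mod_cast this
  have hWpos : (0 : ℝ) < W.card := by
    rcases Nat.eq_zero_or_pos W.card with h0' | h0'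
    · rw [h0'] at hex hsq
      simp at hex hsq
      exfalso
      rw [hsq] at hex
      simp at hex
    · exact_mod_cast h0'
  have hWk : c * (k : ℝ) < W.card := by
    have : c * (k : ℝ) * W.card < W.card * W.card := lt_of_lt_of_le hex hsq
    exact lt_of_mul_lt_mul_right this hWpos.le
  have hc1 : 717 / 10000 ≤ c - 1 := by rw [hc]; linarith
  have hbig : r * (k : ℝ) < W.card := by
    by_contra hle
    push Not at hle
    have h := hdense W (Subset.refl _) hle
    have h1 : (c - 1) * k * W.card < 1 / 20 * (k : ℝ) ^ 2 := by nlinarith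
    have h2 : 717 / 10000 * (k : ℝ) * k ≤ (c - 1) * k * W.card := by
      have h3 : (k : ℝ) ≤ W.card := by nlinarith
      have h4 : 717 / 10000 * (k : ℝ) ≤ (c - 1) * k := mul_le_mul_of_nonneg_right hc1 hkr.le
      calc 717 / 10000 * (k : ℝ) * k ≤ (c - 1) * k * k := mul_le_mul_of_nonneg_right h4 hkr.le
        _ ≤ (c - 1) * k * W.card := mul_le_mul_of_nonneg_left h3 (by
          apply mul_nonneg _ hkr.le
          linarith)
    nlinarith [mul_pos hkr hkr]
  set P : Finset V → Prop := fun W' => 16 * k ≤ W'.card ∧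
    c * (k : ℝ) * (W'.card - k) < e2 G W' with hP
  have hPW : P W := by
    refine ⟨?_, ?_⟩
    · have : (16 * k : ℝ) ≤ W.card := by nlinarith
      exact_mod_cast this
    · have : c * (k : ℝ) * ((W.card : ℝ) - k) ≤ c * k * W.card := by
        apply mul_le_mul_of_nonneg_left _ (by positivity)
        linarith
      linarith
  obtain ⟨W', hW'mem, hmin⟩ := exists_min_image (W.powerset.filter P) card
    ⟨W, by simp only [mem_filter, mem_powerset]; exact ⟨Subset.refl _, hPW⟩⟩
  rw [mem_filter, mem_powerset] at hW'mem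
  obtain ⟨hW'sub, hW'16, hW'ex⟩ := hW'mem
  have h16 : (16 * k : ℝ) ≤ W'.card := by exact_mod_cast hW'16
  have hbig' : r * (k : ℝ) < W'.card := by
    by_contra hle
    push Not at hle
    have h := hdense W' hW'sub hle
    have h1 : c * (k : ℝ) * (W'.card - k) < k * W'.card + 1 / 20 * (k : ℝ) ^ 2 :=
      lt_of_lt_of_le hW'ex h
    have h2 : (c - 1) * (W'.card : ℝ) < c * k + 1 / 20 * k := by
      have h3 : k * ((c - 1) * (W'.card : ℝ)) < k * (c * k + 1 / 20 * k) := by nlinarith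
      exact lt_of_mul_lt_mul_left h3 hkr.le
    have h3 : (c - 1) * (16 * k) ≤ (c - 1) * (W'.card : ℝ) :=
      mul_le_mul_of_nonneg_left h16 (by linarith)
    nlinarith
  have hW'bigN : 2 * 16 * k ≤ W'.card := by
    have : (2 * 16 * k : ℝ) ≤ W'.card := by nlinarith
    exact_mod_cast this
  have hminW : ∀ W'' ⊂ W', 16 * k ≤ W''.card → (e2 G W'' : ℝ) ≤ c * (k : ℝ) * (W''.card - k) := by
    intro W'' hW'' h4''
    by_contra hcon2
    push Not at hcon2
    have hmem : W'' ∈ W.powerset.filter P := by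
      rw [mem_filter, mem_powerset]
      exact ⟨hW''.subset.trans hW'sub, h4'', hcon2⟩
    have := hmin W'' hmem
    have := card_lt_card hW''
    omega
  have hrc' : RC G k W' ∅ := RC_mono hrc hW'sub
  have hnb : ∀ v : {v // v ∈ W'}, nb (Pool.Agent.LC0bab.sub G W') v =
      Pool.Agent.LC0bab.nb (Pool.Agent.LC0bab.sub G W') univ v := by
    intro v
    ext a
    simp [nb, Pool.Agent.LC0bab.nb]
  have hbdeq : ∀ A : Finset {v // v ∈ W'}, bd (Pool.Agent.LC0bab.sub G W') A =
      Pool.Agent.LC0bab.bd (Pool.Agent.LC0bab.sub G W') univ A := by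
    intro A
    ext v
    simp [bd, Pool.Agent.LC0bab.bd]
  refine ⟨{v // v ∈ W'}, inferInstance, Pool.Agent.LC0bab.sub G W', ?_, ?_, ?_⟩
  · -- small cuts
    have key : ∀ x z : {v // v ∈ W'}, SCut G k W' x z →
        ∃ A, IsCut (Pool.Agent.LC0bab.sub G W') (k : ℝ) (16 * k) x z A := by
      rintro x z ⟨A, hA, hxA, hzA, hadj, hbd, hhalf⟩
      have hsm := small_side (s0 := 16) hkpos hcpos.le (by norm_num) hW'bigN hW'ex hminW hA
        ⟨_, hxA⟩ hbd hhalf
      refine ⟨Pool.Agent.LC0bab.pull W' A, Pool.Agent.LC0bab.mem_pull.2 hxA,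
        fun h => hzA (Pool.Agent.LC0bab.mem_pull.1 h), ?_, ?_, ?_⟩
      · intro a ha haz
        exact Subtype.ext (hadj a (Pool.Agent.LC0bab.mem_pull.1 ha) haz)
      · rw [hbdeq, Pool.Agent.LC0bab.bd_pull G hA,
          Pool.Agent.LC0bab.pull_card Pool.Agent.LC0bab.bd_subset]
        exact_mod_cast hbd
      · rw [Pool.Agent.LC0bab.pull_card hA]
        have h1 : A.card ≤ 16 * k :=
          (card_le_card subset_union_left).trans hsm.le
        exact_mod_cast h1
    intro x z hxz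
    rcases SCut_of_RC hrc' x.2 z.2 (fun h => hxz (Subtype.ext h)) with h | h
    · exact Or.inl (key x z h)
    · exact Or.inr (key z x h)
  · rw [Fintype.card_coe]
    omega
  · rw [Fintype.card_coe]
    have he : ∑ v, ((nb (Pool.Agent.LC0bab.sub G W') v).card : ℝ) = (e2 G W' : ℝ) := by
      have h1 := Pool.Agent.LC0bab.e2_pull G (Subset.refl W')
      rw [← h1, Pool.Agent.LC0bab.pull_self]
      unfold e2 Pool.Agent.LC0bab.ee
      push_cast
      exact sum_congr rfl (fun v _ => by rw [hnb])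
    rw [he]
    have h1 : c * (k : ℝ) * k ≤ eps / 2 * k * W'.card := by
      have h2 : 2 * c / eps * k ≤ W'.card := by
        have : 2 * c / eps ≤ r := by rw [hr]; linarith
        nlinarith
      have h3 : eps / 2 * k * (2 * c / eps * k) ≤ eps / 2 * k * W'.card :=
        mul_le_mul_of_nonneg_left h2 (by positivity)
      have h4 : eps / 2 * k * (2 * c / eps * k) = c * k * k := by
        field_simp
      linarith
    have h5 : (1 + kap + eps / 2) = c - eps / 2 := by rw [hc]; ring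
    rw [h5]
    nlinarith

end LCX
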