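import Pool.Agent.Lib_MP_0bab5c_x.XGraphC
import Pool.Agent.Lib_MP_0bab5c_x.XClean
import Pool.Agent.Lib_MP_0bab5c_x.XCells
import Pool.Agent.Lib_MP_0bab5c_x.XRC
import Pool.Agent.Lib_MP_0bab5c_co.Kappa

/-! # The exact asymptotic upper bound -/

namespace LCX

open Finset
open scoped Classical

theorem small_cuts_bound (eps : ℝ) (heps : 0 < eps) : ∃ k0 : ℕ, ∀ k : ℕ, k0 ≤ k →
    ∀ (V : Type) [Fintype V] (G : SimpleGraph V), SmallCuts G k 16 →
      ∑ v, ((nb G v).card : ℝ) ≤ (1 + kap + eps) * k * (Fintype.card V : ℝ) := by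
  -- constants
  set eta : ℝ := min eps 1 / 2000 with heta_def
  have heta : 0 < eta := by
    have : 0 < min eps 1 := lt_min heps one_pos
    positivity
  have heta1 : eta ≤ 1 / 1000 := by
    have : min eps 1 ≤ 1 := min_le_right _ _
    rw [heta_def]
    linarith
  have hetaeps : 2000 * eta ≤ eps := by
    have : min eps 1 ≤ eps := min_le_left _ _
    rw [heta_def]
    linarith
  clear_value eta
  set d0 : ℝ := eta / 2 with hd0_def
  have hd0 : 0 < d0 := by positivity
  have hd01 : d0 ≤ 1 := by rw [hd0_def]; linarith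
  set e1 : ℝ := eta * d0 / 34 with he1_def
  have he1 : 0 < e1 := by positivity
  have he11 : e1 ≤ 1 := by
    have : eta * d0 ≤ 1 * 1 := mul_le_mul (by linarith) hd01 hd0.le (by norm_num)
    rw [he1_def]
    linarith
  set tau : ℝ := eta * e1 / 6 with htau_def
  have htau : 0 < tau := by positivity
  have htaue : tau ≤ e1 / 6 := by
    have : eta * e1 ≤ 1 * e1 := mul_le_mul_of_nonneg_right (by linarith) he1.le
    rw [htau_def]
    linarith
  set s : ℝ := eta * e1 / 2000 with hs_def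
  have hs : 0 < s := by positivity
  have hse : s ≤ eta / 2000 := by
    have : eta * e1 ≤ eta * 1 := mul_le_mul_of_nonneg_left he11 heta.le
    rw [hs_def]
    linarith
  set er : ℝ := eta * tau / 100 with her_def
  have her : 0 < er := by positivity
  have here : er ≤ eta / 100 := by
    have : eta * tau ≤ eta * 1 := mul_le_mul_of_nonneg_left (by linarith) heta.le
    rw [her_def]
    linarith
  set theta : ℝ := eta * s / 100 with hth_def
  have hth : 0 < theta := by positivity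
  obtain ⟨M, hMpos, hM⟩ := exists_red 16 d0 e1 s er eta (by norm_num) hd0 he1 hs (by linarith) her
    (by linarith) heta
  set N : ℕ := ⌈2 / (theta * tau)⌉₊ with hN_def
  set del : ℝ := eta / (3 * ((N : ℝ) + 1) ^ 2) with hdel_def
  have hNpos : (0 : ℝ) < (N : ℝ) + 1 := by positivity
  have hdel : 0 < del := by positivity
  have hN2 : 3 * del * (N : ℝ) ^ 2 ≤ eta := by
    have h1 : (N : ℝ) ^ 2 ≤ ((N : ℝ) + 1) ^ 2 :=
      pow_le_pow_left₀ (Nat.cast_nonneg _) (by linarith) 2
    have h2 : 3 * del * (N : ℝ) ^ 2 ≤ 3 * del * ((N : ℝ) + 1) ^ 2 :=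
      mul_le_mul_of_nonneg_left h1 (by positivity)
    have h3 : 3 * del * ((N : ℝ) + 1) ^ 2 = eta := by
      rw [hdel_def]
      field_simp
    linarith
  set D : ℕ := ⌈(16 + 1) * ((16 + 1) / e1 + 1) / del⌉₊ with hD_def
  set X1 : ℕ := M * (⌊1 / s⌋₊ + 1) ^ (M * ⌊17 / e1⌋₊) with hX1
  set X2 : ℕ := 2 ^ ((D + 1) ^ N) * (⌊1 / s⌋₊ + 1) ^ (M * (D + 1) ^ N) with hX2
  refine ⟨⌈1 / eta⌉₊ + ⌈34 / eta⌉₊ + ⌈34 * ((X1 : ℝ) + X2) / (d0 * eta)⌉₊ + 1,
    fun k hk V _ G hcuts => ?_⟩
  have hk1 : (1 : ℝ) ≤ k := by exact_mod_cast (by omega : 1 ≤ k)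
  have hkpos : (0 : ℝ) < k := by linarith
  have hk2 : 1 / eta ≤ k := by
    refine (Nat.le_ceil _).trans ?_
    exact_mod_cast (by omega : ⌈1 / eta⌉₊ ≤ k)
  have hk3 : 34 / eta ≤ k := by
    refine (Nat.le_ceil _).trans ?_
    exact_mod_cast (by omega : ⌈34 / eta⌉₊ ≤ k)
  have hk4 : 34 * ((X1 : ℝ) + X2) / (d0 * eta) ≤ k := by
    refine (Nat.le_ceil _).trans ?_
    exact_mod_cast (by omega : ⌈34 * ((X1 : ℝ) + X2) / (d0 * eta)⌉₊ ≤ k)
  have hek : 1 ≤ eta * k := by
    rw [div_le_iff₀ heta] at hk2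
    linarith
  have hkap : 0 < kap := kap_pos
  -- trivial case
  rcases le_or_gt (Fintype.card V : ℝ) k with hVk | hVk
  · have h1 : ∀ v : V, ((nb G v).card : ℝ) ≤ k := by
      intro v
      refine le_trans ?_ hVk
      exact_mod_cast card_le_univ _
    have h2 := sum_le_card_nsmul (univ : Finset V) (fun v => ((nb G v).card : ℝ)) k
      (fun v _ => h1 v)
    rw [nsmul_eq_mul, card_univ] at h2
    have h3 : 0 ≤ (kap + eps) * (k * (Fintype.card V : ℝ)) := by positivity
    nlinarith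
  obtain ⟨P, m, E, _, hP, hPcuts, hloss⟩ := cleaning G k 16 d0 e1 hk1 (by norm_num) hd0 he1 hcuts
  obtain ⟨G', J, U, instJ, instU, cell, hm, phi, adj, hadj, hGP, hred, hnear, hMc, hloss2⟩ :=
    hM V P k m E hk1 hP
  have par : Par (k : ℝ) eta d0 e1 tau s s er theta := by
    refine ⟨hk1, heta, heta1, hd0, he1, htau, by linarith, by linarith, hs, hs, her, hth, ?_, ?_, ?_,
      ?_, ?_, ?_, hek, ?_, ?_⟩
    · have : 3 * tau / e1 = eta / 2 := by
        rw [htau_def]
        field_simp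
        ring
      rw [this, hd0_def]
      linarith
    · have : theta * (16 / s + 17) = eta * (16 + 17 * s) / 100 := by
        rw [hth_def]
        field_simp
      rw [this]
      have h17 : eta * (16 + 17 * s) ≤ eta * 33 :=
        mul_le_mul_of_nonneg_left (by linarith) heta.le
      linarith
    · have : (2 * s + s) * (272 / e1) = eta * (816 / 2000) := by
        rw [hs_def]
        field_simp
        ring
      rw [this]
      linarith
    · linarith
    · have : er * (16 / tau + 1) = eta * (16 + tau) / 100 := by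
        rw [her_def]
        field_simp
      rw [this]
      have h17 : eta * (16 + tau) ≤ eta * 33 :=
        mul_le_mul_of_nonneg_left (by linarith) heta.le
      linarith
    · linarith
    · linarith
    · linarith
  have hcount := home_count hP
  have hbig : 17 * ((m * M * (⌊1 / s⌋₊ + 1) ^ (M * ⌊17 / e1⌋₊) : ℕ) : ℝ) +
      17 * ((1 + m * 2 ^ ((D + 1) ^ N) * (⌊1 / s⌋₊ + 1) ^ (M * (D + 1) ^ N) : ℕ) : ℝ) ≤
      eta * (Fintype.card V : ℝ) := by
    have h1 : ((m * M * (⌊1 / s⌋₊ + 1) ^ (M * ⌊17 / e1⌋₊) : ℕ) : ℝ) = m * (X1 : ℝ) := by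
      rw [hX1]
      push_cast
      ring
    have h2 : ((1 + m * 2 ^ ((D + 1) ^ N) * (⌊1 / s⌋₊ + 1) ^ (M * (D + 1) ^ N) : ℕ) : ℝ) =
        1 + m * (X2 : ℝ) := by
      rw [hX2]
      push_cast
      ring
    rw [h1, h2]
    have h3 : 34 * ((X1 : ℝ) + X2) ≤ k * (d0 * eta) := by
      rwa [div_le_iff₀ (by positivity)] at hk4
    have h4 : 34 * ((X1 : ℝ) + X2) * m ≤ k * (d0 * eta) * m :=
      mul_le_mul_of_nonneg_right h3 (Nat.cast_nonneg _)
    have h5 : eta * (d0 * k * m) ≤ eta * (Fintype.card V : ℝ) :=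
      mul_le_mul_of_nonneg_left hcount heta.le
    have h6 : 34 ≤ eta * (Fintype.card V : ℝ) := by
      rw [div_le_iff₀ heta] at hk3
      have : eta * (k : ℝ) ≤ eta * (Fintype.card V : ℝ) :=
        mul_le_mul_of_nonneg_left hVk.le heta.le
      linarith
    nlinarith
  have hmain := graph_bound hGP par hP hPcuts hred hnear M hMc del hdel D N (Nat.le_ceil _)
    (Nat.le_ceil _) hN2 hbig
  have hV0 : (0 : ℝ) ≤ (Fintype.card V : ℝ) := Nat.cast_nonneg _
  have hl1 : 2 * e1 * (16 + 1) / d0 * k * (Fintype.card V : ℝ) = eta * k * (Fintype.card V : ℝ) := by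
    have : 2 * e1 * (16 + 1) / d0 = eta := by
      rw [he1_def]
      field_simp
      ring
    rw [this]
  rw [hl1] at hloss
  have hl2 : 2 * (Fintype.card V : ℝ) ≤ 2 * (eta * k * (Fintype.card V : ℝ)) := by
    have := mul_le_mul_of_nonneg_right hek hV0
    linarith
  have hl3 : 2000 * eta * (k * (Fintype.card V : ℝ)) ≤ eps * (k * (Fintype.card V : ℝ)) :=
    mul_le_mul_of_nonneg_right hetaeps (by positivity)
  have hl4 : 0 ≤ eta * k * (Fintype.card V : ℝ) := by positivity
  nlinarith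

/-- **Main theorem.** -/
theorem exact_upper (eps : ℝ) (heps : 0 < eps) : ∃ k0 : ℕ, ∀ k : ℕ, k0 ≤ k → ∀ n : ℕ,
    (Pool.Agent.LC0bab.f n k : ℝ) ≤ (4 - 2 * Real.sqrt 3 + eps) * k * n := by
  obtain ⟨k1, _, h1⟩ := exists_critical (2 * eps) (by linarith)
  obtain ⟨k2, h2⟩ := small_cuts_bound (eps / 2) (by linarith)
  have h43 : 0 ≤ 4 - 2 * Real.sqrt 3 := by
    have : Real.sqrt 3 ≤ 2 := by
      rw [Real.sqrt_le_left (by norm_num)]
      norm_num
    linarith
  refine ⟨k1 + k2 + 1, fun k hk n => Pool.Agent.LC0bab.f_le (by positivity)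
    (fun V _ G hn hRC => ?_)⟩
  by_contra hcon
  push Not at hcon
  obtain ⟨V', _, G', hc, hpos, hdeg⟩ := h1 k (by omega) V G Finset.univ hRC (by
    rw [Finset.card_univ, hn]
    have : (1 + kap + 2 * eps) * (k : ℝ) * n = 2 * ((4 - 2 * Real.sqrt 3 + eps) * k * n) := by
      unfold kap
      ring
    rw [this]
    exact hcon)
  have h3 := h2 k (by omega) V' G' hc
  have hkpos : (0 : ℝ) < k := by exact_mod_cast (by omega : 0 < k)
  have hVpos : (0 : ℝ) < (Fintype.card V' : ℝ) := by exact_mod_cast hpos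
  have h4 : 0 < eps * (k * (Fintype.card V' : ℝ)) := by positivity
  nlinarith

end LCX
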