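import Mathlib

/-! # Twins: in every class of equal keys at most one element has no out-neighbour -/

namespace LCX

open Finset
open scoped Classical

theorem few_exceptional {X L : Type} (S : Finset X) (arc : X → X → Prop)
    (harc : ∀ x ∈ S, ∀ z ∈ S, x ≠ z → arc x z ∨ arc z x) (R : Finset L) (val : X → L → ℕ)
    (b : ℕ) (hval : ∀ x ∈ S, ∀ l ∈ R, val x l ≤ b) :
    (S.filter (fun x => ∀ z ∈ S, x ≠ z → (∀ l ∈ R, val x l = val z l) → ¬ arc x z)).card ≤
      (b + 1) ^ R.card := by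
  have hcard : (Finset.univ : Finset (R → Fin (b + 1))).card = (b + 1) ^ R.card := by
    rw [Finset.card_univ, Fintype.card_fun, Fintype.card_fin, Fintype.card_coe]
  rw [← hcard]
  apply Finset.card_le_card_of_injOn
    (fun x => fun l : R => (⟨min (val x l.1) b, Nat.lt_succ_of_le (min_le_right _ _)⟩ : Fin (b + 1)))
  · intro x _
    exact Finset.mem_coe.2 (Finset.mem_univ _)
  · intro x hx z hz hxz
    by_contra hne
    have hx' := Finset.mem_filter.1 (Finset.mem_coe.1 hx)
    have hz' := Finset.mem_filter.1 (Finset.mem_coe.1 hz)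
    have heq : ∀ l ∈ R, val x l = val z l := by
      intro l hl
      have h1 := congrFun hxz ⟨l, hl⟩
      have h2 : min (val x l) b = min (val z l) b := by
        have := congrArg Fin.val h1
        simpa using this
      rw [min_eq_left (hval x hx'.1 l hl), min_eq_left (hval z hz'.1 l hl)] at h2
      exact h2
    rcases harc x hx'.1 z hz'.1 hne with h | h
    · exact hx'.2 z hz'.1 hne heq h
    · exact hz'.2 x hx'.1 (Ne.symm hne) (fun l hl => (heq l hl).symm) h

/-- equal integer parts -/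
theorem floor_close {a c q w : ℝ} (ha : 0 ≤ a) (hc : 0 ≤ c) (hq : 0 < q) (hw : 0 < w)
    (h : ⌊a / (q * w)⌋₊ = ⌊c / (q * w)⌋₊) : a ≤ c + q * w := by
  have hqw : 0 < q * w := mul_pos hq hw
  have h1 : a / (q * w) < (⌊a / (q * w)⌋₊ : ℝ) + 1 := Nat.lt_floor_add_one _
  have h2 : ((⌊c / (q * w)⌋₊ : ℕ) : ℝ) ≤ c / (q * w) := Nat.floor_le (div_nonneg hc hqw.le)
  rw [h] at h1
  have h3 : a / (q * w) < c / (q * w) + 1 := lt_of_lt_of_le h1 (by linarith)
  have h4 : a < (c / (q * w) + 1) * (q * w) := (div_lt_iff₀ hqw).1 h3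
  have h5 : (c / (q * w) + 1) * (q * w) = c + q * w := by
    field_simp
  linarith

theorem floor_bound {a q w : ℝ} (ha : 0 ≤ a) (haw : a ≤ w) (hq : 0 < q) (hw : 0 < w) :
    ⌊a / (q * w)⌋₊ ≤ ⌊1 / q⌋₊ := by
  apply Nat.floor_le_floor
  rw [div_le_div_iff₀ (mul_pos hq hw) hq]
  nlinarith

end LCX
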