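import Pool.Agent.Lib_MP_0bab5c_x.XPar
import Pool.Agent.Lib_MP_0bab5c_x.XKeys

/-! # Few exceptional vertices, and no split cell is not poor

`few_exceptional` with `S` = the cell (all hubs), `R` = the cells adjacent to `j` (the cells of the
homes in `T`), `val x l = floor (|nb x ∩ l| / (q w_l))`, `b = floor (1 / q)`; `floor_close`,
`floor_bound`. Cells `l` adjacent to `j` lie in homes that are adjacent (in `P`) to the home of `j`
(`full` with `X = cell j`: there is an edge), at most `17 / e1` homes (`home_home_degree`), `M` cells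
each.
-/

namespace LCX

open Finset
open scoped Classical

variable {V J U : Type} [Fintype V] [Fintype J] [Fintype U]

theorem home_exceptional {G P : SimpleGraph V} (hGP : G ≤ P)
    {k eta d0 e1 tau s q er theta : ℝ} (par : Par k eta d0 e1 tau s q er theta) {m : ℕ}
    {E : Fin m → Finset V} (hP : Clean P k 16 d0 e1 E) {cell : J → Finset V} {hm : J → Fin m}
    {phi : U → V} {adj : J → J → Prop} {hadj : U → J → Prop}
    (h : Red G k er s E cell hm phi adj hadj) (M : ℕ)
    (hM : ∀ i, (univ.filter (fun j => hm j = i)).card ≤ M)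
    (arc : V → V → Prop) (harc : ∀ x z, x ≠ z → arc x z ∨ arc z x) (j : J) :
    ((cell j).filter (fun x => ¬ ∃ z ∈ cell j, x ≠ z ∧ (∀ l, ((nb G x ∩ cell l).card : ℝ) ≤
      ((nb G z ∩ cell l).card : ℝ) + q * wt cell l) ∧ arc x z)).card ≤
    (⌊1 / q⌋₊ + 1) ^ (M * ⌊17 / e1⌋₊) := by
  have hk : 0 < k := lt_of_lt_of_le one_pos par.hk
  have he1 := par.he1
  have hq := par.hq
  have hs1 : s ≤ 1 := by
    have h1 := par.a6
    have h2 := par.heta1
    linarith
  have her1 : er < 1 := by
    have h1 := par.a8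
    have h2 := par.heta1
    linarith
  have hwt : ∀ l, 0 < wt cell l := fun l => by
    unfold wt
    exact_mod_cast h.cpos l
  set R : Finset J := univ.filter (fun l => adj j l) with hR
  -- the number of adjacent cells
  have hhome : ∀ l ∈ R, hm l ∈ univ.filter (fun i' => ∃ x ∈ E (hm j), ∃ y ∈ E i', P.Adj x y) := by
    intro l hl
    have hl' : adj j l := (mem_filter.1 hl).2
    have h1 := h.full j l hl' (cell j) (Subset.refl _) (by
      have h2 : s * wt cell j ≤ 1 * wt cell j := mul_le_mul_of_nonneg_right hs1 (hwt j).le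
      rw [one_mul] at h2
      exact h2)
    have h3 : ∃ y ∈ cell l, ∃ x ∈ cell j, G.Adj x y := by
      by_contra hcon
      push Not at hcon
      have h4 : (cell l).filter (fun y => ∀ x ∈ cell j, ¬ G.Adj x y) = cell l := by
        refine filter_true_of_mem ?_
        intro y hy x hx
        exact hcon y hy x hx
      rw [h4] at h1
      have h5 : er * wt cell l < 1 * wt cell l := mul_lt_mul_of_pos_right her1 (hwt l)
      unfold wt at h1 h5
      linarith
    obtain ⟨y, hy, x, hx, hxy⟩ := h3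
    exact mem_filter.2 ⟨mem_univ _, x, h.sub j hx, y, h.sub l hy, hGP hxy⟩
  have hdeg := home_home_degree hP hk he1 (hm j)
  have hdeg2 : (univ.filter (fun i' => ∃ x ∈ E (hm j), ∃ y ∈ E i', P.Adj x y)).card ≤
      ⌊17 / e1⌋₊ := by
    refine Nat.le_floor ?_
    have h17 : (16 + 1 : ℝ) / e1 = 17 / e1 := by norm_num
    rw [← h17]
    exact hdeg
  have hRc : R.card ≤ M * ⌊17 / e1⌋₊ := by
    refine (card_le_mul_card_image_of_maps_to hhome M ?_).trans (Nat.mul_le_mul_left _ hdeg2)
    intro i' _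
    refine le_trans (card_le_card ?_) (hM i')
    intro l hl
    exact mem_filter.2 ⟨mem_univ _, (mem_filter.1 hl).2⟩
  -- the keys
  have hkey := few_exceptional (cell j) arc (fun x _ z _ hxz => harc x z hxz) R
    (fun x l => ⌊((nb G x ∩ cell l).card : ℝ) / (q * wt cell l)⌋₊) ⌊1 / q⌋₊ (by
      intro x _ l _
      refine floor_bound (Nat.cast_nonneg _) ?_ hq (hwt l)
      unfold wt
      exact_mod_cast card_le_card inter_subset_right)
  have hkey2 : ((cell j).filter (fun x => ∀ z ∈ cell j, x ≠ z → (∀ l ∈ R,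
      ⌊((nb G x ∩ cell l).card : ℝ) / (q * wt cell l)⌋₊ =
      ⌊((nb G z ∩ cell l).card : ℝ) / (q * wt cell l)⌋₊) → ¬ arc x z)).card ≤
      (⌊1 / q⌋₊ + 1) ^ R.card := by
    convert hkey
  refine (card_le_card ?_).trans (hkey2.trans (Nat.pow_le_pow_right (Nat.succ_pos _) hRc))
  intro x hx
  obtain ⟨hx1, hx2⟩ := mem_filter.1 hx
  refine mem_filter.2 ⟨hx1, ?_⟩
  intro z hz hxz hval harc'
  apply hx2
  refine ⟨z, hz, hxz, ?_, harc'⟩
  intro l
  by_cases hl : adj j l
  · exact floor_close (Nat.cast_nonneg _) (Nat.cast_nonneg _) hq (hwt l)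
      (hval l (mem_filter.2 ⟨mem_univ _, hl⟩))
  · have h0 : nb G x ∩ cell l = ∅ := by
      rw [eq_empty_iff_forall_notMem]
      intro y hy
      obtain ⟨hy1, hy2⟩ := mem_inter.1 hy
      exact hl (h.ex j l x hx1 y hy2 (mem_filter.1 hy1).2)
    rw [h0, card_empty, Nat.cast_zero]
    have h1 : (0 : ℝ) ≤ ((nb G z ∩ cell l).card : ℝ) := Nat.cast_nonneg _
    have h2 : 0 ≤ q * wt cell l := (mul_pos hq (hwt l)).le
    linarith

theorem hub_exceptional {G : SimpleGraph V} {k eta d0 e1 tau s q er theta : ℝ}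
    (par : Par k eta d0 e1 tau s q er theta) {m : ℕ} {E : Fin m → Finset V}
    {cell : J → Finset V} {hm : J → Fin m}
    {phi : U → V} {adj : J → J → Prop} {hadj : U → J → Prop}
    (h : Red G k er s E cell hm phi adj hadj) (M : ℕ)
    (hM : ∀ i, (univ.filter (fun j => hm j = i)).card ≤ M)
    (arc : V → V → Prop) (harc : ∀ x z, x ≠ z → arc x z ∨ arc z x) (T : Finset (Fin m)) :
    (univ.filter (fun u : U => ¬ ∃ z : V, phi u ≠ z ∧ (∀ l, hm l ∈ T →
      ((nb G (phi u) ∩ cell l).card : ℝ) ≤ ((nb G z ∩ cell l).card : ℝ) + q * wt cell l) ∧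
      arc (phi u) z)).card ≤
    (⌊1 / q⌋₊ + 1) ^ (M * T.card) := by
  have hq := par.hq
  have hwt : ∀ l, 0 < wt cell l := fun l => by
    unfold wt
    exact_mod_cast h.cpos l
  set R : Finset J := univ.filter (fun l => hm l ∈ T) with hR
  have hRc : R.card ≤ M * T.card := by
    refine card_le_mul_card_image_of_maps_to (fun l hl => (mem_filter.1 hl).2) M ?_
    intro i _
    refine le_trans (card_le_card ?_) (hM i)
    intro l hl
    exact mem_filter.2 ⟨mem_univ _, (mem_filter.1 hl).2⟩
  have hkey := few_exceptional (univ : Finset U) (fun u u' => arc (phi u) (phi u'))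
    (fun u _ u' _ hne => harc (phi u) (phi u') (fun he => hne (h.inj he))) R
    (fun u l => ⌊((nb G (phi u) ∩ cell l).card : ℝ) / (q * wt cell l)⌋₊) ⌊1 / q⌋₊ (by
      intro u _ l _
      refine floor_bound (Nat.cast_nonneg _) ?_ hq (hwt l)
      unfold wt
      exact_mod_cast card_le_card inter_subset_right)
  have hkey2 : ((univ : Finset U).filter (fun u => ∀ u' ∈ (univ : Finset U), u ≠ u' → (∀ l ∈ R,
      ⌊((nb G (phi u) ∩ cell l).card : ℝ) / (q * wt cell l)⌋₊ =
      ⌊((nb G (phi u') ∩ cell l).card : ℝ) / (q * wt cell l)⌋₊) →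
        ¬ arc (phi u) (phi u'))).card ≤ (⌊1 / q⌋₊ + 1) ^ R.card := by
    convert hkey
  refine (card_le_card ?_).trans (hkey2.trans (Nat.pow_le_pow_right (Nat.succ_pos _) hRc))
  intro u hu
  have hu2 := (mem_filter.1 hu).2
  refine mem_filter.2 ⟨mem_univ _, ?_⟩
  intro u' _ hne hval harc'
  apply hu2
  refine ⟨phi u', fun he => hne (h.inj he), ?_, harc'⟩
  intro l hl
  exact floor_close (Nat.cast_nonneg _) (Nat.cast_nonneg _) hq (hwt l)
    (hval l (mem_filter.2 ⟨mem_univ _, hl⟩))

/-- `split_small` and `sig_le` -/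
theorem not_poor {G P : SimpleGraph V} (hGP : G ≤ P) {k eta d0 e1 tau s q er theta : ℝ}
    (par : Par k eta d0 e1 tau s q er theta) {m : ℕ} {E : Fin m → Finset V}
    (hP : Clean P k 16 d0 e1 E) {cell : J → Finset V} {hm : J → Fin m}
    {phi : U → V} {adj : J → J → Prop} {hadj : U → J → Prop}
    (h : Red G k er s E cell hm phi adj hadj)
    (hnear : ∀ u j, hadj u j → phi u ∈ cn P E (hm j)) {x z : V} {B : Finset V}
    (hB : Cut G E k d0 e1 tau x z B) (j : J) (hj : ¬ Poor k eta cell adj hadj j) :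
    ((B ∩ cell j).card : ℝ) < s * wt cell j ∨
      ((cell j \ (B ∪ bd G B)).card : ℝ) < s * wt cell j := by
  have hk : 0 < k := lt_of_lt_of_le one_pos par.hk
  have hs1 : s ≤ 1 := by
    have h1 := par.a6
    have h2 := par.heta1
    linarith
  have her1 : er ≤ 1 / 4 := by
    have h1 := par.a8
    have h2 := par.heta1
    linarith
  by_contra hcon
  push Not at hcon
  obtain ⟨h1, h2⟩ := hcon
  apply hj
  have hsp := split_small h par.her.le B j h1 h2
  have hsig := sig_le hGP hP h hnear hk (by norm_num) hs1 her1 j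
  have hbd : ((bd G B).card : ℝ) ≤ (1 + d0 + 3 * tau / e1) * k := hB.1.2.2.2.1
  have h3 : 2 * er * sig cell adj hadj j ≤ 2 * er * (2 * (16 + 1) * k) :=
    mul_le_mul_of_nonneg_left hsig (by linarith [par.her])
  have h4 := mul_le_mul_of_nonneg_right par.a1 hk.le
  have h5 := mul_le_mul_of_nonneg_right par.a8 hk.le
  unfold Poor
  have h6 : (1 + d0 + 3 * tau / e1) * k = k + (d0 + 3 * tau / e1) * k := by ring
  rw [h6] at hbd
  have h7 : 2 * er * (2 * (16 + 1) * k) + 2 * er * k = 70 * er * k := by ring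
  have h8 : (1 + 2 * eta) * k = k + eta * k + eta * k := by ring
  rw [h8]
  linarith

end LCX
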