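import Mathlib

/-! # From the twin inequalities of a hub to the form used in `core` (real numbers only)

Everything is divided by `k`. `mu` is the minimum of boundary plus penalty of `u`, `p a` boundary
plus penalty of the class `a`, `t a`, `y a` the numbers of neighbours in the class and in its
boundary, `R` the rest. If `mu + e2 >= 1` take no classes and `g = 0`; otherwise `g = 1 - mu - e2`,
`x a = max 0 (min g (t a + y a - p a - e3 a))`.
-/

namespace LCX

open Finset
open scoped Classical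

theorem hub_numeric {A : Type} (s : Finset A) (D mu R e1 e2 e4 : ℝ) (t y p q T e3 : A → ℝ)
    (he1 : 0 ≤ e1) (he2 : 0 ≤ e2) (he4 : 0 ≤ e4) (he3 : ∀ a ∈ s, 0 ≤ e3 a) (hR : 0 ≤ R)
    (hp : ∀ a ∈ s, 0 ≤ p a) (hq : ∀ a ∈ s, 0 ≤ q a) (hT0 : ∀ a ∈ s, 0 ≤ T a)
    (h1 : ∀ a ∈ s, t a + y a ≤ 1 - mu + p a + q a + e1)
    (h2 : D ≤ ∑ a ∈ s, (t a + y a) + R + e4) (h3 : R + ∑ a ∈ s, p a ≤ mu + e2)
    (hy : ∀ a ∈ s, y a ≤ p a) (hT : ∀ a ∈ s, t a ≤ T a + e3 a) (hmu : mu ≤ 1 + e2) :
    ∃ (s' : Finset A) (x : A → ℝ) (g : ℝ), s' ⊆ s ∧ 0 ≤ g ∧ (∀ a ∈ s', 0 ≤ x a ∧ x a ≤ g ∧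
      x a ≤ T a) ∧ ∑ a ∈ s', p a ≤ 1 - g ∧
      D ≤ 1 + (∑ a ∈ s', x a - g) + ∑ a ∈ s, q a +
        (((s.card : ℝ) + 2) * (e1 + 2 * e2) + ∑ a ∈ s, e3 a + e4) := by
  have hcard : (0 : ℝ) ≤ (s.card : ℝ) := Nat.cast_nonneg _
  have he3s : 0 ≤ ∑ a ∈ s, e3 a := Finset.sum_nonneg he3
  have hce1 : 0 ≤ (s.card : ℝ) * e1 := mul_nonneg hcard he1
  have hce2 : 0 ≤ (s.card : ℝ) * e2 := mul_nonneg hcard he2
  by_cases hc : 1 ≤ mu + e2
  · refine ⟨∅, fun _ => 0, 0, Finset.empty_subset _, le_refl _, ?_, ?_, ?_⟩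
    · intro a ha
      simp at ha
    · simp
    · have hsum : ∑ a ∈ s, (t a + y a) ≤ ∑ a ∈ s, (p a + q a + (e1 + e2)) := by
        apply Finset.sum_le_sum
        intro a ha
        have := h1 a ha
        linarith
      simp only [Finset.sum_add_distrib, Finset.sum_const, nsmul_eq_mul] at hsum h2
      rw [Finset.sum_empty]
      nlinarith
  · push Not at hc
    have hg : 0 ≤ 1 - mu - e2 := by linarith
    refine ⟨s, fun a => max 0 (min (1 - mu - e2) (t a + y a - p a - e3 a)), 1 - mu - e2,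
      Finset.Subset.refl _, hg, ?_, ?_, ?_⟩
    · intro a ha
      refine ⟨le_max_left _ _, max_le hg (min_le_left _ _), max_le (hT0 a ha) ?_⟩
      refine (min_le_right _ _).trans ?_
      have h4 := hy a ha
      have h5 := hT a ha
      linarith
    · linarith
    · have hsum : ∑ a ∈ s, (t a + y a) ≤ ∑ a ∈ s,
          (max 0 (min (1 - mu - e2) (t a + y a - p a - e3 a)) + p a + q a + (e1 + e2) + e3 a) := by
        apply Finset.sum_le_sum
        intro a ha
        have h4 := h1 a ha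
        have h5 := hq a ha
        have h6 := he3 a ha
        have h7 : min (1 - mu - e2) (t a + y a - p a - e3 a) ≤
            max 0 (min (1 - mu - e2) (t a + y a - p a - e3 a)) := le_max_right _ _
        rcases min_cases (1 - mu - e2) (t a + y a - p a - e3 a) with h8 | h8
        · rw [h8.1] at h7 ⊢
          linarith
        · rw [h8.1] at h7 ⊢
          linarith
      simp only [Finset.sum_add_distrib, Finset.sum_const, nsmul_eq_mul] at hsum h2
      nlinarith

end LCX
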