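import Pool.Agent.Lib_MP_0bab5c_x.XExc
import Pool.Agent.Lib_MP_0bab5c_x.XHub

/-! # Hubs

`x = phi u`, `Qu` minimises `bb + theta pen`, `Z a = Qu.filter (cl (hm j) = a)`,
`mu k = bb Qu + theta pen Qu`, `p a k = beta (Z a) + theta pen (Z a)`.
Good classes: some cell of `Z a` meets `nb G x`. Small: `p a <= kap`, big: the others.
`hub_min_le`: `mu <= 1 + 5 eta`. `hub_degree` (error `1 + 3 dd N^2 <= 2 eta k`): so
`sum of p a over the good classes <= mu + 2 eta <= 101 / 100`, at most 15 big classes,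
`beta (Z a) <= 2 k`. `hub_class_ineq` for big classes: `t a + y a <= 1 - mu + p a + q a + 7 eta`
(`t`, `y`, `q` divided by `k`). For a small class `x a = t a`; its `y a <= p a` goes to the rest.
`hub_numeric` for the big classes with `D = |nb x| / k - sum of t a over the small classes`,
`e1 = 7 eta`, `e2 = 5 eta`, `e3 = e4 = 0`: total error at most `17 * 17 eta`.
Requests: `qu j = rq G cell x (B a) j` if `j` is poor, lies in `Z a` for a big good class `a` and
meets `nb G x` (then `hadj u j` by `hex`), and `0` otherwise; `rq_le`.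
`T a = sum of w j over j in Z a with hadj u j` is at least `t a k`.
`beta (Q j) <= p a k` for `j` in `Z a`: minimality of `Q j`.
-/

namespace LCX

open Finset
open scoped Classical

variable {V J U : Type} [Fintype V] [Fintype J] [Fintype U]

private theorem hb_kap : (7 / 100 : ℝ) ≤ kap := by
  unfold kap
  have h : Real.sqrt 3 ≤ 693 / 400 := by
    rw [show (693 / 400 : ℝ) = Real.sqrt ((693 / 400) ^ 2) by
      rw [Real.sqrt_sq (by norm_num)]]
    exact Real.sqrt_le_sqrt (by norm_num)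
  linarith

private theorem hb_k {k eta d0 e1 tau s q er theta : ℝ} (par : Par k eta d0 e1 tau s q er theta) :
    0 < k := by
  linarith [par.hk]

private theorem hb_div {k eta d0 e1 tau s q er theta : ℝ}
    (par : Par k eta d0 e1 tau s q er theta) : 16 * k / (tau * k) = 16 / tau :=
  mul_div_mul_right _ _ (hb_k par).ne'

private theorem hb_K {k eta d0 e1 tau s q er theta : ℝ}
    (par : Par k eta d0 e1 tau s q er theta) :
    (1 + d0 + 3 * tau / e1) * k ≤ (1 + eta) * k :=
  mul_le_mul_of_nonneg_right (by linarith [par.a1]) (hb_k par).le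

private theorem hb_e1 {k eta d0 e1 tau s q er theta : ℝ}
    (par : Par k eta d0 e1 tau s q er theta) :
    theta * (16 * k / s + tau * k * (16 * k / (tau * k) + 1)) ≤ eta * k := by
  have hk := hb_k par
  have htau := par.htau
  have hs := par.hs
  rw [hb_div par]
  have h1 : theta * (16 * k / s + tau * k * (16 / tau + 1)) =
      theta * (16 / s + (16 + tau)) * k := by
    have h2 : tau * (16 / tau) = 16 := mul_div_cancel₀ _ htau.ne'
    have h3 : tau * k * (16 / tau + 1) = (tau * (16 / tau) + tau) * k := by ring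
    rw [h3, h2]
    ring
  rw [h1]
  apply mul_le_mul_of_nonneg_right _ hk.le
  refine le_trans ?_ par.a2
  apply mul_le_mul_of_nonneg_left _ par.hth.le
  linarith [par.htau2]

private theorem hb_e2 {k eta d0 e1 tau s q er theta : ℝ}
    (par : Par k eta d0 e1 tau s q er theta) {M : ℝ} (hM : M ≤ (16 + 1) / e1 * 16 * k) :
    (2 * s + q) * M ≤ eta * k := by
  have h1 : (2 * s + q) * M ≤ (2 * s + q) * ((16 + 1) / e1 * 16 * k) :=
    mul_le_mul_of_nonneg_left hM (by linarith [par.hs, par.hq])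
  have h2 : (2 * s + q) * ((16 + 1) / e1 * 16 * k) = (2 * s + q) * (272 / e1) * k := by ring
  have h3 := mul_le_mul_of_nonneg_right par.a3 (hb_k par).le
  linarith

private theorem hb_e3 {k eta d0 e1 tau s q er theta : ℝ}
    (par : Par k eta d0 e1 tau s q er theta) :
    2 * (s + er) * ((1 + d0 + 3 * tau / e1) * k) ≤ eta * k := by
  have hk := hb_k par
  have h1 := hb_K par
  have h2 : (1 + eta) * k ≤ 2 * k :=
    mul_le_mul_of_nonneg_right (by linarith [par.heta1]) hk.le
  have h3 : 2 * (s + er) * ((1 + d0 + 3 * tau / e1) * k) ≤ 2 * (s + er) * (2 * k) :=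
    mul_le_mul_of_nonneg_left (by linarith) (by linarith [par.hs, par.her])
  have h4 := mul_le_mul_of_nonneg_right par.a4 hk.le
  linarith

private theorem hb_e4 {k eta d0 e1 tau s q er theta : ℝ}
    (par : Par k eta d0 e1 tau s q er theta) :
    er * k * (16 * k / (tau * k) + 1) ≤ eta * k := by
  rw [hb_div par]
  have h1 := mul_le_mul_of_nonneg_right par.a5 (hb_k par).le
  have h2 : er * k * (16 / tau + 1) = er * (16 / tau + 1) * k := by ring
  rw [h2]
  exact h1

theorem hub_main {G P : SimpleGraph V} (hGP : G ≤ P) {k eta d0 e1 tau s q er theta : ℝ}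
    (par : Par k eta d0 e1 tau s q er theta) {m : ℕ} {E : Fin m → Finset V}
    (hP : Clean P k 16 d0 e1 E) {cell : J → Finset V} {hm : J → Fin m}
    {phi : U → V} {adj : J → J → Prop} {hadj : U → J → Prop}
    (h : Red G k er s E cell hm phi adj hadj)
    (hnear : ∀ u j, hadj u j → phi u ∈ cn P E (hm j))
    (Q : J → Finset J) (hQ : ∀ j, j ∈ Q j)
    (hQmin : ∀ (j : J) (A : Finset J), j ∈ A →
      beta (wt cell) adj hadj (Q j) + theta * pen (wt cell) hm (tau * k) (Q j) ≤
      beta (wt cell) adj hadj A + theta * pen (wt cell) hm (tau * k) A)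
    (u : U) (Qu : Finset J)
    (hmin : ∀ A : Finset J,
      bb cell phi adj hadj (phi u) (nb G (phi u)) Qu +
        theta * pen (wt cell) hm (tau * k) Qu ≤
      bb cell phi adj hadj (phi u) (nb G (phi u)) A + theta * pen (wt cell) hm (tau * k) A)
    (cl : Fin m → Fin m) (dd : ℝ) (hdd : 0 ≤ dd)
    (hcl : ∀ i ∈ Qu.image hm, ∀ i' ∈ Qu.image hm, cl i ≠ cl i' →
      (((cn P E i) ∩ (cn P E i')).card : ℝ) ≤ dd)
    (hN : 3 * dd * ((Qu.image hm).card : ℝ) ^ 2 ≤ eta * k)
    (hcut0 : ∃ z B, Cut G E k d0 e1 tau (phi u) z B)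
    (hcut : ∀ a : Fin m, (∃ j ∈ Qu, cl (hm j) = a ∧ (nb G (phi u) ∩ cell j).Nonempty) →
      ∃ z B, Cut G E k d0 e1 tau (phi u) z B ∧
        ∀ l ∈ Qu, cl (hm l) = a → ((nb G (phi u) ∩ cell l).card : ℝ) ≤
          ((nb G z ∩ cell l).card : ℝ) + q * wt cell l) :
    ∃ qu : J → ℝ, (∀ j, 0 ≤ qu j) ∧
      (∀ j, qu j ≠ 0 → Poor k eta cell adj hadj j ∧ hadj u j) ∧
      (∀ j, ((nb G (phi u) ∩ cell j).card : ℝ) + qu j ≤ (1 + q) * wt cell j) ∧
      HubOK (Fin m) k (wt cell) adj hadj Q u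
        (((nb G (phi u)).card : ℝ) - ∑ j, qu j - 400 * eta * k) := by
  have hk := hb_k par
  have heta := par.heta
  have heta1 := par.heta1
  have hetak : 0 < eta * k := mul_pos heta hk
  have hs := par.hs
  have her := par.her
  have hs1 : s ≤ 1 := by linarith [par.a6]
  have her1 : er ≤ 1 / 4 := by linarith [par.a8]
  have hser : s + er ≤ 1 / 2 := by linarith [par.a6, par.a8]
  have hT : 0 < tau * k := mul_pos par.htau hk
  have hwt0 : ∀ j, 0 ≤ wt cell j := fun j => Nat.cast_nonneg _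
  have hwpos : ∀ j, 0 < wt cell j := fun j => by
    unfold wt
    exact_mod_cast h.cpos j
  have hNw : ∀ j, ((nb G (phi u) ∩ cell j).card : ℝ) ≤ wt cell j := fun j => by
    unfold wt
    exact_mod_cast card_le_card inter_subset_right
  have hpen0 : ∀ A : Finset J, 0 ≤ theta * pen (wt cell) hm (tau * k) A := by
    intro A
    apply mul_nonneg par.hth.le
    unfold pen
    exact add_nonneg (sum_nonneg (fun j _ => hwt0 j)) (mul_nonneg hT.le (Nat.cast_nonneg _))
  have hmet := metw_le hGP hP h hk (by norm_num) par.he1 (phi u)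
  have he1 := hb_e1 par
  have he2 := hb_e2 par hmet
  have he3 := hb_e3 par
  have he4 := hb_e4 par
  have hK := hb_K par
  obtain ⟨R, hR0, hdeg, hRp⟩ := hub_degree hGP h hnear hs hs1 her.le her1 (phi u) Qu cl dd hdd hcl
    theta (tau * k) par.hth.le hT.le
  -- the minimum
  obtain ⟨mu, hmu⟩ : ∃ mu : ℝ, mu = bb cell phi adj hadj (phi u) (nb G (phi u)) Qu +
      theta * pen (wt cell) hm (tau * k) Qu := ⟨_, rfl⟩
  have hmu1 : mu ≤ (1 + 5 * eta) * k := by
    obtain ⟨z, B, hB⟩ := hcut0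
    have h1 := hub_min_le h hk.le hs her.le hser hT hB theta (tau * k) par.hth.le hT.le Qu hmin
    rw [← hmu] at h1
    have hmet0 : 0 ≤ metw cell (nb G (phi u)) := sum_nonneg (fun j _ => hwt0 j)
    have h2 : s * metw cell (nb G (phi u)) ≤ (2 * s + q) * metw cell (nb G (phi u)) :=
      mul_le_mul_of_nonneg_right (by linarith [par.hq]) hmet0
    linarith
  set Good : Finset (Fin m) := univ.filter
    (fun a : Fin m => ∃ j ∈ Qu, cl (hm j) = a ∧ (nb G (phi u) ∩ cell j).Nonempty) with hGood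
  obtain ⟨Zc, hZc⟩ : ∃ Zc : Fin m → Finset J, ∀ a, Zc a = Qu.filter (fun j => cl (hm j) = a) :=
    ⟨_, fun _ => rfl⟩
  have hZm : ∀ a j, j ∈ Zc a ↔ j ∈ Qu ∧ cl (hm j) = a := by
    intro a j
    rw [hZc, mem_filter]
  have hdeg2 : ((nb G (phi u)).card : ℝ) ≤ ∑ a ∈ Good,
      (∑ j ∈ Zc a, ((nb G (phi u) ∩ cell j).card : ℝ) +
        (∑ l ∈ bdJ adj (Zc a), ((nb G (phi u) ∩ cell l).card : ℝ) +
          (((bdU hadj (Zc a)).filter (fun u' => phi u' ∈ nb G (phi u))).card : ℝ))) + R := by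
    refine hdeg.trans (le_of_eq ?_)
    congr 1
    refine sum_congr rfl fun a _ => ?_
    rw [hZc]
  have hRp2 : R + ∑ a ∈ Good, (beta (wt cell) adj hadj (Zc a) +
      theta * pen (wt cell) hm (tau * k) (Zc a)) ≤ mu + 2 * (eta * k) := by
    have h1 : R + ∑ a ∈ Good, (beta (wt cell) adj hadj (Zc a) +
        theta * pen (wt cell) hm (tau * k) (Zc a)) ≤
        mu + (1 + 3 * dd * ((Qu.image hm).card : ℝ) ^ 2) := by
      rw [hmu]
      refine le_trans (le_of_eq ?_) hRp
      congr 1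
      refine sum_congr rfl fun a _ => ?_
      rw [hZc]
    have h2 := par.a7
    linarith
  -- the functions, divided by `k`
  obtain ⟨t, ht⟩ : ∃ t : Fin m → ℝ, ∀ a, t a * k =
      ∑ j ∈ Zc a, ((nb G (phi u) ∩ cell j).card : ℝ) :=
    ⟨fun a => (∑ j ∈ Zc a, ((nb G (phi u) ∩ cell j).card : ℝ)) / k,
      fun a => div_mul_cancel₀ _ hk.ne'⟩
  obtain ⟨y, hy⟩ : ∃ y : Fin m → ℝ, ∀ a, y a * k =
      ∑ l ∈ bdJ adj (Zc a), ((nb G (phi u) ∩ cell l).card : ℝ) +
          (((bdU hadj (Zc a)).filter (fun u' => phi u' ∈ nb G (phi u))).card : ℝ) :=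
    ⟨fun a => (∑ l ∈ bdJ adj (Zc a), ((nb G (phi u) ∩ cell l).card : ℝ) +
          (((bdU hadj (Zc a)).filter (fun u' => phi u' ∈ nb G (phi u))).card : ℝ)) / k,
      fun a => div_mul_cancel₀ _ hk.ne'⟩
  obtain ⟨p, hp⟩ : ∃ p : Fin m → ℝ, ∀ a, p a * k =
      beta (wt cell) adj hadj (Zc a) + theta * pen (wt cell) hm (tau * k) (Zc a) :=
    ⟨fun a => (beta (wt cell) adj hadj (Zc a) + theta * pen (wt cell) hm (tau * k) (Zc a)) / k,
      fun a => div_mul_cancel₀ _ hk.ne'⟩
  obtain ⟨TT, hTT⟩ : ∃ TT : Fin m → ℝ, ∀ a, TT a * k =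
      ∑ j ∈ (Zc a).filter (fun j => hadj u j), wt cell j :=
    ⟨fun a => (∑ j ∈ (Zc a).filter (fun j => hadj u j), wt cell j) / k,
      fun a => div_mul_cancel₀ _ hk.ne'⟩
  obtain ⟨mu', hmu'⟩ : ∃ mu' : ℝ, mu' * k = mu := ⟨mu / k, div_mul_cancel₀ _ hk.ne'⟩
  obtain ⟨R', hR'⟩ : ∃ R' : ℝ, R' * k = R := ⟨R / k, div_mul_cancel₀ _ hk.ne'⟩
  obtain ⟨D, hD⟩ : ∃ D : ℝ, D * k = ((nb G (phi u)).card : ℝ) := ⟨_, div_mul_cancel₀ _ hk.ne'⟩
  have hbp : ∀ a, beta (wt cell) adj hadj (Zc a) ≤ p a * k := fun a => by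
    rw [hp a]
    linarith [hpen0 (Zc a)]
  have hb0 : ∀ A : Finset J, 0 ≤ beta (wt cell) adj hadj A := fun A =>
    beta_nonneg (wt cell) hwpos adj hadj A
  have hp0 : ∀ a, 0 ≤ p a := fun a => by
    have h1 : 0 ≤ p a * k := (hb0 (Zc a)).trans (hbp a)
    exact nonneg_of_mul_nonneg_left h1 hk
  have hpQ : ∀ a, ∀ j ∈ Zc a, beta (wt cell) adj hadj (Q j) ≤ p a * k := fun a j hj => by
    rw [hp a]
    have h1 := hQmin j (Zc a) hj
    linarith [hpen0 (Q j)]
  have hyp : ∀ a, y a ≤ p a := fun a => by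
    refine le_of_mul_le_mul_right ?_ hk
    rw [hy a]
    refine le_trans ?_ (hbp a)
    unfold beta
    have h1 : ∑ l ∈ bdJ adj (Zc a), ((nb G (phi u) ∩ cell l).card : ℝ) ≤
        ∑ l ∈ bdJ adj (Zc a), wt cell l := sum_le_sum fun l _ => hNw l
    have h2 : (((bdU hadj (Zc a)).filter (fun u' => phi u' ∈ nb G (phi u))).card : ℝ) ≤
        ((bdU hadj (Zc a)).card : ℝ) := by
      exact_mod_cast card_le_card (filter_subset _ _)
    linarith
  have hmeet : ∀ j, (nb G (phi u) ∩ cell j).Nonempty → hadj u j := by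
    intro j hj
    obtain ⟨v, hv⟩ := hj
    rw [mem_inter] at hv
    exact h.hex u j v hv.2 (mem_filter.1 hv.1).2
  have htT : ∀ a, t a ≤ TT a := fun a => by
    refine le_of_mul_le_mul_right ?_ hk
    rw [ht a, hTT a, sum_filter]
    refine sum_le_sum fun j _ => ?_
    by_cases hj : hadj u j
    · rw [if_pos hj]
      exact hNw j
    · rw [if_neg hj]
      have h1 : ¬ (nb G (phi u) ∩ cell j).Nonempty := fun hh => hj (hmeet j hh)
      rw [not_nonempty_iff_eq_empty] at h1
      rw [h1, card_empty]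
      norm_num
  have ht0 : ∀ a, 0 ≤ t a := fun a => by
    have h1 : 0 ≤ t a * k := by
      rw [ht a]
      exact sum_nonneg fun j _ => Nat.cast_nonneg _
    exact nonneg_of_mul_nonneg_left h1 hk
  have hTT0 : ∀ a, 0 ≤ TT a := fun a => (ht0 a).trans (htT a)
  have hR'0 : 0 ≤ R' := by
    have h1 : 0 ≤ R' * k := by rw [hR']; exact hR0
    exact nonneg_of_mul_nonneg_left h1 hk
  have hsumP : R' + ∑ a ∈ Good, p a ≤ mu' + 2 * eta := by
    refine le_of_mul_le_mul_right ?_ hk
    have h1 : (R' + ∑ a ∈ Good, p a) * k = R + ∑ a ∈ Good, (beta (wt cell) adj hadj (Zc a) +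
        theta * pen (wt cell) hm (tau * k) (Zc a)) := by
      rw [add_mul, hR', sum_mul]
      congr 1
      exact sum_congr rfl fun a _ => hp a
    rw [h1]
    linarith
  have hmu'1 : mu' ≤ 1 + 5 * eta := by
    refine le_of_mul_le_mul_right ?_ hk
    rw [hmu']
    exact hmu1
  have hpa : ∀ a ∈ Good, p a ≤ 2 := by
    intro a ha
    have h1 : p a ≤ ∑ a ∈ Good, p a := single_le_sum (fun a _ => hp0 a) ha
    linarith
  -- the cuts
  have hcut' : ∀ a : Fin m, ∃ z B, a ∈ Good → (Cut G E k d0 e1 tau (phi u) z B ∧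
        ∀ l ∈ Qu, cl (hm l) = a → ((nb G (phi u) ∩ cell l).card : ℝ) ≤
          ((nb G z ∩ cell l).card : ℝ) + q * wt cell l) := by
    intro a
    by_cases ha : a ∈ Good
    · obtain ⟨z, B, h1, h2⟩ := hcut a (mem_filter.1 ha).2
      exact ⟨z, B, fun _ => ⟨h1, h2⟩⟩
    · exact ⟨phi u, ∅, fun h => absurd h ha⟩
  choose z B hzB using hcut'
  obtain ⟨qq, hqq⟩ : ∃ qq : Fin m → ℝ, ∀ a, qq a * k =
      ∑ l ∈ (Zc a).filter (fun l => Poor k eta cell adj hadj l ∧
        (nb G (phi u) ∩ cell l).Nonempty), rq G cell (phi u) (B a) l :=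
    ⟨fun a => (∑ l ∈ (Zc a).filter (fun l => Poor k eta cell adj hadj l ∧
        (nb G (phi u) ∩ cell l).Nonempty), rq G cell (phi u) (B a) l) / k,
      fun a => div_mul_cancel₀ _ hk.ne'⟩
  have hrq0 : ∀ (B : Finset V) l, 0 ≤ rq G cell (phi u) B l := fun B l => le_max_left _ _
  have hqq0 : ∀ a, 0 ≤ qq a := fun a => by
    have h1 : 0 ≤ qq a * k := by
      rw [hqq a]
      exact sum_nonneg fun j _ => hrq0 _ _
    exact nonneg_of_mul_nonneg_left h1 hk
  have hclass : ∀ a ∈ Good, t a + y a ≤ 1 - mu' + p a + qq a + 7 * eta := by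
    intro a ha
    obtain ⟨hc, hz⟩ := hzB a ha
    have h1 := hub_class_ineq h hk.le hs her.le hser hT hc q par.hq.le
      (fun j => Poor k eta cell adj hadj j) (fun j hj => not_poor hGP par hP h hnear hc j hj)
      theta (tau * k) par.hth.le hT.le Qu hmin (Zc a)
      (fun l hl => hz l ((hZm a l).1 hl).1 ((hZm a l).1 hl).2)
    rw [← ht a, ← hy a, ← hp a, ← hmu, ← hqq a] at h1
    refine le_of_mul_le_mul_right ?_ hk
    have h2 : s * beta (wt cell) adj hadj (Zc a) ≤ eta * k := by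
      have h3 : beta (wt cell) adj hadj (Zc a) ≤ 2 * k :=
        (hbp a).trans (mul_le_mul_of_nonneg_right (hpa a ha) hk.le)
      have h4 : s * beta (wt cell) adj hadj (Zc a) ≤ s * (2 * k) :=
        mul_le_mul_of_nonneg_left h3 hs.le
      have h5 : (2 * s) * k ≤ eta * k :=
        mul_le_mul_of_nonneg_right (by linarith [par.a6]) hk.le
      linarith
    have h3 := par.a7
    rw [← hmu'] at h1
    linarith
  -- big and small classes
  set Big : Finset (Fin m) := Good.filter (fun a => ¬ p a ≤ kap) with hBig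
  set Small : Finset (Fin m) := Good.filter (fun a => p a ≤ kap) with hSmall
  have hsplit : ∀ f : Fin m → ℝ, ∑ a ∈ Good, f a = ∑ a ∈ Small, f a + ∑ a ∈ Big, f a := by
    intro f
    rw [hBig, hSmall, sum_filter_add_sum_filter_not]
  have hSmall0 : 0 ≤ ∑ a ∈ Small, p a := sum_nonneg fun a _ => hp0 a
  have hcard : (Big.card : ℝ) ≤ 15 := by
    have h1 : (Big.card : ℝ) * (7 / 100) ≤ ∑ a ∈ Big, p a := by
      rw [← nsmul_eq_mul, ← sum_const]
      refine sum_le_sum fun a ha => ?_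
      have h2 := (mem_filter.1 ha).2
      push Not at h2
      linarith [hb_kap]
    have h2 := hsplit p
    linarith
  have hDD : D ≤ ∑ a ∈ Good, (t a + y a) + R' := by
    refine le_of_mul_le_mul_right ?_ hk
    rw [hD, add_mul, hR', sum_mul]
    refine hdeg2.trans (le_of_eq ?_)
    congr 1
    refine sum_congr rfl fun a _ => ?_
    rw [add_mul, ht a, hy a]
  have hySmall : ∑ a ∈ Small, y a ≤ ∑ a ∈ Small, p a := sum_le_sum fun a _ => hyp a
  obtain ⟨s', x, g, hs's, hg0, hx, hps, hfin⟩ := hub_numeric Big (D - ∑ a ∈ Small, t a) mu'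
    (R' + ∑ a ∈ Small, p a) (7 * eta) (5 * eta) 0 t y p qq TT (fun _ => 0)
    (by linarith) (by linarith) le_rfl (fun _ _ => le_rfl) (by linarith)
    (fun a _ => hp0 a) (fun a _ => hqq0 a) (fun a _ => hTT0 a)
    (fun a ha => hclass a (mem_filter.1 ha).1)
    (by
      have h1 := hsplit (fun a => t a + y a)
      have h2 : ∑ a ∈ Small, (t a + y a) = ∑ a ∈ Small, t a + ∑ a ∈ Small, y a :=
        sum_add_distrib
      linarith)
    (by
      have h1 := hsplit p
      linarith)
    (fun a _ => hyp a) (fun a _ => by simpa using htT a) hmu'1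
  -- the requests
  set S : Finset J := univ.filter (fun j => cl (hm j) ∈ Big ∧ j ∈ Qu ∧
    Poor k eta cell adj hadj j ∧ (nb G (phi u) ∩ cell j).Nonempty) with hS
  have hSm : ∀ j, j ∈ S ↔ cl (hm j) ∈ Big ∧ j ∈ Qu ∧
      Poor k eta cell adj hadj j ∧ (nb G (phi u) ∩ cell j).Nonempty := by
    intro j
    rw [hS, mem_filter]
    exact ⟨fun hh => hh.2, fun hh => ⟨mem_univ _, hh⟩⟩
  have hqsum : ∑ j, (if j ∈ S then rq G cell (phi u) (B (cl (hm j))) j else 0) =
      (∑ a ∈ Big, qq a) * k := by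
    rw [← sum_filter, sum_mul]
    have e1 : univ.filter (fun j => j ∈ S) = S := by
      ext j
      simp
    rw [e1]
    have hmaps : ∀ j ∈ S, cl (hm j) ∈ Big := fun j hj => ((hSm j).1 hj).1
    rw [← sum_fiberwise_of_maps_to hmaps]
    refine sum_congr rfl fun a ha => ?_
    rw [hqq a]
    have e2 : S.filter (fun j => cl (hm j) = a) = (Zc a).filter (fun l =>
        Poor k eta cell adj hadj l ∧ (nb G (phi u) ∩ cell l).Nonempty) := by
      ext j
      constructor
      · intro hj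
        obtain ⟨hjS, h5⟩ := mem_filter.1 hj
        obtain ⟨_, h2, h3, h4⟩ := (hSm j).1 hjS
        exact mem_filter.2 ⟨(hZm a j).2 ⟨h2, h5⟩, h3, h4⟩
      · intro hj
        obtain ⟨hjZ, h3, h4⟩ := mem_filter.1 hj
        obtain ⟨h2, h5⟩ := (hZm a j).1 hjZ
        exact mem_filter.2 ⟨(hSm j).2 ⟨by rw [h5]; exact ha, h2, h3, h4⟩, h5⟩
    rw [← e2]
    refine sum_congr rfl fun j hj => ?_
    rw [(mem_filter.1 hj).2]
  refine ⟨fun j => if j ∈ S then rq G cell (phi u) (B (cl (hm j))) j else 0, ?_, ?_, ?_, ?_⟩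
  · intro j
    dsimp only
    split_ifs
    · exact hrq0 _ _
    · exact le_rfl
  · intro j hj
    have hjS : j ∈ S := by
      by_contra hc
      apply hj
      dsimp only
      rw [if_neg hc]
    obtain ⟨_, _, h3, h4⟩ := (hSm j).1 hjS
    exact ⟨h3, hmeet j h4⟩
  · intro j
    dsimp only
    split_ifs with hjS
    · obtain ⟨h1, h2, _, _⟩ := (hSm j).1 hjS
      obtain ⟨hc, hz⟩ := hzB (cl (hm j)) (mem_filter.1 h1).1
      exact rq_le hc par.hq.le j (hz j h2 rfl)
    · have h1 : 0 ≤ q * wt cell j := mul_nonneg par.hq.le (hwt0 j)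
      linarith [hNw j]
  · rw [hqsum]
    have hdisj : Disjoint s' Small := by
      rw [disjoint_left]
      intro a ha ha'
      exact (mem_filter.1 (hs's ha)).2 (mem_filter.1 ha').2
    have hns : ∀ a ∈ Small, a ∉ s' := fun a ha ha' => disjoint_left.1 hdisj ha' ha
    refine ⟨s', Small, Zc, p, fun a => if a ∈ s' then x a else t a, g, hg0, hdisj, ?_, ?_, ?_, ?_,
      hps, ?_⟩
    · intro a _ c _ hac
      rw [disjoint_left]
      intro j hj hj'
      rw [hZm] at hj hj'
      exact hac (hj.2.symm.trans hj'.2)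
    · intro a ha
      refine ⟨hp0 a, hbp a, hpQ a, ?_, ?_⟩
      · dsimp only
        split_ifs with hc
        · exact (hx a hc).1
        · exact ht0 a
      · dsimp only
        rw [← hTT a, mul_comm (TT a) k]
        refine mul_le_mul_of_nonneg_left ?_ hk.le
        split_ifs with hc
        · exact (hx a hc).2.2
        · exact htT a
    · intro a ha
      dsimp only
      rw [if_pos ha]
      exact (hx a ha).2.1
    · intro a ha
      exact (mem_filter.1 ha).2
    · have e1 : ∑ a ∈ s', (if a ∈ s' then x a else t a) = ∑ a ∈ s', x a :=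
        sum_congr rfl fun a ha => if_pos ha
      have e2 : ∑ a ∈ Small, (if a ∈ s' then x a else t a) = ∑ a ∈ Small, t a :=
        sum_congr rfl fun a ha => if_neg (hns a ha)
      rw [e1, e2, ← hD]
      have e3 : ((Big.card : ℝ) + 2) * (7 * eta + 2 * (5 * eta)) ≤ 289 * eta := by
        have := mul_le_mul_of_nonneg_right hcard heta.le
        linarith
      have e4 : D ≤ 1 + (∑ a ∈ s', x a + ∑ a ∈ Small, t a - g) + ∑ a ∈ Big, qq a +
          400 * eta := by
        have e5 : ∑ a ∈ Big, (0 : ℝ) = 0 := sum_const_zero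
        linarith
      have e6 := mul_le_mul_of_nonneg_right e4 hk.le
      linarith

end LCX
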