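import Pool.Agent.Lib_MP_0bab5c_x.XDef

/-! # Trimmed cuts

`B` is `x` together with the members of `A` in homes `E i` with `|A ∩ E i| >= tau k`.
Dropping the hubs adds at most `d0 k` vertices to the boundary (field `full`). A dropped home part
`A ∩ E i` can only contribute if some `b` in `B` is adjacent to `E i`, then `|nb b ∩ E i| >= e1 k`
and all of it lies in `A` or in the boundary of the set after the first step, so this boundary has
at least `e1 k / 2` vertices in `E i`: at most `3 / e1` homes contribute, each less than `tau k`.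
-/

namespace LCX

open Finset
open scoped Classical

variable {V : Type} [Fintype V]

theorem trim (G : SimpleGraph V) (k C d0 e1 tau : ℝ) {m : ℕ} (E : Fin m → Finset V)
    (h : Clean G k C d0 e1 E) (hk : 0 < k) (hd0 : 0 ≤ d0) (hd1 : d0 ≤ 1 / 2) (he1 : 0 < e1)
    (htau : 0 < tau) (htau2 : 2 * tau ≤ e1) (x z : V) (A : Finset V)
    (hA : IsCut G k (C * k) x z A) :
    ∃ B, TrimCut G E ((1 + d0 + 3 * tau / e1) * k) (C * k) (tau * k) x z B := by
  obtain ⟨hxA, hzA, hadj, hbdA, hAC⟩ := hA
  set B : Finset V := A.filter (fun a => a = x ∨ ∃ i, a ∈ E i ∧ tau * k ≤ ((A ∩ E i).card : ℝ))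
    with hB
  have hBA : B ⊆ A := Finset.filter_subset _ _
  have hxB : x ∈ B := Finset.mem_filter.2 ⟨hxA, Or.inl rfl⟩
  refine ⟨B, ⟨hxB, fun hz => hzA (hBA hz), fun a ha haz => hadj a (hBA ha) haz, ?_, ?_⟩, ?_, ?_⟩
  · -- the boundary
    set H : Finset V := A.filter (fun v => ∀ i, v ∉ E i) with hH
    set I : Finset (Fin m) := univ.filter (fun i => ((A ∩ E i).card : ℝ) ≤ tau * k ∧
      e1 * k / 2 ≤ ((bd G A ∩ E i).card : ℝ)) with hI
    have hHc : (H.card : ℝ) ≤ d0 * k := h.full A hAC hbdA
    have hsub : bd G B ⊆ (bd G A ∪ H) ∪ I.biUnion (fun i => A ∩ E i) := by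
      intro v hv
      obtain ⟨hvB, b, hbB, hbv⟩ := (Finset.mem_filter.1 hv).2
      by_cases hvA : v ∈ A
      · by_cases hvH : ∀ i, v ∉ E i
        · exact Finset.mem_union_left _ (Finset.mem_union_right _ (Finset.mem_filter.2 ⟨hvA, hvH⟩))
        · push Not at hvH
          obtain ⟨i, hi⟩ := hvH
          have hlt : ((A ∩ E i).card : ℝ) < tau * k := by
            by_contra hcon
            push Not at hcon
            exact hvB (Finset.mem_filter.2 ⟨hvA, Or.inr ⟨i, hi, hcon⟩⟩)
          have hne : nb G b ∩ E i ≠ ∅ := by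
            intro he
            have hmem : v ∈ nb G b ∩ E i :=
              Finset.mem_inter.2 ⟨Finset.mem_filter.2 ⟨Finset.mem_univ _, hbv⟩, hi⟩
            rw [he] at hmem
            exact Finset.notMem_empty _ hmem
          have hthick : e1 * k ≤ ((nb G b ∩ E i).card : ℝ) := (h.thick b i).resolve_left hne
          have hsub2 : nb G b ∩ E i ⊆ (A ∩ E i) ∪ (bd G A ∩ E i) := by
            intro w hw
            obtain ⟨hw1, hw2⟩ := Finset.mem_inter.1 hw
            by_cases hwA : w ∈ A
            · exact Finset.mem_union_left _ (Finset.mem_inter.2 ⟨hwA, hw2⟩)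
            · exact Finset.mem_union_right _ (Finset.mem_inter.2 ⟨Finset.mem_filter.2
                ⟨Finset.mem_univ _, hwA, b, hBA hbB, (Finset.mem_filter.1 hw1).2⟩, hw2⟩)
          have hcard : ((nb G b ∩ E i).card : ℝ) ≤
              ((A ∩ E i).card : ℝ) + ((bd G A ∩ E i).card : ℝ) := by
            have := (Finset.card_le_card hsub2).trans (Finset.card_union_le _ _)
            exact_mod_cast this
          have hiI : i ∈ I := by
            refine Finset.mem_filter.2 ⟨Finset.mem_univ _, hlt.le, ?_⟩
            have : 2 * tau * k ≤ e1 * k := by nlinarith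
            linarith
          exact Finset.mem_union_right _ (Finset.mem_biUnion.2 ⟨i, hiI,
            Finset.mem_inter.2 ⟨hvA, hi⟩⟩)
      · exact Finset.mem_union_left _ (Finset.mem_union_left _ (Finset.mem_filter.2
          ⟨Finset.mem_univ _, hvA, b, hBA hbB, hbv⟩))
    have hUn : ((I.biUnion (fun i => A ∩ E i)).card : ℝ) ≤ I.card * (tau * k) := by
      have h1 : ((I.biUnion (fun i => A ∩ E i)).card : ℝ) ≤ ∑ i ∈ I, ((A ∩ E i).card : ℝ) := by
        exact_mod_cast Finset.card_biUnion_le (s := I) (t := fun i => A ∩ E i)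
      refine h1.trans ?_
      have h2 : ∑ i ∈ I, ((A ∩ E i).card : ℝ) ≤ ∑ _i ∈ I, tau * k :=
        Finset.sum_le_sum (fun i hi => (Finset.mem_filter.1 hi).2.1)
      rw [Finset.sum_const, nsmul_eq_mul] at h2
      exact h2
    have hIc : (I.card : ℝ) * (e1 * k / 2) ≤ k := by
      have h1 : (I.biUnion (fun i => bd G A ∩ E i)).card = ∑ i ∈ I, (bd G A ∩ E i).card := by
        refine Finset.card_biUnion ?_
        intro i _ j _ hij
        exact Finset.disjoint_of_subset_left Finset.inter_subset_right
          (Finset.disjoint_of_subset_right Finset.inter_subset_right (h.disj i j hij))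
      have h2 : (I.biUnion (fun i => bd G A ∩ E i)).card ≤ (bd G A).card := by
        refine Finset.card_le_card ?_
        intro v hv
        obtain ⟨i, _, hvi⟩ := Finset.mem_biUnion.1 hv
        exact (Finset.mem_inter.1 hvi).1
      have h3 : ∑ i ∈ I, ((bd G A ∩ E i).card : ℝ) ≤ k := by
        have : ((∑ i ∈ I, (bd G A ∩ E i).card : ℕ) : ℝ) ≤ ((bd G A).card : ℝ) := by
          rw [← h1]
          exact_mod_cast h2
        push_cast at this
        exact this.trans hbdA
      have h4 : ∑ _i ∈ I, e1 * k / 2 ≤ ∑ i ∈ I, ((bd G A ∩ E i).card : ℝ) :=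
        Finset.sum_le_sum (fun i hi => (Finset.mem_filter.1 hi).2.2)
      rw [Finset.sum_const, nsmul_eq_mul] at h4
      exact h4.trans h3
    have hI2 : (I.card : ℝ) * (tau * k) ≤ 3 * tau / e1 * k := by
      have h5 : (I.card : ℝ) * e1 ≤ 2 := by
        by_contra hcon
        push Not at hcon
        nlinarith
      have h6 : (I.card : ℝ) ≤ 2 / e1 := by
        rw [le_div_iff₀ he1]
        exact h5
      have h7 : (I.card : ℝ) * (tau * k) ≤ 2 / e1 * (tau * k) :=
        mul_le_mul_of_nonneg_right h6 (by positivity)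
      have h8 : 2 / e1 * (tau * k) ≤ 3 * tau / e1 * k := by
        have h9 : 2 / e1 * (tau * k) = 2 * (tau / e1 * k) := by ring
        have h10 : 3 * tau / e1 * k = 3 * (tau / e1 * k) := by ring
        have h11 : 0 ≤ tau / e1 * k := by positivity
        rw [h9, h10]
        linarith
      exact h7.trans h8
    have hfin : ((bd G B).card : ℝ) ≤ ((bd G A).card : ℝ) + (H.card : ℝ) +
        ((I.biUnion (fun i => A ∩ E i)).card : ℝ) := by
      have h1 := (Finset.card_le_card hsub).trans (Finset.card_union_le _ _)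
      have h2 := Finset.card_union_le (bd G A) H
      have h3 : (bd G B).card ≤ (bd G A).card + H.card + (I.biUnion (fun i => A ∩ E i)).card := by
        omega
      exact_mod_cast h3
    have hexp : (1 + d0 + 3 * tau / e1) * k = k + d0 * k + 3 * tau / e1 * k := by ring
    rw [hexp]
    linarith
  · have : (B.card : ℝ) ≤ A.card := by exact_mod_cast Finset.card_le_card hBA
    exact this.trans hAC
  · intro b hb hbx
    obtain ⟨i, hi, _⟩ := (Finset.mem_filter.1 hb).2.resolve_left hbx
    exact ⟨i, hi⟩
  · rintro i ⟨b, hb, hbx, hbi⟩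
    obtain ⟨j, hj, hjc⟩ := (Finset.mem_filter.1 hb).2.resolve_left hbx
    have hij : i = j := by
      by_contra hne
      exact (Finset.disjoint_left.1 (h.disj i j hne)) hbi hj
    subst hij
    have hsub : A ∩ E i ⊆ B ∩ E i := by
      intro v hv
      obtain ⟨hv1, hv2⟩ := Finset.mem_inter.1 hv
      exact Finset.mem_inter.2 ⟨Finset.mem_filter.2 ⟨hv1, Or.inr ⟨i, hv2, hjc⟩⟩, hv2⟩
    have : ((A ∩ E i).card : ℝ) ≤ ((B ∩ E i).card : ℝ) := by
      exact_mod_cast Finset.card_le_card hsub
    exact hjc.trans this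

end LCX
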