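import Pool.Agent.Lib_MP_0bab5c_x.XHomeMain
import Pool.Agent.Lib_MP_0bab5c_x.XHubMain
import Pool.Agent.Lib_MP_0bab5c_x.XBall
import Pool.Agent.Lib_MP_0bab5c_x.XClos
import Pool.Agent.Lib_MP_0bab5c_x.XTrim

/-! # Assembly, first part: sums over vertices, arcs, home vertices -/

namespace LCX

open Finset
open scoped Classical

variable {V J U : Type} [Fintype V] [Fintype J] [Fintype U]

theorem sum_split {G : SimpleGraph V} {k er s : ℝ} {m : ℕ} {E : Fin m → Finset V}
    {cell : J → Finset V} {hm : J → Fin m} {phi : U → V} {adj : J → J → Prop}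
    {hadj : U → J → Prop} (h : Red G k er s E cell hm phi adj hadj) (f : V → ℝ) :
    ∑ v, f v = ∑ j, ∑ x ∈ cell j, f x + ∑ u, f (phi u) := by
  have h1 : (univ : Finset V) = univ.biUnion cell ∪ univ.image phi := by
    ext v
    simp only [mem_univ, mem_union, mem_biUnion, true_and, mem_image, true_iff]
    by_cases hv : ∀ i, v ∉ E i
    · exact Or.inr ((h.hub v).2 hv)
    · push Not at hv
      obtain ⟨i, hi⟩ := hv
      exact Or.inl (h.cover v i hi)
  have h2 : Disjoint (univ.biUnion cell) (univ.image phi) := by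
    rw [disjoint_left]
    intro v hv hv'
    simp only [mem_biUnion, mem_univ, true_and] at hv
    simp only [mem_image, mem_univ, true_and] at hv'
    obtain ⟨j, hj⟩ := hv
    exact (h.hub v).1 hv' (hm j) (h.sub j hj)
  rw [h1, sum_union h2, sum_biUnion (fun i _ j _ hij => h.cdisj i j hij),
    sum_image (fun u _ u' _ huu => h.inj huu)]

theorem card_split {G : SimpleGraph V} {k er s : ℝ} {m : ℕ} {E : Fin m → Finset V}
    {cell : J → Finset V} {hm : J → Fin m} {phi : U → V} {adj : J → J → Prop}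
    {hadj : U → J → Prop} (h : Red G k er s E cell hm phi adj hadj) :
    (Fintype.card V : ℝ) = ∑ j, wt cell j + (Fintype.card U : ℝ) := by
  have := sum_split h (fun _ => (1 : ℝ))
  simpa [wt] using this

theorem nbG_le {G P : SimpleGraph V} (hGP : G ≤ P) (x : V) : nb G x ⊆ nb P x := by
  intro v hv
  simp only [nb, mem_filter, mem_univ, true_and] at hv ⊢
  exact hGP hv

theorem TrimCut.mono {G P : SimpleGraph V} (hGP : G ≤ P) {m : ℕ} {E : Fin m → Finset V}
    {K L T : ℝ} {x z : V} {B : Finset V} (h : TrimCut P E K L T x z B) :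
    TrimCut G E K L T x z B := by
  obtain ⟨⟨h1, h2, h3, h4, h5⟩, h6, h7⟩ := h
  refine ⟨⟨h1, h2, fun a ha haz => h3 a ha (hGP haz), le_trans ?_ h4, h5⟩, h6, h7⟩
  have : bd G B ⊆ bd P B := by
    intro v hv
    simp only [bd, mem_filter, mem_univ, true_and] at hv ⊢
    obtain ⟨hv1, a, ha, hav⟩ := hv
    exact ⟨hv1, a, ha, hGP hav⟩
  exact_mod_cast card_le_card this

theorem exists_arc {G P : SimpleGraph V} (hGP : G ≤ P) {k eta d0 e1 tau s q er theta : ℝ}
    (par : Par k eta d0 e1 tau s q er theta) {m : ℕ} {E : Fin m → Finset V}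
    (hP : Clean P k 16 d0 e1 E) (hcuts : SmallCuts P k 16) {x z : V} (hxz : x ≠ z) :
    (∃ B, Cut G E k d0 e1 tau x z B) ∨ ∃ B, Cut G E k d0 e1 tau z x B := by
  have hd1 : d0 ≤ 1 / 2 := by
    have h1 := par.a1
    have h2 := par.heta1
    have h3 : 0 ≤ 3 * tau / e1 := div_nonneg (by linarith [par.htau]) par.he1.le
    linarith
  have hk : 0 < k := by linarith [par.hk]
  have key : ∀ a b : V, (∃ A, IsCut P k (16 * k) a b A) → ∃ B, Cut G E k d0 e1 tau a b B := by
    rintro a b ⟨A, hA⟩
    obtain ⟨B, hB⟩ := trim P k 16 d0 e1 tau E hP hk par.hd0.le hd1 par.he1 par.htau par.htau1 a b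
      A hA
    exact ⟨B, TrimCut.mono hGP hB⟩
  rcases hcuts x z hxz with h | h
  · exact Or.inl (key x z h)
  · exact Or.inr (key z x h)

/-- `x` can be cut from `z` by a trimmed cut -/
def Arc (G : SimpleGraph V) {m : ℕ} (E : Fin m → Finset V) (k d0 e1 tau : ℝ) (x z : V) : Prop :=
  ∃ B, Cut G E k d0 e1 tau x z B

/-- a vertex that has a twin with a cut -/
def HasTwin (G : SimpleGraph V) {m : ℕ} (E : Fin m → Finset V) (cell : J → Finset V)
    (k d0 e1 tau q : ℝ) (x : V) : Prop :=
  ∃ z B, Cut G E k d0 e1 tau x z B ∧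
    ∀ l, ((nb G x ∩ cell l).card : ℝ) ≤ ((nb G z ∩ cell l).card : ℝ) + q * wt cell l

/-- requests of home vertices -/
noncomputable def req (G : SimpleGraph V) {m : ℕ} (E : Fin m → Finset V) (cell : J → Finset V)
    (k d0 e1 tau q : ℝ) (x : V) (l : J) : ℝ :=
  if h : HasTwin G E cell k d0 e1 tau q x then rq G cell x h.choose_spec.choose l else 0

theorem req_nonneg (G : SimpleGraph V) {m : ℕ} (E : Fin m → Finset V) (cell : J → Finset V)
    (k d0 e1 tau q : ℝ) (x : V) (l : J) : 0 ≤ req G E cell k d0 e1 tau q x l := by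
  unfold req
  split_ifs
  · exact le_max_left _ _
  · exact le_rfl

theorem req_le (G : SimpleGraph V) {m : ℕ} (E : Fin m → Finset V) (cell : J → Finset V)
    (k d0 e1 tau : ℝ) {q : ℝ} (hq : 0 ≤ q) (x : V) (l : J) :
    ((nb G x ∩ cell l).card : ℝ) + req G E cell k d0 e1 tau q x l ≤ (1 + q) * wt cell l := by
  unfold req
  split_ifs with h
  · exact rq_le h.choose_spec.choose_spec.1 hq l (h.choose_spec.choose_spec.2 l)
  · have h1 : ((nb G x ∩ cell l).card : ℝ) ≤ wt cell l := by
      unfold wt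
      exact_mod_cast card_le_card inter_subset_right
    have h2 : 0 ≤ wt cell l := Nat.cast_nonneg _
    nlinarith [mul_nonneg hq h2]

/-- the home vertices of one cell -/
theorem cell_sum {G P : SimpleGraph V} (hGP : G ≤ P) {k eta d0 e1 tau s q er theta : ℝ}
    (par : Par k eta d0 e1 tau s q er theta) {m : ℕ} {E : Fin m → Finset V}
    (hP : Clean P k 16 d0 e1 E) (hcuts : SmallCuts P k 16) {cell : J → Finset V}
    {hm : J → Fin m} {phi : U → V} {adj : J → J → Prop} {hadj : U → J → Prop}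
    (h : Red G k er s E cell hm phi adj hadj)
    (hnear : ∀ u j, hadj u j → phi u ∈ cn P E (hm j)) (M : ℕ)
    (hM : ∀ i, (univ.filter (fun j => hm j = i)).card ≤ M)
    (Q : J → Finset J) (hQ : ∀ j, j ∈ Q j)
    (hQmin : ∀ (j : J) (A : Finset J), j ∈ A →
      beta (wt cell) adj hadj (Q j) + theta * pen (wt cell) hm (tau * k) (Q j) ≤
      beta (wt cell) adj hadj A + theta * pen (wt cell) hm (tau * k) A) (i : J) :
    ∑ x ∈ cell i, ((nb G x).card : ℝ) ≤ wt cell i * (k + 7 * eta * k) +
      ∑ l ∈ univ.filter (fun l => Poor k eta cell adj hadj l ∧ adj i l),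
        ∑ x ∈ cell i, req G E cell k d0 e1 tau q x l +
      17 * k * (((⌊1 / q⌋₊ + 1) ^ (M * ⌊17 / e1⌋₊) : ℕ) : ℝ) := by
  have hk : 0 < k := by linarith [par.hk]
  have hb : 0 ≤ 7 * eta * k := by
    have := par.heta
    positivity
  set exc := (cell i).filter (fun x => ¬ HasTwin G E cell k d0 e1 tau q x) with hexc
  have hcard : (exc.card : ℝ) ≤ (((⌊1 / q⌋₊ + 1) ^ (M * ⌊17 / e1⌋₊) : ℕ) : ℝ) := by
    have h1 := home_exceptional hGP par hP h M hM (Arc G E k d0 e1 tau)
      (fun x z hxz => exists_arc hGP par hP hcuts hxz) i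
    have h2 : exc.card ≤ (⌊1 / q⌋₊ + 1) ^ (M * ⌊17 / e1⌋₊) := by
      refine le_trans (card_le_card ?_) h1
      intro x hx
      rw [hexc, mem_filter] at hx
      refine mem_filter.2 ⟨hx.1, fun hcon => hx.2 ?_⟩
      obtain ⟨z, _, _, hz, B, hB⟩ := hcon
      exact ⟨z, B, hB, hz⟩
    exact_mod_cast h2
  have hx : ∀ x ∈ cell i, ((nb G x).card : ℝ) ≤ (k + 7 * eta * k) +
      ∑ l ∈ univ.filter (fun l => Poor k eta cell adj hadj l ∧ adj i l),
        req G E cell k d0 e1 tau q x l +
      (if HasTwin G E cell k d0 e1 tau q x then 0 else 17 * k) := by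
    intro x hx
    by_cases ht : HasTwin G E cell k d0 e1 tau q x
    · rw [if_pos ht]
      have h1 := home_main hGP par hP h hnear ht.choose_spec.choose_spec.1
        ht.choose_spec.choose_spec.2 i hx (Q i) (hQ i) (hQmin i)
      have h2 : ∀ l, req G E cell k d0 e1 tau q x l = rq G cell x ht.choose_spec.choose l := by
        intro l
        unfold req
        rw [dif_pos ht]
      simp only [h2]
      linarith
    · rw [if_neg ht]
      have h1 : ((nb G x).card : ℝ) ≤ (16 + 1) * k := by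
        refine le_trans ?_ (hP.deg x)
        exact_mod_cast card_le_card (nbG_le hGP x)
      have h2 : 0 ≤ ∑ l ∈ univ.filter (fun l => Poor k eta cell adj hadj l ∧ adj i l),
          req G E cell k d0 e1 tau q x l := sum_nonneg (fun l _ => req_nonneg _ _ _ _ _ _ _ _ _ _)
      linarith
  have h1 := sum_le_sum hx
  rw [sum_add_distrib, sum_add_distrib, sum_const, nsmul_eq_mul, sum_comm] at h1
  have h2 : ∑ x ∈ cell i, (if HasTwin G E cell k d0 e1 tau q x then 0 else 17 * k) =
      17 * k * (exc.card : ℝ) := by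
    have h3 : ∀ x, (if HasTwin G E cell k d0 e1 tau q x then (0 : ℝ) else 17 * k) =
        if ¬ HasTwin G E cell k d0 e1 tau q x then 17 * k else 0 := by
      intro x
      by_cases ht : HasTwin G E cell k d0 e1 tau q x
      · rw [if_pos ht, if_neg (not_not.2 ht)]
      · rw [if_neg ht, if_pos ht]
    simp only [h3]
    rw [← sum_filter, sum_const, nsmul_eq_mul, mul_comm]
  rw [h2] at h1
  have h3 : 17 * k * (exc.card : ℝ) ≤ 17 * k * (((⌊1 / q⌋₊ + 1) ^ (M * ⌊17 / e1⌋₊) : ℕ) : ℝ) :=
    mul_le_mul_of_nonneg_left hcard (by linarith)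
  unfold wt
  linarith

end LCX
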