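import Pool.Agent.Lib_MP_0bab5c_x.XGraphA

/-! # Assembly, second part: all hubs -/

namespace LCX

open Finset
open scoped Classical

variable {V J U : Type} [Fintype V] [Fintype J] [Fintype U]

theorem Par.pen_le {k eta d0 e1 tau s q er theta : ℝ} (par : Par k eta d0 e1 tau s q er theta) :
    theta * (16 * k / s + tau * k * (16 * k / (tau * k) + 1)) ≤ eta * k := by
  have hk : 0 < k := by linarith [par.hk]
  have ht := par.htau
  have hs := par.hs
  have h1 : 16 * k / s + tau * k * (16 * k / (tau * k) + 1) = k * (16 / s + 16 + tau) := by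
    field_simp
    ring
  rw [h1]
  have h2 : theta * (k * (16 / s + 16 + tau)) ≤ k * (theta * (16 / s + 17)) := by
    have h3 : theta * (16 / s + 16 + tau) ≤ theta * (16 / s + 17) :=
      mul_le_mul_of_nonneg_left (by linarith [par.htau2]) par.hth.le
    nlinarith
  have h3 : k * (theta * (16 / s + 17)) ≤ k * eta := mul_le_mul_of_nonneg_left par.a2 hk.le
  linarith

theorem Par.er_le {k eta d0 e1 tau s q er theta : ℝ} (par : Par k eta d0 e1 tau s q er theta) :
    er * k * (16 * k / (tau * k) + 1) ≤ eta * k := by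
  have hk : 0 < k := by linarith [par.hk]
  have ht := par.htau
  have h1 : 16 * k / (tau * k) = 16 / tau := by
    field_simp
  rw [h1]
  have := mul_le_mul_of_nonneg_left par.a5 hk.le
  linarith

/-- the penalised minimum of a hub with a cut is at most `2 k`, so its set has few homes -/
theorem few_homes {G P : SimpleGraph V} (hGP : G ≤ P) {k eta d0 e1 tau s q er theta : ℝ}
    (par : Par k eta d0 e1 tau s q er theta) {m : ℕ} {E : Fin m → Finset V}
    (hP : Clean P k 16 d0 e1 E) {cell : J → Finset V} {hm : J → Fin m}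
    {phi : U → V} {adj : J → J → Prop} {hadj : U → J → Prop}
    (h : Red G k er s E cell hm phi adj hadj) {x z : V} {B : Finset V}
    (hB : Cut G E k d0 e1 tau x z B) (Qu : Finset J)
    (hmin : ∀ A : Finset J,
      bb cell phi adj hadj x (nb G x) Qu + theta * pen (wt cell) hm (tau * k) Qu ≤
      bb cell phi adj hadj x (nb G x) A + theta * pen (wt cell) hm (tau * k) A) :
    ((Qu.image hm).card : ℝ) ≤ 2 / (theta * tau) := by
  have hk : 0 < k := by linarith [par.hk]
  have heta := par.heta
  have hTk : 0 < tau * k := mul_pos par.htau hk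
  have hs := par.hs
  have her := par.her
  have hsmall : s + er ≤ 1 / 2 := by
    have := par.a4
    have := par.heta1
    linarith
  have h1 := hub_min_le h hk.le par.hs par.her.le hsmall hTk hB theta (tau * k) par.hth.le hTk.le
    Qu hmin
  have h2 := par.pen_le
  have h3 := par.er_le
  have h4 : metw cell (nb G x) ≤ (16 + 1) / e1 * 16 * k :=
    metw_le hGP hP h hk (by norm_num) par.he1 x
  have h5 : s * metw cell (nb G x) ≤ eta * k := by
    have h6 : s * metw cell (nb G x) ≤ s * ((16 + 1) / e1 * 16 * k) :=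
      mul_le_mul_of_nonneg_left h4 par.hs.le
    have h7 : s * ((16 + 1) / e1 * 16 * k) = s * (272 / e1) * k := by
      ring
    have h8 : s * (272 / e1) ≤ (2 * s + q) * (272 / e1) := by
      apply mul_le_mul_of_nonneg_right
      · linarith [par.hq]
      · exact div_nonneg (by norm_num) par.he1.le
    have h9 := mul_le_mul_of_nonneg_right (h8.trans par.a3) hk.le
    linarith
  have hK : (1 + d0 + 3 * tau / e1) * k ≤ (1 + eta) * k :=
    mul_le_mul_of_nonneg_right (by linarith [par.a1]) hk.le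
  have hK0 : 0 ≤ (1 + d0 + 3 * tau / e1) := by
    have := div_nonneg (mul_nonneg (by norm_num : (0 : ℝ) ≤ 3) par.htau.le) par.he1.le
    linarith [par.hd0]
  have h6 : 2 * (s + er) * ((1 + d0 + 3 * tau / e1) * k) ≤ eta * k := by
    have h7 : (1 + d0 + 3 * tau / e1) * k ≤ 2 * k := by
      have := par.heta1
      nlinarith
    have h8 : 2 * (s + er) * ((1 + d0 + 3 * tau / e1) * k) ≤ 2 * (s + er) * (2 * k) :=
      mul_le_mul_of_nonneg_left h7 (by linarith)
    have h9 := mul_le_mul_of_nonneg_right par.a4 hk.le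
    nlinarith
  have h7 : bb cell phi adj hadj x (nb G x) Qu + theta * pen (wt cell) hm (tau * k) Qu ≤
      2 * k := by
    have := par.heta1
    nlinarith
  have h8 : 0 ≤ bb cell phi adj hadj x (nb G x) Qu := by
    unfold bb wt
    positivity
  have h9 : tau * k * ((Qu.image hm).card : ℝ) ≤ pen (wt cell) hm (tau * k) Qu := by
    rw [pen_eq]
    have h0 : 0 ≤ ∑ j ∈ Qu, wt cell j := sum_nonneg (fun j _ => Nat.cast_nonneg _)
    linarith
  have h10 : theta * (tau * k * ((Qu.image hm).card : ℝ)) ≤ 2 * k :=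
    (mul_le_mul_of_nonneg_left h9 par.hth.le).trans (by linarith)
  rw [le_div_iff₀ (mul_pos par.hth par.htau)]
  have h11 : k * (((Qu.image hm).card : ℝ) * (theta * tau)) ≤ k * 2 := by
    have e : k * (((Qu.image hm).card : ℝ) * (theta * tau)) =
      theta * (tau * k * ((Qu.image hm).card : ℝ)) := by ring
    rw [e]
    linarith
  exact le_of_mul_le_mul_left h11 hk

theorem hubs_all {G P : SimpleGraph V} (hGP : G ≤ P) {k eta d0 e1 tau s q er theta : ℝ}
    (par : Par k eta d0 e1 tau s q er theta) {m : ℕ} {E : Fin m → Finset V}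
    (hP : Clean P k 16 d0 e1 E) (hcuts : SmallCuts P k 16) {cell : J → Finset V}
    {hm : J → Fin m} {phi : U → V} {adj : J → J → Prop} {hadj : U → J → Prop}
    (h : Red G k er s E cell hm phi adj hadj)
    (hnear : ∀ u j, hadj u j → phi u ∈ cn P E (hm j)) (M : ℕ)
    (hM : ∀ i, (univ.filter (fun j => hm j = i)).card ≤ M)
    (Q : J → Finset J) (hQ : ∀ j, j ∈ Q j)
    (hQmin : ∀ (j : J) (A : Finset J), j ∈ A →
      beta (wt cell) adj hadj (Q j) + theta * pen (wt cell) hm (tau * k) (Q j) ≤
      beta (wt cell) adj hadj A + theta * pen (wt cell) hm (tau * k) A)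
    (del : ℝ) (hdel : 0 < del) (D N : ℕ) (hD : (16 + 1) * ((16 + 1) / e1 + 1) / del ≤ D)
    (hN1 : 2 / (theta * tau) ≤ N) (hN2 : 3 * del * (N : ℝ) ^ 2 ≤ eta) :
    ∃ (qU : U → J → ℝ) (eU : U → ℝ), (∀ u j, 0 ≤ qU u j) ∧
      (∀ u j, qU u j ≠ 0 → Poor k eta cell adj hadj j ∧ hadj u j) ∧
      (∀ u j, ((nb G (phi u) ∩ cell j).card : ℝ) + qU u j ≤ (1 + q) * wt cell j) ∧
      (∀ u, 0 ≤ eU u) ∧
      (∀ u, HubOK (Fin m) k (wt cell) adj hadj Q u
        (((nb G (phi u)).card : ℝ) - ∑ j, qU u j - eU u)) ∧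
      ∑ u, eU u ≤ 400 * eta * k * (Fintype.card U : ℝ) +
        17 * k * ((1 + m * 2 ^ ((D + 1) ^ N) * (⌊1 / q⌋₊ + 1) ^ (M * (D + 1) ^ N) : ℕ) : ℝ) := by
  have hk : 0 < k := by linarith [par.hk]
  have heta := par.heta
  -- classes
  set R : Fin m → Fin m → Prop :=
    fun i i' => del * k ≤ (((cn P E i) ∩ (cn P E i')).card : ℝ) with hR
  have hRs : ∀ i i', R i i' → R i' i := by
    intro i i' hii
    simp only [hR] at hii ⊢
    rw [inter_comm]
    exact hii
  have hRD : ∀ i, (univ.filter (R i)).card ≤ D := by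
    intro i
    have h1 := overlap_degree hP hk (by norm_num) par.he1 del hdel i
    have h2 : (((univ.filter (R i)).card : ℕ) : ℝ) ≤ D := h1.trans hD
    exact_mod_cast h2
  obtain ⟨ball, hball, hcls⟩ := exists_classes R hRs D N hRD
  -- minimisers
  have hex : ∀ u : U, ∃ Qu : Finset J, ∀ A : Finset J,
      bb cell phi adj hadj (phi u) (nb G (phi u)) Qu +
        theta * pen (wt cell) hm (tau * k) Qu ≤
      bb cell phi adj hadj (phi u) (nb G (phi u)) A + theta * pen (wt cell) hm (tau * k) A := by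
    intro u
    obtain ⟨Qu, _, hQu⟩ := exists_min_image (univ : Finset (Finset J))
      (fun A => bb cell phi adj hadj (phi u) (nb G (phi u)) A +
        theta * pen (wt cell) hm (tau * k) A) ⟨∅, mem_univ _⟩
    exact ⟨Qu, fun A => hQu A (mem_univ _)⟩
  choose Qu hQu using hex
  -- exceptional hubs
  set goodT : U → Finset (Fin m) → Prop := fun u T => ∃ z B, Cut G E k d0 e1 tau (phi u) z B ∧
    ∀ l, hm l ∈ T → ((nb G (phi u) ∩ cell l).card : ℝ) ≤
      ((nb G z ∩ cell l).card : ℝ) + q * wt cell l with hgoodT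
  set bad : Finset U := univ.filter (fun u => ¬ goodT u ∅) ∪
    univ.biUnion (fun i : Fin m => (ball i).powerset.biUnion
      (fun T => univ.filter (fun u => ¬ goodT u T))) with hbad
  have hcount : ∀ T : Finset (Fin m), (univ.filter (fun u => ¬ goodT u T)).card ≤
      (⌊1 / q⌋₊ + 1) ^ (M * T.card) := by
    intro T
    have h1 := hub_exceptional par h M hM (Arc G E k d0 e1 tau)
      (fun x z hxz => exists_arc hGP par hP hcuts hxz) T
    refine le_trans (card_le_card ?_) h1
    intro u hu
    rw [mem_filter] at hu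
    refine mem_filter.2 ⟨hu.1, fun hcon => hu.2 ?_⟩
    obtain ⟨z, _, hz, B, hB⟩ := hcon
    exact ⟨z, B, hB, hz⟩
  have hbadcard : bad.card ≤
      1 + m * 2 ^ ((D + 1) ^ N) * (⌊1 / q⌋₊ + 1) ^ (M * (D + 1) ^ N) := by
    have h0 : (univ.filter (fun u => ¬ goodT u ∅)).card ≤ 1 := by
      have := hcount ∅
      simpa using this
    have h1 : (univ.biUnion (fun i : Fin m => (ball i).powerset.biUnion
        (fun T => univ.filter (fun u => ¬ goodT u T)))).card ≤
        m * (2 ^ ((D + 1) ^ N) * (⌊1 / q⌋₊ + 1) ^ (M * (D + 1) ^ N)) := by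
      refine (card_biUnion_le_card_mul _ _ _ (fun i _ => ?_)).trans
        (le_of_eq (by rw [card_univ, Fintype.card_fin]))
      refine (card_biUnion_le_card_mul _ _ ((⌊1 / q⌋₊ + 1) ^ (M * (D + 1) ^ N))
        (fun T hT => ?_)).trans ?_
      · refine (hcount T).trans ?_
        apply Nat.pow_le_pow_right (Nat.succ_pos _)
        apply Nat.mul_le_mul_left
        exact (card_le_card (mem_powerset.1 hT)).trans (hball i)
      · rw [card_powerset]
        apply Nat.mul_le_mul_right
        exact Nat.pow_le_pow_right (by norm_num) (hball i)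
    have h2 := card_union_le (univ.filter (fun u => ¬ goodT u ∅))
      (univ.biUnion (fun i : Fin m => (ball i).powerset.biUnion
        (fun T => univ.filter (fun u => ¬ goodT u T))))
    rw [← mul_assoc] at h1
    calc bad.card ≤ _ := h2
      _ ≤ _ := Nat.add_le_add h0 h1
  -- good hubs
  have hgood : ∀ u, u ∉ bad → ∃ qu : J → ℝ, (∀ j, 0 ≤ qu j) ∧
      (∀ j, qu j ≠ 0 → Poor k eta cell adj hadj j ∧ hadj u j) ∧
      (∀ j, ((nb G (phi u) ∩ cell j).card : ℝ) + qu j ≤ (1 + q) * wt cell j) ∧
      HubOK (Fin m) k (wt cell) adj hadj Q u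
        (((nb G (phi u)).card : ℝ) - ∑ j, qu j - 400 * eta * k) := by
    intro u hu
    have hg0 : goodT u ∅ := by
      by_contra hcon
      exact hu (mem_union_left _ (mem_filter.2 ⟨mem_univ _, hcon⟩))
    have hgT : ∀ i, ∀ T ⊆ ball i, goodT u T := by
      intro i T hT
      by_contra hcon
      exact hu (mem_union_right _ (mem_biUnion.2 ⟨i, mem_univ _, mem_biUnion.2
        ⟨T, mem_powerset.2 hT, mem_filter.2 ⟨mem_univ _, hcon⟩⟩⟩))
    obtain ⟨z0, B0, hB0, _⟩ := hg0
    have hfew := few_homes hGP par hP h hB0 (Qu u) (hQu u)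
    have hfewN : ((Qu u).image hm).card ≤ N := by
      have : ((((Qu u).image hm).card : ℕ) : ℝ) ≤ N := hfew.trans hN1
      exact_mod_cast this
    obtain ⟨cl, hcl1, hcl2, hcl3⟩ := hcls _ hfewN
    refine hub_main hGP par hP h hnear Q hQ hQmin u (Qu u) (hQu u) cl (del * k)
      (mul_nonneg hdel.le hk.le) ?_ ?_ ⟨z0, B0, hB0⟩ ?_
    · intro i hi i' hi' hii
      by_contra hcon
      exact hii (hcl2 i hi i' hi' (not_le.1 hcon).le)
    · have h1 : (((Qu u).image hm).card : ℝ) ≤ N := by exact_mod_cast hfewN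
      have h2 : (((Qu u).image hm).card : ℝ) ^ 2 ≤ (N : ℝ) ^ 2 :=
        pow_le_pow_left₀ (Nat.cast_nonneg _) h1 2
      have h3 : 3 * (del * k) * (((Qu u).image hm).card : ℝ) ^ 2 ≤
          3 * (del * k) * (N : ℝ) ^ 2 :=
        mul_le_mul_of_nonneg_left h2 (by positivity)
      have h4 := mul_le_mul_of_nonneg_right hN2 hk.le
      nlinarith
    · rintro a ⟨j, hj, hja, _⟩
      have hi0 : hm j ∈ (Qu u).image hm := mem_image_of_mem _ hj
      obtain ⟨z, B, hB, hz⟩ := hgT (hm j) (((Qu u).image hm).filter (fun i => cl i = a)) (by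
        intro i hi
        rw [mem_filter] at hi
        exact hcl3 (hm j) hi0 i hi.1 (by rw [hja, hi.2]))
      refine ⟨z, B, hB, fun l hl hla => hz l ?_⟩
      rw [mem_filter]
      exact ⟨mem_image_of_mem _ hl, hla⟩
  -- all hubs
  have hall : ∀ u, ∃ qu : J → ℝ, (∀ j, 0 ≤ qu j) ∧
      (∀ j, qu j ≠ 0 → Poor k eta cell adj hadj j ∧ hadj u j) ∧
      (∀ j, ((nb G (phi u) ∩ cell j).card : ℝ) + qu j ≤ (1 + q) * wt cell j) ∧
      HubOK (Fin m) k (wt cell) adj hadj Q u
        (((nb G (phi u)).card : ℝ) - ∑ j, qu j -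
          (400 * eta * k + if u ∈ bad then 17 * k else 0)) := by
    intro u
    by_cases hu : u ∈ bad
    · refine ⟨fun _ => 0, fun _ => le_rfl, fun j hj => absurd rfl hj, fun j => ?_, ?_⟩
      · have h1 : ((nb G (phi u) ∩ cell j).card : ℝ) ≤ wt cell j := by
          unfold wt
          exact_mod_cast card_le_card inter_subset_right
        have h2 : 0 ≤ wt cell j := Nat.cast_nonneg _
        nlinarith [mul_nonneg par.hq.le h2]
      · rw [if_pos hu]
        have h1 : ((nb G (phi u)).card : ℝ) ≤ (16 + 1) * k := by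
          refine le_trans ?_ (hP.deg (phi u))
          exact_mod_cast card_le_card (nbG_le hGP (phi u))
        refine ⟨∅, ∅, fun _ => ∅, fun _ => 0, fun _ => 0, 0, le_rfl, disjoint_empty_left _,
          ?_, ?_, ?_, ?_, ?_, ?_⟩
        · intro a ha
          simp at ha
        · intro a ha
          simp at ha
        · intro a ha
          simp at ha
        · intro a ha
          simp at ha
        · simp
        · simp only [sum_const_zero]
          have : 0 ≤ 400 * eta * k := by positivity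
          nlinarith
    · rw [if_neg hu, add_zero]
      exact hgood u hu
  choose qU hq1 hq2 hq3 hq4 using hall
  refine ⟨qU, fun u => 400 * eta * k + if u ∈ bad then 17 * k else 0, hq1, hq2, hq3, ?_, hq4, ?_⟩
  · intro u
    have : 0 ≤ 400 * eta * k := by positivity
    show 0 ≤ 400 * eta * k + if u ∈ bad then 17 * k else 0
    split_ifs <;> linarith
  · rw [sum_add_distrib, sum_const, nsmul_eq_mul, card_univ, ← sum_filter, sum_const,
      nsmul_eq_mul, filter_mem_eq_inter, univ_inter]
    have h1 : (bad.card : ℝ) ≤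
        ((1 + m * 2 ^ ((D + 1) ^ N) * (⌊1 / q⌋₊ + 1) ^ (M * (D + 1) ^ N) : ℕ) : ℝ) := by
      exact_mod_cast hbadcard
    have h2 := mul_le_mul_of_nonneg_left h1 (by linarith : 0 ≤ 17 * k)
    linarith

end LCX
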