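import Pool.Agent.Lib_MP_0bab5c_x.XGraphB

/-! # Assembly, third part: the bound for one graph -/

namespace LCX

open Finset
open scoped Classical

variable {V J U : Type} [Fintype V] [Fintype J] [Fintype U]

/-- number of ordered adjacent pairs between two cells -/
noncomputable def aJ (G : SimpleGraph V) (cell : J → Finset V) (i j : J) : ℝ :=
  ∑ x ∈ cell i, ((nb G x ∩ cell j).card : ℝ)

theorem aJ_nonneg (G : SimpleGraph V) (cell : J → Finset V) (i j : J) : 0 ≤ aJ G cell i j :=
  sum_nonneg (fun _ _ => Nat.cast_nonneg _)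

theorem nbi_card (G : SimpleGraph V) (X : Finset V) (x : V) :
    ((nb G x ∩ X).card : ℝ) = ∑ y ∈ X, if G.Adj x y then (1 : ℝ) else 0 := by
  rw [← sum_filter, sum_const, nsmul_eq_mul, mul_one]
  congr 2
  ext y
  simp only [nb, mem_inter, mem_filter, mem_univ, true_and]
  exact and_comm

theorem aJ_symm (G : SimpleGraph V) (cell : J → Finset V) (i j : J) :
    aJ G cell i j = aJ G cell j i := by
  unfold aJ
  simp only [nbi_card]
  rw [sum_comm]
  exact sum_congr rfl (fun y _ => sum_congr rfl (fun x _ => by rw [G.adj_comm]))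

theorem aJ_le (G : SimpleGraph V) (cell : J → Finset V) (i j : J) :
    aJ G cell i j ≤ wt cell i * wt cell j := by
  unfold aJ wt
  refine (sum_le_card_nsmul _ _ ((cell j).card : ℝ) (fun x _ => ?_)).trans
    (le_of_eq (nsmul_eq_mul _ _))
  exact_mod_cast card_le_card inter_subset_right

theorem aJ_zero {G : SimpleGraph V} {k er s : ℝ} {m : ℕ} {E : Fin m → Finset V}
    {cell : J → Finset V} {hm : J → Fin m} {phi : U → V} {adj : J → J → Prop}
    {hadj : U → J → Prop} (h : Red G k er s E cell hm phi adj hadj) {i j : J}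
    (hij : ¬ adj i j) : aJ G cell i j = 0 := by
  unfold aJ
  refine sum_eq_zero (fun x hx => ?_)
  rw [Nat.cast_eq_zero, card_eq_zero]
  ext y
  simp only [nb, mem_inter, mem_filter, mem_univ, true_and, notMem_empty, iff_false, not_and]
  intro hxy hy
  exact hij (h.ex i j x hx y hy hxy)

theorem aU_zero {G : SimpleGraph V} {k er s : ℝ} {m : ℕ} {E : Fin m → Finset V}
    {cell : J → Finset V} {hm : J → Fin m} {phi : U → V} {adj : J → J → Prop}
    {hadj : U → J → Prop} (h : Red G k er s E cell hm phi adj hadj) {u : U} {j : J}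
    (huj : ¬ hadj u j) : ((nb G (phi u) ∩ cell j).card : ℝ) = 0 := by
  rw [Nat.cast_eq_zero, card_eq_zero]
  ext y
  simp only [nb, mem_inter, mem_filter, mem_univ, true_and, notMem_empty, iff_false, not_and]
  intro hxy hy
  exact huj (h.hex u j y hy hxy)

/-- degrees of one cell -/
theorem deg_cell {G : SimpleGraph V} {k er s : ℝ} {m : ℕ} {E : Fin m → Finset V}
    {cell : J → Finset V} {hm : J → Fin m} {phi : U → V} {adj : J → J → Prop}
    {hadj : U → J → Prop} (h : Red G k er s E cell hm phi adj hadj) (j : J) :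
    ∑ x ∈ cell j, ((nb G x).card : ℝ) = ∑ l ∈ univ.filter (adj j), aJ G cell j l +
      ∑ u ∈ univ.filter (fun u => hadj u j), ((nb G (phi u) ∩ cell j).card : ℝ) := by
  have h1 : ∀ x, ((nb G x).card : ℝ) = ∑ l, ((nb G x ∩ cell l).card : ℝ) +
      ∑ u, if G.Adj x (phi u) then (1 : ℝ) else 0 := by
    intro x
    have h2 := nbi_card G univ x
    rw [inter_univ] at h2
    rw [h2, sum_split h]
    congr 1
    exact sum_congr rfl (fun l _ => (nbi_card G (cell l) x).symm)
  have h3 : ∑ x ∈ cell j, ((nb G x).card : ℝ) = ∑ l, aJ G cell j l +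
      ∑ u, ((nb G (phi u) ∩ cell j).card : ℝ) := by
    simp only [h1]
    rw [sum_add_distrib, sum_comm]
    congr 1
    rw [sum_comm]
    refine sum_congr rfl (fun u _ => ?_)
    rw [nbi_card]
    exact sum_congr rfl (fun x _ => by rw [G.adj_comm])
  rw [h3]
  congr 1
  · symm
    apply sum_subset (filter_subset _ _)
    intro l _ hl
    rw [mem_filter, not_and] at hl
    exact aJ_zero h (hl (mem_univ _))
  · symm
    apply sum_subset (filter_subset _ _)
    intro u _ hu
    rw [mem_filter, not_and] at hu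
    exact aU_zero h (hu (mem_univ _))

theorem card_cells {m : ℕ} (hm : J → Fin m) (M : ℕ)
    (hM : ∀ i, (univ.filter (fun j => hm j = i)).card ≤ M) : Fintype.card J ≤ m * M := by
  have h1 : (univ : Finset J) = univ.biUnion (fun i : Fin m => univ.filter (fun j => hm j = i)) := by
    ext j
    simp
  rw [← card_univ, h1]
  refine (card_biUnion_le_card_mul _ _ M (fun i _ => hM i)).trans ?_
  rw [card_univ, Fintype.card_fin]

theorem graph_bound {G P : SimpleGraph V} (hGP : G ≤ P) {k eta d0 e1 tau s q er theta : ℝ}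
    (par : Par k eta d0 e1 tau s q er theta) {m : ℕ} {E : Fin m → Finset V}
    (hP : Clean P k 16 d0 e1 E) (hcuts : SmallCuts P k 16) {cell : J → Finset V}
    {hm : J → Fin m} {phi : U → V} {adj : J → J → Prop} {hadj : U → J → Prop}
    (h : Red G k er s E cell hm phi adj hadj)
    (hnear : ∀ u j, hadj u j → phi u ∈ cn P E (hm j)) (M : ℕ)
    (hM : ∀ i, (univ.filter (fun j => hm j = i)).card ≤ M)
    (del : ℝ) (hdel : 0 < del) (D N : ℕ) (hD : (16 + 1) * ((16 + 1) / e1 + 1) / del ≤ D)
    (hN1 : 2 / (theta * tau) ≤ N) (hN2 : 3 * del * (N : ℝ) ^ 2 ≤ eta)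
    (hbig : 17 * ((m * M * (⌊1 / q⌋₊ + 1) ^ (M * ⌊17 / e1⌋₊) : ℕ) : ℝ) +
      17 * ((1 + m * 2 ^ ((D + 1) ^ N) * (⌊1 / q⌋₊ + 1) ^ (M * (D + 1) ^ N) : ℕ) : ℝ) ≤
      eta * (Fintype.card V : ℝ)) :
    ∑ v, ((nb G v).card : ℝ) ≤ (1 + kap) * k * (Fintype.card V : ℝ) +
      1000 * eta * k * (Fintype.card V : ℝ) := by
  have hk : 0 < k := by linarith [par.hk]
  have heta := par.heta
  have heta1 := par.heta1
  have hTk : 0 ≤ tau * k := (mul_pos par.htau hk).le
  have hw : ∀ j, 0 < wt cell j := fun j => by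
    unfold wt
    exact_mod_cast h.cpos j
  have hw0 : ∀ j, 0 ≤ wt cell j := fun j => (hw j).le
  obtain ⟨Q, hQ1, hQ2, hQ3⟩ := exists_closure
    (fun A => beta (wt cell) adj hadj A + theta * pen (wt cell) hm (tau * k) A) (by
      intro A B
      have h1 := beta_submod (wt cell) hw0 adj hadj A B
      have h2 := pen_submod (wt cell) hw0 hm (tau * k) hTk A B
      have h3 := mul_le_mul_of_nonneg_left h2 par.hth.le
      rw [mul_add, mul_add] at h3
      linarith)
  obtain ⟨qU, eU, hqU0, hqU2, hqU3, heU0, hHub, heUs⟩ := hubs_all hGP par hP hcuts h hnear M hM Q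
    hQ1 hQ2 del hdel D N hD hN1 hN2
  set Bd : ℝ := (((⌊1 / q⌋₊ + 1) ^ (M * ⌊17 / e1⌋₊) : ℕ) : ℝ) with hBd
  have hBd0 : 0 ≤ Bd := Nat.cast_nonneg _
  set DJ : J → ℝ := fun j => (∑ x ∈ cell j, ((nb G x).card : ℝ)) / wt cell j with hDJ
  have hwDJ : ∀ j, wt cell j * DJ j = ∑ x ∈ cell j, ((nb G x).card : ℝ) := by
    intro j
    have := (hw j).ne'
    rw [hDJ]
    field_simp
  set rs : J → J → ℝ := fun i j => ∑ x ∈ cell i, req G E cell k d0 e1 tau q x j with hrs
  have hrs0 : ∀ i j, 0 ≤ rs i j := fun i j => sum_nonneg (fun x _ => req_nonneg _ _ _ _ _ _ _ _ _ _)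
  have hrs1 : ∀ i j, aJ G cell i j + rs i j ≤ wt cell i * ((1 + q) * wt cell j) := by
    intro i j
    rw [hrs]
    unfold aJ
    simp only
    rw [← sum_add_distrib]
    refine (sum_le_card_nsmul _ _ ((1 + q) * wt cell j) (fun x _ =>
      req_le G E cell k d0 e1 tau par.hq.le x j)).trans (le_of_eq (nsmul_eq_mul _ _))
  set qJ : J → J → ℝ := fun i j =>
    if (k < DJ i ∧ ¬ Poor k eta cell adj hadj i ∧ Poor k eta cell adj hadj j ∧ adj i j) then
      rs i j / wt cell i else 0 with hqJ
  have hqJ0 : ∀ i j, 0 ≤ qJ i j := by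
    intro i j
    rw [hqJ]
    simp only
    split_ifs
    · exact div_nonneg (hrs0 i j) (hw0 i)
    · exact le_rfl
  have hcore := core' (iota := Fin m) k (2 * eta) hk (by linarith) (by linarith) (wt cell) hw adj
    h.symm hadj Q hQ1 hQ3 (fun i j => aJ G cell i j / (wt cell i * wt cell j)) ?_ ?_ ?_
    (fun u j => ((nb G (phi u) ∩ cell j).card : ℝ) / wt cell j) ?_ ?_ DJ
    (fun u => ((nb G (phi u)).card : ℝ)) (fun _ => 0)
    (fun j => 7 * eta * k + 17 * k * Bd / wt cell j) eU ?_ ?_ heU0 ?_
    (Poor k eta cell adj hadj) (fun j hj => hj) qJ qU hqJ0 hqU0 ?_ ?_ hqU2 ?_ ?_ hHub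
  · -- conclusion
    have e1' : ∑ j, wt cell j * DJ j + ∑ u, ((nb G (phi u)).card : ℝ) =
        ∑ v, ((nb G v).card : ℝ) := by
      rw [sum_split h]
      congr 1
      exact sum_congr rfl (fun j _ => hwDJ j)
    rw [e1'] at hcore
    have e2' := card_split h
    rw [← e2'] at hcore
    have e3 : ∑ j, wt cell j * (0 + (7 * eta * k + 17 * k * Bd / wt cell j) +
        3 * (2 * eta) * k) = 13 * eta * k * ∑ j, wt cell j +
          17 * k * Bd * (Fintype.card J : ℝ) := by
      rw [mul_sum]
      have : 17 * k * Bd * (Fintype.card J : ℝ) = ∑ j : J, 17 * k * Bd := by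
        rw [sum_const, card_univ, nsmul_eq_mul]
        ring
      rw [this, ← sum_add_distrib]
      refine sum_congr rfl (fun j _ => ?_)
      have := (hw j).ne'
      field_simp
      ring
    rw [e3] at hcore
    have e4 : (Fintype.card J : ℝ) ≤ m * M := by exact_mod_cast card_cells hm M hM
    have e5 : 17 * k * Bd * (Fintype.card J : ℝ) ≤ 17 * k * Bd * (m * M) :=
      mul_le_mul_of_nonneg_left e4 (by positivity)
    have e6 : ∑ j, wt cell j ≤ (Fintype.card V : ℝ) := by
      rw [e2']
      have : (0 : ℝ) ≤ (Fintype.card U : ℝ) := Nat.cast_nonneg _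
      linarith
    have e7 : (Fintype.card U : ℝ) ≤ (Fintype.card V : ℝ) := by
      rw [e2']
      have : (0 : ℝ) ≤ ∑ j, wt cell j := sum_nonneg (fun j _ => hw0 j)
      linarith
    have hek : 0 < eta * k := mul_pos heta hk
    have e8 : 13 * eta * k * ∑ j, wt cell j ≤ 13 * eta * k * (Fintype.card V : ℝ) :=
      mul_le_mul_of_nonneg_left e6 (by positivity)
    have e9 : 400 * eta * k * (Fintype.card U : ℝ) ≤ 400 * eta * k * (Fintype.card V : ℝ) :=
      mul_le_mul_of_nonneg_left e7 (by positivity)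
    have e10 := mul_le_mul_of_nonneg_left hbig hk.le
    have e11 : ((m * M * (⌊1 / q⌋₊ + 1) ^ (M * ⌊17 / e1⌋₊) : ℕ) : ℝ) = Bd * (m * M) := by
      rw [hBd]
      push_cast
      ring
    rw [e11] at e10
    have e12 : 0 ≤ eta * k * (Fintype.card V : ℝ) := by positivity
    set X2 : ℝ := ((1 + m * 2 ^ ((D + 1) ^ N) * (⌊1 / q⌋₊ + 1) ^ (M * (D + 1) ^ N) : ℕ) : ℝ)
    have e13 : k * (17 * (Bd * (m * M)) + 17 * X2) = 17 * k * Bd * (m * M) + 17 * k * X2 := by
      ring
    rw [e13] at e10
    nlinarith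
  · intro i j
    exact div_nonneg (aJ_nonneg _ _ _ _) (mul_nonneg (hw0 i) (hw0 j))
  · intro i j
    rw [div_le_one (mul_pos (hw i) (hw j))]
    exact aJ_le G cell i j
  · intro i j
    rw [aJ_symm, mul_comm]
  · intro u j
    exact div_nonneg (Nat.cast_nonneg _) (hw0 j)
  · intro u j
    rw [div_le_one (hw j)]
    unfold wt
    exact_mod_cast card_le_card inter_subset_right
  · intro j
    exact le_rfl
  · intro j
    have := hw j
    positivity
  · intro j
    rw [hDJ]
    simp only
    rw [deg_cell h j, add_div, sum_div, sum_div, add_zero]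
    apply le_of_eq
    congr 1
    refine sum_congr rfl (fun l _ => ?_)
    have h1 := (hw j).ne'
    have h2 := (hw l).ne'
    field_simp
  · intro i j hij
    by_contra hcon
    apply hij
    rw [hqJ]
    simp only
    rw [if_neg hcon]
  · intro i j hij
    have h1 := (hw i)
    have h2 := (hw j)
    have e1' : aJ G cell i j / (wt cell i * wt cell j) * wt cell j = aJ G cell i j / wt cell i := by
      have := h1.ne'
      have := h2.ne'
      field_simp
    have e2' : qJ i j ≤ rs i j / wt cell i := by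
      rw [hqJ]
      simp only
      split_ifs
      · exact le_rfl
      · exact div_nonneg (hrs0 i j) h1.le
    have e3 : aJ G cell i j / wt cell i + rs i j / wt cell i ≤ (1 + q) * wt cell j := by
      rw [← add_div, div_le_iff₀ h1]
      have := hrs1 i j
      linarith
    have e4 : (1 + q) * wt cell j ≤ (1 + 2 * eta) * wt cell j :=
      mul_le_mul_of_nonneg_right (by linarith [par.a9]) h2.le
    rw [e1']
    linarith
  · intro u j huj
    have h2 := (hw j)
    have e1' : ((nb G (phi u) ∩ cell j).card : ℝ) / wt cell j * wt cell j =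
        ((nb G (phi u) ∩ cell j).card : ℝ) := by
      have := h2.ne'
      field_simp
    have e4 : (1 + q) * wt cell j ≤ (1 + 2 * eta) * wt cell j :=
      mul_le_mul_of_nonneg_right (by linarith [par.a9]) h2.le
    rw [e1']
    linarith [hqU3 u j]
  · intro i hi hki
    have h1 := cell_sum hGP par hP hcuts h hnear M hM Q hQ1 hQ2 i
    have h2 : ∑ j, qJ i j = (∑ l ∈ univ.filter (fun l => Poor k eta cell adj hadj l ∧ adj i l),
        rs i l) / wt cell i := by
      rw [sum_div, sum_filter]
      refine sum_congr rfl (fun j _ => ?_)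
      rw [hqJ]
      simp only
      by_cases hj : Poor k eta cell adj hadj j ∧ adj i j
      · rw [if_pos hj, if_pos ⟨hki, hi, hj.1, hj.2⟩]
      · rw [if_neg hj, if_neg (fun hc => hj ⟨hc.2.2.1, hc.2.2.2⟩)]
    rw [h2]
    have h3 := hw i
    have h4 : DJ i = (∑ x ∈ cell i, ((nb G x).card : ℝ)) / wt cell i := rfl
    rw [h4, div_le_iff₀ h3]
    have h5 : (k + (∑ l ∈ univ.filter (fun l => Poor k eta cell adj hadj l ∧ adj i l),
        rs i l) / wt cell i + (7 * eta * k + 17 * k * Bd / wt cell i)) * wt cell i =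
        wt cell i * (k + 7 * eta * k) +
          ∑ l ∈ univ.filter (fun l => Poor k eta cell adj hadj l ∧ adj i l), rs i l +
          17 * k * Bd := by
      have := h3.ne'
      field_simp
      ring
    rw [h5]
    exact h1

end LCX
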