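import Pool.Agent.Lib_MP_0bab5c_x.XExc

/-! # Home vertices: the inequality with a uniform error

`home_ineq` with `L / T + 1 = 16 / tau + 1`, `rho = tau k`; the error terms are bounded by
`a1, a2, a3 (metw_le), a7, a4, a6 (beta Qi <= 35 k: minimality against the single cell i, sig_le), a5`.
-/

namespace LCX

open Finset
open scoped Classical

variable {V J U : Type} [Fintype V] [Fintype J] [Fintype U]

private theorem pen_single {J H : Type} [Fintype J] (w : J → ℝ) (hm : J → H) (rho : ℝ) (i : J) :
    pen w hm rho {i} = w i + rho := by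
  unfold pen
  rw [sum_singleton, image_singleton, card_singleton, Nat.cast_one, mul_one]

theorem home_main {G P : SimpleGraph V} (hGP : G ≤ P) {k eta d0 e1 tau s q er theta : ℝ}
    (par : Par k eta d0 e1 tau s q er theta) {m : ℕ} {E : Fin m → Finset V}
    (hP : Clean P k 16 d0 e1 E) {cell : J → Finset V} {hm : J → Fin m}
    {phi : U → V} {adj : J → J → Prop} {hadj : U → J → Prop}
    (h : Red G k er s E cell hm phi adj hadj)
    (hnear : ∀ u j, hadj u j → phi u ∈ cn P E (hm j)) {x z : V} {B : Finset V}
    (hB : Cut G E k d0 e1 tau x z B)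
    (hz : ∀ l, ((nb G x ∩ cell l).card : ℝ) ≤ ((nb G z ∩ cell l).card : ℝ) + q * wt cell l)
    (i : J) (hx : x ∈ cell i) (Qi : Finset J) (hi : i ∈ Qi)
    (hmin : ∀ A : Finset J, i ∈ A →
      beta (wt cell) adj hadj Qi + theta * pen (wt cell) hm (tau * k) Qi ≤
      beta (wt cell) adj hadj A + theta * pen (wt cell) hm (tau * k) A) :
    ((nb G x).card : ℝ) ≤ k + ∑ l ∈ univ.filter (fun l => Poor k eta cell adj hadj l ∧ adj i l),
      rq G cell x B l + 7 * eta * k := by
  have hk1 : (1 : ℝ) ≤ k := par.hk
  have hk : 0 < k := lt_of_lt_of_le one_pos hk1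
  have hs := par.hs
  have hq := par.hq
  have her := par.her
  have hth := par.hth
  have htau := par.htau
  have he1 := par.he1
  have heta1 := par.heta1
  have hs1 : s ≤ 1 := by
    have h1 := par.a6
    linarith
  have her1 : er ≤ 1 / 4 := by
    have h1 := par.a8
    linarith
  have hT : 0 < tau * k := mul_pos htau hk
  have hwt : ∀ l, 0 ≤ wt cell l := fun l => Nat.cast_nonneg _
  have hmain := home_ineq h hk.le hs her.le (by linarith [par.a4]) hT hB q hq.le
    (Poor k eta cell adj hadj) (fun j hj => not_poor hGP par hP h hnear hB j hj) hz theta (tau * k)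
    hth.le hT.le i hx Qi hi hmin
  have hLT : 16 * k / (tau * k) = 16 / tau := mul_div_mul_right _ _ hk.ne'
  have hLs : 16 * k / s = 16 / s * k := by ring
  rw [hLT, hLs] at hmain
  have hmet := metw_le hGP hP h hk (by norm_num) he1 x
  have hmet2 : (16 + 1 : ℝ) / e1 * 16 * k = 272 / e1 * k := by
    field_simp
    norm_num
  rw [hmet2] at hmet
  -- the boundary of `Qi`
  have hbi : beta (wt cell) adj hadj {i} ≤ 2 * (16 + 1) * k := by
    refine le_trans ?_ (sig_le hGP hP h hnear hk (by norm_num) hs1 her1 i)
    unfold beta sig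
    refine add_le_add (sum_le_sum_of_subset_of_nonneg ?_ fun l _ _ => hwt l) ?_
    · intro l hl
      obtain ⟨_, j, hj, hjl⟩ := (mem_filter.1 hl).2
      rw [mem_singleton] at hj
      subst hj
      exact mem_filter.2 ⟨mem_univ _, hjl⟩
    · have hsub : bdU hadj {i} ⊆ univ.filter (fun u : U => hadj u i) := by
        intro u hu
        obtain ⟨j, hj, hju⟩ := (mem_filter.1 hu).2
        rw [mem_singleton] at hj
        subst hj
        exact mem_filter.2 ⟨mem_univ _, hju⟩
      exact_mod_cast card_le_card hsub
  have hpi : pen (wt cell) hm (tau * k) {i} ≤ (16 / s + 17) * k := by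
    rw [pen_single]
    have h1 : wt cell i ≤ 16 * k := by
      refine le_trans ?_ (hP.high (hm i))
      unfold wt
      exact_mod_cast card_le_card (h.sub i)
    have h2 : tau * k ≤ 1 * k := mul_le_mul_of_nonneg_right par.htau2 hk.le
    have h3 : 0 ≤ 16 / s * k := mul_nonneg (div_nonneg (by norm_num) hs.le) hk.le
    have h4 : (16 / s + 17) * k = 16 / s * k + 16 * k + k := by ring
    rw [h4]
    linarith
  have hpen0 : 0 ≤ pen (wt cell) hm (tau * k) Qi := by
    unfold pen
    exact add_nonneg (sum_nonneg fun j _ => hwt j) (mul_nonneg hT.le (Nat.cast_nonneg _))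
  have ha2 : theta * ((16 / s + 17) * k) ≤ eta * k := by
    have h1 := mul_le_mul_of_nonneg_right par.a2 hk.le
    rw [mul_assoc] at h1
    exact h1
  have hek : eta * k ≤ k := by
    have h1 : eta * k ≤ 1 * k := mul_le_mul_of_nonneg_right (by linarith) hk.le
    rw [one_mul] at h1
    exact h1
  have hbQ : beta (wt cell) adj hadj Qi ≤ 35 * k := by
    have h1 := hmin {i} (mem_singleton_self i)
    have h2 : 0 ≤ theta * pen (wt cell) hm (tau * k) Qi := mul_nonneg hth.le hpen0
    have h3 := mul_le_mul_of_nonneg_left hpi hth.le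
    linarith
  -- the seven error terms
  have t1 : (1 + d0 + 3 * tau / e1) * k ≤ k + eta * k := by
    have h1 := mul_le_mul_of_nonneg_right par.a1 hk.le
    have h2 : (1 + d0 + 3 * tau / e1) * k = k + (d0 + 3 * tau / e1) * k := by ring
    rw [h2]
    linarith
  have t2 : theta * (16 / s * k + tau * k * (16 / tau + 1)) ≤ eta * k := by
    refine le_trans (mul_le_mul_of_nonneg_left ?_ hth.le) ha2
    have h1 : tau * k * (16 / tau + 1) = 16 * k + tau * k := by
      field_simp
    have h2 : tau * k ≤ 1 * k := mul_le_mul_of_nonneg_right par.htau2 hk.le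
    rw [h1]
    have h4 : (16 / s + 17) * k = 16 / s * k + 16 * k + k := by ring
    rw [h4]
    linarith
  have t3 : (2 * s + q) * metw cell (nb G x) ≤ eta * k := by
    have h1 := mul_le_mul_of_nonneg_left hmet (by linarith : (0 : ℝ) ≤ 2 * s + q)
    have h2 := mul_le_mul_of_nonneg_right par.a3 hk.le
    rw [mul_assoc] at h2
    exact h1.trans h2
  have t5 : 2 * (s + er) * ((1 + d0 + 3 * tau / e1) * k) ≤ eta * k := by
    have h1 : (1 + d0 + 3 * tau / e1) * k ≤ 2 * k := by linarith
    have h2 := mul_le_mul_of_nonneg_left h1 (by linarith : (0 : ℝ) ≤ 2 * (s + er))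
    have h3 := mul_le_mul_of_nonneg_right par.a4 hk.le
    have h4 : 2 * (s + er) * (2 * k) = 4 * (s + er) * k := by ring
    rw [h4] at h2
    exact h2.trans h3
  have t6 : s * beta (wt cell) adj hadj Qi ≤ eta * k := by
    have h1 := mul_le_mul_of_nonneg_left hbQ hs.le
    have h2 := mul_le_mul_of_nonneg_right par.a6 hk.le
    have h3 : s * (35 * k) = 35 * s * k := by ring
    rw [h3] at h1
    exact h1.trans h2
  have t7 : er * k * (16 / tau + 1) ≤ eta * k := by
    have h2 := mul_le_mul_of_nonneg_right par.a5 hk.le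
    have h3 : er * k * (16 / tau + 1) = er * (16 / tau + 1) * k := by ring
    rw [h3]
    exact h2
  have t4 := par.a7
  linarith

end LCX
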