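import Pool.Agent.Lib_MP_0bab5c_x.XRed

/-! # The cut inequality

Counting, cell by cell and hub by hub (`S = bd G B`, `A = big s cell B`):
cells `l` outside `A ∪ Z`: `|B ∩ l| < s w_l`. If `l` is adjacent to a cell of `A`, then
`w_l <= |S ∩ l| + (s + er) w_l` (so the total weight of these is at most `2 |S|`).
If `l` is in `bdJ Z`: `w_l + |(S ∪ B) ∩ l| <= |S ∩ l| + w_l + s w_l`.
Otherwise `|N0 ∩ l| <= |S ∩ l| + s w_l`.
Hubs other than `x` are not in `B`; those adjacent to a cell of `A` lie in `S` up to `er k` for each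
home met by `B` (`hfull` for `X = B ∩ E i`), and `B` meets at most `L / T + 1` homes.
-/

namespace LCX

open Finset
open scoped Classical

variable {V J U : Type} [Fintype V] [Fintype J] [Fintype U]

/-- the cells and the hubs are disjoint -/
private theorem split_card {G : SimpleGraph V} {k er s : ℝ} {m : ℕ} {E : Fin m → Finset V}
    {cell : J → Finset V} {hm : J → Fin m} {phi : U → V} {adj : J → J → Prop}
    {hadj : U → J → Prop} (h : Red G k er s E cell hm phi adj hadj) (S : Finset V) :
    ∑ l, ((S ∩ cell l).card : ℝ) + ((univ.filter (fun u : U => phi u ∈ S)).card : ℝ) ≤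
      (S.card : ℝ) := by
  have h1 : (univ.biUnion (fun l : J => S ∩ cell l)).card = ∑ l, (S ∩ cell l).card := by
    refine card_biUnion ?_
    intro a _ b _ hab
    exact (h.cdisj a b hab).mono inter_subset_right inter_subset_right
  have h2 : ((univ.filter (fun u : U => phi u ∈ S)).image phi).card =
      (univ.filter (fun u : U => phi u ∈ S)).card := card_image_of_injective _ h.inj
  have h3 : Disjoint (univ.biUnion (fun l : J => S ∩ cell l))
      ((univ.filter (fun u : U => phi u ∈ S)).image phi) := by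
    rw [disjoint_left]
    intro v hv hv'
    simp only [mem_biUnion, mem_univ, true_and, mem_inter] at hv
    simp only [mem_image, mem_filter, mem_univ, true_and] at hv'
    obtain ⟨l, _, hl⟩ := hv
    obtain ⟨u, _, hu⟩ := hv'
    exact (h.hub v).1 ⟨u, hu⟩ (hm l) (h.sub l hl)
  have h4 : (univ.biUnion (fun l : J => S ∩ cell l)) ∪
      ((univ.filter (fun u : U => phi u ∈ S)).image phi) ⊆ S := by
    intro v hv
    simp only [mem_union, mem_biUnion, mem_univ, true_and, mem_inter, mem_image,
      mem_filter] at hv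
    rcases hv with ⟨l, hl, _⟩ | ⟨u, hu, rfl⟩
    · exact hl
    · exact hu
  have h5 := card_le_card h4
  rw [card_union_of_disjoint h3, h1, h2] at h5
  exact_mod_cast h5

/-- a trimmed cut meets few homes -/
private theorem homes_le {G : SimpleGraph V} {k er s : ℝ} {m : ℕ} {E : Fin m → Finset V}
    {cell : J → Finset V} {hm : J → Fin m} {phi : U → V} {adj : J → J → Prop}
    {hadj : U → J → Prop} (h : Red G k er s E cell hm phi adj hadj)
    {K L T : ℝ} (hT : 0 < T) {x z : V} {B : Finset V} (hB : TrimCut G E K L T x z B) :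
    ((univ.filter (fun i => (B ∩ E i).Nonempty)).card : ℝ) ≤ L / T + 1 := by
  set I : Finset (Fin m) := univ.filter (fun i => (B ∩ E i).Nonempty) with hI
  set I1 : Finset (Fin m) := univ.filter (fun i => ∃ b ∈ B, b ≠ x ∧ b ∈ E i) with hI1
  set I2 : Finset (Fin m) := univ.filter (fun i => x ∈ E i) with hI2
  have hsub : I ⊆ I1 ∪ I2 := by
    intro i hi
    rw [hI, mem_filter] at hi
    obtain ⟨b, hb⟩ := hi.2
    rw [mem_inter] at hb
    rw [mem_union]
    by_cases hbx : b = x
    · right
      rw [hI2, mem_filter]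
      exact ⟨mem_univ _, hbx ▸ hb.2⟩
    · left
      rw [hI1, mem_filter]
      exact ⟨mem_univ _, b, hb.1, hbx, hb.2⟩
  have hI2c : I2.card ≤ 1 := by
    rw [card_le_one]
    intro a ha b hb
    rw [hI2, mem_filter] at ha hb
    by_contra hab
    exact disjoint_left.1 (h.edisj a b hab) ha.2 hb.2
  have hI1c : T * (I1.card : ℝ) ≤ L := by
    have e1 : (I1.biUnion (fun i => B ∩ E i)).card = ∑ i ∈ I1, (B ∩ E i).card := by
      refine card_biUnion ?_
      intro a _ b _ hab
      exact (h.edisj a b hab).mono inter_subset_right inter_subset_right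
    have e2 : I1.biUnion (fun i => B ∩ E i) ⊆ B := by
      intro v hv
      simp only [mem_biUnion, mem_inter] at hv
      obtain ⟨i, _, hv, _⟩ := hv
      exact hv
    have e3 := card_le_card e2
    rw [e1] at e3
    have e4 : (∑ i ∈ I1, ((B ∩ E i).card : ℝ)) ≤ (B.card : ℝ) := by exact_mod_cast e3
    have e5 : ∑ _i ∈ I1, T ≤ ∑ i ∈ I1, ((B ∩ E i).card : ℝ) := by
      refine sum_le_sum (fun i hi => ?_)
      rw [hI1, mem_filter] at hi
      exact hB.2.2 i hi.2
    rw [sum_const, nsmul_eq_mul] at e5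
    have e6 : (B.card : ℝ) ≤ L := hB.1.2.2.2.2
    linarith [mul_comm T (I1.card : ℝ)]
  have h1 : (I.card : ℝ) ≤ (I1.card : ℝ) + 1 := by
    have h2 : I.card ≤ I1.card + 1 :=
      (card_le_card hsub).trans ((card_union_le _ _).trans (by omega))
    exact_mod_cast h2
  have h2 : (I1.card : ℝ) ≤ L / T := by
    rw [le_div_iff₀ hT]
    linarith [mul_comm T (I1.card : ℝ)]
  linarith

/-- homes of the cells of a trimmed cut -/
private theorem hm_big {G : SimpleGraph V} {k er s : ℝ} {m : ℕ} {E : Fin m → Finset V}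
    {cell : J → Finset V} {hm : J → Fin m} {phi : U → V} {adj : J → J → Prop}
    {hadj : U → J → Prop} (h : Red G k er s E cell hm phi adj hadj) (hs : 0 < s)
    (B : Finset V) (j : J) (hj : j ∈ big s cell B) : (B ∩ E (hm j)).Nonempty := by
  rw [big, mem_filter] at hj
  have h1 : 0 < wt cell j := by
    unfold wt
    exact_mod_cast h.cpos j
  have h2 : (0 : ℝ) < ((B ∩ cell j).card : ℝ) := lt_of_lt_of_le (mul_pos hs h1) hj.2
  have h3 : 0 < (B ∩ cell j).card := by exact_mod_cast h2
  obtain ⟨v, hv⟩ := card_pos.1 h3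
  rw [mem_inter] at hv
  exact ⟨v, mem_inter.2 ⟨hv.1, h.sub j hv.2⟩⟩

theorem master {G : SimpleGraph V} {k er s : ℝ} {m : ℕ} {E : Fin m → Finset V}
    {cell : J → Finset V} {hm : J → Fin m} {phi : U → V} {adj : J → J → Prop}
    {hadj : U → J → Prop} (h : Red G k er s E cell hm phi adj hadj) (hk : 0 ≤ k)
    (hs : 0 < s) (her : 0 ≤ er) (hser : s + er ≤ 1 / 2) {K L T : ℝ} (hT : 0 < T) {x z : V}
    {B : Finset V} (hB : TrimCut G E K L T x z B) (N0 : Finset V) (hN0 : N0 ⊆ B ∪ bd G B)
    (Z : Finset J) :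
    bb cell phi adj hadj x N0 (big s cell B ∪ Z) + ∑ j ∈ Z, ((bd G B ∩ cell j).card : ℝ) +
      ∑ l ∈ bdJ adj Z, (((B ∪ bd G B) ∩ cell l).card : ℝ) +
      (((bdU hadj Z).filter (fun u => phi u ∈ B ∪ bd G B)).card : ℝ) ≤
    ((bd G B).card : ℝ) + beta (wt cell) adj hadj Z +
      (2 * (s + er) * ((bd G B).card : ℝ) + s * beta (wt cell) adj hadj Z + s * metw cell N0 +
        er * k * (L / T + 1)) := by
  set S := bd G B with hS
  set A := big s cell B with hA
  set W := A ∪ Z with hW
  have hw0 : ∀ l, 0 ≤ wt cell l := fun l => Nat.cast_nonneg _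
  have hS0 : ∀ l, (0 : ℝ) ≤ ((S ∩ cell l).card : ℝ) := fun l => Nat.cast_nonneg _
  -- the hubs of `B`
  have hBhub : ∀ u, phi u ∈ B → phi u = x := by
    intro u hu
    by_contra hne
    obtain ⟨i, hi⟩ := hB.2.1 _ hu hne
    exact (h.hub (phi u)).1 ⟨u, rfl⟩ i hi
  -- part 1: the cells
  have hcell : ∀ l : J,
      (if l ∈ bdJ adj W then wt cell l else 0) +
      (if l ∉ W ∧ l ∉ bdJ adj W then ((N0 ∩ cell l).card : ℝ) else 0) +
      (if l ∈ Z then ((S ∩ cell l).card : ℝ) else 0) +
      (if l ∈ bdJ adj Z then (((B ∪ S) ∩ cell l).card : ℝ) else 0) ≤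
      ((S ∩ cell l).card : ℝ) + (if l ∈ bdJ adj Z then wt cell l else 0) +
      2 * (s + er) * ((S ∩ cell l).card : ℝ) +
      s * (if l ∈ bdJ adj Z then wt cell l else 0) +
      s * (if (N0 ∩ cell l).Nonempty then wt cell l else 0) := by
    intro l
    have hwl := hw0 l
    have hSl := hS0 l
    have hBS : (((B ∪ S) ∩ cell l).card : ℝ) ≤ wt cell l := by
      unfold wt
      exact_mod_cast card_le_card inter_subset_right
    have hBS2 : (((B ∪ S) ∩ cell l).card : ℝ) ≤
        ((B ∩ cell l).card : ℝ) + ((S ∩ cell l).card : ℝ) := by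
      rw [union_inter_distrib_right]
      exact_mod_cast card_union_le _ _
    have hN0c : ((N0 ∩ cell l).card : ℝ) ≤ (((B ∪ S) ∩ cell l).card : ℝ) := by
      exact_mod_cast card_le_card (inter_subset_inter_right hN0)
    have hses : 0 ≤ 2 * (s + er) * ((S ∩ cell l).card : ℝ) := by positivity
    have hms : 0 ≤ s * (if (N0 ∩ cell l).Nonempty then wt cell l else 0) := by
      refine mul_nonneg hs.le ?_
      split_ifs <;> first | exact hwl | exact le_rfl
    by_cases hZ : l ∈ Z
    · have c1 : l ∉ bdJ adj W := by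
        simp only [bdJ, mem_filter, mem_univ, true_and, not_and]
        intro hl
        exact absurd (mem_union_right _ hZ) hl
      have c2 : l ∉ bdJ adj Z := by
        simp only [bdJ, mem_filter, mem_univ, true_and, not_and]
        intro hl
        exact absurd hZ hl
      have c3 : ¬ (l ∉ W ∧ l ∉ bdJ adj W) := fun hc => hc.1 (mem_union_right _ hZ)
      rw [if_neg c1, if_neg c3, if_pos hZ, if_neg c2, if_neg c2]
      linarith
    · by_cases hAl : l ∈ A
      · have c1 : l ∉ bdJ adj W := by
          simp only [bdJ, mem_filter, mem_univ, true_and, not_and]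
          intro hl
          exact absurd (mem_union_left _ hAl) hl
        have c3 : ¬ (l ∉ W ∧ l ∉ bdJ adj W) := fun hc => hc.1 (mem_union_left _ hAl)
        rw [if_neg c1, if_neg c3, if_neg hZ]
        have hswl : 0 ≤ s * wt cell l := mul_nonneg hs.le hwl
        split_ifs <;> linarith
      · have hWl : l ∉ W := by
          rw [hW, mem_union]
          rintro (hc | hc)
          · exact hAl hc
          · exact hZ hc
        have hBl : ((B ∩ cell l).card : ℝ) ≤ s * wt cell l := by
          have : ¬ s * wt cell l ≤ ((B ∩ cell l).card : ℝ) := by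
            intro hc
            exact hAl (by rw [hA, big, mem_filter]; exact ⟨mem_univ _, hc⟩)
          exact (not_le.1 this).le
        by_cases hbZ : l ∈ bdJ adj Z
        · have hbW : l ∈ bdJ adj W := by
            simp only [bdJ, mem_filter, mem_univ, true_and] at hbZ ⊢
            obtain ⟨_, j, hj, hjl⟩ := hbZ
            exact ⟨hWl, j, mem_union_right _ hj, hjl⟩
          have c3 : ¬ (l ∉ W ∧ l ∉ bdJ adj W) := fun hc => hc.2 hbW
          rw [if_pos hbW, if_neg c3, if_neg hZ, if_pos hbZ, if_pos hbZ]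
          linarith
        · by_cases hbW : l ∈ bdJ adj W
          · have c3 : ¬ (l ∉ W ∧ l ∉ bdJ adj W) := fun hc => hc.2 hbW
            rw [if_pos hbW, if_neg c3, if_neg hZ, if_neg hbZ, if_neg hbZ]
            -- a neighbour in `A`
            have hj : ∃ j ∈ A, adj j l := by
              simp only [bdJ, mem_filter, mem_univ, true_and] at hbW hbZ
              obtain ⟨_, j, hj, hjl⟩ := hbW
              rw [hW, mem_union] at hj
              rcases hj with hj | hj
              · exact ⟨j, hj, hjl⟩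
              · exact absurd ⟨hZ, j, hj, hjl⟩ hbZ
            obtain ⟨j, hjA, hjl⟩ := hj
            rw [hA, big, mem_filter] at hjA
            have hf := h.full j l hjl (B ∩ cell j) inter_subset_right hjA.2
            have hcov : cell l ⊆ (B ∩ cell l) ∪ (S ∩ cell l) ∪
                (cell l).filter (fun y => ∀ x ∈ B ∩ cell j, ¬ G.Adj x y) := by
              intro y hy
              simp only [mem_union, mem_inter, mem_filter]
              by_cases hyB : y ∈ B
              · exact Or.inl (Or.inl ⟨hyB, hy⟩)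
              · by_cases hyS : y ∈ S
                · exact Or.inl (Or.inr ⟨hyS, hy⟩)
                · refine Or.inr ⟨hy, ?_⟩
                  rintro x' ⟨hx', _⟩ hxy
                  refine hyS ?_
                  rw [hS, bd, mem_filter]
                  exact ⟨mem_univ _, hyB, x', hx', hxy⟩
            have hc1 := card_le_card hcov
            have hc2 : (cell l).card ≤ (B ∩ cell l).card + (S ∩ cell l).card +
                ((cell l).filter (fun y => ∀ x ∈ B ∩ cell j, ¬ G.Adj x y)).card :=
              hc1.trans ((card_union_le _ _).trans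
                (Nat.add_le_add_right (card_union_le _ _) _))
            have hc3 : wt cell l ≤ ((B ∩ cell l).card : ℝ) + ((S ∩ cell l).card : ℝ) +
                (((cell l).filter (fun y => ∀ x ∈ B ∩ cell j, ¬ G.Adj x y)).card : ℝ) := by
              unfold wt
              exact_mod_cast hc2
            have hse0 : 0 ≤ s + er := by linarith
            have h6 : wt cell l ≤ ((S ∩ cell l).card : ℝ) + (s + er) * wt cell l := by
              linarith
            have h7 : wt cell l ≤ 2 * ((S ∩ cell l).card : ℝ) := by nlinarith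
            have h8 : (s + er) * wt cell l ≤ (s + er) * (2 * ((S ∩ cell l).card : ℝ)) :=
              mul_le_mul_of_nonneg_left h7 hse0
            linarith
          · rw [if_neg hbW, if_pos ⟨hWl, hbW⟩, if_neg hZ, if_neg hbZ, if_neg hbZ]
            by_cases hne : (N0 ∩ cell l).Nonempty
            · rw [if_pos hne]
              linarith
            · rw [if_neg hne]
              rw [not_nonempty_iff_eq_empty] at hne
              rw [hne]
              simp only [card_empty, Nat.cast_zero]
              linarith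
  have hcells := sum_le_sum (s := (univ : Finset J)) (fun l _ => hcell l)
  simp only [sum_add_distrib, ← mul_sum] at hcells
  -- part 2: the hubs
  set Ex : Finset U := univ.filter (fun u : U => u ∈ bdU hadj A ∧ phi u ∉ B ∧ phi u ∉ S) with hEx
  set I : Finset (Fin m) := univ.filter (fun i => (B ∩ E i).Nonempty) with hI
  have hExc : (Ex.card : ℝ) ≤ er * k * (L / T + 1) := by
    have e1 : Ex ⊆ I.biUnion (fun i => univ.filter (fun u : U =>
        (∃ j, hm j = i ∧ hadj u j ∧ s * wt cell j ≤ (((B ∩ E i) ∩ cell j).card : ℝ)) ∧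
          ∀ x ∈ B ∩ E i, ¬ G.Adj x (phi u))) := by
      intro u hu
      rw [hEx, mem_filter] at hu
      obtain ⟨_, hu1, hu2, hu3⟩ := hu
      simp only [bdU, mem_filter, mem_univ, true_and] at hu1
      obtain ⟨j, hjA, huj⟩ := hu1
      simp only [mem_biUnion, mem_filter, mem_univ, true_and]
      refine ⟨hm j, ?_, ⟨j, rfl, huj, ?_⟩, ?_⟩
      · rw [hI, mem_filter]
        exact ⟨mem_univ _, hm_big h hs B j hjA⟩
      · rw [hA, big, mem_filter] at hjA
        have : (B ∩ E (hm j)) ∩ cell j = B ∩ cell j := by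
          ext v
          simp only [mem_inter]
          constructor
          · rintro ⟨⟨h1, _⟩, h2⟩
            exact ⟨h1, h2⟩
          · rintro ⟨h1, h2⟩
            exact ⟨⟨h1, h.sub j h2⟩, h2⟩
        rw [this]
        exact hjA.2
      · intro x' hx' hadj'
        refine hu3 ?_
        rw [hS, bd, mem_filter]
        exact ⟨mem_univ _, hu2, x', (mem_inter.1 hx').1, hadj'⟩
    have e2 := (card_le_card e1).trans card_biUnion_le
    have e3 : (Ex.card : ℝ) ≤ ∑ i ∈ I, ((univ.filter (fun u : U =>
        (∃ j, hm j = i ∧ hadj u j ∧ s * wt cell j ≤ (((B ∩ E i) ∩ cell j).card : ℝ)) ∧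
          ∀ x ∈ B ∩ E i, ¬ G.Adj x (phi u))).card : ℝ) := by exact_mod_cast e2
    have e4 : ∑ i ∈ I, ((univ.filter (fun u : U =>
        (∃ j, hm j = i ∧ hadj u j ∧ s * wt cell j ≤ (((B ∩ E i) ∩ cell j).card : ℝ)) ∧
          ∀ x ∈ B ∩ E i, ¬ G.Adj x (phi u))).card : ℝ) ≤ ∑ _i ∈ I, er * k :=
      sum_le_sum (fun i _ => h.hfull i (B ∩ E i) inter_subset_right)
    rw [sum_const, nsmul_eq_mul] at e4
    have e5 := homes_le h hT hB
    have e6 : (I.card : ℝ) * (er * k) ≤ (L / T + 1) * (er * k) :=
      mul_le_mul_of_nonneg_right e5 (mul_nonneg her hk)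
    linarith [mul_comm (L / T + 1) (er * k)]
  have hhub : ∀ u : U,
      (if phi u ≠ x ∧ (u ∈ bdU hadj W ∨ phi u ∈ N0) then (1 : ℝ) else 0) +
      (if u ∈ bdU hadj Z ∧ phi u ∈ B ∪ S then (1 : ℝ) else 0) ≤
      (if phi u ∈ S then (1 : ℝ) else 0) + (if u ∈ bdU hadj Z then (1 : ℝ) else 0) +
      (if u ∈ bdU hadj A ∧ phi u ∉ B ∧ phi u ∉ S then (1 : ℝ) else 0) := by
    intro u
    have hnn : (0 : ℝ) ≤ (if u ∈ bdU hadj A ∧ phi u ∉ B ∧ phi u ∉ S then (1 : ℝ) else 0) := by
      split_ifs <;> norm_num
    by_cases hux : phi u = x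
    · have hc : ¬ (phi u ≠ x ∧ (u ∈ bdU hadj W ∨ phi u ∈ N0)) := fun hc => hc.1 hux
      rw [if_neg hc]
      by_cases huZ : u ∈ bdU hadj Z
      · rw [if_pos huZ]
        split_ifs <;> linarith
      · have hc2 : ¬ (u ∈ bdU hadj Z ∧ phi u ∈ B ∪ S) := fun hc => huZ hc.1
        rw [if_neg hc2, if_neg huZ]
        split_ifs <;> linarith
    · have huB : phi u ∉ B := fun hc => hux (hBhub u hc)
      by_cases huS : phi u ∈ S
      · rw [if_pos huS]
        by_cases huZ : u ∈ bdU hadj Z
        · rw [if_pos huZ]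
          split_ifs <;> linarith
        · have hc2 : ¬ (u ∈ bdU hadj Z ∧ phi u ∈ B ∪ S) := fun hc => huZ hc.1
          rw [if_neg hc2, if_neg huZ]
          split_ifs <;> linarith
      · have hc2 : ¬ (u ∈ bdU hadj Z ∧ phi u ∈ B ∪ S) := by
          rintro ⟨_, hc⟩
          rw [mem_union] at hc
          rcases hc with hc | hc
          · exact huB hc
          · exact huS hc
        rw [if_neg hc2, if_neg huS]
        by_cases huZ : u ∈ bdU hadj Z
        · rw [if_pos huZ]
          split_ifs <;> linarith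
        · rw [if_neg huZ]
          by_cases hc1 : phi u ≠ x ∧ (u ∈ bdU hadj W ∨ phi u ∈ N0)
          · have huA : u ∈ bdU hadj A := by
              rcases hc1.2 with hc | hc
              · simp only [bdU, mem_filter, mem_univ, true_and] at hc huZ ⊢
                obtain ⟨j, hj, huj⟩ := hc
                rw [hW, mem_union] at hj
                rcases hj with hj | hj
                · exact ⟨j, hj, huj⟩
                · exact absurd ⟨j, hj, huj⟩ huZ
              · have := hN0 hc
                rw [mem_union] at this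
                rcases this with hc' | hc'
                · exact absurd hc' huB
                · exact absurd hc' huS
            rw [if_pos hc1, if_pos ⟨huA, huB, huS⟩]
            linarith
          · rw [if_neg hc1]
            linarith
  have hhubs := sum_le_sum (s := (univ : Finset U)) (fun u _ => hhub u)
  simp only [sum_add_distrib] at hhubs
  -- assembling
  have f1 : bb cell phi adj hadj x N0 W =
      (∑ l, if l ∈ bdJ adj W then wt cell l else 0) +
      (∑ l, if l ∉ W ∧ l ∉ bdJ adj W then ((N0 ∩ cell l).card : ℝ) else 0) +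
      (∑ u, if phi u ≠ x ∧ (u ∈ bdU hadj W ∨ phi u ∈ N0) then (1 : ℝ) else 0) := by
    unfold bb
    rw [← sum_filter, ← sum_filter, ← sum_filter]
    congr 1
    · congr 1
      refine sum_congr ?_ (fun _ _ => rfl)
      ext l
      simp
    · rw [sum_const, nsmul_eq_mul, mul_one]
  have f2 : ∑ j ∈ Z, ((S ∩ cell j).card : ℝ) =
      ∑ l, if l ∈ Z then ((S ∩ cell l).card : ℝ) else 0 := by
    rw [← sum_filter]
    refine sum_congr ?_ (fun _ _ => rfl)
    ext l
    simp
  have f3 : ∑ l ∈ bdJ adj Z, (((B ∪ S) ∩ cell l).card : ℝ) =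
      ∑ l, if l ∈ bdJ adj Z then (((B ∪ S) ∩ cell l).card : ℝ) else 0 := by
    rw [← sum_filter]
    refine sum_congr ?_ (fun _ _ => rfl)
    ext l
    simp
  have f4 : (((bdU hadj Z).filter (fun u => phi u ∈ B ∪ S)).card : ℝ) =
      ∑ u, if u ∈ bdU hadj Z ∧ phi u ∈ B ∪ S then (1 : ℝ) else 0 := by
    rw [← sum_filter, sum_const, nsmul_eq_mul, mul_one]
    congr 2
    ext u
    simp
  have f5 : beta (wt cell) adj hadj Z =
      (∑ l, if l ∈ bdJ adj Z then wt cell l else 0) +
      ∑ u, if u ∈ bdU hadj Z then (1 : ℝ) else 0 := by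
    unfold beta
    rw [← sum_filter, ← sum_filter]
    congr 1
    · refine sum_congr ?_ (fun _ _ => rfl)
      ext l
      simp
    · rw [sum_const, nsmul_eq_mul, mul_one]
      congr 2
      ext u
      simp
  have f6 : metw cell N0 = ∑ l, if (N0 ∩ cell l).Nonempty then wt cell l else 0 := by
    unfold metw
    rw [← sum_filter]
  have f7 : (∑ u : U, if phi u ∈ S then (1 : ℝ) else 0) =
      ((univ.filter (fun u : U => phi u ∈ S)).card : ℝ) := by
    rw [← sum_filter, sum_const, nsmul_eq_mul, mul_one]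
  have f8 : (∑ u : U, if u ∈ bdU hadj A ∧ phi u ∉ B ∧ phi u ∉ S then (1 : ℝ) else 0) =
      (Ex.card : ℝ) := by
    rw [← sum_filter, sum_const, nsmul_eq_mul, mul_one]
  have f9 := split_card h S
  have hu0 : (0 : ℝ) ≤ ∑ u : U, if u ∈ bdU hadj Z then (1 : ℝ) else 0 :=
    sum_nonneg (fun u _ => by split_ifs <;> norm_num)
  have hp0 : (0 : ℝ) ≤ ((univ.filter (fun u : U => phi u ∈ S)).card : ℝ) := Nat.cast_nonneg _
  have hse0 : 0 ≤ 2 * (s + er) := by linarith
  have g1 : 2 * (s + er) * ∑ l, ((S ∩ cell l).card : ℝ) ≤ 2 * (s + er) * (S.card : ℝ) :=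
    mul_le_mul_of_nonneg_left (by linarith) hse0
  have g2 : s * (∑ l, if l ∈ bdJ adj Z then wt cell l else 0) ≤
      s * beta (wt cell) adj hadj Z :=
    mul_le_mul_of_nonneg_left (by rw [f5]; linarith) hs.le
  rw [f1, f2, f3, f4]
  rw [f7, f8] at hhubs
  rw [← f6] at hcells
  have g3 : beta (wt cell) adj hadj Z =
      (∑ l, if l ∈ bdJ adj Z then wt cell l else 0) +
      ∑ u, if u ∈ bdU hadj Z then (1 : ℝ) else 0 := f5
  linarith

/-- penalty of the set of cells of a trimmed cut -/
theorem pen_big {G : SimpleGraph V} {k er s : ℝ} {m : ℕ} {E : Fin m → Finset V}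
    {cell : J → Finset V} {hm : J → Fin m} {phi : U → V} {adj : J → J → Prop}
    {hadj : U → J → Prop} (h : Red G k er s E cell hm phi adj hadj) (hs : 0 < s)
    {K L T : ℝ} (hT : 0 < T) {x z : V} {B : Finset V} (hB : TrimCut G E K L T x z B)
    (rho : ℝ) (hrho : 0 ≤ rho) :
    pen (wt cell) hm rho (big s cell B) ≤ L / s + rho * (L / T + 1) := by
  have h1 : ∑ j ∈ big s cell B, wt cell j ≤ L / s := by
    rw [le_div_iff₀ hs, sum_mul]
    have e1 : ∑ j ∈ big s cell B, wt cell j * s ≤ ∑ j ∈ big s cell B, ((B ∩ cell j).card : ℝ) := by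
      refine sum_le_sum (fun j hj => ?_)
      rw [big, mem_filter] at hj
      linarith [hj.2, mul_comm (wt cell j) s]
    have e2 : ∑ j ∈ big s cell B, ((B ∩ cell j).card : ℝ) ≤ ∑ j, ((B ∩ cell j).card : ℝ) :=
      sum_le_sum_of_subset_of_nonneg (subset_univ _) (fun _ _ _ => Nat.cast_nonneg _)
    have e3 := split_card h B
    have e4 : (0 : ℝ) ≤ ((univ.filter (fun u : U => phi u ∈ B)).card : ℝ) := Nat.cast_nonneg _
    have e5 : (B.card : ℝ) ≤ L := hB.1.2.2.2.2
    linarith
  have h2 : (((big s cell B).image hm).card : ℝ) ≤ L / T + 1 := by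
    have e1 : (big s cell B).image hm ⊆ univ.filter (fun i => (B ∩ E i).Nonempty) := by
      intro i hi
      rw [mem_image] at hi
      obtain ⟨j, hj, rfl⟩ := hi
      rw [mem_filter]
      exact ⟨mem_univ _, hm_big h hs B j hj⟩
    have e2 : (((big s cell B).image hm).card : ℝ) ≤
        ((univ.filter (fun i => (B ∩ E i).Nonempty)).card : ℝ) := by
      exact_mod_cast card_le_card e1
    exact e2.trans (homes_le h hT hB)
  have h3 := mul_le_mul_of_nonneg_left h2 hrho
  have h4 : pen (wt cell) hm rho (big s cell B) =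
      ∑ j ∈ big s cell B, wt cell j + rho * (((big s cell B).image hm).card : ℝ) :=
    pen_eq _ _ _ _
  rw [h4]
  linarith

/-- a cell split by a cut has a small neighbourhood -/
theorem split_small {G : SimpleGraph V} {k er s : ℝ} {m : ℕ} {E : Fin m → Finset V}
    {cell : J → Finset V} {hm : J → Fin m} {phi : U → V} {adj : J → J → Prop}
    {hadj : U → J → Prop} (h : Red G k er s E cell hm phi adj hadj) (her : 0 ≤ er)
    (B : Finset V) (j : J) (h1 : s * wt cell j ≤ ((B ∩ cell j).card : ℝ))
    (h2 : s * wt cell j ≤ ((cell j \ (B ∪ bd G B)).card : ℝ)) :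
    sig cell adj hadj j ≤ ((bd G B).card : ℝ) + 2 * er * sig cell adj hadj j + 2 * er * k := by
  set S := bd G B with hS
  have key : ∀ y, y ∉ S → (∀ x ∈ B ∩ cell j, ¬ G.Adj x y) ∨
      (∀ x ∈ cell j \ (B ∪ S), ¬ G.Adj x y) := by
    intro y hy
    by_contra hc
    push Not at hc
    obtain ⟨⟨x1, hx1, ha1⟩, x2, hx2, ha2⟩ := hc
    rw [mem_inter] at hx1
    rw [mem_sdiff, mem_union, not_or] at hx2
    have hyB : y ∈ B := by
      by_contra hyB
      exact hy (by rw [hS, bd, mem_filter]; exact ⟨mem_univ _, hyB, x1, hx1.1, ha1⟩)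
    exact hx2.2.2 (by rw [hS, bd, mem_filter]; exact ⟨mem_univ _, hx2.2.1, y, hyB, ha2.symm⟩)
  have hcell : ∀ l, adj j l → wt cell l ≤ ((S ∩ cell l).card : ℝ) + 2 * er * wt cell l := by
    intro l hl
    have a1 := h.full j l hl (B ∩ cell j) inter_subset_right h1
    have a2 := h.full j l hl (cell j \ (B ∪ S)) sdiff_subset h2
    have hcov : cell l ⊆ (S ∩ cell l) ∪
        ((cell l).filter (fun y => ∀ x ∈ B ∩ cell j, ¬ G.Adj x y) ∪
          (cell l).filter (fun y => ∀ x ∈ cell j \ (B ∪ S), ¬ G.Adj x y)) := by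
      intro y hy
      simp only [mem_union]
      by_cases hyS : y ∈ S
      · exact Or.inl (mem_inter.2 ⟨hyS, hy⟩)
      · right
        rcases key y hyS with hk | hk
        · exact Or.inl (mem_filter.2 ⟨hy, hk⟩)
        · exact Or.inr (mem_filter.2 ⟨hy, hk⟩)
    have hc := (card_le_card hcov).trans ((card_union_le _ _).trans
      (Nat.add_le_add_left (card_union_le _ _) _))
    have hc' : wt cell l ≤ ((S ∩ cell l).card : ℝ) +
        ((((cell l).filter (fun y => ∀ x ∈ B ∩ cell j, ¬ G.Adj x y)).card : ℝ) +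
          (((cell l).filter (fun y => ∀ x ∈ cell j \ (B ∪ S), ¬ G.Adj x y)).card : ℝ)) := by
      unfold wt
      exact_mod_cast hc
    linarith
  have hhub : ((univ.filter (fun u : U => hadj u j)).card : ℝ) ≤
      ((univ.filter (fun u : U => phi u ∈ S)).card : ℝ) + 2 * er * k := by
    have hX1 : B ∩ cell j ⊆ E (hm j) := fun v hv => h.sub j (mem_inter.1 hv).2
    have hX2 : cell j \ (B ∪ S) ⊆ E (hm j) := fun v hv => h.sub j (mem_sdiff.1 hv).1
    have a1 := h.hfull (hm j) (B ∩ cell j) hX1
    have a2 := h.hfull (hm j) (cell j \ (B ∪ S)) hX2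
    have i1 : (B ∩ cell j) ∩ cell j = B ∩ cell j := by
      ext v; simp
    have i2 : (cell j \ (B ∪ S)) ∩ cell j = cell j \ (B ∪ S) :=
      inter_eq_left.2 sdiff_subset
    have hcov : univ.filter (fun u : U => hadj u j) ⊆ univ.filter (fun u : U => phi u ∈ S) ∪
        ((univ.filter (fun u : U => (∃ j', hm j' = hm j ∧ hadj u j' ∧
          s * wt cell j' ≤ (((B ∩ cell j) ∩ cell j').card : ℝ)) ∧
            ∀ x ∈ B ∩ cell j, ¬ G.Adj x (phi u))) ∪
        (univ.filter (fun u : U => (∃ j', hm j' = hm j ∧ hadj u j' ∧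
          s * wt cell j' ≤ (((cell j \ (B ∪ S)) ∩ cell j').card : ℝ)) ∧
            ∀ x ∈ cell j \ (B ∪ S), ¬ G.Adj x (phi u)))) := by
      intro u hu
      rw [mem_filter] at hu
      simp only [mem_union]
      by_cases hyS : phi u ∈ S
      · exact Or.inl (mem_filter.2 ⟨mem_univ _, hyS⟩)
      · right
        rcases key _ hyS with hk | hk
        · exact Or.inl (mem_filter.2 ⟨mem_univ _, ⟨j, rfl, hu.2, by rw [i1]; exact h1⟩, hk⟩)
        · exact Or.inr (mem_filter.2 ⟨mem_univ _, ⟨j, rfl, hu.2, by rw [i2]; exact h2⟩, hk⟩)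
    have hc := (card_le_card hcov).trans ((card_union_le _ _).trans
      (Nat.add_le_add_left (card_union_le _ _) _))
    have hc' : ((univ.filter (fun u : U => hadj u j)).card : ℝ) ≤
        ((univ.filter (fun u : U => phi u ∈ S)).card : ℝ) +
        (((univ.filter (fun u : U => (∃ j', hm j' = hm j ∧ hadj u j' ∧
          s * wt cell j' ≤ (((B ∩ cell j) ∩ cell j').card : ℝ)) ∧
            ∀ x ∈ B ∩ cell j, ¬ G.Adj x (phi u))).card : ℝ) +
        ((univ.filter (fun u : U => (∃ j', hm j' = hm j ∧ hadj u j' ∧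
          s * wt cell j' ≤ (((cell j \ (B ∪ S)) ∩ cell j').card : ℝ)) ∧
            ∀ x ∈ cell j \ (B ∪ S), ¬ G.Adj x (phi u))).card : ℝ)) := by
      exact_mod_cast hc
    linarith
  have hsum : ∑ l ∈ univ.filter (adj j), wt cell l ≤
      ∑ l ∈ univ.filter (adj j), ((S ∩ cell l).card : ℝ) +
        2 * er * ∑ l ∈ univ.filter (adj j), wt cell l := by
    rw [mul_sum, ← sum_add_distrib]
    refine sum_le_sum (fun l hl => hcell l ?_)
    exact (mem_filter.1 hl).2
  have hsub : ∑ l ∈ univ.filter (adj j), ((S ∩ cell l).card : ℝ) ≤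
      ∑ l, ((S ∩ cell l).card : ℝ) :=
    sum_le_sum_of_subset_of_nonneg (subset_univ _) (fun _ _ _ => Nat.cast_nonneg _)
  have hsc := split_card h S
  have hU0 : (0 : ℝ) ≤ ((univ.filter (fun u : U => hadj u j)).card : ℝ) := Nat.cast_nonneg _
  have hU1 : 0 ≤ 2 * er * ((univ.filter (fun u : U => hadj u j)).card : ℝ) := by positivity
  unfold sig
  have hexp : 2 * er * (∑ l ∈ univ.filter (adj j), wt cell l +
      ((univ.filter (fun u : U => hadj u j)).card : ℝ)) =
      2 * er * ∑ l ∈ univ.filter (adj j), wt cell l +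
      2 * er * ((univ.filter (fun u : U => hadj u j)).card : ℝ) := by ring
  rw [hexp]
  linarith

end LCX
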