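import Pool.Agent.Lib_MP_0bab5c_x.XTwin
import Pool.Agent.Lib_MP_0bab5c_x.XSep

/-! # The inequality for home vertices, and bounds for the sizes that occur in the errors -/

namespace LCX

open Finset
open scoped Classical

section sizes

variable {V J U : Type} [Fintype V] [Fintype J] [Fintype U]

/-- cells of one home -/
private theorem home_sum {G : SimpleGraph V} {k er s : ℝ} {m : ℕ}
    {E : Fin m → Finset V} {cell : J → Finset V} {hm : J → Fin m}
    {phi : U → V} {adj : J → J → Prop} {hadj : U → J → Prop}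
    (h : Red G k er s E cell hm phi adj hadj) (i : Fin m) (A : Finset J)
    (hA : ∀ l ∈ A, hm l = i) : ∑ l ∈ A, wt cell l ≤ ((E i).card : ℝ) := by
  have h1 : (A.biUnion cell).card = ∑ l ∈ A, (cell l).card :=
    card_biUnion fun x _ y _ hxy => h.cdisj x y hxy
  have h2 : A.biUnion cell ⊆ E i := by
    rw [biUnion_subset]
    intro l hl
    rw [← hA l hl]
    exact h.sub l
  have h3 := card_le_card h2
  rw [h1] at h3
  unfold wt
  exact_mod_cast h3

/-- the cells met by the neighbourhood of a vertex lie in the homes adjacent to it -/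
theorem metw_le {G P : SimpleGraph V} (hGP : G ≤ P) {k C d0 e1 er s : ℝ} {m : ℕ}
    {E : Fin m → Finset V} (hP : Clean P k C d0 e1 E) {cell : J → Finset V} {hm : J → Fin m}
    {phi : U → V} {adj : J → J → Prop} {hadj : U → J → Prop}
    (h : Red G k er s E cell hm phi adj hadj) (hk : 0 < k) (hC : 0 ≤ C) (he1 : 0 < e1) (v : V) :
    metw cell (nb G v) ≤ (C + 1) / e1 * C * k := by
  unfold metw
  have hCk : 0 ≤ C * k := mul_nonneg hC hk.le
  have hmaps : ∀ l ∈ univ.filter (fun l => (nb G v ∩ cell l).Nonempty),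
      hm l ∈ univ.filter (fun i => (nb P v ∩ E i).Nonempty) := by
    intro l hl
    obtain ⟨y, hy⟩ := (mem_filter.1 hl).2
    obtain ⟨hy1, hy2⟩ := mem_inter.1 hy
    have hy3 : G.Adj v y := (mem_filter.1 hy1).2
    exact mem_filter.2 ⟨mem_univ _, y, mem_inter.2
      ⟨mem_filter.2 ⟨mem_univ _, hGP hy3⟩, h.sub l hy2⟩⟩
  rw [← sum_fiberwise_of_maps_to hmaps]
  have h1 : ∀ i ∈ univ.filter (fun i => (nb P v ∩ E i).Nonempty),
      ∑ l ∈ (univ.filter (fun l => (nb G v ∩ cell l).Nonempty)).filter (fun l => hm l = i),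
        wt cell l ≤ C * k := fun i _ =>
    (home_sum h i _ fun l hl => (mem_filter.1 hl).2).trans (hP.high i)
  refine (sum_le_sum h1).trans ?_
  rw [sum_const, nsmul_eq_mul, mul_assoc]
  exact mul_le_mul_of_nonneg_right (home_degree hP hk he1 v) hCk

/-- cells and hubs adjacent to a set of cells contained in one home -/
theorem sig_le {G P : SimpleGraph V} (hGP : G ≤ P) {k C d0 e1 er s : ℝ} {m : ℕ}
    {E : Fin m → Finset V} (hP : Clean P k C d0 e1 E) {cell : J → Finset V} {hm : J → Fin m}
    {phi : U → V} {adj : J → J → Prop} {hadj : U → J → Prop}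
    (h : Red G k er s E cell hm phi adj hadj)
    (hnear : ∀ u j, hadj u j → phi u ∈ cn P E (hm j)) (hk : 0 < k) (hC : 0 ≤ C)
    (hs1 : s ≤ 1) (her1 : er ≤ 1 / 4) (j : J) : sig cell adj hadj j ≤ 2 * (C + 1) * k := by
  have hCk : 0 ≤ (C + 1) * k := mul_nonneg (by linarith) hk.le
  have hwt : ∀ l, 0 ≤ wt cell l := fun l => Nat.cast_nonneg _
  have hcell : ∀ l, adj j l → 3 / 4 * wt cell l ≤ ((cell l ∩ cn P E (hm j)).card : ℝ) := by
    intro l hl
    have h1 := h.full j l hl (cell j) (Subset.refl _) (by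
      have : s * wt cell j ≤ 1 * wt cell j := mul_le_mul_of_nonneg_right hs1 (hwt j)
      rw [one_mul] at this
      exact this)
    have h2 : cell l \ (cell l).filter (fun y => ∀ x ∈ cell j, ¬ G.Adj x y) ⊆
        cell l ∩ cn P E (hm j) := by
      intro y hy
      rw [mem_sdiff, mem_filter, not_and] at hy
      have h3 := hy.2 hy.1
      push Not at h3
      obtain ⟨x, hx, hxy⟩ := h3
      refine mem_inter.2 ⟨hy.1, ?_⟩
      unfold cn
      by_cases hyE : y ∈ E (hm j)
      · exact mem_union_left _ hyE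
      · exact mem_union_right _ (mem_filter.2 ⟨mem_univ _, hyE, x, h.sub j hx, hGP hxy⟩)
    have h3 := card_le_card h2
    have h4 : (cell l).card ≤ ((cell l).filter (fun y => ∀ x ∈ cell j, ¬ G.Adj x y)).card +
        (cell l \ (cell l).filter (fun y => ∀ x ∈ cell j, ¬ G.Adj x y)).card := by
      rw [card_sdiff_of_subset (filter_subset _ _)]
      omega
    have h5 : wt cell l ≤ er * wt cell l + ((cell l ∩ cn P E (hm j)).card : ℝ) := by
      have h6 : ((cell l).card : ℝ) ≤
          (((cell l).filter (fun y => ∀ x ∈ cell j, ¬ G.Adj x y)).card : ℝ) +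
          ((cell l ∩ cn P E (hm j)).card : ℝ) := by
        exact_mod_cast h4.trans (Nat.add_le_add_left h3 _)
      unfold wt at h1 ⊢
      linarith
    have h6 : er * wt cell l ≤ 1 / 4 * wt cell l := mul_le_mul_of_nonneg_right her1 (hwt l)
    linarith
  have hS1 : ((univ.filter (adj j)).biUnion (fun l => cell l ∩ cn P E (hm j))).card =
      ∑ l ∈ univ.filter (adj j), (cell l ∩ cn P E (hm j)).card :=
    card_biUnion fun x _ y _ hxy =>
      (h.cdisj x y hxy).mono inter_subset_left inter_subset_left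
  have hS2 : ((univ.filter (fun u : U => hadj u j)).image phi).card =
      (univ.filter (fun u : U => hadj u j)).card := card_image_of_injective _ h.inj
  have hdis : Disjoint ((univ.filter (adj j)).biUnion (fun l => cell l ∩ cn P E (hm j)))
      ((univ.filter (fun u : U => hadj u j)).image phi) := by
    rw [disjoint_left]
    intro y hy hy'
    obtain ⟨l, _, hyl⟩ := mem_biUnion.1 hy
    obtain ⟨u, _, rfl⟩ := mem_image.1 hy'
    exact (h.hub (phi u)).1 ⟨u, rfl⟩ (hm l) (h.sub l (mem_inter.1 hyl).1)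
  have hsub : ((univ.filter (adj j)).biUnion (fun l => cell l ∩ cn P E (hm j))) ∪
      ((univ.filter (fun u : U => hadj u j)).image phi) ⊆ cn P E (hm j) := by
    refine union_subset ?_ ?_
    · rw [biUnion_subset]
      exact fun l _ => inter_subset_right
    · intro y hy
      obtain ⟨u, hu, rfl⟩ := mem_image.1 hy
      exact hnear u j (mem_filter.1 hu).2
  have hcard := card_le_card hsub
  rw [card_union_of_disjoint hdis, hS1, hS2] at hcard
  have hcard' : ∑ l ∈ univ.filter (adj j), ((cell l ∩ cn P E (hm j)).card : ℝ) +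
      ((univ.filter (fun u : U => hadj u j)).card : ℝ) ≤ (C + 1) * k := by
    refine le_trans ?_ (hP.bdhigh (hm j))
    have : ((∑ l ∈ univ.filter (adj j), (cell l ∩ cn P E (hm j)).card +
        (univ.filter (fun u : U => hadj u j)).card : ℕ) : ℝ) ≤ ((cn P E (hm j)).card : ℝ) := by
      exact_mod_cast hcard
    push_cast at this
    exact this
  have hsum : 3 / 4 * ∑ l ∈ univ.filter (adj j), wt cell l ≤
      ∑ l ∈ univ.filter (adj j), ((cell l ∩ cn P E (hm j)).card : ℝ) := by
    rw [mul_sum]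
    exact sum_le_sum fun l hl => hcell l (mem_filter.1 hl).2
  have hu0 : (0 : ℝ) ≤ ((univ.filter (fun u : U => hadj u j)).card : ℝ) := Nat.cast_nonneg _
  unfold sig
  linarith

end sizes

variable {V J U : Type} [Fintype V] [Fintype J] [Fintype U]

/-- the penalty is subadditive -/
private theorem pen_union {J H : Type} [Fintype J] (w : J → ℝ) (hw : ∀ j, 0 ≤ w j) (hm : J → H)
    (rho : ℝ) (hrho : 0 ≤ rho) (A B : Finset J) :
    pen w hm rho (A ∪ B) ≤ pen w hm rho A + pen w hm rho B := by
  unfold pen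
  have h1 : ∑ j ∈ A ∪ B, w j ≤ ∑ j ∈ A, w j + ∑ j ∈ B, w j := by
    rw [← sum_union_inter]
    have : 0 ≤ ∑ j ∈ A ∩ B, w j := sum_nonneg fun j _ => hw j
    linarith
  have h2 : (((A ∪ B).image hm).card : ℝ) ≤ ((A.image hm).card : ℝ) + ((B.image hm).card : ℝ) := by
    rw [image_union]
    exact_mod_cast card_union_le _ _
  have h3 := mul_le_mul_of_nonneg_left h2 hrho
  rw [mul_add] at h3
  linarith

/-- `Qi` minimises `beta + theta pen` among the sets containing the cell `i`. -/
theorem home_ineq {G : SimpleGraph V} {k er s : ℝ} {m : ℕ} {E : Fin m → Finset V}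
    {cell : J → Finset V} {hm : J → Fin m} {phi : U → V} {adj : J → J → Prop}
    {hadj : U → J → Prop} (h : Red G k er s E cell hm phi adj hadj) (hk : 0 ≤ k)
    (hs : 0 < s) (her : 0 ≤ er) (hser : s + er ≤ 1 / 2) {K L T : ℝ} (hT : 0 < T) {x z : V}
    {B : Finset V} (hB : TrimCut G E K L T x z B) (q : ℝ) (hq : 0 ≤ q) (poor : J → Prop)
    (hpoor : ∀ j, ¬ poor j → ((B ∩ cell j).card : ℝ) < s * wt cell j ∨
      ((cell j \ (B ∪ bd G B)).card : ℝ) < s * wt cell j)
    (hz : ∀ l, ((nb G x ∩ cell l).card : ℝ) ≤ ((nb G z ∩ cell l).card : ℝ) + q * wt cell l)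
    (theta rho : ℝ) (hth : 0 ≤ theta) (hrho : 0 ≤ rho) (i : J) (hx : x ∈ cell i)
    (Qi : Finset J) (hi : i ∈ Qi)
    (hmin : ∀ A : Finset J, i ∈ A → beta (wt cell) adj hadj Qi + theta * pen (wt cell) hm rho Qi ≤
      beta (wt cell) adj hadj A + theta * pen (wt cell) hm rho A) :
    ((nb G x).card : ℝ) ≤ K + ∑ l ∈ univ.filter (fun l => poor l ∧ adj i l), rq G cell x B l +
      (theta * (L / s + rho * (L / T + 1)) + (2 * s + q) * metw cell (nb G x) + 1 +
        2 * (s + er) * K + s * beta (wt cell) adj hadj Qi + er * k * (L / T + 1)) := by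
  have hwt : ∀ l, 0 ≤ wt cell l := fun l => Nat.cast_nonneg _
  have htw := twin h hk hs her hser hT hB ∅ (Or.inl rfl) q hq poor hpoor Qi (fun l _ => hz l)
  have hpb := pen_big h hs hT hB rho hrho
  -- `x` lies in a home
  have hxu : ∀ u : U, phi u ≠ x := by
    intro u hu
    exact (h.hub x).1 ⟨u, hu⟩ (hm i) (h.sub i hx)
  -- `bb` is `beta`
  have hbb : bb cell phi adj hadj x ∅ (big s cell B ∪ Qi) =
      beta (wt cell) adj hadj (big s cell B ∪ Qi) := by
    unfold bb beta
    have e1 : ∑ l ∈ univ.filter (fun l => l ∉ big s cell B ∪ Qi ∧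
        l ∉ bdJ adj (big s cell B ∪ Qi)), (((∅ : Finset V) ∩ cell l).card : ℝ) = 0 := by
      refine sum_eq_zero fun l _ => ?_
      rw [empty_inter, card_empty, Nat.cast_zero]
    have e2 : univ.filter (fun u : U => phi u ≠ x ∧
        (u ∈ bdU hadj (big s cell B ∪ Qi) ∨ phi u ∈ (∅ : Finset V))) =
        bdU hadj (big s cell B ∪ Qi) := by
      ext u
      rw [mem_filter]
      constructor
      · rintro ⟨_, _, h1 | h1⟩
        · exact h1
        · exact absurd h1 (notMem_empty _)
      · intro h1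
        exact ⟨mem_univ _, hxu u, Or.inl h1⟩
    rw [e1, e2, add_zero]
  -- minimality
  have hmin1 := hmin (big s cell B ∪ Qi) (mem_union_right _ hi)
  have hpen := pen_union (wt cell) hwt hm rho hrho (big s cell B) Qi
  have hmin2 : beta (wt cell) adj hadj Qi ≤ beta (wt cell) adj hadj (big s cell B ∪ Qi) +
      theta * (L / s + rho * (L / T + 1)) := by
    have h1 : theta * pen (wt cell) hm rho (big s cell B ∪ Qi) ≤
        theta * (L / s + rho * (L / T + 1)) + theta * pen (wt cell) hm rho Qi := by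
      rw [← mul_add]
      exact mul_le_mul_of_nonneg_left (hpen.trans (add_le_add_left hpb _)) hth
    linarith
  -- all the neighbours of `x`
  have hN : nb G x ⊆ (Qi.biUnion (fun j => nb G x ∩ cell j) ∪
      (bdJ adj Qi).biUnion (fun l => nb G x ∩ cell l)) ∪
      ((bdU hadj Qi).filter (fun u => phi u ∈ nb G x)).image phi := by
    intro y hy
    have hxy : G.Adj x y := (mem_filter.1 hy).2
    by_cases hyE : ∀ i, y ∉ E i
    · obtain ⟨u, rfl⟩ := (h.hub y).2 hyE
      refine mem_union_right _ (mem_image.2 ⟨u, mem_filter.2 ⟨?_, hy⟩, rfl⟩)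
      exact mem_filter.2 ⟨mem_univ _, i, hi, h.hex u i x hx hxy.symm⟩
    · push Not at hyE
      obtain ⟨i', hy'⟩ := hyE
      obtain ⟨l, hl⟩ := h.cover y i' hy'
      have hadjl : adj i l := h.ex i l x hx y hl hxy
      refine mem_union_left _ ?_
      by_cases hlQ : l ∈ Qi
      · exact mem_union_left _ (mem_biUnion.2 ⟨l, hlQ, mem_inter.2 ⟨hy, hl⟩⟩)
      · exact mem_union_right _ (mem_biUnion.2 ⟨l, mem_filter.2 ⟨mem_univ _, hlQ, i, hi, hadjl⟩,
          mem_inter.2 ⟨hy, hl⟩⟩)
  have hNc : ((nb G x).card : ℝ) ≤ ∑ j ∈ Qi, ((nb G x ∩ cell j).card : ℝ) +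
      ∑ l ∈ bdJ adj Qi, ((nb G x ∩ cell l).card : ℝ) +
      (((bdU hadj Qi).filter (fun u => phi u ∈ nb G x)).card : ℝ) := by
    have h1 : (nb G x).card ≤ ∑ j ∈ Qi, (nb G x ∩ cell j).card +
        ∑ l ∈ bdJ adj Qi, (nb G x ∩ cell l).card +
        ((bdU hadj Qi).filter (fun u => phi u ∈ nb G x)).card := by
      refine (card_le_card hN).trans ((card_union_le _ _).trans (Nat.add_le_add
        ((card_union_le _ _).trans (Nat.add_le_add card_biUnion_le card_biUnion_le))
        card_image_le))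
    exact_mod_cast h1
  -- the requests
  have hrq0 : ∀ l, 0 ≤ rq G cell x B l := fun l => le_max_left _ _
  have hrq : ∑ l ∈ Qi.filter (fun l => poor l), rq G cell x B l ≤
      ∑ l ∈ univ.filter (fun l => poor l ∧ adj i l), rq G cell x B l := by
    have h1 : ∑ l ∈ Qi.filter (fun l => poor l), rq G cell x B l =
        ∑ l ∈ (Qi.filter (fun l => poor l)).filter (fun l => adj i l), rq G cell x B l := by
      symm
      refine sum_filter_of_ne fun l _ hne => ?_
      by_contra hc
      apply hne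
      have h2 : nb G x ∩ cell l = ∅ := by
        rw [eq_empty_iff_forall_notMem]
        intro y hy
        obtain ⟨hy1, hy2⟩ := mem_inter.1 hy
        exact hc (h.ex i l x hx y hy2 (mem_filter.1 hy1).2)
      unfold rq
      rw [h2, card_empty, Nat.cast_zero, zero_sub]
      exact max_eq_left (neg_nonpos.2 (Nat.cast_nonneg _))
    rw [h1]
    refine sum_le_sum_of_subset_of_nonneg ?_ fun l _ _ => hrq0 l
    intro l hl
    rw [mem_filter, mem_filter] at hl
    exact mem_filter.2 ⟨mem_univ _, hl.1.2, hl.2⟩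
  rw [hbb] at htw
  linarith

end LCX
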