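import Pool.Agent.Lib_MP_0bab5c_x.XMi
import Pool.Agent.Lib_MP_0bab5c_x.XMu
import Pool.Agent.Lib_MP_0bab5c_x.XCoreB

/-! # The constants

`C = 16`, cuts are trimmed with `K = (1 + d0 + 3 tau / e1) k`, `L = 16 k`, `T = tau k`; the penalty
is `theta * pen` with `rho = tau k`. `poor` cells: `sig <= (1 + 2 eta) k`.
-/

namespace LCX

open Finset
open scoped Classical

structure Par (k eta d0 e1 tau s q er theta : ℝ) : Prop where
  hk : 1 ≤ k
  heta : 0 < eta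
  heta1 : eta ≤ 1 / 1000
  hd0 : 0 < d0
  he1 : 0 < e1
  htau : 0 < tau
  htau1 : 2 * tau ≤ e1
  htau2 : tau ≤ 1
  hs : 0 < s
  hq : 0 < q
  her : 0 < er
  hth : 0 < theta
  a1 : d0 + 3 * tau / e1 ≤ eta
  a2 : theta * (16 / s + 17) ≤ eta
  a3 : (2 * s + q) * (272 / e1) ≤ eta
  a4 : 4 * (s + er) ≤ eta
  a5 : er * (16 / tau + 1) ≤ eta
  a6 : 35 * s ≤ eta
  a7 : 1 ≤ eta * k
  a8 : 70 * er ≤ eta
  a9 : q ≤ eta

/-- poor cells -/
def Poor {V J U : Type} [Fintype V] [Fintype J] [Fintype U] (k eta : ℝ) (cell : J → Finset V)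
    (adj : J → J → Prop) (hadj : U → J → Prop) (j : J) : Prop :=
  sig cell adj hadj j ≤ (1 + 2 * eta) * k

/-- the cuts used -/
def Cut {V : Type} [Fintype V] (G : SimpleGraph V) {m : ℕ} (E : Fin m → Finset V)
    (k d0 e1 tau : ℝ) (x z : V) (B : Finset V) : Prop :=
  TrimCut G E ((1 + d0 + 3 * tau / e1) * k) (16 * k) (tau * k) x z B

end LCX
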