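import Pool.Agent.Lib_MP_0bab5c_x.XDef

/-! # Payments

`payers Q hadj u Z`: cells `j` of `Z` whose closure contains a cell of `Z` adjacent to the hub `u`.
Rule: every cell `j` has a budget `b j` per vertex, which it sends equally to the boundary of `Q j`;
a cell which receives forwards once, equally to its own boundary, what it received from the basic
part `kap * k` of the budgets.
-/

namespace LCX

open Finset
open scoped Classical

variable {J U : Type} [Fintype J] [Fintype U]

/-- what a vertex of the cell `j` receives directly (from the basic part of the budgets) -/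
noncomputable def recv (k : ℝ) (w : J → ℝ) (adj : J → J → Prop) (hadj : U → J → Prop)
    (Q : J → Finset J) (j : J) : ℝ :=
  ∑ l ∈ univ.filter (fun l => j ∈ bdJ adj (Q l)), w l * (kap * k) / beta w adj hadj (Q l)

/-- what the cell `j` pays to each hub in the boundary of `Q j` -/
noncomputable def payTo (k : ℝ) (w : J → ℝ) (adj : J → J → Prop) (hadj : U → J → Prop)
    (Q : J → Finset J) (b : J → ℝ) (j : J) : ℝ :=
  w j / beta w adj hadj (Q j) * (b j + recv k w adj hadj Q j)

/-- total income of the hub `u` -/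
noncomputable def income (k : ℝ) (w : J → ℝ) (adj : J → J → Prop) (hadj : U → J → Prop)
    (Q : J → Finset J) (b : J → ℝ) (u : U) : ℝ :=
  ∑ j ∈ univ.filter (fun j => u ∈ bdU hadj (Q j)), payTo k w adj hadj Q b j

/-- the cells of `Z` whose closure contains a cell of `Z` adjacent to `u` -/
noncomputable def payers (hadj : U → J → Prop) (Q : J → Finset J) (u : U) (Z : Finset J) :
    Finset J :=
  Z.filter (fun j => ∃ l ∈ Q j, l ∈ Z ∧ hadj u l)

theorem kap_pos : 0 < kap := by
  unfold kap
  have h : Real.sqrt 3 < 7 / 4 := by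
    rw [Real.sqrt_lt' (by norm_num)]
    norm_num
  linarith

theorem beta_nonneg (w : J → ℝ) (hw : ∀ j, 0 < w j) (adj : J → J → Prop) (hadj : U → J → Prop)
    (A : Finset J) : 0 ≤ beta w adj hadj A :=
  add_nonneg (sum_nonneg (fun j _ => (hw j).le)) (Nat.cast_nonneg _)

theorem recv_nonneg (k : ℝ) (hk : 0 ≤ k) (w : J → ℝ) (hw : ∀ j, 0 < w j) (adj : J → J → Prop)
    (hadj : U → J → Prop) (Q : J → Finset J) (j : J) : 0 ≤ recv k w adj hadj Q j :=
  sum_nonneg (fun l _ => div_nonneg (mul_nonneg (hw l).le (mul_nonneg kap_pos.le hk))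
    (beta_nonneg w hw adj hadj _))

theorem payTo_nonneg (k : ℝ) (hk : 0 ≤ k) (w : J → ℝ) (hw : ∀ j, 0 < w j) (adj : J → J → Prop)
    (hadj : U → J → Prop) (Q : J → Finset J) (b : J → ℝ) (j : J) (hb : 0 ≤ b j) :
    0 ≤ payTo k w adj hadj Q b j :=
  mul_nonneg (div_nonneg (hw j).le (beta_nonneg w hw adj hadj _))
    (add_nonneg hb (recv_nonneg k hk w hw adj hadj Q j))

/-- total income is at most total budget -/
theorem income_total (k : ℝ) (hk : 0 ≤ k) (w : J → ℝ) (hw : ∀ j, 0 < w j) (adj : J → J → Prop)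
    (hadj : U → J → Prop) (Q : J → Finset J) (b : J → ℝ) (hb : ∀ j, kap * k ≤ b j) :
    ∑ u, income k w adj hadj Q b u ≤ ∑ j, w j * b j := by
  have hK : 0 ≤ kap * k := mul_nonneg kap_pos.le hk
  have hb0 : ∀ j, 0 ≤ b j := fun j => hK.trans (hb j)
  set B : J → ℝ := fun j => beta w adj hadj (Q j) with hB
  set Cc : J → ℝ := fun j => ∑ l ∈ bdJ adj (Q j), w l with hCc
  set Uc : J → ℝ := fun j => ((bdU hadj (Q j)).card : ℝ) with hUc
  have hBs : ∀ j, B j = Cc j + Uc j := fun j => rfl
  have hC0 : ∀ j, 0 ≤ Cc j := fun j => sum_nonneg (fun l _ => (hw l).le)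
  have hU0 : ∀ j, 0 ≤ Uc j := fun j => Nat.cast_nonneg _
  have hB0 : ∀ j, 0 ≤ B j := fun j => by rw [hBs]; exact add_nonneg (hC0 j) (hU0 j)
  -- sum over the hubs
  have e1 : ∑ u, income k w adj hadj Q b u
      = ∑ j, Uc j * (w j / B j * (b j + recv k w adj hadj Q j)) := by
    unfold income
    simp only [sum_filter]
    rw [sum_comm]
    refine sum_congr rfl (fun j _ => ?_)
    rw [← sum_filter]
    rw [sum_const, nsmul_eq_mul]
    have : (univ.filter (fun u => u ∈ bdU hadj (Q j))) = bdU hadj (Q j) := by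
      ext u; simp
    rw [this]
    rfl
  have e2 : ∑ j, w j * recv k w adj hadj Q j = ∑ l, w l * (kap * k) / B l * Cc l := by
    unfold recv
    simp only [sum_filter, mul_sum]
    rw [sum_comm]
    refine sum_congr rfl (fun l _ => ?_)
    rw [hCc]
    simp only
    rw [mul_sum]
    have : ∀ j, w j * (if j ∈ bdJ adj (Q l) then w l * (kap * k) / beta w adj hadj (Q l) else 0)
        = if j ∈ bdJ adj (Q l) then w l * (kap * k) / B l * w j else 0 := by
      intro j
      split_ifs with h
      · rw [hB]; ring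
      · ring
    rw [sum_congr rfl (fun j _ => this j), ← sum_filter]
    refine sum_congr ?_ (fun _ _ => rfl)
    ext j; simp
  have e3 : ∀ j, Uc j * (w j / B j * (b j + recv k w adj hadj Q j))
      ≤ Uc j / B j * (w j * b j) + w j * recv k w adj hadj Q j := by
    intro j
    have hr := recv_nonneg k hk w hw adj hadj Q j
    have h1 : Uc j / B j ≤ 1 := by
      rcases (hB0 j).eq_or_lt with h | h
      · rw [← h, div_zero]; norm_num
      · rw [div_le_one h, hBs]; linarith [hC0 j]
    have h2 : Uc j * (w j / B j * (b j + recv k w adj hadj Q j))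
        = Uc j / B j * (w j * b j) + Uc j / B j * (w j * recv k w adj hadj Q j) := by ring
    rw [h2]
    have h3 : 0 ≤ w j * recv k w adj hadj Q j := mul_nonneg (hw j).le hr
    nlinarith
  rw [e1]
  calc ∑ j, Uc j * (w j / B j * (b j + recv k w adj hadj Q j))
      ≤ ∑ j, (Uc j / B j * (w j * b j) + w j * recv k w adj hadj Q j) :=
        sum_le_sum (fun j _ => e3 j)
    _ = ∑ j, (Uc j / B j * (w j * b j) + w j * (kap * k) / B j * Cc j) := by
        rw [sum_add_distrib, e2, ← sum_add_distrib]
    _ ≤ ∑ j, w j * b j := by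
        refine sum_le_sum (fun j _ => ?_)
        have hwb : 0 ≤ w j * b j := mul_nonneg (hw j).le (hb0 j)
        rcases (hB0 j).eq_or_lt with h | h
        · rw [← h, div_zero, div_zero, zero_mul, zero_mul, zero_add]
          exact hwb
        · have h1 : w j * (kap * k) ≤ w j * b j := mul_le_mul_of_nonneg_left (hb j) (hw j).le
          have h2 : w j * (kap * k) / B j * Cc j ≤ w j * b j / B j * Cc j :=
            mul_le_mul_of_nonneg_right (div_le_div_of_nonneg_right h1 h.le) (hC0 j)
          have h3 : Uc j / B j * (w j * b j) + w j * b j / B j * Cc j = w j * b j := by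
            field_simp
            rw [hBs j]; ring
          linarith

/-- the payment lemma: a class pays at least `k * kap * Fpay p T` -/
theorem pay_class (k : ℝ) (hk : 0 < k) (w : J → ℝ) (hw : ∀ j, 0 < w j) (adj : J → J → Prop)
    (hsymm : ∀ i j, adj i j → adj j i) (hadj : U → J → Prop) (Q : J → Finset J)
    (hQ : ∀ j, j ∈ Q j) (hQQ : ∀ j l, l ∈ Q j → Q l ⊆ Q j)
    (u : U) (Z : Finset J) (p : ℝ) (hp : ∀ j ∈ Z, beta w adj hadj (Q j) ≤ p * k)
    (b : J → ℝ)
    (hb : ∀ j ∈ payers hadj Q u Z,
      kap * k + max 0 (k - ∑ l ∈ payers hadj Q u Z, w l - p * k -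
        ∑ l ∈ (Z \ payers hadj Q u Z).filter (fun l => adj l j), w l) ≤ b j) :
    k * (kap * Fpay p ((∑ l ∈ payers hadj Q u Z, w l) / k)) ≤
      ∑ j ∈ payers hadj Q u Z, payTo k w adj hadj Q b j := by
  have hkap := kap_pos
  set P := payers hadj Q u Z with hP
  set t : ℝ := ∑ l ∈ P, w l with ht
  have ht0 : 0 ≤ t := sum_nonneg (fun l _ => (hw l).le)
  -- the trivial case
  rcases P.eq_empty_or_nonempty with hemp | hne
  · have : t = 0 := by rw [ht, hemp, sum_empty]
    rw [this, hemp, sum_empty]
    simp [Fpay]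
  have hPZ : P ⊆ Z := filter_subset _ _
  have hbeta1 : ∀ j ∈ P, 1 ≤ beta w adj hadj (Q j) := by
    intro j hj
    rw [hP, payers, mem_filter] at hj
    obtain ⟨_, l, hl, _, hul⟩ := hj
    have hmem : u ∈ bdU hadj (Q j) := by
      simp only [bdU, mem_filter, mem_univ, true_and]
      exact ⟨l, hl, hul⟩
    have hc : 1 ≤ (bdU hadj (Q j)).card := card_pos.2 ⟨u, hmem⟩
    have hc' : (1 : ℝ) ≤ ((bdU hadj (Q j)).card : ℝ) := by exact_mod_cast hc
    have : 0 ≤ ∑ l ∈ bdJ adj (Q j), w l := sum_nonneg (fun l _ => (hw l).le)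
    unfold beta
    linarith
  have hpk : 0 < p * k := by
    obtain ⟨j, hj⟩ := hne
    have := hbeta1 j hj
    have := hp j (hPZ hj)
    linarith
  have hp0 : 0 < p := by
    by_contra h
    have : p * k ≤ 0 := mul_nonpos_of_nonpos_of_nonneg (not_lt.1 h) hk.le
    linarith
  set y : J → ℝ := fun j => ∑ l ∈ (Z \ P).filter (fun l => adj l j), w l with hy
  have hy0 : ∀ j, 0 ≤ y j := fun j => sum_nonneg (fun l _ => (hw l).le)
  -- what a payer receives
  have hrecv : ∀ j ∈ P, kap * y j / p ≤ recv k w adj hadj Q j := by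
    intro j hj
    have hsub : (Z \ P).filter (fun l => adj l j) ⊆ univ.filter (fun l => j ∈ bdJ adj (Q l)) := by
      intro l hl
      rw [mem_filter, mem_sdiff] at hl
      obtain ⟨⟨hlZ, hlP⟩, hlj⟩ := hl
      simp only [bdJ, mem_filter, mem_univ, true_and]
      refine ⟨fun hjl => hlP ?_, l, hQ l, hlj⟩
      rw [hP, payers, mem_filter] at hj ⊢
      obtain ⟨_, l', hl', hl'Z, hul'⟩ := hj
      exact ⟨hlZ, l', hQQ l j hjl hl', hl'Z, hul'⟩
    have h1 : ∑ l ∈ (Z \ P).filter (fun l => adj l j), w l * (kap * k) / beta w adj hadj (Q l)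
        ≤ recv k w adj hadj Q j := by
      unfold recv
      exact sum_le_sum_of_subset_of_nonneg hsub (fun l _ _ =>
        div_nonneg (mul_nonneg (hw l).le (mul_nonneg hkap.le hk.le)) (beta_nonneg w hw adj hadj _))
    refine le_trans ?_ h1
    have h2 : kap * y j / p = ∑ l ∈ (Z \ P).filter (fun l => adj l j), w l * (kap * k) / (p * k) := by
      rw [hy]
      simp only
      rw [mul_sum, sum_div]
      refine sum_congr rfl (fun l _ => ?_)
      field_simp
    rw [h2]
    refine sum_le_sum (fun l hl => ?_)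
    have hl' := hsub hl
    rw [mem_filter, mem_sdiff] at hl
    have hpos : 0 < beta w adj hadj (Q l) := by
      have hj' : j ∈ bdJ adj (Q l) := (mem_filter.1 hl').2
      have h3 : w j ≤ ∑ l ∈ bdJ adj (Q l), w l :=
        single_le_sum (f := w) (fun l _ => (hw l).le) hj'
      have h4 : (0 : ℝ) ≤ ((bdU hadj (Q l)).card : ℝ) := Nat.cast_nonneg _
      unfold beta
      linarith [hw j]
    exact div_le_div_of_nonneg_left (mul_nonneg (hw l).le (mul_nonneg hkap.le hk.le)) hpos
      (hp l hl.1.1)
  set r : ℝ := max 0 (k - t - p * k) with hr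
  have hr0 : 0 ≤ r := le_max_left _ _
  -- lower bound for one payer
  have hone : ∀ j ∈ P, w j / (p * k) * (kap * k + min 1 (kap / p) * r) ≤
      payTo k w adj hadj Q b j := by
    intro j hj
    have hbj := hb j hj
    have hrj := hrecv j hj
    have hβ := hbeta1 j hj
    have hβ' := hp j (hPZ hj)
    have h1 : w j / (p * k) ≤ w j / beta w adj hadj (Q j) :=
      div_le_div_of_nonneg_left (hw j).le (by linarith) hβ'
    have hm0 : 0 ≤ min 1 (kap / p) := le_min zero_le_one (div_nonneg hkap.le hp0.le)
    have h2 : min 1 (kap / p) * r ≤ max 0 (k - t - p * k - y j) + kap * y j / p := by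
      have hyj := hy0 j
      have h3 : r ≤ max 0 (k - t - p * k - y j) + y j := by
        rw [hr]
        refine max_le (add_nonneg (le_max_left _ _) hyj) ?_
        have := le_max_right 0 (k - t - p * k - y j)
        linarith
      have h4 : min 1 (kap / p) * r ≤ min 1 (kap / p) * max 0 (k - t - p * k - y j)
          + min 1 (kap / p) * y j := by
        rw [← mul_add]; exact mul_le_mul_of_nonneg_left h3 hm0
      have h5 : min 1 (kap / p) * max 0 (k - t - p * k - y j) ≤ max 0 (k - t - p * k - y j) :=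
        mul_le_of_le_one_left (le_max_left _ _) (min_le_left _ _)
      have h6 : min 1 (kap / p) * y j ≤ kap / p * y j :=
        mul_le_mul_of_nonneg_right (min_le_right _ _) hyj
      have h7 : kap / p * y j = kap * y j / p := by ring
      linarith
    have h8 : kap * k + min 1 (kap / p) * r ≤ b j + recv k w adj hadj Q j := by linarith
    have h9 : 0 ≤ kap * k + min 1 (kap / p) * r :=
      add_nonneg (mul_nonneg hkap.le hk.le) (mul_nonneg hm0 hr0)
    unfold payTo
    exact mul_le_mul h1 h8 h9 (div_nonneg (hw j).le (by linarith))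
  have hsum : t / (p * k) * (kap * k + min 1 (kap / p) * r) ≤
      ∑ j ∈ P, payTo k w adj hadj Q b j := by
    refine le_trans (le_of_eq ?_) (sum_le_sum hone)
    rw [ht, sum_div, sum_mul]
  refine le_trans ?_ hsum
  have hrk : max 0 (1 - p - t / k) = r / k := by
    rw [hr, ← max_div_div_right hk.le, zero_div]
    congr 1
    field_simp
    ring
  unfold Fpay
  rw [hrk]
  rcases le_total kap p with hc | hc
  · rw [max_eq_left hc]
    have hm : min 1 (kap / p) = kap / p := min_eq_right (by rw [div_le_one hp0]; exact hc)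
    rw [hm]
    apply le_of_eq
    field_simp
  · rw [max_eq_right hc]
    have hm : min 1 (kap / p) = 1 := min_eq_left (by rw [one_le_div hp0]; exact hc)
    rw [hm, one_mul]
    have h1 : k * (kap * (t / k / kap * (1 + r / k / kap))) = t * (1 + r / (k * kap)) := by
      field_simp
    have h2 : t / (p * k) * (kap * k + r) = t * (kap / p * (1 + r / (k * kap))) := by
      field_simp
    rw [h1, h2]
    refine mul_le_mul_of_nonneg_left ?_ ht0
    have h3 : 0 ≤ 1 + r / (k * kap) := by positivity
    have h4 : 1 ≤ kap / p := by rw [one_le_div hp0]; exact hc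
    nlinarith

end LCX
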