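import Pool.Agent.Lib_MP_0bab5c_x.XMaster

/-! # The twin inequality

`B` separates `x` from its twin `z`; `N = nb G x ⊆ B ∪ S`, `S = bd G B`, `a_l = |N ∩ cell l|`.
`nb G z ∩ B ⊆ {x}`, so `nb G x ∩ nb G z ⊆ S`. The request `rq l = max 0 (a_l - |S ∩ l|)` is at most
`|B ∩ l|`, `|N ∩ l minus nb G z|`, and `|l minus (B ∪ S)| + (a_l - |nb G z ∩ l|) + [x ∈ l]`.
If `l` in `Z` is not poor, it is not split, so this is at most `(s + q) w_l + [x ∈ l]`;
always `a_l + rq l <= |(N ∪ nb G z) ∩ l| + a_l - |nb G z ∩ l| <= (1 + q) w_l`.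
Together with `master`.
-/

namespace LCX

open Finset
open scoped Classical

variable {V J U : Type} [Fintype V] [Fintype J] [Fintype U]

/-- what `x` requests from the cell `l`, given the cut `B` -/
noncomputable def rq (G : SimpleGraph V) (cell : J → Finset V) (x : V) (B : Finset V) (l : J) :
    ℝ :=
  max 0 (((nb G x ∩ cell l).card : ℝ) - ((bd G B ∩ cell l).card : ℝ))

private theorem xt_mem_nb {G : SimpleGraph V} {v a : V} : a ∈ nb G v ↔ G.Adj v a := by
  unfold nb
  rw [mem_filter]
  exact ⟨fun h => h.2, fun h => ⟨mem_univ _, h⟩⟩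

private theorem xt_mem_bd {G : SimpleGraph V} {A : Finset V} {v : V} :
    v ∈ bd G A ↔ v ∉ A ∧ ∃ a ∈ A, G.Adj a v := by
  unfold bd
  rw [mem_filter]
  exact ⟨fun h => h.2, fun h => ⟨mem_univ _, h⟩⟩

private theorem xt_nb_sub {G : SimpleGraph V} {B : Finset V} {x : V} (hx : x ∈ B) :
    nb G x ⊆ B ∪ bd G B := by
  intro v hv
  rw [mem_union]
  by_cases hvB : v ∈ B
  · exact Or.inl hvB
  · exact Or.inr (xt_mem_bd.2 ⟨hvB, x, hx, xt_mem_nb.1 hv⟩)

/-- common neighbours are in the boundary -/
private theorem xt_common {G : SimpleGraph V} {m : ℕ} {E : Fin m → Finset V}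
    {K L T : ℝ} {x z : V} {B : Finset V} (hB : TrimCut G E K L T x z B) :
    nb G x ∩ nb G z ⊆ bd G B := by
  intro v hv
  rw [mem_inter, xt_mem_nb, xt_mem_nb] at hv
  rw [xt_mem_bd]
  refine ⟨fun hvB => ?_, x, hB.1.1, hv.1⟩
  have h1 := hB.1.2.2.1 v hvB hv.2.symm
  rw [h1] at hv
  exact G.loopless.irrefl x hv.1

/-- neighbours of `z` in `B` -/
private theorem xt_nbz {G : SimpleGraph V} {m : ℕ} {E : Fin m → Finset V}
    {K L T : ℝ} {x z : V} {B : Finset V} (hB : TrimCut G E K L T x z B) {v : V}
    (hv : v ∈ nb G z) (hvB : v ∈ B) : v = x :=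
  hB.1.2.2.1 v hvB (xt_mem_nb.1 hv).symm

theorem rq_le {G : SimpleGraph V} {cell : J → Finset V} {m : ℕ} {E : Fin m → Finset V}
    {K L T : ℝ} {x z : V} {B : Finset V} (hB : TrimCut G E K L T x z B) {q : ℝ} (hq : 0 ≤ q)
    (l : J) (hz : ((nb G x ∩ cell l).card : ℝ) ≤ ((nb G z ∩ cell l).card : ℝ) + q * wt cell l) :
    ((nb G x ∩ cell l).card : ℝ) + rq G cell x B l ≤ (1 + q) * wt cell l := by
  have hw0 : 0 ≤ wt cell l := Nat.cast_nonneg _
  have hNl : ((nb G x ∩ cell l).card : ℝ) ≤ wt cell l := by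
    unfold wt
    exact_mod_cast card_le_card inter_subset_right
  have hqw : 0 ≤ q * wt cell l := mul_nonneg hq hw0
  unfold rq
  rcases le_total (((nb G x ∩ cell l).card : ℝ) - ((bd G B ∩ cell l).card : ℝ)) 0 with h1 | h1
  · rw [max_eq_left h1]
    linarith
  · rw [max_eq_right h1]
    have h2 : ((nb G x ∩ nb G z ∩ cell l).card : ℝ) ≤ ((bd G B ∩ cell l).card : ℝ) := by
      exact_mod_cast card_le_card (inter_subset_inter_right (xt_common hB))
    have h3 : ((nb G x ∩ cell l).card : ℝ) + ((nb G z ∩ cell l).card : ℝ) =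
        (((nb G x ∪ nb G z) ∩ cell l).card : ℝ) + ((nb G x ∩ nb G z ∩ cell l).card : ℝ) := by
      have e1 := card_union_add_card_inter (nb G x ∩ cell l) (nb G z ∩ cell l)
      have e2 : (nb G x ∩ cell l) ∪ (nb G z ∩ cell l) = (nb G x ∪ nb G z) ∩ cell l :=
        (union_inter_distrib_right _ _ _).symm
      have e3 : (nb G x ∩ cell l) ∩ (nb G z ∩ cell l) = nb G x ∩ nb G z ∩ cell l := by
        ext v
        simp only [mem_inter]
        tauto
      rw [e2, e3] at e1
      exact_mod_cast e1.symm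
    have h4 : (((nb G x ∪ nb G z) ∩ cell l).card : ℝ) ≤ wt cell l := by
      unfold wt
      exact_mod_cast card_le_card inter_subset_right
    linarith

theorem twin {G : SimpleGraph V} {k er s : ℝ} {m : ℕ} {E : Fin m → Finset V}
    {cell : J → Finset V} {hm : J → Fin m} {phi : U → V} {adj : J → J → Prop}
    {hadj : U → J → Prop} (h : Red G k er s E cell hm phi adj hadj) (hk : 0 ≤ k)
    (hs : 0 < s) (her : 0 ≤ er) (hser : s + er ≤ 1 / 2) {K L T : ℝ} (hT : 0 < T) {x z : V}
    {B : Finset V} (hB : TrimCut G E K L T x z B)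
    (N0 : Finset V) (hN0 : N0 = ∅ ∨ N0 = nb G x)
    (q : ℝ) (hq : 0 ≤ q) (poor : J → Prop)
    (hpoor : ∀ j, ¬ poor j → ((B ∩ cell j).card : ℝ) < s * wt cell j ∨
      ((cell j \ (B ∪ bd G B)).card : ℝ) < s * wt cell j)
    (Z : Finset J) (hz : ∀ l ∈ Z,
      ((nb G x ∩ cell l).card : ℝ) ≤ ((nb G z ∩ cell l).card : ℝ) + q * wt cell l) :
    bb cell phi adj hadj x N0 (big s cell B ∪ Z) + ∑ j ∈ Z, ((nb G x ∩ cell j).card : ℝ) +
      ∑ l ∈ bdJ adj Z, ((nb G x ∩ cell l).card : ℝ) +
      (((bdU hadj Z).filter (fun u => phi u ∈ nb G x)).card : ℝ) ≤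
    K + beta (wt cell) adj hadj Z + ∑ l ∈ Z.filter (fun l => poor l), rq G cell x B l +
      ((2 * s + q) * metw cell (nb G x) + 1 +
        2 * (s + er) * K + s * beta (wt cell) adj hadj Z + er * k * (L / T + 1)) := by
  have hxB := hB.1.1
  have hN : nb G x ⊆ B ∪ bd G B := xt_nb_sub hxB
  have hN0' : N0 ⊆ B ∪ bd G B := by
    rcases hN0 with rfl | rfl
    · exact empty_subset _
    · exact hN
  have hm := master h hk hs her hser hT hB N0 hN0' Z
  have hw0 : ∀ l, 0 ≤ wt cell l := fun l => Nat.cast_nonneg _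
  have hSK : ((bd G B).card : ℝ) ≤ K := hB.1.2.2.2.1
  have hmet : metw cell N0 ≤ metw cell (nb G x) := by
    rcases hN0 with rfl | rfl
    · unfold metw
      rw [filter_false_of_mem]
      · rw [sum_empty]
        exact sum_nonneg fun l _ => hw0 l
      · intro l _
        simp
    · exact le_rfl
  -- the boundary terms
  have hb1 : ∑ l ∈ bdJ adj Z, ((nb G x ∩ cell l).card : ℝ) ≤
      ∑ l ∈ bdJ adj Z, (((B ∪ bd G B) ∩ cell l).card : ℝ) :=
    sum_le_sum fun l _ => by exact_mod_cast card_le_card (inter_subset_inter_right hN)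
  have hb2 : (((bdU hadj Z).filter (fun u => phi u ∈ nb G x)).card : ℝ) ≤
      (((bdU hadj Z).filter (fun u => phi u ∈ B ∪ bd G B)).card : ℝ) := by
    have : (bdU hadj Z).filter (fun u => phi u ∈ nb G x) ⊆
        (bdU hadj Z).filter (fun u => phi u ∈ B ∪ bd G B) := by
      intro u hu
      rw [mem_filter] at hu ⊢
      exact ⟨hu.1, hN hu.2⟩
    exact_mod_cast card_le_card this
  -- the cells of `Z`
  have hrq0 : ∀ l, 0 ≤ rq G cell x B l := fun l => le_max_left _ _
  have hcell : ∀ l ∈ Z, ((nb G x ∩ cell l).card : ℝ) ≤ ((bd G B ∩ cell l).card : ℝ) +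
      (if poor l then rq G cell x B l else 0) +
      ((s + q) * (if (nb G x ∩ cell l).Nonempty then wt cell l else 0) +
        (if x ∈ cell l then 1 else 0)) := by
    intro l hl
    have hS0 : (0 : ℝ) ≤ ((bd G B ∩ cell l).card : ℝ) := Nat.cast_nonneg _
    have hx0 : (0 : ℝ) ≤ if x ∈ cell l then 1 else 0 := by split_ifs <;> norm_num
    have hwl := hw0 l
    by_cases hne : (nb G x ∩ cell l).Nonempty
    · rw [if_pos hne]
      have hsq : 0 ≤ (s + q) * wt cell l := mul_nonneg (by linarith) hwl
      have hqw : 0 ≤ q * wt cell l := mul_nonneg hq hwl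
      have hsw : 0 ≤ s * wt cell l := mul_nonneg hs.le hwl
      by_cases hp : poor l
      · rw [if_pos hp]
        have : ((nb G x ∩ cell l).card : ℝ) - ((bd G B ∩ cell l).card : ℝ) ≤
            rq G cell x B l := le_max_right _ _
        linarith
      · rw [if_neg hp]
        rcases hpoor l hp with h1 | h1
        · have h2 : ((nb G x ∩ cell l).card : ℝ) ≤ ((B ∩ cell l).card : ℝ) +
              ((bd G B ∩ cell l).card : ℝ) := by
            have e1 : nb G x ∩ cell l ⊆ (B ∩ cell l) ∪ (bd G B ∩ cell l) := by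
              rw [← union_inter_distrib_right]
              exact inter_subset_inter_right hN
            exact_mod_cast (card_le_card e1).trans (card_union_le _ _)
          linarith
        · have h2 : nb G z ∩ cell l ⊆ (bd G B ∩ cell l) ∪ (cell l \ (B ∪ bd G B)) ∪
              (({x} : Finset V).filter fun v => v ∈ cell l) := by
            intro v hv
            rw [mem_inter] at hv
            rw [mem_union, mem_union, mem_inter, mem_sdiff, mem_union, mem_filter, mem_singleton]
            by_cases hvB : v ∈ B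
            · exact Or.inr ⟨xt_nbz hB hv.1 hvB, hv.2⟩
            · by_cases hvS : v ∈ bd G B
              · exact Or.inl (Or.inl ⟨hvS, hv.2⟩)
              · exact Or.inl (Or.inr ⟨hv.2, fun h' => h'.elim hvB hvS⟩)
          have h3 : ((nb G z ∩ cell l).card : ℝ) ≤ ((bd G B ∩ cell l).card : ℝ) +
              ((cell l \ (B ∪ bd G B)).card : ℝ) +
              ((({x} : Finset V).filter fun v => v ∈ cell l).card : ℝ) := by
            exact_mod_cast (card_le_card h2).trans ((card_union_le _ _).trans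
              (Nat.add_le_add_right (card_union_le _ _) _))
          have h4 : ((({x} : Finset V).filter fun v => v ∈ cell l).card : ℝ) =
              if x ∈ cell l then 1 else 0 := by
            rw [filter_singleton]
            split_ifs
            · rw [card_singleton]
              norm_num
            · rw [card_empty]
              norm_num
          have h5 := hz l hl
          rw [h4] at h3
          linarith
    · rw [if_neg hne]
      have h0 : ((nb G x ∩ cell l).card : ℝ) = 0 := by
        rw [not_nonempty_iff_eq_empty] at hne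
        rw [hne, card_empty]
        norm_num
      have hrl := hrq0 l
      rw [h0]
      split_ifs <;> linarith
  have hsum := sum_le_sum hcell
  simp only [sum_add_distrib, ← mul_sum] at hsum
  have e1 : ∑ l ∈ Z, (if poor l then rq G cell x B l else 0) =
      ∑ l ∈ Z.filter (fun l => poor l), rq G cell x B l := (sum_filter _ _).symm
  have e2 : ∑ l ∈ Z, (if (nb G x ∩ cell l).Nonempty then wt cell l else 0) ≤
      metw cell (nb G x) := by
    unfold metw
    rw [sum_filter]
    refine sum_le_sum_of_subset_of_nonneg (subset_univ _) fun l _ _ => ?_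
    split_ifs
    · exact hw0 l
    · exact le_rfl
  have e3 : ∑ l ∈ Z, (if x ∈ cell l then (1 : ℝ) else 0) ≤ 1 := by
    rw [sum_boole]
    have : (Z.filter fun l => x ∈ cell l).card ≤ 1 := by
      rw [card_le_one]
      intro a ha b hb
      rw [mem_filter] at ha hb
      by_contra hab
      exact disjoint_left.1 (h.cdisj a b hab) ha.2 hb.2
    exact_mod_cast this
  have e4 : (s + q) * ∑ l ∈ Z, (if (nb G x ∩ cell l).Nonempty then wt cell l else 0) ≤
      (s + q) * metw cell (nb G x) := mul_le_mul_of_nonneg_left e2 (by linarith)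
  have e5 : s * metw cell N0 ≤ s * metw cell (nb G x) := mul_le_mul_of_nonneg_left hmet hs.le
  have e6 : 2 * (s + er) * ((bd G B).card : ℝ) ≤ 2 * (s + er) * K :=
    mul_le_mul_of_nonneg_left hSK (by linarith)
  rw [e1] at hsum
  linarith

end LCX
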